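import Pool.Agent.Lib.MP_688fd0_co.SQ4.H98.FamK
import Pool.Agent.Lib.MP_688fd0_co.SQ4.H31.HeartC

/-!
Type C1: the vertical words. `mZ` is the group of the shifts by words whose length is a multiple of `2 k`.
-/

set_option autoImplicit false

namespace Pool.Agent.Lib.MP_688fd0_co.SQ4

open Pool.Agent.Lib.MP_688fd0_co.OSF Pool.Agent.Lib.MP_688fd0_co.SQ2 Pool.Agent.Lib.MP_688fd0_co.SQ3
open SQ2.V (Puz Sub)

/-- In a finite group every element of a closure is a short product. -/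
theorem exists_short_list {G : Type*} [Group G] [Finite G] (X : Set G) {x : G} (hx : x ∈ Subgroup.closure X) :
    ∃ l : List G, (∀ y ∈ l, y ∈ X) ∧ l.prod = x ∧ l.length < Nat.card (Subgroup.closure X) := by
  classical
  have h0 : ∃ n : ℕ, ∃ l : List G, (∀ y ∈ l, y ∈ X) ∧ l.prod = x ∧ l.length = n := by
    have h1 : x ∈ Submonoid.closure X := by
      rw [← Subgroup.closure_toSubmonoid_of_finite]
      exact hx
    obtain ⟨l, h2, h3⟩ := Submonoid.exists_list_of_mem_closure h1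
    exact ⟨_, l, h2, h3, rfl⟩
  obtain ⟨l, h1, h2, h3⟩ := Nat.find_spec h0
  refine ⟨l, h1, h2, ?_⟩
  by_contra hcon
  rw [not_lt] at hcon
  have hpre : ∀ i, (l.take i).prod ∈ Subgroup.closure X := fun i =>
    Subgroup.list_prod_mem _ fun y hy => Subgroup.subset_closure (h1 y (List.mem_of_mem_take hy))
  let f : Fin (l.length + 1) → Subgroup.closure X := fun i => ⟨(l.take i).prod, hpre i⟩
  have hf : ¬ Function.Injective f := by
    intro hf
    have := Nat.card_le_card_of_injective f hf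
    rw [Nat.card_eq_fintype_card, Fintype.card_fin] at this
    omega
  unfold Function.Injective at hf
  push Not at hf
  obtain ⟨i, j, hij, hne⟩ := hf
  have key : ∀ i j : Fin (l.length + 1), f i = f j → i < j → False := by
    intro i j hij hlt
    have h4 : (l.take i).prod = (l.take j).prod := congrArg Subtype.val hij
    have h5 : (l.take i ++ l.drop j).prod = x := by
      rw [List.prod_append, h4, ← List.prod_append, List.take_append_drop, h2]
    have h6 : (l.take i ++ l.drop j).length < l.length := by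
      have hi := i.2
      have hj := j.2
      have hl : (i : ℕ) < j := hlt
      rw [List.length_append, List.length_take, List.length_drop]
      omega
    exact Nat.find_min h0 (lt_of_lt_of_eq h6 h3) ⟨_, fun y hy => by
      rcases List.mem_append.1 hy with h | h
      · exact h1 y (List.mem_of_mem_take h)
      · exact h1 y (List.mem_of_mem_drop h), h5, rfl⟩
  rcases lt_trichotomy i j with h | h | h
  · exact key i j hij h
  · exact hne h
  · exact key j i hij.symm h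

section

variable {Q : Type} [Group Q]

/-- The alternating product `α β⁻¹ α ⋯` with `n` factors. -/
def uC (α β : Q) : ℕ → Q
  | 0 => 1
  | n + 1 => uC α β n * (if n % 2 = 0 then α else β⁻¹)

theorem uC_even (α β : Q) (j : ℕ) : uC α β (2 * j) = (α * β⁻¹) ^ j := by
  induction j with
  | zero => rw [pow_zero]; rfl
  | succ j ih =>
    show uC α β (2 * j + 1 + 1) = _
    show uC α β (2 * j) * _ * _ = _
    rw [ih, if_pos (by omega), if_neg (by omega), pow_succ, mul_assoc]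

theorem uC_odd (α β : Q) (j : ℕ) : uC α β (2 * j + 1) = (α * β⁻¹) ^ j * α := by
  show uC α β (2 * j) * _ = _
  rw [uC_even, if_pos (by omega)]

/-- The reference vertex of `x`. -/
def rfC (eps : Q →* ℤˣ) (α x : Q) : Q := if eps x = 1 then x else x * α⁻¹

/-- Its level. -/
def eeC (eps : Q →* ℤˣ) (x : Q) : ℕ := if eps x = 1 then 0 else 1

/-- The shift of `x` by `m`. -/
def shf (eps : Q →* ℤˣ) (α m x : Q) : Q := if eps x = 1 then x * m else x * (α⁻¹ * m * α)

end

section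

variable {Q : Type} [Group Q] {B : Lb.{0, 0} Q}

/-- The generators of `tC`. -/
def gT (B : Lb.{0, 0} Q) (a b : B.L) (D : Subgroup Q) (z : Q) (k : ℕ) : Set (Q × Multiplicative (ZMod k)) :=
  {p | ∃ c d : B.L, (B.q a)⁻¹ * B.q c ∈ D ∧ (B.q b)⁻¹ * B.q d ∈ D ∧
    p = (z⁻¹ * (B.q c * (B.q d)⁻¹), Multiplicative.ofAdd 1)}

/-- The pairs (shift, length mod `k`). -/
def tC (B : Lb.{0, 0} Q) (a b : B.L) (D : Subgroup Q) (z : Q) (k : ℕ) : Subgroup (Q × Multiplicative (ZMod k)) :=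
  Subgroup.closure (gT B a b D z k)

/-- The shifts by words of length zero mod `2 k`. -/
def mZ (B : Lb.{0, 0} Q) (a b : B.L) (D : Subgroup Q) (z : Q) (k : ℕ) : Subgroup Q :=
  (tC B a b D z k).comap (MonoidHom.inl Q _)

/-- All shifts. -/
def mW (B : Lb.{0, 0} Q) (a b : B.L) (D : Subgroup Q) (z : Q) (k : ℕ) : Subgroup Q :=
  (tC B a b D z k).map (MonoidHom.fst Q _)

theorem mem_mZ {a b : B.L} {D : Subgroup Q} {z : Q} {k : ℕ} {m : Q} :
    m ∈ mZ B a b D z k ↔ (m, (1 : Multiplicative (ZMod k))) ∈ tC B a b D z k := Iff.rfl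

theorem mem_mW {a b : B.L} {D : Subgroup Q} {z : Q} {k : ℕ} {m : Q} :
    m ∈ mW B a b D z k ↔ ∃ i, (m, i) ∈ tC B a b D z k := by
  constructor
  · rintro ⟨⟨x, i⟩, h1, rfl⟩
    exact ⟨i, h1⟩
  · rintro ⟨i, h⟩
    exact ⟨_, h, rfl⟩

theorem mW_eq {a b : B.L} {D : Subgroup Q} {z : Q} {k : ℕ} : mW B a b D z k =
    Subgroup.closure {x | ∃ c d : B.L, (B.q a)⁻¹ * B.q c ∈ D ∧ (B.q b)⁻¹ * B.q d ∈ D ∧
      x = z⁻¹ * (B.q c * (B.q d)⁻¹)} := by
  unfold mW tC
  rw [MonoidHom.map_closure]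
  congr 1
  ext x
  constructor
  · rintro ⟨p, ⟨c, d, h1, h2, rfl⟩, rfl⟩
    exact ⟨c, d, h1, h2, rfl⟩
  · rintro ⟨c, d, h1, h2, rfl⟩
    exact ⟨_, ⟨c, d, h1, h2, rfl⟩, rfl⟩

/-- The word of a list of pairs. -/
def flat {B : Lb.{0, 0} Q} : List (B.L × B.L) → List B.L
  | [] => []
  | p :: L => p.1 :: B.inv p.2 :: flat L

/-- The product of a list of pairs. -/
def prd {B : Lb.{0, 0} Q} (L : List (B.L × B.L)) : Q := (L.map fun p => B.q p.1 * (B.q p.2)⁻¹).prod

/-- The pairs of vertical letters. -/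
def NrP {B : Lb.{0, 0} Q} (a b : B.L) (D : Subgroup Q) (p : B.L × B.L) : Prop :=
  (B.q a)⁻¹ * B.q p.1 ∈ D ∧ (B.q b)⁻¹ * B.q p.2 ∈ D

theorem flat_length (L : List (B.L × B.L)) : (flat L).length = 2 * L.length := by
  induction L with
  | nil => rfl
  | cons p L ih =>
    show (flat L).length + 1 + 1 = 2 * (L.length + 1)
    rw [ih]
    ring

variable {a b : B.L} {eps : Q →* ℤˣ} {D : Subgroup Q} {z : Q} {k : ℕ} (H : HypC B a b eps D z k)

include H

theorem shuC : ShU H.up D where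
  nrm := H.nD
  up x δ hδ := by
    rw [H31.C_up H, H31.C_up H, map_mul, (show eps δ = 1 from H.leD hδ), mul_one]

theorem perC : Per H.up (2 * k) (z ^ k) := ⟨H31.C_U_2k H, H31.C_up_z H⟩

theorem C_pow_mul (j : ℕ) (x : Q) : (H.up.U ^ (2 * k * j)) x = z ^ (k * j) * x := by
  rw [per_mul (perC H), ← pow_mul]

theorem eps_nearA {c : B.L} (h : (B.q a)⁻¹ * B.q c ∈ D) : eps (B.q c) = -1 := by
  have h1 : eps ((B.q a)⁻¹ * B.q c) = 1 := H.leD h
  rw [map_mul, map_inv, H.ea] at h1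
  rcases Int.units_eq_one_or (eps (B.q c)) with h2 | h2
  · rw [h2] at h1
    exact absurd h1 (by decide)
  · exact h2

theorem eps_nearB {d : B.L} (h : (B.q b)⁻¹ * B.q d ∈ D) : eps (B.q d) = -1 := by
  have h1 : eps ((B.q b)⁻¹ * B.q d) = 1 := H.leD h
  rw [map_mul, map_inv, H.eb] at h1
  rcases Int.units_eq_one_or (eps (B.q d)) with h2 | h2
  · rw [h2] at h1
    exact absurd h1 (by decide)
  · exact h2

theorem mem_conj {δ : Q} (h : δ ∈ D) (x : Q) : x * δ * x⁻¹ ∈ D := H.nD.conj_mem _ h x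

/-- The words of pairs are vertical. -/
theorem flat_vwd {L : List (B.L × B.L)} (hL : ∀ p ∈ L, NrP a b D p) {x : Q} (hx : eps x = 1) :
    VWd H.up D x (flat L) := by
  induction L generalizing x with
  | nil => trivial
  | cons p L ih =>
    obtain ⟨h1, h2⟩ := hL p (List.mem_cons_self ..)
    have e1 := eps_nearA H h1
    have e2 := eps_nearB H h2
    have hx1 : eps (x * B.q p.1) ≠ 1 := by rw [map_mul, hx, e1]; decide
    refine ⟨?_, ?_, ih (fun q hq => hL q (List.mem_cons_of_mem _ hq)) ?_⟩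
    · unfold Sh
      rw [H31.C_U_one H hx]
      have : (x * B.q a)⁻¹ * (x * B.q p.1) = (B.q a)⁻¹ * B.q p.1 := by group
      rw [this]
      exact h1
    · unfold Sh
      rw [H31.C_U_neg H hx1, B.q_inv]
      have : (x * B.q p.1 * (B.q b)⁻¹)⁻¹ * (x * B.q p.1 * (B.q p.2)⁻¹) =
          (B.q b * ((B.q b)⁻¹ * B.q p.2) * (B.q b)⁻¹)⁻¹ := by group
      rw [this]
      exact D.inv_mem (mem_conj H h2 _)
    · rw [B.q_inv, map_mul, map_mul, map_inv, hx, e1, e2]
      decide

omit H in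
theorem flat_fin {L : List (B.L × B.L)} (x : Q) : B.fin x (flat L) = x * prd L := by
  induction L generalizing x with
  | nil => show x = x * 1; rw [mul_one]
  | cons p L ih =>
    show B.fin (x * B.q p.1 * B.q (B.inv p.2)) (flat L) = _
    rw [ih, B.q_inv]
    show _ = x * (B.q p.1 * (B.q p.2)⁻¹ * prd L)
    simp only [mul_assoc]

omit H in
theorem prd_append (L L' : List (B.L × B.L)) : prd (L ++ L') = prd L * prd L' := by
  unfold prd
  rw [List.map_append, List.prod_append]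

omit H in
theorem prd_replicate (i : ℕ) (c d : B.L) : prd (List.replicate i (c, d)) = (B.q c * (B.q d)⁻¹) ^ i := by
  unfold prd
  rw [List.map_replicate, List.prod_replicate]

theorem tC_mem {p : Q × Multiplicative (ZMod k)} (hp : p ∈ tC B a b D z k) : p.1 ∈ D := by
  have h : tC B a b D z k ≤ D.prod ⊤ := by
    unfold tC
    rw [Subgroup.closure_le]
    rintro p ⟨c, d, h1, h2, rfl⟩
    refine ⟨?_, Subgroup.mem_top _⟩
    show z⁻¹ * (B.q c * (B.q d)⁻¹) ∈ D
    have e1 : z⁻¹ * (B.q c * (B.q d)⁻¹) = z⁻¹ * (B.q a * (B.q b)⁻¹) *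
        (B.q b * (((B.q a)⁻¹ * B.q c) * ((B.q b)⁻¹ * B.q d)⁻¹) * (B.q b)⁻¹) := by group
    rw [e1]
    exact D.mul_mem H.mem (mem_conj H (D.mul_mem h1 (D.inv_mem h2)) _)
  exact (h hp).1

theorem mZ_le : mZ B a b D z k ≤ D := fun _ hm => tC_mem H (mem_mZ.1 hm)

theorem mW_le : mW B a b D z k ≤ D := fun _ hm => by
  obtain ⟨i, hi⟩ := mem_mW.1 hm
  exact tC_mem H hi

omit H in
theorem mZ_le_mW : mZ B a b D z k ≤ mW B a b D z k := fun _ hm => mem_mW.2 ⟨_, mem_mZ.1 hm⟩

omit H in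
theorem gen_mem : (z⁻¹ * (B.q a * (B.q b)⁻¹), Multiplicative.ofAdd (1 : ZMod k)) ∈ tC B a b D z k :=
  Subgroup.subset_closure ⟨a, b, by rw [inv_mul_cancel]; exact D.one_mem, by rw [inv_mul_cancel]; exact D.one_mem, rfl⟩

omit H in
theorem w_eq : B.q a * (B.q b)⁻¹ = z * (z⁻¹ * (B.q a * (B.q b)⁻¹)) := (mul_inv_cancel_left _ _).symm

/-- Every element of `mW` is the product of an element of `mZ` and a power of `z⁻¹ w`. -/
theorem mW_dec {m : Q} (hm : m ∈ mW B a b D z k) : ∃ j : ℕ, ∃ m' ∈ mZ B a b D z k,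
    m = m' * (z⁻¹ * (B.q a * (B.q b)⁻¹)) ^ j := by
  obtain ⟨i, hi⟩ := mem_mW.1 hm
  have : NeZero k := ⟨H.kpos.ne'⟩
  refine ⟨(Multiplicative.toAdd i).val, m * ((z⁻¹ * (B.q a * (B.q b)⁻¹)) ^ (Multiplicative.toAdd i).val)⁻¹, ?_,
    (inv_mul_cancel_right _ _).symm⟩
  have h1 := (tC B a b D z k).mul_mem hi ((tC B a b D z k).inv_mem
    ((tC B a b D z k).pow_mem gen_mem (Multiplicative.toAdd i).val))
  rw [mem_mZ]
  have h2 : i * ((Multiplicative.ofAdd (1 : ZMod k)) ^ (Multiplicative.toAdd i).val)⁻¹ = 1 := by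
    rw [← ofAdd_nsmul, nsmul_one, ZMod.natCast_zmod_val, ofAdd_toAdd, mul_inv_cancel]
  rw [Prod.pow_mk, Prod.inv_mk, Prod.mk_mul_mk, h2] at h1
  exact h1

/-- `mZ` is normalised by `w`. -/
theorem mZ_conj {m : Q} (hm : m ∈ mZ B a b D z k) (j : ℕ) :
    ((B.q a * (B.q b)⁻¹) ^ j)⁻¹ * m * (B.q a * (B.q b)⁻¹) ^ j ∈ mZ B a b D z k := by
  induction j with
  | zero => simpa using hm
  | succ j ih =>
    set m' := ((B.q a * (B.q b)⁻¹) ^ j)⁻¹ * m * (B.q a * (B.q b)⁻¹) ^ j with hm'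
    set δ := z⁻¹ * (B.q a * (B.q b)⁻¹) with hδ
    have h1 : ((B.q a * (B.q b)⁻¹) ^ (j + 1))⁻¹ * m * (B.q a * (B.q b)⁻¹) ^ (j + 1) = δ⁻¹ * m' * δ := by
      have h2 : z * m' = m' * z := (H.cen m' (H.leD (mZ_le H ih))).symm
      have h3 : z⁻¹ * m' * z = m' := by rw [mul_assoc, ← h2, inv_mul_cancel_left]
      have h4 : ((B.q a * (B.q b)⁻¹) ^ (j + 1))⁻¹ * m * (B.q a * (B.q b)⁻¹) ^ (j + 1) =
          δ⁻¹ * (z⁻¹ * m' * z) * δ := by
        rw [hm', hδ, pow_succ]
        group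
      rw [h4, h3]
    rw [h1, mem_mZ]
    have h5 := (tC B a b D z k).mul_mem ((tC B a b D z k).mul_mem ((tC B a b D z k).inv_mem gen_mem)
      (mem_mZ.1 ih)) gen_mem
    rw [Prod.inv_mk, Prod.mk_mul_mk, Prod.mk_mul_mk, mul_one, inv_mul_cancel] at h5
    exact h5

/-- Lists of generators as lists of pairs. -/
theorem exists_pairs {l : List (Q × Multiplicative (ZMod k))} (hl : ∀ y ∈ l, y ∈ gT B a b D z k) :
    ∃ L : List (B.L × B.L), (∀ p ∈ L, NrP a b D p) ∧ L.length = l.length ∧ prd L = z ^ l.length * l.prod.1 ∧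
      l.prod.2 = Multiplicative.ofAdd (l.length : ZMod k) := by
  induction l with
  | nil => exact ⟨[], fun _ h => absurd h List.not_mem_nil, rfl, by simp [prd], by simp⟩
  | cons y l ih =>
    obtain ⟨L, h1, h2, h3, h4⟩ := ih fun x hx => hl x (List.mem_cons_of_mem _ hx)
    obtain ⟨c, d, h5, h6, rfl⟩ := hl y (List.mem_cons_self ..)
    refine ⟨(c, d) :: L, fun p hp => ?_, by rw [List.length_cons, List.length_cons, h2], ?_, ?_⟩
    · rcases List.mem_cons.1 hp with rfl | h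
      · exact ⟨h5, h6⟩
      · exact h1 p h
    · show B.q c * (B.q d)⁻¹ * prd L = _
      rw [h3, List.length_cons, List.prod_cons, Prod.fst_mul]
      have h7 : eps (B.q c * (B.q d)⁻¹) = 1 := by
        rw [map_mul, map_inv, eps_nearA H h5, eps_nearB H h6]; decide
      have h8 : Commute (B.q c * (B.q d)⁻¹) z := H.cen _ h7
      have h9 := (h8.pow_right l.length).eq
      rw [pow_succ]
      show _ = z ^ l.length * z * (z⁻¹ * (B.q c * (B.q d)⁻¹) * l.prod.1)
      calc B.q c * (B.q d)⁻¹ * (z ^ l.length * l.prod.1) = B.q c * (B.q d)⁻¹ * z ^ l.length * l.prod.1 := by group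
        _ = z ^ l.length * (B.q c * (B.q d)⁻¹) * l.prod.1 := by rw [h9]
        _ = _ := by group
    · rw [List.prod_cons, Prod.snd_mul, h4, List.length_cons, ← ofAdd_add, Nat.cast_succ, add_comm]

/-- The word of a shift. -/
theorem exists_word {m : Q} (hm : m ∈ mZ B a b D z k) : ∃ L : List (B.L × B.L), (∀ p ∈ L, NrP a b D p) ∧
    NrP a b D (a, b) ∧ L.length + 1 = k * (k + 1) ∧ prd ((a, b) :: L) = z ^ (k * (k + 1)) * m := by
  have hab : NrP a b D (a, b) := ⟨by rw [inv_mul_cancel]; exact D.one_mem, by rw [inv_mul_cancel]; exact D.one_mem⟩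
  have hk := H.kpos
  have hfin := H.fin
  have : NeZero k := ⟨hk.ne'⟩
  obtain ⟨l, h1, h2, h3⟩ := exists_short_list _ (mem_mZ.1 hm)
  obtain ⟨L, h4, h5, h6, h7⟩ := exists_pairs H h1
  rw [h2] at h6 h7
  have h8 : k ∣ l.length := by
    rw [← ZMod.natCast_eq_zero_iff, ← ofAdd_eq_one, ← h7]
  have h9 : Nat.card (Subgroup.closure (gT B a b D z k)) ≤ k * k := by
    have e1 : Nat.card (Subgroup.closure (gT B a b D z k)) ≤ Nat.card (D × Multiplicative (ZMod k)) :=
      Nat.card_le_card_of_injective (fun p => (⟨p.1.1, tC_mem H p.2⟩, p.1.2)) fun p q h => by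
        have h' := Prod.mk.inj h
        exact Subtype.ext (Prod.ext (congrArg Subtype.val h'.1) h'.2)
    rw [Nat.card_prod] at e1
    have e2 : Nat.card (Multiplicative (ZMod k)) = k := by
      rw [Nat.card_congr Multiplicative.toAdd, Nat.card_zmod]
    rw [e2] at e1
    exact e1.trans (Nat.mul_le_mul_right k (Nat.le_of_dvd hk H.card))
  have h10 : k * (k + 1) = k * k + k := by ring
  have h11 : ∃ i, k * (k + 1) = i + 1 + l.length ∧ k ∣ i + 1 := by
    refine ⟨k * (k + 1) - l.length - 1, by omega, ?_⟩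
    rw [show k * (k + 1) - l.length - 1 + 1 = k * (k + 1) - l.length by omega]
    exact Nat.dvd_sub (Dvd.intro _ rfl) h8
  obtain ⟨i, h12, h13⟩ := h11
  refine ⟨List.replicate i (a, b) ++ L, fun p hp => ?_, hab, ?_, ?_⟩
  · rcases List.mem_append.1 hp with h | h
    · rw [(List.mem_replicate.1 h).2]; exact hab
    · exact h4 p h
  · rw [List.length_append, List.length_replicate, h5]
    omega
  · have e1 : (a, b) :: (List.replicate i (a, b) ++ L) = List.replicate (i + 1) (a, b) ++ L := rfl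
    rw [e1, prd_append, prd_replicate, h6, h12, pow_add z (i + 1)]
    obtain ⟨j, hj⟩ := h13
    rw [hj, pow_mul, H31.C_w_pow H, ← pow_mul, mul_assoc]

end

end Pool.Agent.Lib.MP_688fd0_co.SQ4
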