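import Pool.Agent.Lib.MP_688fd0_co.SQ4.H98.FamM
import Pool.Agent.Lib.MP_688fd0_co.SQ2.V.FlipDefs

/-!
Families of classes: volumes of the caps and cups in terms of labels, restriction to an invariant set of strands,
degrees.
-/

set_option autoImplicit false

namespace Pool.Agent.Lib.MP_688fd0_co.SQ4

open Pool.Agent.Lib.MP_688fd0_co.OSF Pool.Agent.Lib.MP_688fd0_co.SQ2 Pool.Agent.Lib.MP_688fd0_co.SQ3
open SQ2.V (Puz Sub)

universe v

/-- Permutations of a finite set preserve the invariant sets in both directions. -/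
theorem perm_iff {S : Type} [Finite S] {σ : Equiv.Perm S} {D : S → Prop} (h : ∀ s, D s → D (σ s)) (s : S) :
    D (σ s) ↔ D s := by
  refine ⟨fun h1 => ?_, h s⟩
  have h2 : Function.Injective fun t : {s // D s} => (⟨σ t, h t t.2⟩ : {s // D s}) := fun a b hab =>
    Subtype.ext (σ.injective (congrArg Subtype.val hab))
  obtain ⟨t, ht⟩ := Finite.surjective_of_injective h2 ⟨σ s, h1⟩
  have h3 : σ t = σ s := congrArg Subtype.val ht
  rw [← σ.injective h3]
  exact t.2

section gauge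

variable {S : Type} [Fintype S] {Q : Type} [Group Q] [DecidableEq Q] {B : Lb.{0, v} Q} {U : Up B}
  {g : S → Q} {inj : Function.Injective g} {e : ℕ} {ζ : Q} {F : Type} [CommRing F]

omit [Fintype S] [DecidableEq Q] in
/-- The volume of the straight path when all plain vertical edges have the volume `c`. -/
theorem vol_strC {V : Ev B F} {c : F} (hn : ∀ x, V.e x (U.up x) = c) (n : ℕ) (x : Q) :
    V.vol x (U.str n x) = n * c := by
  induction n generalizing x with
  | zero => show (0 : F) = _; rw [Nat.cast_zero, zero_mul]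
  | succ n ih =>
    rw [U.str_succ]
    show V.e x (U.up x) + V.vol (x * B.q (U.up x)) (U.str n (U.U x)) = _
    rw [← U.hU, ih, hn, Nat.cast_succ]
    ring

omit [Fintype S] in
/-- Levels which agree modulo `e` have the same volumes. -/
theorem inv_lev {V : Ev B F} (h : V.Inv ζ) (hP : Per U e ζ) {l l' : ℕ} (hl : (l : ZMod e) = l') (x : Q) (a : B.L) :
    V.e ((U.U ^ l) x) a = V.e ((U.U ^ l') x) a := by
  have key : ∀ n k : ℕ, V.e ((U.U ^ (n + e * k)) x) a = V.e ((U.U ^ n) x) a := by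
    intro n k
    rw [U.U_pow_add, per_mul hP, FamW.Inv_pow h]
  have h2 : l % e = l' % e := (ZMod.natCast_eq_natCast_iff' l l' e).1 hl
  rw [← Nat.mod_add_div l e, ← Nat.mod_add_div l' e, key, key, h2]

/-- The volumes of the windows of a class: `cu r` for the cup, `cu (tau r)` for the cap. -/
structure ClsW.Cu {R : Type} (X : ClsW U g inj e R) (V : Ev B F) (cu : R → F) : Prop where
  cup : ∀ r, V.vol ((U.U ^ X.lev r) (g (X.x r))) (X.W r).cup = cu r
  cap : ∀ r, V.vol (X.W r).w₀ (X.W r).cap = cu (X.tau r)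

/-- The volumes of a class of T-gadgets. -/
theorem lab_T (he : 0 < e) {D : S → Prop} {ρ : ZMod e → S → B.L} (X : ClsW U g inj e (ZMod e × {s // D s}))
    (h1 : ∀ r, X.lev r = r.1.val) (h2 : ∀ r, X.x r = r.2) (h3 : ∀ r, (X.tau r).1 = r.1 + X.H r)
    (h4 : ∀ r, (X.W r).cup = [ρ r.1 r.2]) (h5 : ∀ r, (X.W r).cap = [ρ (X.tau r).1 (X.tau r).2])
    {V : Ev B F} (h : V.Inv ζ) (hP : Per U e ζ) :
    X.Cu V fun r => V.e ((U.U ^ r.1.val) (g r.2)) (ρ r.1 r.2) where
  cup := fun r => by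
    rw [h4, h1, h2]
    show V.e _ _ + 0 = _
    rw [add_zero]
  cap := fun r => by
    have : NeZero e := ⟨he.ne'⟩
    rw [h5]
    show V.e _ _ + 0 = _
    rw [add_zero, X.w₀, h2]
    refine inv_lev h hP ?_ _ _
    rw [h1, Nat.cast_add, ZMod.natCast_zmod_val, ZMod.natCast_zmod_val, h3]

/-- The volumes of a class of height 1. -/
theorem lab_M (he : 0 < e) {κ : ZMod e} {D T : S → Prop} {σ : Equiv.Perm S} {s : B.L}
    (X : ClsW U g inj e {y // D y ∧ ¬ T y})
    (hS : ∀ (l : ℕ) (y : S), (l : ZMod e) = κ → D y → ¬ T y →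
      (U.U ^ l) (g y) * B.q s = (U.U ^ (l + 1)) (g (σ y)))
    (h1 : ∀ r, X.lev r = κ.val) (h2 : ∀ r, X.x r = r) (h3 : ∀ r, ∃ k, X.H r = e * k + 1)
    (h4 : ∀ r, (X.W r).cup = [s, B.inv (U.up ((U.U ^ κ.val) (g (σ r))))])
    (h5 : ∀ r, (X.W r).cap = [B.inv (U.up ((U.U ^ (X.lev r + X.H r - 1)) (g (X.tau r)))), s])
    {V : Ev B F} (h : V.Inv ζ) (hP : Per U e ζ) {c : F} (hn : ∀ x, V.e x (U.up x) = c) :
    X.Cu V fun r => V.e ((U.U ^ κ.val) (g r)) s - c where
  cup := fun r => by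
    have : NeZero e := ⟨he.ne'⟩
    rw [h4, h1, h2]
    show V.e _ _ + (V.e ((U.U ^ κ.val) (g (r : S)) * B.q s) _ + 0) = _
    rw [hS _ _ (ZMod.natCast_zmod_val κ) r.2.1 r.2.2, U.U_pow_succ', U.hU, V.e_inv, hn]
    ring
  cap := fun r => by
    have : NeZero e := ⟨he.ne'⟩
    obtain ⟨k, hk⟩ := h3 r
    rw [h5, X.w₀, h2]
    have e1 : X.lev r + X.H r - 1 = X.lev r + e * k := by omega
    have e2 : X.lev r + X.H r = X.lev r + e * k + 1 := by omega
    rw [e1, e2]
    show V.e ((U.U ^ (X.lev r + e * k + 1)) (g (X.tau r : S))) _ +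
      (V.e ((U.U ^ (X.lev r + e * k + 1)) (g (X.tau r : S)) * B.q (B.inv _)) s + 0) = _
    rw [U.U_pow_succ', U.hU, V.e_inv, hn, B.q_inv, mul_inv_cancel_right, add_zero, neg_add_eq_sub]
    refine congrArg (fun x => x - c) (inv_lev h hP ?_ _ _)
    rw [h1, Nat.cast_add, Nat.cast_mul, ZMod.natCast_self, zero_mul, add_zero]

end gauge

section clo

variable {S R : Type} [Fintype S] [DecidableEq S] {Q : Type} [Group Q] [DecidableEq Q] {B : Lb.{0, v} Q}
  {U : Up B} {ζ : Q}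

/-- Restriction of a puzzle to the strands `A` and the rungs `C`. -/
def restr (P : Puz S R) (A : S → Prop) (C : R → Prop) (hx : ∀ r, C r → A (P.x r)) (hy : ∀ r, C r → A (P.y r))
    (ht : ∀ r, C r ↔ C (P.tau r)) (hT : ∀ r s, C r → (A s ↔ A (P.T r s))) : Puz {s // A s} {r // C r} where
  x r := ⟨P.x r, hx r r.2⟩
  y r := ⟨P.y r, hy r r.2⟩
  ne r h := P.ne r (congrArg Subtype.val h)
  tau := P.tau.subtypeEquiv ht
  T r := (P.T r).subtypeEquiv fun s => hT r s r.2
  T_ends r := by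
    rcases P.T_ends r with ⟨h1, h2⟩ | ⟨h1, h2⟩
    · exact Or.inl ⟨Subtype.ext h1, Subtype.ext h2⟩
    · exact Or.inr ⟨Subtype.ext h1, Subtype.ext h2⟩

/-- The restriction is a part of the puzzle. -/
def restrSub (P : Puz S R) (A : S → Prop) (C : R → Prop) (hx : ∀ r, C r → A (P.x r)) (hy : ∀ r, C r → A (P.y r))
    (ht : ∀ r, C r ↔ C (P.tau r)) (hT : ∀ r s, C r → (A s ↔ A (P.T r s)))
    (hout : ∀ r s, C r → ¬ A s → P.T r s = s) : Sub P (restr P A C hx hy ht hT) where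
  iS := Subtype.val
  iR := Subtype.val
  inj := Subtype.val_injective
  x _ := rfl
  y _ := rfl
  tau _ := rfl
  T _ _ := rfl
  T_out r s hs := hout r s r.2 fun h => hs ⟨⟨s, h⟩, rfl⟩

/-- The strands `A` and the rungs `C` are closed: the windows of the rungs `C` do not move the tokens outside `A`. -/
structure FamW.Clo (X : FamW S R U ζ) (A : S → Prop) (C : R → Prop) : Prop where
  x : ∀ r, C r → A (X.x r)
  y : ∀ r, C r → A (X.y r)
  tau : ∀ r, C r ↔ C (X.tau r)
  tok : ∀ r, C r → ∀ s, ¬ A s → (X.W r).f ((U.U ^ X.lev r) (X.g s)) = (U.U ^ (X.lev r + X.H r)) (X.g s)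

namespace FamW

variable {X : FamW S R U ζ} {A : S → Prop} {C : R → Prop}

theorem Clo.out (h : X.Clo A C) {r : R} {s : S} (hr : C r) (hs : ¬ A s) : X.puz.T r s = s := by
  have hx : s ≠ X.x r := fun e => hs (e ▸ h.x r hr)
  have hy : s ≠ X.y r := fun e => hs (e ▸ h.y r hr)
  have h1 := X.tmap_f r s hx hy
  rw [h.tok r hr s hs] at h1
  exact (X.pow_inj h1).symm

theorem Clo.iff_T (h : X.Clo A C) {r : R} (s : S) (hr : C r) : A s ↔ A (X.puz.T r s) := by
  constructor
  · intro hs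
    by_contra hcon
    have h1 := h.out hr hcon
    exact hcon (by rw [(X.puz.T r).injective h1]; exact hs)
  · intro hs
    by_contra hcon
    rw [h.out hr hcon] at hs
    exact hcon hs

/-- The part of the puzzle over `A` and `C`. -/
noncomputable def Clo.puz (h : X.Clo A C) : Puz {s // A s} {r // C r} :=
  restr X.puz A C h.x h.y h.tau fun _ s hr => h.iff_T s hr

/-- It is a part. -/
noncomputable def Clo.sub (h : X.Clo A C) : Sub X.puz h.puz :=
  restrSub X.puz A C h.x h.y h.tau (fun _ s hr => h.iff_T s hr) fun _ _ hr hs => h.out hr hs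

theorem Clo.range (h : X.Clo A C) (s : S) : s ∈ Set.range h.sub.iS ↔ A s :=
  ⟨fun ⟨a, ha⟩ => ha ▸ a.2, fun hs => ⟨⟨s, hs⟩, rfl⟩⟩

/-- Unions of closed pairs. -/
theorem Clo.or {C' : R → Prop} (h : X.Clo A C) (h' : X.Clo A C') : X.Clo A fun r => C r ∨ C' r where
  x r hr := hr.elim (h.x r) (h'.x r)
  y r hr := hr.elim (h.y r) (h'.y r)
  tau r := or_congr (h.tau r) (h'.tau r)
  tok r hr s hs := hr.elim (fun k => h.tok r k s hs) (fun k => h'.tok r k s hs)

theorem Clo.mono {A' : S → Prop} (h : X.Clo A C) (hA : ∀ s, A s → A' s) : X.Clo A' C where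
  x r hr := hA _ (h.x r hr)
  y r hr := hA _ (h.y r hr)
  tau := h.tau
  tok r hr s hs := h.tok r hr s fun k => hs (hA s k)

theorem Clo.and {C' : R → Prop} (h : X.Clo A C) (h' : ∀ r, C' r ↔ C' (X.tau r)) : X.Clo A fun r => C r ∧ C' r where
  x r hr := h.x r hr.1
  y r hr := h.y r hr.1
  tau r := and_congr (h.tau r) (h' r)
  tok r hr s hs := h.tok r hr.1 s hs

end FamW

end clo

section cls

variable {S : Type} [Fintype S] [DecidableEq S] {Q : Type} [Group Q] [DecidableEq Q] {B : Lb.{0, v} Q}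
  {U : Up B} {ζ : Q} {g : S → Q} {inj : Function.Injective g} {e : ℕ}

/-- The windows of the rungs over `A` do not move the tokens outside `A`. -/
structure ClsW.Clo {R : Type} (X : ClsW U g inj e R) (A : S → Prop) : Prop where
  y : ∀ r, A (X.x r) → A (X.y r)
  tau : ∀ r, A (X.x r) → A (X.x (X.tau r))
  tok : ∀ r, A (X.x r) → ∀ s, ¬ A s → (X.W r).f ((U.U ^ X.lev r) (g s)) = (U.U ^ (X.lev r + X.H r)) (g s)

/-- The windows of the rungs over `A` cost `H r * c` for the tokens outside `A`. -/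
def ClsW.Th {R : Type} (X : ClsW U g inj e R) {F : Type} [CommRing F] (V : Ev B F) (A : S → Prop) (c : F) : Prop :=
  ∀ r, A (X.x r) → ∀ s, ¬ A s →
    V.vol ((U.U ^ X.lev r) (g s)) ((X.W r).path ((U.U ^ X.lev r) (g s))) = (X.H r : F) * c

omit [DecidableEq S] in
theorem ClsW.Clo.of_tok {R : Type} {X : ClsW U g inj e R} {A : S → Prop} (hy : ∀ r, A (X.x r) → A (X.y r))
    (h : ∀ r, A (X.x r) → ∀ s, s ≠ X.x r → s ≠ X.y r → ¬ A s →
      (X.W r).f ((U.U ^ X.lev r) (g s)) = (U.U ^ (X.lev r + X.H r)) (g s)) : X.Clo A := by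
  have h' : ∀ r, A (X.x r) → ∀ s, ¬ A s → (X.W r).f ((U.U ^ X.lev r) (g s)) = (U.U ^ (X.lev r + X.H r)) (g s) :=
    fun r hr s hs =>
    h r hr s (fun k => hs (by rw [k]; exact hr)) (fun k => hs (by rw [k]; exact hy r hr)) hs
  refine ⟨hy, fun r hr => ?_, h'⟩
  by_contra hcon
  have h1 := h' r hr _ hcon
  have h2 := (X.W r).f_mem ((U.U ^ X.lev r) (g (X.x (X.tau r)))) (by rw [X.L₀]; exact frS_mem _ _)
    (by rw [X.u₀]; exact fun k => hcon (by rw [inj ((U.U ^ X.lev r).injective k)]; exact hr))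
    (by rw [X.u₁]; exact fun k => hcon (by rw [inj ((U.U ^ X.lev r).injective k)]; exact hy r hr))
  exact h2.2.1 (by rw [h1, X.w₀])

omit [DecidableEq S] in
theorem ClsW.Th.of_tok {R : Type} {X : ClsW U g inj e R} {A : S → Prop} (hy : ∀ r, A (X.x r) → A (X.y r))
    (h : ∀ r, A (X.x r) → ∀ s, s ≠ X.x r → s ≠ X.y r → ¬ A s →
      (X.W r).path ((U.U ^ X.lev r) (g s)) = U.str (X.H r) ((U.U ^ X.lev r) (g s))) {F : Type} [CommRing F]
    {V : Ev B F} {c : F} (hn : ∀ x, V.e x (U.up x) = c) : X.Th V A c := by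
  intro r hr s hs
  rw [h r hr s (fun k => hs (by rw [k]; exact hr)) (fun k => hs (by rw [k]; exact hy r hr)) hs, vol_strC hn]

omit [DecidableEq S] in
theorem ClsW.Clo.tau_iff {R : Type} [Finite R] {X : ClsW U g inj e R} {A : S → Prop} (h : X.Clo A) (r : R) :
    A (X.x r) ↔ A (X.x (X.tau r)) := (perm_iff (σ := X.tau) (D := fun r => A (X.x r)) (fun r hr => h.tau r hr) r).symm

variable {C : Type} {Rc : C → Type} (he : 0 < e) (per : Per U e ζ) (X : ∀ c, ClsW U g inj e (Rc c))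

/-- The rungs of some classes over `A`. -/
theorem FamW.ofCls_clo [∀ c, Finite (Rc c)] {A : S → Prop} {J : C → Prop} (h : ∀ c, J c → (X c).Clo A) :
    (FamW.ofCls he per X).Clo A fun r => J r.1 ∧ A ((X r.1).x r.2) where
  x _ hr := hr.2
  y r hr := (h r.1 hr.1).y r.2 hr.2
  tau r := by
    show (J r.1 ∧ A ((X r.1).x r.2)) ↔ (J r.1 ∧ A ((X r.1).x ((X r.1).tau r.2)))
    constructor
    · rintro ⟨h1, h2⟩
      exact ⟨h1, ((h _ h1).tau_iff r.2).1 h2⟩
    · rintro ⟨h1, h2⟩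
      exact ⟨h1, ((h _ h1).tau_iff r.2).2 h2⟩
  tok r hr s hs := (h r.1 hr.1).tok r.2 hr.2 s hs

/-- The volumes of a family of classes. -/
theorem FamW.ofCls_vols {F : Type} [CommRing F] {V : Ev B F} (hV : V.Inv ζ) {cu : ∀ c, Rc c → F}
    (h : ∀ c, (X c).Cu V (cu c)) :
    ∃ θ : (Σ c, Rc c) → S → F,
      VolsE (FamW.ofCls he per X).real V (fun r => cu r.1 r.2) (fun r => cu r.1 ((X r.1).tau r.2)) θ ∧
      ∀ (A : S → Prop) (c : C) (o : F), (X c).Th V A o → ∀ (r : Rc c) (s : S), A ((X c).x r) → ¬ A s →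
        θ ⟨c, r⟩ s = ((X c).H r : F) * o := by
  refine ⟨fun r s => V.vol ((U.U ^ (X r.1).lev r.2) (g s)) (((X r.1).W r.2).path ((U.U ^ (X r.1).lev r.2) (g s))), ?_,
    fun A c o hC r s hr hs => hC r hr s hs⟩
  have h1 := (FamW.ofCls he per X).vols V hV
  have e1 : (fun r : Σ c, Rc c => V.vol ((U.U ^ (FamW.ofCls he per X).lev r) ((FamW.ofCls he per X).g
      ((FamW.ofCls he per X).x r))) ((FamW.ofCls he per X).W r).cup) = fun r => cu r.1 r.2 := by
    funext r
    exact (h r.1).cup r.2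
  have e2 : (fun r : Σ c, Rc c => V.vol ((FamW.ofCls he per X).W r).w₀ ((FamW.ofCls he per X).W r).cap) =
      fun r => cu r.1 ((X r.1).tau r.2) := by
    funext r
    exact (h r.1).cap r.2
  rw [e1, e2] at h1
  exact h1

end cls

section bundle

variable {S : Type} [Fintype S] {Q : Type} [Group Q] [DecidableEq Q] {B : Lb.{0, v} Q}
  {U : Up B} {ζ : Q} {g : S → Q} {inj : Function.Injective g} {e : ℕ}

/-- The properties of a class of T-gadgets. -/
structure IsT (ζ : Q) {D : S → Prop} (P : ZMod e → Equiv.Perm S) (ρ : ZMod e → S → B.L)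
    (X : ClsW U g inj e (ZMod e × {s // D s})) : Prop where
  lev : ∀ r, X.lev r = r.1.val
  x : ∀ r, X.x r = r.2
  y : ∀ r, X.y r = P r.1 r.2
  H_pos : ∀ r, 1 ≤ X.H r
  H_le : ∀ r, X.H r ≤ e * (Fintype.card S) ^ 2
  tau₁ : ∀ r, (X.tau r).1 = r.1 + X.H r
  tau₂ : ∀ r, ((X.tau r).2 : S) = RP (fun i => P (r.1 + i)) (X.H r) r.2
  tau₃ : ∀ r, P (X.tau r).1 (X.tau r).2 = RP (fun i => P (r.1 + i)) (X.H r) (P r.1 r.2)
  cup : ∀ r, (X.W r).cup = [ρ r.1 r.2]
  cap : ∀ r, (X.W r).cap = [ρ (X.tau r).1 (X.tau r).2]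
  clo : ∀ A : S → Prop, (∀ k s, A s → A (P k s)) → X.Clo A
  th : ∀ A : S → Prop, (∀ k s, A s → A (P k s)) → ∀ (F : Type) [CommRing F] (V : Ev B F) (c : F),
    (∀ x, V.e x (U.up x) = c) → X.Th V A c
  pair : ∀ E : S → S → Prop, (∀ k p q, E p q → E (P k p) (P k q)) → ∀ r, E (X.x r) (X.y r) →
    E (X.x (X.tau r)) (X.y (X.tau r))
  vol : ∀ (F : Type) [CommRing F] (V : Ev B F), V.Inv ζ → X.Cu V fun r => V.e ((U.U ^ r.1.val) (g r.2)) (ρ r.1 r.2)

/-- The class of the T-gadgets with all its properties. -/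
theorem exists_isT (he : 0 < e) (hper : Per U e ζ) {P : ZMod e → Equiv.Perm S} {ρ : ZMod e → S → B.L} {D : S → Prop}
    (hP : ∀ (l : ℕ) (s : S), D s → (U.U ^ l) (g s) * B.q (ρ l s) = (U.U ^ l) (g (P l s)))
    (hDP : ∀ (k : ZMod e) (s : S), D s → D (P k s)) :
    ∃ X : ClsW U g inj e (ZMod e × {s // D s}), IsT ζ P ρ X := by
  obtain ⟨X, h1, h2, h3, h4, h5, h6, h7, h8, h9, h10, h11⟩ := exists_clsT (inj := inj) he hP hDP
  have hy : ∀ A : S → Prop, (∀ k s, A s → A (P k s)) → ∀ r, A (X.x r) → A (X.y r) := by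
    intro A hA r hr
    rw [h3]
    rw [h2] at hr
    exact hA _ _ hr
  refine ⟨X, ⟨h1, h2, h3, h4, h5, h6, h7, h8, h9, h10, fun A hA => ?_, fun A hA F _ V c hn => ?_, fun E hE r hr => ?_,
    fun F _ V hV => lab_T he X h1 h2 h6 h9 h10 hV hper⟩⟩
  · exact ClsW.Clo.of_tok (hy A hA) fun r hr s k1 k2 k3 => ((h11 A hA r hr s k1 k2).2 k3).1
  · exact ClsW.Th.of_tok (hy A hA) (fun r hr s k1 k2 k3 => ((h11 A hA r hr s k1 k2).2 k3).2) hn
  · rw [h2, h3, h8, h7]
    rw [h2, h3] at hr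
    have key : ∀ i, 1 ≤ i → E (RP (fun i => P (r.1 + (i : ZMod e))) i r.2) (RP (fun i => P (r.1 + (i : ZMod e))) i (P r.1 r.2)) := by
      intro i hi
      obtain ⟨j, rfl⟩ : ∃ j, i = j + 1 := ⟨i - 1, by omega⟩
      clear hi
      induction j with
      | zero => rw [RP_one]; exact hr
      | succ j ih => rw [RP_succ _ (j + 1)]; exact hE _ _ _ ih
    exact key _ (h4 r)

/-- The properties of a class of height 1. -/
structure IsM (ζ : Q) (κ : ZMod e) {D T : S → Prop} (P : ZMod e → Equiv.Perm S) (σ : Equiv.Perm S) (s : B.L)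
    (X : ClsW U g inj e {y // D y ∧ ¬ T y}) : Prop where
  lev : ∀ r, X.lev r = κ.val
  x : ∀ r, X.x r = r
  y : ∀ r, X.y r = σ r
  H_eq : ∀ r, ∃ k, 1 ≤ k ∧ k ≤ (Fintype.card S) ^ 2 ∧ X.H r = e * k + 1
  cup : ∀ r, (X.W r).cup = [s, B.inv (U.up ((U.U ^ κ.val) (g (σ r))))]
  cap : ∀ r, (X.W r).cap = [B.inv (U.up ((U.U ^ (X.lev r + X.H r - 1)) (g (X.tau r)))), s]
  clo : ∀ A : S → Prop, (∀ k s, A s → A (P k s)) → (∀ s, A s → A (σ s)) → X.Clo A
  th : ∀ A : S → Prop, (∀ k s, A s → A (P k s)) → (∀ s, A s → A (σ s)) → ∀ (F : Type) [CommRing F] (V : Ev B F)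
    (c : F), (∀ x, V.e x (U.up x) = c) → X.Th V A c
  vol : ∀ (F : Type) [CommRing F] (V : Ev B F) (c : F), V.Inv ζ → (∀ x, V.e x (U.up x) = c) →
    X.Cu V fun r => V.e ((U.U ^ κ.val) (g r)) s - c

/-- The class of height 1 with all its properties. -/
theorem exists_isM (he : 2 ≤ e) (hper : Per U e ζ) {κ : ZMod e} {P : ZMod e → Equiv.Perm S} {ρ : ZMod e → S → B.L}
    {σ : Equiv.Perm S} {s : B.L} {D T : S → Prop}
    (hP : ∀ (l : ℕ) (y : S), D y → (U.U ^ l) (g y) * B.q (ρ l y) = (U.U ^ l) (g (P l y)))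
    (hS : ∀ (l : ℕ) (y : S), (l : ZMod e) = κ → D y → ¬ T y →
      (U.U ^ l) (g y) * B.q s = (U.U ^ (l + 1)) (g (σ y)))
    (hDS : ∀ y : S, D y → D (σ y)) (hDR : ∀ (k : ZMod e) (y : S), D y → D (P k y))
    (hTS : ∀ y : S, D y → (T (σ y) ↔ ¬ T y)) (hTR : ∀ (k : ZMod e) (y : S), T (P k y) ↔ T y) :
    ∃ X : ClsW U g inj e {y // D y ∧ ¬ T y}, IsM ζ κ P σ s X := by
  obtain ⟨X, h1, h2, h3, h4, h5, h6, h7⟩ := exists_clsM (inj := inj) he hP hS (fun y => perm_iff hDS y)
    (fun k y => perm_iff (hDR k) y) hTS hTR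
  have hy : ∀ A : S → Prop, (∀ s, A s → A (σ s)) → ∀ r, A (X.x r) → A (X.y r) := by
    intro A hA r hr
    rw [h3]
    rw [h2] at hr
    exact hA _ hr
  refine ⟨X, ⟨h1, h2, h3, h4, h5, h6, fun A hA hA' => ?_, fun A hA hA' F _ V c hn => ?_, fun F _ V c hV hn =>
    lab_M (by omega) X hS h1 h2 (fun r => ?_) h5 h6 hV hper hn⟩⟩
  · exact ClsW.Clo.of_tok (hy A hA') fun r hr s k1 k2 k3 =>
      ((h7 A (fun k s => perm_iff (hA k) s) (fun s => perm_iff hA' s) r hr s k1 k2).2 k3).1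
  · exact ClsW.Th.of_tok (hy A hA') (fun r hr s k1 k2 k3 =>
      ((h7 A (fun k s => perm_iff (hA k) s) (fun s => perm_iff hA' s) r hr s k1 k2).2 k3).2) hn
  · obtain ⟨k, _, _, hk⟩ := h4 r
    exact ⟨k, hk⟩

end bundle

section deg

variable {S : Type} [Finite S] {e : ℕ}

/-- Every strand of the domain has `2 e` rungs of a T-class. -/
theorem deg_T (he : 0 < e) {P : ZMod e → Equiv.Perm S} {D : S → Prop} (hDP : ∀ k s, D s → D (P k s))
    (hne : ∀ k s, D s → P k s ≠ s) (v : S) (hv : D v) :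
    {r : ZMod e × {s // D s} | v = r.2 ∨ v = P r.1 r.2}.ncard = 2 * e := by
  have : NeZero e := ⟨he.ne'⟩
  have hinv : ∀ k s, D (P k s) ↔ D s := fun k s => perm_iff (hDP k) s
  have hinv' : ∀ k, D ((P k).symm v) := fun k => by rw [← hinv k, Equiv.apply_symm_apply]; exact hv
  let φ : ZMod e ⊕ ZMod e → ZMod e × {s // D s} :=
    Sum.elim (fun k => (k, ⟨v, hv⟩)) (fun k => (k, ⟨(P k).symm v, hinv' k⟩))
  have hφ : Function.Injective φ := by
    rintro (k | k) (l | l) h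
    · have h1 : k = l := congrArg Prod.fst h
      rw [h1]
    · exfalso
      have h1 : v = (P l).symm v := congrArg (fun a => (a.2 : S)) h
      rw [Equiv.eq_symm_apply] at h1
      exact hne l v hv h1
    · exfalso
      have h1 : (P k).symm v = v := congrArg (fun a => (a.2 : S)) h
      rw [Equiv.symm_apply_eq] at h1
      exact hne k v hv h1.symm
    · have h1 : k = l := congrArg Prod.fst h
      rw [h1]
  have hset : {r : ZMod e × {s // D s} | v = r.2 ∨ v = P r.1 r.2} = Set.range φ := by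
    ext r
    obtain ⟨k, s, hs⟩ := r
    constructor
    · rintro (h | h)
      · exact ⟨Sum.inl k, Prod.ext rfl (Subtype.ext h)⟩
      · refine ⟨Sum.inr k, Prod.ext rfl (Subtype.ext ?_)⟩
        show (P k).symm v = s
        rw [Equiv.symm_apply_eq]
        exact h
    · rintro ⟨l | l, h⟩
      · left
        exact congrArg (fun a => (a.2 : S)) h
      · right
        have h1 : l = k := congrArg Prod.fst h
        have h2 : (P l).symm v = s := congrArg (fun a => (a.2 : S)) h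
        rw [Equiv.symm_apply_eq, h1] at h2
        exact h2
  rw [hset, ← Set.image_univ, Set.ncard_image_of_injective _ hφ, Set.ncard_univ, Nat.card_sum, Nat.card_zmod]
  ring

/-- Every strand of the domain has one rung of a class of height 1. -/
theorem deg_M {S : Type} {σ : Equiv.Perm S} {D T : S → Prop} (hDS : ∀ y : S, D (σ y) ↔ D y)
    (hTS : ∀ y : S, D y → (T (σ y) ↔ ¬ T y))
    (v : S) (hv : D v) : {r : {y // D y ∧ ¬ T y} | v = r ∨ v = σ r}.ncard = 1 := by
  rw [Set.ncard_eq_one]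
  by_cases hT : T v
  · have h2 : D (σ.symm v) := by rw [← hDS, Equiv.apply_symm_apply]; exact hv
    have h1 : ¬ T (σ.symm v) := by rw [← hTS _ h2, Equiv.apply_symm_apply]; exact hT
    refine ⟨⟨σ.symm v, h2, h1⟩, ?_⟩
    ext r
    rw [Set.mem_singleton_iff]
    constructor
    · rintro (h | h)
      · exact absurd hT (by rw [h]; exact r.2.2)
      · apply Subtype.ext
        show (r : S) = σ.symm v
        rw [Equiv.eq_symm_apply]
        exact h.symm
    · rintro rfl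
      right
      show v = σ (σ.symm v)
      rw [Equiv.apply_symm_apply]
  · refine ⟨⟨v, hv, hT⟩, ?_⟩
    ext r
    rw [Set.mem_singleton_iff]
    constructor
    · rintro (h | h)
      · exact Subtype.ext h.symm
      · exact absurd ((hTS r r.2.1).2 r.2.2) (by rw [← h]; exact hT)
    · rintro rfl
      exact Or.inl rfl

end deg

section degs

variable {S : Type} [Fintype S] [DecidableEq S] {Q : Type} [Group Q] [DecidableEq Q] {B : Lb.{0, v} Q}
  {U : Up B} {ζ : Q} {g : S → Q} {inj : Function.Injective g} {e : ℕ} {C : Type} {Rc : C → Type}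

/-- The rungs on a strand, class by class. -/
theorem ncard_cls [Fintype C] [∀ c, Finite (Rc c)] (he : 0 < e) (per : Per U e ζ) (X : ∀ c, ClsW U g inj e (Rc c))
    {A : S → Prop} {J : C → Prop} [DecidablePred J] (h : ∀ c, J c → (X c).Clo A)
    (hy : ∀ c, J c → ∀ r, A ((X c).y r) → A ((X c).x r)) (w : {s // A s}) :
    {r | (FamW.ofCls_clo he per X h).puz.On r w}.ncard =
      ∑ c : {c // J c}, {r : Rc c | (w : S) = (X c).x r ∨ (w : S) = (X c).y r}.ncard := by
  classical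
  let E : ↥{r | (FamW.ofCls_clo he per X h).puz.On r w} ≃
      Σ c : {c // J c}, ↥{r : Rc c | (w : S) = (X c).x r ∨ (w : S) = (X c).y r} :=
    { toFun := fun r => ⟨⟨r.1.1.1, r.1.2.1⟩, ⟨r.1.1.2, by
        rcases r.2 with h1 | h1
        · exact Or.inl (congrArg Subtype.val h1)
        · exact Or.inr (congrArg Subtype.val h1)⟩⟩
      invFun := fun a => ⟨⟨⟨a.1.1, a.2.1⟩, ⟨a.1.2, by
        rcases a.2.2 with h1 | h1
        · show A _
          rw [← h1]; exact w.2
        · show A _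
          exact hy a.1.1 a.1.2 _ (by rw [← h1]; exact w.2)⟩⟩, by
        rcases a.2.2 with h1 | h1
        · exact Or.inl (Subtype.ext h1)
        · exact Or.inr (Subtype.ext h1)⟩
      left_inv := fun r => rfl
      right_inv := fun a => rfl }
  rw [← Nat.card_coe_set_eq, Nat.card_congr E, Nat.card_sigma]
  exact Finset.sum_congr rfl fun c _ => Nat.card_coe_set_eq _

end degs

end Pool.Agent.Lib.MP_688fd0_co.SQ4
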