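import Pool.Agent.Lib.MP_688fd0_co.SQ4.H98.WordsC

/-!
Type C1: the shifts of the strands by elements of `mZ` are vertical blocks.
-/

set_option autoImplicit false

namespace Pool.Agent.Lib.MP_688fd0_co.SQ4

open Pool.Agent.Lib.MP_688fd0_co.OSF Pool.Agent.Lib.MP_688fd0_co.SQ2 Pool.Agent.Lib.MP_688fd0_co.SQ3
open SQ2.V (Puz Sub)

/-- Constant on the sheets. -/
def ShC {S Q : Type} [Group Q] (D : Subgroup Q) (g : S → Q) {M : Type*} (μ : S → M) : Prop :=
  ∀ s s', Sh D (g s) (g s') → μ s = μ s'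

section

variable {Q : Type} [Group Q] {B : Lb.{0, 0} Q} {a b : B.L} {eps : Q →* ℤˣ} {D : Subgroup Q} {z : Q} {k : ℕ}
  (H : HypC B a b eps D z k)

include H

theorem eps_rf (x : Q) : eps (rfC eps (B.q a) x) = 1 := by
  unfold rfC
  split_ifs with h
  · exact h
  · rw [map_mul, map_inv, H.ea]
    rcases Int.units_eq_one_or (eps x) with h1 | h1
    · exact absurd h1 h
    · rw [h1]; decide

theorem U_rf (x : Q) : (H.up.U ^ eeC eps x) (rfC eps (B.q a) x) = x := by
  have h2 := eps_rf H x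
  unfold rfC eeC at *
  split_ifs with h
  · rfl
  · rw [if_neg h] at h2
    rw [pow_one, H31.C_U_one H h2, inv_mul_cancel_right]

theorem C_U_uC {x : Q} (hx : eps x = 1) (n : ℕ) : (H.up.U ^ n) x = x * uC (B.q a) (B.q b) n := by
  have key : ∀ n, (H.up.U ^ n) x = x * uC (B.q a) (B.q b) n ∧ (eps (x * uC (B.q a) (B.q b) n) = 1 ↔ n % 2 = 0) := by
    intro n
    induction n with
    | zero => exact ⟨(mul_one x).symm, by show eps (x * 1) = 1 ↔ _; rw [mul_one]; exact ⟨fun _ => rfl, fun _ => hx⟩⟩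
    | succ n ih =>
      rw [H.up.U_pow_succ', ih.1]
      show _ = x * (uC (B.q a) (B.q b) n * (if n % 2 = 0 then B.q a else (B.q b)⁻¹)) ∧
        (eps (x * (uC (B.q a) (B.q b) n * (if n % 2 = 0 then B.q a else (B.q b)⁻¹))) = 1 ↔ _)
      by_cases h : n % 2 = 0
      · rw [if_pos h, H31.C_U_one H (ih.2.2 h), ← mul_assoc]
        refine ⟨rfl, ?_⟩
        rw [map_mul, ih.2.2 h, H.ea]
        exact ⟨fun k => absurd k (by decide), fun k => by omega⟩
      · have h1 : eps (x * uC (B.q a) (B.q b) n) ≠ 1 := fun k => h (ih.2.1 k)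
        rw [if_neg h, H31.C_U_neg H h1, ← mul_assoc]
        refine ⟨rfl, ?_⟩
        rw [map_mul, map_inv, H.eb]
        rcases Int.units_eq_one_or (eps (x * uC (B.q a) (B.q b) n)) with h2 | h2
        · exact absurd h2 h1
        · rw [h2]
          exact ⟨fun _ => by omega, fun _ => by decide⟩
  exact (key n).1

theorem eps_uC {x : Q} (hx : eps x = 1) (n : ℕ) : eps (x * uC (B.q a) (B.q b) n) = 1 ↔ n % 2 = 0 := by
  rcases Nat.even_or_odd' n with ⟨j, rfl | rfl⟩
  · rw [uC_even, map_mul, map_pow, H31.C_eps_w H, hx, one_pow]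
    exact ⟨fun _ => by omega, fun _ => by decide⟩
  · rw [uC_odd, map_mul, map_mul, map_pow, H31.C_eps_w H, hx, one_pow, H.ea]
    exact ⟨fun k => absurd k (by decide), fun k => by omega⟩

theorem sh_shf {m : Q} (hm : m ∈ D) (x : Q) : Sh D x (shf eps (B.q a) m x) := by
  unfold shf
  split_ifs
  · exact Sh.mul_mem _ hm
  · refine Sh.mul_mem _ ?_
    have := mem_conj H hm (B.q a)⁻¹
    rwa [inv_inv] at this

theorem sh_eps {x y : Q} (h : Sh D x y) : eps y = eps x := by
  obtain ⟨δ, hδ, rfl⟩ := h.exists_mul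
  rw [map_mul, (show eps δ = 1 from H.leD hδ), mul_one]

theorem sh_ee {x y : Q} (h : Sh D x y) : eeC eps y = eeC eps x := by
  unfold eeC
  rw [sh_eps H h]

theorem rf_shf {m : Q} (hm : m ∈ D) (x : Q) : rfC eps (B.q a) (shf eps (B.q a) m x) = rfC eps (B.q a) x * m := by
  have h1 := sh_eps H (sh_shf H hm x)
  unfold rfC
  rw [h1]
  unfold shf
  split_ifs
  · rfl
  · group

theorem U_shf {m : Q} (hm : m ∈ D) (n : ℕ) (x : Q) :
    (H.up.U ^ n) (shf eps (B.q a) m x) = rfC eps (B.q a) x * (m * uC (B.q a) (B.q b) (n + eeC eps x)) := by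
  have h1 := U_rf H (shf eps (B.q a) m x)
  rw [← h1, ← H.up.U_pow_add, C_U_uC H (eps_rf H _), sh_ee H (sh_shf H hm x), rf_shf H hm, add_comm, mul_assoc]

omit H in
theorem shf_one (x : Q) : shf eps (B.q a) 1 x = x := by
  unfold shf
  split_ifs <;> group

theorem shf_mul {m m' : Q} (hm : m ∈ D) (x : Q) :
    shf eps (B.q a) m' (shf eps (B.q a) m x) = shf eps (B.q a) (m * m') x := by
  have h1 := sh_eps H (sh_shf H hm x)
  conv_lhs => unfold shf
  rw [show eps (if eps x = 1 then x * m else x * ((B.q a)⁻¹ * m * B.q a)) = eps x from h1]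
  unfold shf
  split_ifs
  · rw [mul_assoc]
  · group

theorem U_rf_pow (n : ℕ) (x : Q) :
    (H.up.U ^ n) x = rfC eps (B.q a) x * uC (B.q a) (B.q b) (n + eeC eps x) := by
  have := U_shf H D.one_mem n x
  rwa [shf_one, one_mul] at this

end

section

variable {S : Type} [Fintype S] {Q : Type} [Group Q] {B : Lb.{0, 0} Q} {a b : B.L} {eps : Q →* ℤˣ} {D : Subgroup Q}
  {z : Q} {k : ℕ} (H : HypC B a b eps D z k) {g : S → Q}

include H

/-- The shifts are vertical blocks. -/
theorem exists_shift (inj : Function.Injective g) (hg : DCl D g) {μ : S → Q} (hμ : ∀ s, μ s ∈ mZ B a b D z k)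
    (hc : ShC D g μ) : ∃ π : Equiv.Perm S, (∀ s, g (π s) = shf eps (B.q a) (μ s) (g s)) ∧
      (∀ s, Sh D (g s) (g (π s))) ∧ ∀ l, ∃ p : S → List B.L, VBk H.up g l (2 * k * (k + 1)) π p ∧
        (∀ s, VWd H.up D ((H.up.U ^ l) (g s)) (p s)) ∧ ∀ s, (p s).length = 2 * k * (k + 1) := by
  have hex : ∀ s, ∃ s', g s' = shf eps (B.q a) (μ s) (g s) := by
    intro s
    obtain ⟨δ, hδ, h⟩ := (sh_shf H (mZ_le H (hμ s)) (g s)).exists_mul
    rw [h]
    exact hg s δ hδ
  choose φ hφ using hex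
  have hsh : ∀ s, Sh D (g s) (g (φ s)) := fun s => by rw [hφ]; exact sh_shf H (mZ_le H (hμ s)) _
  have hinj : Function.Injective φ := by
    intro s s' h
    have h1 : Sh D (g s) (g s') := (hsh s).trans (by rw [h]; exact (hsh s').symm)
    have h2 := hφ s
    rw [h, hφ s', hc s s' h1] at h2
    unfold shf at h2
    rw [sh_eps H h1] at h2
    split_ifs at h2 with h3
    · exact (inj (mul_right_cancel h2)).symm
    · exact (inj (mul_right_cancel h2)).symm
  let π : Equiv.Perm S := Equiv.ofBijective φ (Finite.injective_iff_bijective.1 hinj)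
  refine ⟨π, hφ, hsh, fun l => ?_⟩
  choose L hL1 hL2 hL3 hL4 using fun m : mZ B a b D z k => exists_word H m.2
  let mm : S → mZ B a b D z k := fun s =>
    ⟨((B.q a * (B.q b)⁻¹) ^ ((l + eeC eps (g s)) / 2))⁻¹ * μ s * (B.q a * (B.q b)⁻¹) ^ ((l + eeC eps (g s)) / 2),
      mZ_conj H (hμ s) _⟩
  let wd : S → List B.L := fun s => if (l + eeC eps (g s)) % 2 = 0 then flat ((a, b) :: L (mm s)) else
    B.inv b :: (flat (L (mm s)) ++ [a])
  have hN : ∀ s, (wd s).length = 2 * k * (k + 1) := by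
    intro s
    have h1 := hL3 (mm s)
    have h2 : 2 * k * (k + 1) = 2 * ((L (mm s)).length + 1) := by rw [h1]; ring
    show (if _ then _ else _ : List B.L).length = _
    split_ifs
    · rw [flat_length, List.length_cons, h2]
    · rw [List.length_cons, List.length_append, flat_length, List.length_singleton, h2]
      ring
  have hv : ∀ s, (H.up.U ^ l) (g s) = rfC eps (B.q a) (g s) * uC (B.q a) (B.q b) (l + eeC eps (g s)) := fun s =>
    U_rf_pow H l (g s)
  have hz : ∀ x : Q, eps x = 1 → x * z ^ (k * (k + 1)) = z ^ (k * (k + 1)) * x := fun x hx =>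
    ((show Commute x z from H.cen x hx).pow_right _).eq
  have hVW : ∀ s, VWd H.up D ((H.up.U ^ l) (g s)) (wd s) := by
    intro s
    rw [hv]
    show VWd H.up D _ (if _ then _ else _)
    have h1 := eps_uC H (eps_rf H (g s)) (l + eeC eps (g s))
    have hp : ∀ p ∈ (a, b) :: L (mm s), NrP a b D p := fun p hp => by
      rcases List.mem_cons.1 hp with rfl | h
      · exact hL2 (mm s)
      · exact hL1 _ p h
    split_ifs with h
    · exact flat_vwd H hp (h1.2 h)
    · have h2 : eps (rfC eps (B.q a) (g s) * uC (B.q a) (B.q b) (l + eeC eps (g s))) ≠ 1 := fun k => h (h1.1 k)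
      set y := rfC eps (B.q a) (g s) * uC (B.q a) (B.q b) (l + eeC eps (g s)) with hy
      have h3 : eps (y * B.q (B.inv b)) = 1 := by
        rw [B.q_inv, map_mul, map_inv, H.eb]
        rcases Int.units_eq_one_or (eps y) with h4 | h4
        · exact absurd h4 h2
        · rw [h4]; decide
      refine ⟨?_, ?_⟩
      · rw [H31.C_U_neg H h2, B.q_inv]
        exact Sh.refl _
      · refine VWd.append (flat_vwd H (hL1 (mm s)) h3) ⟨?_, trivial⟩
        rw [flat_fin]
        have h5 : eps (y * B.q (B.inv b) * prd (L (mm s))) = 1 := by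
          rw [map_mul, h3, one_mul]
          have h6 := congrArg eps (hL4 (mm s))
          have h7 : prd ((a, b) :: L (mm s)) = B.q a * (B.q b)⁻¹ * prd (L (mm s)) := rfl
          rw [h7, map_mul, H31.C_eps_w H, one_mul, map_mul, map_pow, H31.C_eps_z H, one_pow, one_mul] at h6
          rw [h6]
          exact H.leD (mZ_le H (mm s).2)
        rw [H31.C_U_one H h5]
        exact Sh.refl _
  obtain ⟨π', h1, h2⟩ := exists_vbk inj (shuC H) hg _ l wd hN hVW (fun s s' hs => by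
    have e1 : mm s = mm s' := Subtype.ext (by
      show ((B.q a * (B.q b)⁻¹) ^ ((l + eeC eps (g s)) / 2))⁻¹ * μ s * (B.q a * (B.q b)⁻¹) ^ ((l + eeC eps (g s)) / 2) =
        ((B.q a * (B.q b)⁻¹) ^ ((l + eeC eps (g s')) / 2))⁻¹ * μ s' *
          (B.q a * (B.q b)⁻¹) ^ ((l + eeC eps (g s')) / 2)
      rw [hc s s' hs, sh_ee H hs])
    show (if _ then _ else _) = (if _ then _ else _)
    rw [e1, sh_ee H hs])
  have h3 : π' = π := by
    refine Equiv.ext fun s => ?_
    have e0 : π s = φ s := rfl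
    rw [e0]
    refine inj ((H.up.U ^ (l + 2 * k * (k + 1))).injective ?_)
    rw [← h1.fin, hφ s, H.up.U_pow_add, U_shf H (mZ_le H (hμ s)), C_pow_mul H, hv]
    show B.fin _ (if _ then _ else _) = _
    have e1 : ((mm s : mZ B a b D z k) : Q) = ((B.q a * (B.q b)⁻¹) ^ ((l + eeC eps (g s)) / 2))⁻¹ * μ s *
      (B.q a * (B.q b)⁻¹) ^ ((l + eeC eps (g s)) / 2) := rfl
    have e2 : prd ((a, b) :: L (mm s)) = B.q a * (B.q b)⁻¹ * prd (L (mm s)) := rfl
    have e3 := hL4 (mm s)
    have hr := eps_rf H (g s)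
    have hm : eps (μ s) = 1 := H.leD (mZ_le H (hμ s))
    have e4 : ∀ j : ℕ, eps (rfC eps (B.q a) (g s) * (B.q a * (B.q b)⁻¹) ^ j) = 1 := fun j => by
      rw [map_mul, map_pow, H31.C_eps_w H, hr, one_pow, one_mul]
    split_ifs with h
    · obtain ⟨j, hj⟩ : ∃ j, l + eeC eps (g s) = 2 * j := ⟨(l + eeC eps (g s)) / 2, by omega⟩
      rw [flat_fin, e3, e1, hj, uC_even, Nat.mul_div_cancel_left _ (by omega : 0 < 2), ← mul_assoc, hz _ (e4 j)]
      group
    · obtain ⟨j, hj⟩ : ∃ j, l + eeC eps (g s) = 2 * j + 1 := ⟨(l + eeC eps (g s)) / 2, by omega⟩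
      show B.fin _ (flat (L (mm s)) ++ [a]) = _
      rw [fin_append, flat_fin]
      show _ * B.q a = _
      have e5 : prd (L (mm s)) = B.q b * (B.q a)⁻¹ * (z ^ (k * (k + 1)) * (mm s : mZ B a b D z k)) := by
        rw [← e3, e2]; group
      rw [e5, e1, hj, uC_odd, show (2 * j + 1) / 2 = j by omega, B.q_inv]
      have e6 := hz _ (e4 j)
      calc rfC eps (B.q a) (g s) * ((B.q a * (B.q b)⁻¹) ^ j * B.q a) * (B.q b)⁻¹ *
            (B.q b * (B.q a)⁻¹ * (z ^ (k * (k + 1)) * (((B.q a * (B.q b)⁻¹) ^ j)⁻¹ * μ s * (B.q a * (B.q b)⁻¹) ^ j))) *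
            B.q a =
            rfC eps (B.q a) (g s) * (B.q a * (B.q b)⁻¹) ^ j * z ^ (k * (k + 1)) *
              (((B.q a * (B.q b)⁻¹) ^ j)⁻¹ * μ s * (B.q a * (B.q b)⁻¹) ^ j) * B.q a := by group
        _ = z ^ (k * (k + 1)) * (rfC eps (B.q a) (g s) * (B.q a * (B.q b)⁻¹) ^ j) *
              (((B.q a * (B.q b)⁻¹) ^ j)⁻¹ * μ s * (B.q a * (B.q b)⁻¹) ^ j) * B.q a := by rw [e6]
        _ = _ := by group
  rw [h3] at h1
  exact ⟨wd, h1, hVW, hN⟩

end

end Pool.Agent.Lib.MP_688fd0_co.SQ4
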