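import Pool.Agent.Lib.MP_688fd0_co.SQ4.H98.FamB

/-!
Classes of rungs on the sheets of a frontier: `D` is a normal subgroup, `up` is constant on the cosets `x D`, the strands
are closed under the right multiplication by `D`.
-/

set_option autoImplicit false

namespace Pool.Agent.Lib.MP_688fd0_co.SQ4

open Pool.Agent.Lib.MP_688fd0_co.OSF Pool.Agent.Lib.MP_688fd0_co.SQ2 Pool.Agent.Lib.MP_688fd0_co.SQ3
open SQ2.V (Puz Sub)

universe v

/-- The same sheet. -/
def Sh {Q : Type} [Group Q] (D : Subgroup Q) (x y : Q) : Prop := x⁻¹ * y ∈ D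

section sh

variable {Q : Type} [Group Q] {D : Subgroup Q}

theorem Sh.refl (x : Q) : Sh D x x := by
  unfold Sh
  rw [inv_mul_cancel]
  exact D.one_mem

theorem Sh.symm {x y : Q} (h : Sh D x y) : Sh D y x := by
  unfold Sh at *
  have := D.inv_mem h
  rwa [mul_inv_rev, inv_inv] at this

theorem Sh.trans {x y z : Q} (h : Sh D x y) (h' : Sh D y z) : Sh D x z := by
  unfold Sh at *
  have := D.mul_mem h h'
  rwa [mul_assoc, mul_inv_cancel_left] at this

theorem Sh.mul_left {x y : Q} (h : Sh D x y) (u : Q) : Sh D (u * x) (u * y) := by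
  unfold Sh at *
  rwa [mul_inv_rev, mul_assoc, inv_mul_cancel_left]

theorem Sh.mul_left_iff {x y : Q} (u : Q) : Sh D (u * x) (u * y) ↔ Sh D x y :=
  ⟨fun h => by simpa using h.mul_left u⁻¹, fun h => h.mul_left u⟩

theorem Sh.mul_mem (x : Q) {δ : Q} (h : δ ∈ D) : Sh D x (x * δ) := by
  unfold Sh
  rwa [inv_mul_cancel_left]

theorem Sh.exists_mul {x y : Q} (h : Sh D x y) : ∃ δ ∈ D, y = x * δ := ⟨_, h, (mul_inv_cancel_left _ _).symm⟩

theorem Sh.mul_right (hD : D.Normal) {x y : Q} (h : Sh D x y) (q : Q) : Sh D (x * q) (y * q) := by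
  unfold Sh at *
  have := hD.conj_mem _ h q⁻¹
  rw [inv_inv] at this
  rw [mul_inv_rev]
  simpa [mul_assoc] using this

theorem Sh.mul_right_iff (hD : D.Normal) {x y : Q} (q : Q) : Sh D (x * q) (y * q) ↔ Sh D x y :=
  ⟨fun h => by simpa [mul_assoc] using h.mul_right hD q⁻¹, fun h => h.mul_right hD q⟩

end sh

/-- The labels up are constant on the sheets. -/
structure ShU {Q : Type} [Group Q] {B : Lb.{0, v} Q} (U : Up B) (D : Subgroup Q) : Prop where
  nrm : D.Normal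
  up : ∀ x, ∀ δ ∈ D, U.up (x * δ) = U.up x

section shu

variable {Q : Type} [Group Q] {B : Lb.{0, v} Q} {U : Up B} {D : Subgroup Q} (hU : ShU U D)

include hU

theorem ShU.sh_up {x y : Q} (h : Sh D x y) : U.up y = U.up x := by
  obtain ⟨δ, hδ, rfl⟩ := h.exists_mul
  exact hU.up x δ hδ

theorem ShU.upp {x y : Q} (h : Sh D x y) : Sh D (U.U x) (U.U y) := by
  rw [U.hU, U.hU, hU.sh_up h]
  exact h.mul_right hU.nrm _

theorem ShU.pow {x y : Q} (n : ℕ) (h : Sh D x y) : Sh D ((U.U ^ n) x) ((U.U ^ n) y) := by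
  induction n with
  | zero => exact h
  | succ n ih => rw [U.U_pow_succ', U.U_pow_succ']; exact hU.upp ih

/-- The vertices in the sheet of `U x` are the images of the sheet of `x`. -/
theorem ShU.pre {x v : Q} (h : Sh D (U.U x) v) : ∃ y, Sh D x y ∧ U.U y = v := by
  obtain ⟨δ, hδ, rfl⟩ := h.exists_mul
  refine ⟨x * (B.q (U.up x) * δ * (B.q (U.up x))⁻¹), Sh.mul_mem _ (hU.nrm.conj_mem _ hδ _), ?_⟩
  have h1 : U.up (x * (B.q (U.up x) * δ * (B.q (U.up x))⁻¹)) = U.up x := hU.up _ _ (hU.nrm.conj_mem _ hδ _)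
  rw [U.hU, h1, U.hU]
  group

theorem ShU.pre_pow {x v : Q} (n : ℕ) (h : Sh D ((U.U ^ n) x) v) : ∃ y, Sh D x y ∧ (U.U ^ n) y = v := by
  induction n generalizing v with
  | zero => exact ⟨v, h, rfl⟩
  | succ n ih =>
    rw [U.U_pow_succ'] at h
    obtain ⟨v', h1, h2⟩ := hU.pre h
    obtain ⟨y, h3, h4⟩ := ih h1
    exact ⟨y, h3, by rw [U.U_pow_succ', h4, h2]⟩

theorem ShU.pow_iff {x y : Q} (n : ℕ) : Sh D ((U.U ^ n) x) ((U.U ^ n) y) ↔ Sh D x y := by
  refine ⟨fun h => ?_, hU.pow n⟩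
  obtain ⟨y', h1, h2⟩ := hU.pre_pow n h
  rwa [← (U.U ^ n).injective h2]

end shu

/-- The strands are closed under the right multiplication by `D`. -/
def DCl {S Q : Type} [Group Q] (D : Subgroup Q) (g : S → Q) : Prop := ∀ s, ∀ δ ∈ D, ∃ s', g s' = g s * δ

section strands

variable {S : Type} {Q : Type} [Group Q] {B : Lb.{0, v} Q} {U : Up B} {D : Subgroup Q} {g : S → Q}

/-- A vertex in the sheet of a strand at the level `l` lies on a strand of the same sheet. -/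
theorem DCl.lift (hg : DCl D g) (hU : ShU U D) {l : ℕ} {s : S} {v : Q} (h : Sh D ((U.U ^ l) (g s)) v) :
    ∃ s', Sh D (g s) (g s') ∧ (U.U ^ l) (g s') = v := by
  obtain ⟨y, h1, h2⟩ := hU.pre_pow l h
  obtain ⟨δ, hδ, rfl⟩ := h1.exists_mul
  obtain ⟨s', hs'⟩ := hg s δ hδ
  exact ⟨s', by rw [hs']; exact h1, by rw [hs']; exact h2⟩

/-- A set of strands which is a union of sheets. -/
def ShCl (D : Subgroup Q) (g : S → Q) (Y : S → Prop) : Prop := ∀ s s', Y s → Sh D (g s) (g s') → Y s'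

end strands

section cls

variable {S : Type} [Fintype S] {Q : Type} [Group Q] [DecidableEq Q] {B : Lb.{0, v} Q} {U : Up B} {D : Subgroup Q}
  {g : S → Q} {inj : Function.Injective g} {e : ℕ} {ζ : Q}

/-- A class from labels that are constant on the sheets: `tg k s` is a strand in the target sheet of `s`. -/
theorem exists_isL_sheets (hU : ShU U D) (hg : DCl D g) (he : 0 < e) (hper : Per U e ζ) (o : S → ℕ)
    (ho : ∀ s s', Sh D (g s) (g s') → o s = o s')
    (inj' : Function.Injective fun s => (U.U ^ o s) (g s)) (O : ℕ) (hO : ∀ s, o s ≤ O) {Y : S → Prop}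
    (hY : ShCl D g Y) {ρ : ZMod e → S → B.L} (hρ : ∀ k s s', Y s → Sh D (g s) (g s') → ρ k s = ρ k s')
    (tg : ZMod e → S → S) (h1 : ∀ k s, Y s → Y (tg k s))
    (h2 : ∀ (k : ZMod e) (s : S), Y s →
      Sh D ((U.U ^ k.val) ((U.U ^ o s) (g s)) * B.q (ρ k s)) ((U.U ^ k.val) ((U.U ^ o (tg k s)) (g (tg k s)))))
    (h3 : ∀ (k : ZMod e) (s s' : S), Y s → Y s' → Sh D (g (tg k s)) (g (tg k s')) → Sh D (g s) (g s')) :
    ∃ (P : ZMod e → Equiv.Perm S) (X : ClsW U g inj e (ZMod e × {s // Y s})), IsL ζ o O P ρ X ∧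
      ∀ k s, Y s → Sh D (g (tg k s)) (g (P k s)) := by
  have h4 : ∀ (k : ZMod e) (s : S), Y s → ∃ s', Sh D (g (tg k s)) (g s') ∧
      (U.U ^ k.val) ((U.U ^ o s) (g s)) * B.q (ρ k s) = (U.U ^ k.val) ((U.U ^ o s') (g s')) := by
    intro k s hs
    have h5 := (h2 k s hs).symm
    rw [shU] at h5
    obtain ⟨s', h6, h7⟩ := hg.lift hU h5
    refine ⟨s', h6, ?_⟩
    rw [← h7, shU, ho _ _ h6]
  obtain ⟨P, X, hX⟩ := exists_isL (inj := inj) he hper o inj' O hO (D := Y) (ρ := ρ) (fun k s hs => by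
      obtain ⟨s', h6, h7⟩ := h4 k s hs
      exact ⟨s', hY _ _ (h1 k s hs) h6, h7⟩) (fun k s s' hs hs' h => by
      obtain ⟨t, h6, h7⟩ := h4 k s hs
      obtain ⟨t', h8, h9⟩ := h4 k s' hs'
      rw [h7, h9] at h
      have h10 : t = t' := inj' ((U.U ^ k.val).injective h)
      rw [← h10] at h8
      have h11 : Sh D (g s) (g s') := h3 k s s' hs hs' (h6.trans h8.symm)
      rw [← h7] at h
      rw [← h9, ← hρ k s s' hs h11] at h
      exact inj' ((U.U ^ k.val).injective (mul_right_cancel h)))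
  refine ⟨P, X, hX, fun k s hs => ?_⟩
  obtain ⟨s', h6, h7⟩ := h4 k s hs
  have h8 := hX.hP k s hs
  rw [h7] at h8
  rwa [← inj' ((U.U ^ k.val).injective h8)]

/-- The class of a label of `D` on a union of sheets. -/
theorem exists_N (hU : ShU U D) (hg : DCl D g) (he : 0 < e) (hper : Per U e ζ) {Y : S → Prop} (hY : ShCl D g Y)
    {t : B.L} (ht : B.q t ∈ D) :
    ∃ (P : ZMod e → Equiv.Perm S) (X : ClsW U g inj e (ZMod e × {s // Y s})),
      IsL ζ (fun _ => 0) 0 P (fun _ _ => t) X ∧ ∀ k s, Y s → Sh D (g s) (g (P k s)) :=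
  exists_isL_sheets hU hg he hper (fun _ => 0) (fun _ _ _ => rfl) (fun _ _ h => inj h) 0 (fun _ => le_rfl) hY
    (fun _ _ _ _ _ => rfl) (fun _ s => s) (fun _ _ h => h) (fun _ _ _ => (Sh.mul_mem _ ht).symm)
    (fun _ _ _ _ _ h => h)

end cls

end Pool.Agent.Lib.MP_688fd0_co.SQ4
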