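import Pool.Agent.Lib.MP_688fd0_co.SQ4.H98.FamK

/-!
Classes of rungs of height 1 (a near reflection at one level mod `e`).
-/

set_option autoImplicit false

namespace Pool.Agent.Lib.MP_688fd0_co.SQ4

open Pool.Agent.Lib.MP_688fd0_co.OSF Pool.Agent.Lib.MP_688fd0_co.SQ2 Pool.Agent.Lib.MP_688fd0_co.SQ3
open SQ2.V (Puz Sub)

universe v

/-- The involution which extends a bijection between two disjoint sets. -/
theorem exists_swap {S : Type} {D₀ D₁ : S → Prop} (hd : ∀ y, D₀ y → ¬ D₁ y) (φ : S → S) (h0 : ∀ y, D₀ y → D₁ (φ y))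
    (h1 : ∀ y y', D₀ y → D₀ y' → φ y = φ y' → y = y') (h2 : ∀ y', D₁ y' → ∃ y, D₀ y ∧ φ y = y') :
    ∃ σ : Equiv.Perm S, (∀ y, D₀ y → σ y = φ y) ∧ (∀ y, σ (σ y) = y) ∧ (∀ y, D₁ y → D₀ (σ y)) ∧
      ∀ y, ¬ D₀ y → ¬ D₁ y → σ y = y := by
  classical
  choose! ψ hψ1 hψ2 using h2
  let f : S → S := fun y => if D₀ y then φ y else if D₁ y then ψ y else y
  have f0 : ∀ y, D₀ y → f y = φ y := fun y hy => if_pos hy
  have f1 : ∀ y, D₁ y → f y = ψ y := fun y hy => by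
    show (if D₀ y then _ else _) = _
    rw [if_neg fun k => hd y k hy, if_pos hy]
  have hf : ∀ y, f (f y) = y := by
    intro y
    by_cases a0 : D₀ y
    · rw [f0 y a0, f1 _ (h0 y a0)]
      exact h1 _ _ (hψ1 _ (h0 y a0)) a0 (hψ2 _ (h0 y a0))
    · by_cases a1 : D₁ y
      · rw [f1 y a1, f0 _ (hψ1 y a1)]
        exact hψ2 y a1
      · have : f y = y := by
          show (if D₀ y then _ else _) = _
          rw [if_neg a0, if_neg a1]
        rw [this, this]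
  refine ⟨⟨f, f, hf, hf⟩, f0, hf, fun y hy => ?_, fun y a0 a1 => ?_⟩
  · show D₀ (f y)
    rw [f1 y hy]
    exact hψ1 y hy
  · show (if D₀ y then _ else _) = _
    rw [if_neg a0, if_neg a1]

section

variable {S : Type} [Fintype S] {Q : Type} [Group Q] [DecidableEq Q] {B : Lb.{0, v} Q} {U : Up B}
  {g : S → Q} {inj : Function.Injective g} {e : ℕ} {ζ : Q}

/-- A class of height 1: the rungs join `y` and `σ y`, `y` in `D₀`. -/
structure IsN (ζ : Q) (κ : ZMod e) {D₀ : S → Prop} (P : ZMod e → Equiv.Perm S) (σ : Equiv.Perm S) (s : B.L) (h : ℕ)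
    (X : ClsW U g inj e {y // D₀ y}) : Prop where
  lev : ∀ r, X.lev r = κ.val
  x : ∀ r, X.x r = r
  y : ∀ r, X.y r = σ r
  H_le : ∀ r, X.H r ≤ h
  dis : ∀ y, D₀ y → ¬ D₀ (σ y)
  invo : ∀ y, σ (σ y) = y
  out : ∀ y, ¬ D₀ y → ¬ D₀ (σ y) → σ y = y
  hP : ∀ k y, D₀ y → D₀ (P k y)
  clo : ∀ A : S → Prop, (∀ k s, A s → A (P k s)) → (∀ s, A s → A (σ s)) → X.Clo A
  th : ∀ A : S → Prop, (∀ k s, A s → A (P k s)) → (∀ s, A s → A (σ s)) → ∀ (F : Type) [CommRing F] (V : Ev B F)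
    (c : F), (∀ x, V.e x (U.up x) = c) → X.Th V A c
  vol : ∀ (F : Type) [CommRing F] (V : Ev B F) (c : F), V.Inv ζ → (∀ x, V.e x (U.up x) = c) →
    X.Cu V fun r => V.e ((U.U ^ κ.val) (g r)) s - c

/-- Classes of height 1. -/
theorem exists_isN (he : 2 ≤ e) (hper : Per U e ζ) {κ : ZMod e} {P : ZMod e → Equiv.Perm S} {ρ : ZMod e → S → B.L}
    {s : B.L} {D₀ D₁ : S → Prop} (hd : ∀ y, D₀ y → ¬ D₁ y)
    (hP : ∀ (k : ZMod e) (y : S), D₀ y ∨ D₁ y → (U.U ^ k.val) (g y) * B.q (ρ k y) = (U.U ^ k.val) (g (P k y)))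
    (hP0 : ∀ k y, D₀ y → D₀ (P k y)) (hP1 : ∀ k y, D₁ y → D₁ (P k y))
    (hS : ∀ y, D₀ y → ∃ y', D₁ y' ∧ (U.U ^ κ.val) (g y) * B.q s = (U.U ^ (κ.val + 1)) (g y'))
    (hS' : ∀ y', D₁ y' → ∃ y, D₀ y ∧ (U.U ^ κ.val) (g y) * B.q s = (U.U ^ (κ.val + 1)) (g y')) :
    ∃ (σ : Equiv.Perm S) (X : ClsW U g inj e {y // D₀ y}),
      IsN ζ κ P σ s (e * (Fintype.card S) ^ 2 + 1) X ∧
      (∀ y, D₀ y → (U.U ^ κ.val) (g y) * B.q s = (U.U ^ (κ.val + 1)) (g (σ y))) ∧ ∀ y, D₀ y ↔ D₁ (σ y) := by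
  have : NeZero e := ⟨by omega⟩
  choose! φ hφ1 hφ2 using hS
  obtain ⟨σ, s1, s2, s3, s4⟩ := exists_swap hd φ hφ1 (fun y y' hy hy' h => by
    have h1 := hφ2 y hy
    rw [h, ← hφ2 y' hy'] at h1
    exact inj ((U.U ^ κ.val).injective (mul_right_cancel h1))) (fun y' hy' => by
    obtain ⟨y, h1, h2⟩ := hS' y' hy'
    refine ⟨y, h1, ?_⟩
    rw [hφ2 y h1] at h2
    exact inj ((U.U ^ (κ.val + 1)).injective h2))
  have hpow : ∀ (l n : ℕ) (k : ZMod e), (l : ZMod e) = k → ∀ x, (U.U ^ (l + n)) x = ζ ^ (l / e) * (U.U ^ (k.val + n)) x := by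
    intro l n k hk x
    rw [← hk, ZMod.val_natCast, ← per_mul hper, ← U.U_pow_add]
    congr 2
    have := Nat.mod_add_div l e
    omega
  have hφσ : ∀ y, D₀ y → D₁ (σ y) := fun y hy => by rw [s1 y hy]; exact hφ1 y hy
  have hDS : ∀ y, D₀ y ∨ D₁ y → D₀ (σ y) ∨ D₁ (σ y) := fun y hy => hy.elim (fun h => Or.inr (hφσ y h))
    fun h => Or.inl (s3 y h)
  have hTR : ∀ k y, (¬ D₀ (P k y)) ↔ ¬ D₀ y := fun k y => not_congr (perm_iff (hP0 k) y)
  have hTS : ∀ y, D₀ y ∨ D₁ y → ((¬ D₀ (σ y)) ↔ ¬ ¬ D₀ y) := by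
    intro y hy
    constructor
    · intro h h'
      rcases hy with hy | hy
      · exact h' hy
      · exact h (s3 y hy)
    · intro h
      have hy' : D₀ y := by by_contra h'; exact h h'
      exact fun h' => hd _ h' (hφσ y hy')
  obtain ⟨X, hX⟩ := exists_isM (inj := inj) he hper (κ := κ) (P := P) (ρ := ρ) (σ := σ) (s := s)
    (D := fun y => D₀ y ∨ D₁ y) (T := fun y => ¬ D₀ y) (fun l y hy => by
      have h1 := hP (l : ZMod e) y hy
      have h2 := hpow l 0 (l : ZMod e) rfl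
      simp only [add_zero] at h2
      rw [h2, h2, mul_assoc, h1]) (fun l y hl _ hy => by
      have hy' : D₀ y := by by_contra h; exact hy h
      have h1 := hφ2 y hy'
      have h2 := hpow l 0 κ hl
      simp only [add_zero] at h2
      rw [h2, hpow l 1 κ hl, mul_assoc, h1, s1 y hy']) hDS
    (fun k y hy => hy.imp (hP0 k y) (hP1 k y)) hTS hTR
  · -- renaming of the rungs
    let E : {y // D₀ y} ≃ {y // (D₀ y ∨ D₁ y) ∧ ¬ ¬ D₀ y} :=
      { toFun := fun y => ⟨y, Or.inl y.2, fun h => h y.2⟩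
        invFun := fun y => ⟨y, by by_contra h; exact y.2.2 h⟩
        left_inv := fun y => rfl
        right_inv := fun y => rfl }
    refine ⟨σ, X.re E, ⟨fun r => hX.lev _, fun r => hX.x _, fun r => hX.y _, fun r => ?_, fun y hy h => ?_, s2,
      fun y h1 h2 => ?_, hP0, fun A h1 h2 => (hX.clo A h1 h2).re E, fun A h1 h2 F _ V c hz =>
      (hX.th A h1 h2 F V c hz).re E, fun F _ V c hV hz => ?_⟩, fun y hy => ?_, fun y => ⟨hφσ y, fun h => ?_⟩⟩
    · obtain ⟨k, _, h2, h3⟩ := hX.H_eq (E r)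
      show X.H (E r) ≤ _
      rw [h3]
      exact Nat.add_le_add_right (Nat.mul_le_mul_left e h2) 1
    · exact hd _ h (hφσ y hy)
    · by_cases h3 : D₁ y
      · exact absurd (s3 y h3) h2
      · exact s4 y h1 h3
    · exact (hX.vol F V c hV hz).re E
    · rw [hφ2 y hy, s1 y hy]
    · have := s3 (σ y) h
      rwa [s2] at this

end

end Pool.Agent.Lib.MP_688fd0_co.SQ4
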