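import Pool.Agent.Lib.MP_688fd0_co.SQ4.H98.FamFS
import Pool.Agent.Lib.MP_688fd0_co.SQ4.H98.FamN

/-!
Type C1: the classes `ND` of a near reflection: rungs of height 1 at one level mod `2 k`, between two cosets of a
subgroup `E` that contains the rotations at all levels.
-/

set_option autoImplicit false

namespace Pool.Agent.Lib.MP_688fd0_co.SQ4

open Pool.Agent.Lib.MP_688fd0_co.OSF Pool.Agent.Lib.MP_688fd0_co.SQ2 Pool.Agent.Lib.MP_688fd0_co.SQ3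
open SQ2.V (Puz Sub)

/-- The coset `E` of the strand `y₀` (strands of the sheet of `y₀` whose reference vertex lies in `rf (g y₀) E`). -/
def DN {S Q : Type} [Group Q] (eps : Q →* ℤˣ) (α : Q) (D E : Subgroup Q) (g : S → Q) (y₀ : S) (s : S) : Prop :=
  Sh D (g y₀) (g s) ∧ (rfC eps α (g y₀))⁻¹ * rfC eps α (g s) ∈ E

section

variable {S : Type} [Fintype S] {Q : Type} [Group Q] [DecidableEq Q] {B : Lb.{0, 0} Q} {a b : B.L} {eps : Q →* ℤˣ}
  {D : Subgroup Q} {z : Q} {k : ℕ} (H : HypC B a b eps D z k) {g : S → Q} {inj : Function.Injective g}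

include H

omit [Fintype S] [DecidableEq Q] in
theorem exists_strand (hg : DCl D g) (s : S) {m : Q} (hm : m ∈ D) :
    ∃ s', Sh D (g s) (g s') ∧ rfC eps (B.q a) (g s') = rfC eps (B.q a) (g s) * m := by
  obtain ⟨δ, hδ, h⟩ := (sh_shf H hm (g s)).exists_mul
  obtain ⟨s', hs'⟩ := hg s δ hδ
  refine ⟨s', by rw [hs']; exact Sh.mul_mem _ hδ, ?_⟩
  rw [hs', ← h, rf_shf H hm]

omit [Fintype S] [DecidableEq Q] in
theorem rf_mem {x y : Q} (h : Sh D x y) : (rfC eps (B.q a) x)⁻¹ * rfC eps (B.q a) y ∈ D := by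
  unfold rfC
  rw [sh_eps H h]
  split_ifs
  · exact h
  · have h1 := mem_conj H h (B.q a)
    have h2 : (x * (B.q a)⁻¹)⁻¹ * (y * (B.q a)⁻¹) = B.q a * (x⁻¹ * y) * (B.q a)⁻¹ := by group
    rw [h2]
    exact h1

/-- The class `ND`, plain position. -/
theorem exists_NDQ (hg : DCl D g) {E : Subgroup Q} {r s : B.L} {κ : ZMod (2 * k)} {y₀ : S}
    (hr : eps (B.q r) = 1) (hrE : ∀ n, uC (B.q a) (B.q b) n * B.q r * (uC (B.q a) (B.q b) n)⁻¹ ∈ E)
    (hs : VL B a b D (κ.val + eeC eps (g y₀)) s) {τ : Q}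
    (hτ : τ = mvC (B.q a) (B.q b) (κ.val + eeC eps (g y₀)) (B.q s)) (hτE : τ ∉ E)
    (hτn : ∀ x ∈ E, τ * x * τ⁻¹ ∈ E) :
    ∃ (P : ZMod (2 * k) → Equiv.Perm S) (σ : Equiv.Perm S)
      (X : ClsW H.up g inj (2 * k) {y // DN eps (B.q a) D E g y₀ y}),
      IsN (z ^ k) κ P σ s (2 * k * (Fintype.card S) ^ 2 + 1) X ∧
      (∀ y, DN eps (B.q a) D E g y₀ y → Sh D (g y) (g (σ y)) ∧
        rfC eps (B.q a) (g (σ y)) = rfC eps (B.q a) (g y) * τ) ∧
      (∀ i y, Sh D (g y₀) (g y) → Sh D (g y) (g (P i y)) ∧ rfC eps (B.q a) (g (P i y)) = rfC eps (B.q a) (g y) *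
        (uC (B.q a) (B.q b) (i.val + eeC eps (g y)) * B.q r * (uC (B.q a) (B.q b) (i.val + eeC eps (g y)))⁻¹)) ∧
      ∀ i y, ¬ Sh D (g y₀) (g y) → P i y = y := by
  have hk2 : 2 ≤ 2 * k := by have := H.kpos; omega
  have hτD : τ ∈ D := by rw [hτ]; exact mvC_mem H hs
  obtain ⟨P, X₀, hX₀, hPs⟩ := exists_N (inj := inj) (shuC H) hg (by omega) (perC H) (Y := fun y => Sh D (g y₀) (g y))
    (fun s s' h h' => h.trans h') (H.near r hr)
  have hP : ∀ (i : ZMod (2 * k)) (y : S), Sh D (g y₀) (g y) →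
      (H.up.U ^ i.val) (g y) * B.q r = (H.up.U ^ i.val) (g (P i y)) := fun i y hy => hX₀.hP i y hy
  have hrf : ∀ (i : ZMod (2 * k)) (y : S), Sh D (g y₀) (g y) → rfC eps (B.q a) (g (P i y)) = rfC eps (B.q a) (g y) *
      (uC (B.q a) (B.q b) (i.val + eeC eps (g y)) * B.q r * (uC (B.q a) (B.q b) (i.val + eeC eps (g y)))⁻¹) := by
    intro i y hy
    have h1 := hP i y hy
    rw [U_rf_pow H, U_rf_pow H, sh_ee H (hPs i y hy)] at h1
    rw [← mul_assoc, ← mul_assoc, eq_mul_inv_iff_mul_eq]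
    exact h1.symm
  let D₁ : S → Prop := fun y => Sh D (g y₀) (g y) ∧
    (rfC eps (B.q a) (g y₀))⁻¹ * rfC eps (B.q a) (g y) * τ⁻¹ ∈ E
  have hee : ∀ y, Sh D (g y₀) (g y) → eeC eps (g y) = eeC eps (g y₀) := fun y hy => sh_ee H hy
  have hmv : ∀ y y' : S, Sh D (g y₀) (g y) → Sh D (g y) (g y') →
      rfC eps (B.q a) (g y') = rfC eps (B.q a) (g y) * τ →
      (H.up.U ^ κ.val) (g y) * B.q s = (H.up.U ^ (κ.val + 1)) (g y') := by
    intro y y' h1 h2 h3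
    rw [U_rf_pow H, U_rf_pow H, h3, hee y h1, hee y' (h1.trans h2), hτ]
    unfold mvC
    rw [show κ.val + 1 + eeC eps (g y₀) = κ.val + eeC eps (g y₀) + 1 by ring]
    group
  obtain ⟨σ, X, hX, hσ, hσD⟩ := exists_isN (inj := inj) hk2 (perC H) (κ := κ) (P := P) (ρ := fun _ _ => r) (s := s)
    (D₀ := DN eps (B.q a) D E g y₀) (D₁ := D₁) (fun y h0 h1 => by
      refine hτE ?_
      have h2 := E.mul_mem (E.inv_mem h1.2) h0.2
      have h3 : ((rfC eps (B.q a) (g y₀))⁻¹ * rfC eps (B.q a) (g y) * τ⁻¹)⁻¹ *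
          ((rfC eps (B.q a) (g y₀))⁻¹ * rfC eps (B.q a) (g y)) = τ := by group
      rw [h3] at h2
      exact h2) (fun i y hy => hP i y (hy.elim (fun h => h.1) fun h => h.1)) (fun i y hy => by
      refine ⟨hy.1.trans (hPs i y hy.1), ?_⟩
      rw [hrf i y hy.1, ← mul_assoc]
      exact E.mul_mem hy.2 (hrE _)) (fun i y hy => by
      refine ⟨hy.1.trans (hPs i y hy.1), ?_⟩
      rw [hrf i y hy.1]
      have h2 := E.mul_mem hy.2 (hτn _ (hrE (i.val + eeC eps (g y))))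
      generalize uC (B.q a) (B.q b) (i.val + eeC eps (g y)) * B.q r *
        (uC (B.q a) (B.q b) (i.val + eeC eps (g y)))⁻¹ = u at h2 ⊢
      have h3 : (rfC eps (B.q a) (g y₀))⁻¹ * rfC eps (B.q a) (g y) * τ⁻¹ * (τ * u * τ⁻¹) =
          (rfC eps (B.q a) (g y₀))⁻¹ * (rfC eps (B.q a) (g y) * u) * τ⁻¹ := by group
      rw [h3] at h2
      exact h2) (fun y hy => by
      obtain ⟨y', h1, h2⟩ := exists_strand H hg y hτD
      refine ⟨y', ⟨hy.1.trans h1, ?_⟩, hmv y y' hy.1 h1 h2⟩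
      rw [h2]
      have h3 : (rfC eps (B.q a) (g y₀))⁻¹ * (rfC eps (B.q a) (g y) * τ) * τ⁻¹ =
          (rfC eps (B.q a) (g y₀))⁻¹ * rfC eps (B.q a) (g y) := by group
      rw [h3]
      exact hy.2) (fun y' hy' => by
      obtain ⟨y, h1, h2⟩ := exists_strand H hg y' (D.inv_mem hτD)
      refine ⟨y, ⟨hy'.1.trans h1, ?_⟩, hmv y y' (hy'.1.trans h1) h1.symm (by rw [h2]; group)⟩
      rw [h2, ← mul_assoc]
      exact hy'.2)
  refine ⟨P, σ, X, hX, fun y hy => ?_, fun i y hy => ⟨hPs i y hy, hrf i y hy⟩, fun i y hy => hX₀.out i y hy⟩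
  have h1 := hσ y hy
  have h2 : Sh D (g y) (g (σ y)) := hy.1.symm.trans ((hσD y).1 hy).1
  refine ⟨h2, ?_⟩
  rw [U_rf_pow H, U_rf_pow H, sh_ee H h2, hee y hy.1,
    show κ.val + 1 + eeC eps (g y₀) = κ.val + eeC eps (g y₀) + 1 by ring] at h1
  rw [hτ]
  unfold mvC
  rw [← mul_assoc, ← mul_assoc, eq_mul_inv_iff_mul_eq]
  exact h1.symm

end

end Pool.Agent.Lib.MP_688fd0_co.SQ4
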