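import Pool.Agent.Lib.MP_688fd0_co.SQ4.H98.IfaceF

/-!
Type C1: sums and parts of classes; the inner block.
-/

set_option autoImplicit false

namespace Pool.Agent.Lib.MP_688fd0_co.SQ4.CV

open Pool.Agent.Lib.MP_688fd0_co.OSF Pool.Agent.Lib.MP_688fd0_co.SQ2 Pool.Agent.Lib.MP_688fd0_co.SQ3
open Pool.Agent.Lib.MP_688fd0_co.SQ4
open SQ2.V (Puz)

section

variable {S : Type} [Fintype S] {Q : Type} [Group Q] [DecidableEq Q] {B : Lb.{0, 0} Q} {a b : B.L} {eps : Q →* ℤˣ}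
  {D : Subgroup Q} {z : Q} {k : ℕ} {H : HypC B a b eps D z k} {g : S → Q} {inj : Function.Injective g}

/-- Sums of classes. -/
theorem ClsB.sig {C : Type} {Rc : C → Type} {X : ∀ c, ClsW H.up g inj (2 * k) (Rc c)} {Y : S → Prop}
    {I : C → (S → Prop) → Prop} {wd : ∀ c, Rc c → List B.L} {h : ℕ} (hX : ∀ c, ClsB H (X c) Y (I c) (wd c) h)
    {IA : (S → Prop) → Prop} (hI : ∀ A, IA A → ∀ c, I c A) :
    ClsB H (sigW X) Y IA (fun r => wd r.1 r.2) h where
  xY r := (hX r.1).xY r.2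
  yY r := (hX r.1).yY r.2
  fin r := (hX r.1).fin r.2
  hle r := (hX r.1).hle r.2
  clo A hA := ⟨fun r hr => ((hX r.1).clo A (hI A hA r.1)).y r.2 hr,
    fun r hr => ((hX r.1).clo A (hI A hA r.1)).tau r.2 hr,
    fun r hr s hs => ((hX r.1).clo A (hI A hA r.1)).tok r.2 hr s hs⟩
  th A hA F _ V c hV hz r hr s hs := (hX r.1).th A (hI A hA r.1) F V c hV hz r.2 hr s hs
  vol F _ V c hV hz := ⟨fun r => ((hX r.1).vol F V c hV hz).cup r.2, fun r => ((hX r.1).vol F V c hV hz).cap r.2⟩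

/-- Parts of classes. -/
theorem ClsB.sub {R : Type} {X : ClsW H.up g inj (2 * k) R} {Y : S → Prop}
    {IA : (S → Prop) → Prop} {wd : R → List B.L} {h : ℕ} (hX : ClsB H X Y IA wd h)
    (p : R → Prop) (hp : ∀ r, p (X.tau r) ↔ p r) : ClsB H (subW X p hp) Y IA (fun r => wd r) h where
  xY r := hX.xY r
  yY r := hX.yY r
  fin r := hX.fin r
  hle r := hX.hle r
  clo A hA := ⟨fun r hr => (hX.clo A hA).y r hr, fun r hr => (hX.clo A hA).tau r hr,
    fun r hr s hs => (hX.clo A hA).tok r hr s hs⟩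
  th A hA F _ V c hV hz r hr s hs := hX.th A hA F V c hV hz r hr s hs
  vol F _ V c hV hz := ⟨fun r => (hX.vol F V c hV hz).cup r, fun r => (hX.vol F V c hV hz).cap r⟩

/-- Greater heights, fewer closed sets. -/
theorem ClsB.mono {R : Type} {X : ClsW H.up g inj (2 * k) R} {Y : S → Prop}
    {IA IA' : (S → Prop) → Prop} {wd wd' : R → List B.L} {h h' : ℕ} (hX : ClsB H X Y IA wd h) (hh : h ≤ h')
    (hI : ∀ A, IA' A → IA A) (hw : ∀ r, wd r = wd' r) : ClsB H X Y IA' wd' h' where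
  xY := hX.xY
  yY := hX.yY
  fin r := by rw [← hw]; exact hX.fin r
  hle r := (hX.hle r).trans hh
  clo A hA := hX.clo A (hI A hA)
  th A hA := hX.th A (hI A hA)
  vol F _ V c hV hz := by
    have := hX.vol F V c hV hz
    have h1 : wd = wd' := funext hw
    rw [h1] at this
    exact this

/-- The classes of `IsQ`. -/
theorem clsB_isQ {Y : S → Prop} {P : ZMod (2 * k) → Equiv.Perm S} {wd : ZMod (2 * k) → S → List B.L} {h : ℕ}
    {X : ClsW H.up g inj (2 * k) (ZMod (2 * k) × {s // Y s})} (hX : IsQ H P wd h X) :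
    ClsB H X Y (fun A => ∀ r, A (X.x r) ↔ A (X.y r)) (fun r => wd r.1 r.2) h := by
  have hA : ∀ A : S → Prop, (∀ r, A (X.x r) ↔ A (X.y r)) → ∀ i s, A s → A (P i s) := by
    intro A hA i s hs
    by_cases hy : Y s
    · have h1 := hA (i, ⟨s, hy⟩)
      rw [hX.isP.x, hX.isP.y] at h1
      exact h1.1 hs
    · rw [hX.isP.out i s hy]
      exact hs
  refine ⟨fun r => ?_, fun r => ?_, fun r => ?_, hX.isP.H_le, fun A h1 => hX.isP.clo A (hA A h1),
    fun A h1 F _ V c hV hz => hX.isP.th A (hA A h1) F V c hV hz, fun F _ V c hV hz => ?_⟩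
  · rw [hX.isP.x]; exact r.2.2
  · rw [hX.isP.y]; exact hX.isP.hD _ _ r.2.2
  · rw [hX.isP.x, hX.isP.y]; exact hX.fin _ _ r.2.2
  · have h1 := hX.isP.vol F V c hV hz
    have h2 : (fun r : ZMod (2 * k) × {s // Y s} => V.vol (rfC eps (B.q a) (g r.2)) (wd r.1 r.2) +
        c * ((eeC eps (g (P r.1 r.2)) : F) - (eeC eps (g r.2) : F))) =
        fun r => V.vol (rfC eps (B.q a) (g (X.x r))) (wd r.1 r.2) +
          c * ((eeC eps (g (X.y r)) : F) - (eeC eps (g (X.x r)) : F)) := by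
      funext r
      rw [hX.isP.x, hX.isP.y]
    rw [← h2]
    exact h1

end

section

variable {Q : Type} [Group Q] {B : Lb.{0, 0} Q} {a b : B.L} {eps : Q →* ℤˣ} {D : Subgroup Q} {z : Q} {k : ℕ}
  (H : HypC B a b eps D z k)

include H

/-- The conjugates of rotations are periodic. -/
theorem uC_conj_mod {n n' : ℕ} (h : (n : ZMod (2 * k)) = n') {t : Q} (ht : t ∈ D) :
    uC (B.q a) (B.q b) n * t * (uC (B.q a) (B.q b) n)⁻¹ = uC (B.q a) (B.q b) n' * t * (uC (B.q a) (B.q b) n')⁻¹ := by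
  have key : ∀ n, uC (B.q a) (B.q b) n * t * (uC (B.q a) (B.q b) n)⁻¹ =
      uC (B.q a) (B.q b) (n % (2 * k)) * t * (uC (B.q a) (B.q b) (n % (2 * k)))⁻¹ := by
    intro n
    have h1 : 2 * (k * (n / (2 * k))) + n % (2 * k) = n := by
      rw [← mul_assoc]
      exact Nat.div_add_mod _ _
    set m := n % (2 * k)
    set j := n / (2 * k)
    have e1 : uC (B.q a) (B.q b) n * t * (uC (B.q a) (B.q b) n)⁻¹ = (B.q a * (B.q b)⁻¹) ^ (k * j) *
        (uC (B.q a) (B.q b) m * t * (uC (B.q a) (B.q b) m)⁻¹) * ((B.q a * (B.q b)⁻¹) ^ (k * j))⁻¹ := by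
      rw [← h1, uC_add]
      group
    rw [e1, pow_mul, H31.C_w_pow H, ← pow_mul]
    have h4 : Commute (uC (B.q a) (B.q b) m * t * (uC (B.q a) (B.q b) m)⁻¹) z :=
      H.cen _ (H.leD (mem_conj H ht _))
    rw [(h4.pow_right (k * j)).eq.symm, mul_inv_cancel_right]
  rw [key n, key n', (ZMod.natCast_eq_natCast_iff' n n' (2 * k)).1 h]

end

/-- INB with one more conclusion: `tau` preserves the sets of strands closed under one class. -/
def Inb2S : Prop :=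
  ∀ (S : Type) [Fintype S] (Q : Type) [Group Q] [DecidableEq Q] (B : Lb.{0, 0} Q) (a b : B.L)
    (eps : Q →* ℤˣ) (D : Subgroup Q) (z : Q) (k : ℕ) (H : HypC B a b eps D z k) (g : S → Q)
    (inj : Function.Injective g), DCl D g → ∀ Y : S → Prop, ShCl D g Y →
    ∀ (Pos : Type) [Fintype Pos] (ps : Pos → List (ℕ × B.L)), (∀ c, VLs B a b D k (ps c)) →
    ∀ h₀, (∀ c, (ps c).length ≤ h₀) →
      ∃ X : ClsW H.up g inj (2 * k) (RI B eps k Pos Y),
        (ClsB H X Y (fun A => ∀ r, A (X.x r) ↔ A (X.y r)) (wdI H g ps)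
          (2 * k * (Fintype.card S) ^ 2 + 2 * k * k * h₀) ∧
        (∀ r, X.x r = r.2.2) ∧ (∀ r, Sh D (g (X.x r)) (g (X.y r))) ∧
        (∀ r : RI B eps k Pos Y, ∀ n : ℕ, (n : ZMod (2 * k)) = ((r.2.1.val + eeC eps (g r.2.2) : ℕ) : ZMod (2 * k)) →
          rfC eps (B.q a) (g (X.y r)) = rfC eps (B.q a) (g (X.x r)) *
            ((mL (B.q a) (B.q b) (ps r.1.2) * uC (B.q a) (B.q b) n) * B.q r.1.1 *
              (mL (B.q a) (B.q b) (ps r.1.2) * uC (B.q a) (B.q b) n)⁻¹)) ∧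
        (∀ r, (X.tau r).1 = r.1) ∧
        ∀ c v, Y v → {r | v = X.x ⟨c, r⟩ ∨ v = X.y ⟨c, r⟩}.ncard = 4 * k) ∧
        ∀ (c : {t : B.L // eps (B.q t) = 1} × Pos) (A : S → Prop), (∀ r, A (X.x ⟨c, r⟩) ↔ A (X.y ⟨c, r⟩)) →
          ∀ r, A (X.x ⟨c, r⟩) → A (X.x (X.tau ⟨c, r⟩))

theorem inb2 : Inb2S := by
  intro S _ Q _ _ B a b eps D z k H g inj hg Y hY Pos _ ps hps h₀ hh
  have hk : 0 < 2 * k := by have := H.kpos; omega
  have hc : ∀ c : {t : B.L // eps (B.q t) = 1} × Pos, ∃ (P : ZMod (2 * k) → Equiv.Perm S)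
      (X : ClsW H.up g inj (2 * k) (ZMod (2 * k) × {s // Y s})),
      IsQ H P (fun i s => LW H.up k (ps c.2) True True (PW H.up ((i.val + eeC eps (g s)) % (2 * k)) c.1
        ((i.val + eeC eps (g s)) % (2 * k)))) (2 * k * (Fintype.card S) ^ 2 + 2 * k * k * (ps c.2).length) X ∧
      ∀ i s, Y s → Sh D (g s) (g (P i s)) := by
    intro c
    obtain ⟨P, X, h1, h2⟩ := exists_NQ H (inj := inj) hg hY c.1.2
    obtain ⟨P', X', h3, h4⟩ := h1.conjL hg hY (Y' := fun _ => True) (fun _ _ _ _ => trivial) (ps c.2) (hps c.2)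
    exact ⟨P', X', h3, fun i s hs => (h2 i s hs).trans (h4 i s hs)⟩
  choose P X hX hPs using hc
  have hcl : ∀ c, ClsB H (X c) Y (fun A => ∀ r, A ((X c).x r) ↔ A ((X c).y r))
      (fun r => LW H.up k (ps c.2) True True (PW H.up ((r.1.val + eeC eps (g r.2)) % (2 * k)) c.1
        ((r.1.val + eeC eps (g r.2)) % (2 * k)))) (2 * k * (Fintype.card S) ^ 2 + 2 * k * k * h₀) := fun c =>
    (clsB_isQ (hX c)).mono (Nat.add_le_add_left (Nat.mul_le_mul_left _ (hh c.2)) _) (fun _ h => h) fun _ => rfl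
  refine ⟨sigW X, ⟨?_, fun r => ?_, fun r => ?_, fun r n hn => ?_, fun r => rfl, fun c v hv => ?_⟩,
    fun c A hA r hr => ((clsB_isQ (hX c)).clo A hA).tau r hr⟩
  · exact ClsB.sig hcl fun A hA c r => hA ⟨c, r⟩
  · show (X r.1).x r.2 = _
    rw [(hX r.1).isP.x]
  · show Sh D (g ((X r.1).x r.2)) (g ((X r.1).y r.2))
    rw [(hX r.1).isP.x, (hX r.1).isP.y]
    exact hPs _ _ _ r.2.2.2
  · show rfC eps (B.q a) (g ((X r.1).y r.2)) = rfC eps (B.q a) (g ((X r.1).x r.2)) * _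
    rw [(hX r.1).isP.x, (hX r.1).isP.y, ← (hX r.1).fin _ _ r.2.2.2]
    have ht : B.q r.1.1 ∈ D := H.near _ r.1.1.2
    have h1 : eps (B.fin 1 (PW H.up ((r.2.1.val + eeC eps (g r.2.2)) % (2 * k)) r.1.1
        ((r.2.1.val + eeC eps (g r.2.2)) % (2 * k)))) = 1 := by
      rw [PW_fin H]
      exact H.leD (mem_conj H ht _)
    rw [LW_fin H (hps _) _ _ h1 (eps_rf H _), if_pos trivial, PW_fin H]
    have h2 := uC_conj_mod H (n := n) (n' := (r.2.1.val + eeC eps (g r.2.2)) % (2 * k)) (by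
      rw [hn, ZMod.natCast_mod]) ht
    rw [← h2]
    group
  · have h1 := deg_T hk (P := P c) (D := Y) (fun i s hs => (hX c).isP.hD i s hs)
      (fun i s hs => (hX c).isP.ne i s hs) v hv
    have h2 : {r | v = (sigW X).x ⟨c, r⟩ ∨ v = (sigW X).y ⟨c, r⟩} = {r : ZMod (2 * k) × {s // Y s} |
        v = r.2 ∨ v = P c r.1 r.2} := by
      ext r
      show (v = (X c).x r ∨ v = (X c).y r) ↔ _
      rw [(hX c).isP.x, (hX c).isP.y]
      rfl
    rw [h2, h1]
    ring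

theorem inb : InbS := by
  intro S _ Q _ _ B a b eps D z k H g inj hg Y hY Pos _ ps hps h₀ hh
  obtain ⟨X, hX, _⟩ := inb2 S Q B a b eps D z k H g inj hg Y hY Pos ps hps h₀ hh
  exact ⟨X, hX⟩

end Pool.Agent.Lib.MP_688fd0_co.SQ4.CV
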