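import Pool.Agent.Lib.MP_688fd0_co.SQ4.H98.IfaceF

/-!
Type C1, row LZA: if all plain vertical edges have the volume `o` and the letters are good then every vertical letter has
the mean `o` in its period.
-/

set_option autoImplicit false

namespace Pool.Agent.Lib.MP_688fd0_co.SQ4.CV

open Pool.Agent.Lib.MP_688fd0_co.OSF Pool.Agent.Lib.MP_688fd0_co.SQ2 Pool.Agent.Lib.MP_688fd0_co.SQ3
open Pool.Agent.Lib.MP_688fd0_co.SQ4

theorem lza : LzaS := by
  intro Q _ _ B a b eps D z k H F _ V u u' o _ hp hG
  refine ⟨hp, fun x l hl => ?_⟩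
  have hf := H.fin
  set δ := B.q l * (B.q (H.up.up x))⁻¹ with hδ
  have h1 : (B.q (H.up.up x))⁻¹ * B.q l ∈ D := by
    unfold Sh at hl
    rw [H.up.hU] at hl
    have h2 : (x * B.q (H.up.up x))⁻¹ * (x * B.q l) = (B.q (H.up.up x))⁻¹ * B.q l := by group
    rwa [h2] at hl
  have hδD : δ ∈ D := by
    have h2 := mem_conj H h1 (B.q (H.up.up x))
    have h3 : B.q (H.up.up x) * ((B.q (H.up.up x))⁻¹ * B.q l) * (B.q (H.up.up x))⁻¹ = δ := by
      rw [hδ]; group
    rwa [h3] at h2
  have hδk : δ ^ k = 1 := by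
    obtain ⟨j, hj⟩ := H.card
    have h2 : (⟨δ, hδD⟩ : D) ^ Nat.card D = 1 := pow_card_eq_one'
    have h3 : δ ^ Nat.card D = 1 := congrArg Subtype.val h2
    rw [hj, pow_mul, h3, one_pow]
  have heδ : eps δ = 1 := H.leD hδD
  set θ := V.chi δ with hθ
  have hθk : θ ^ k = 1 := by rw [hθ, ← map_pow, hδk, map_one]
  have hpow : ∀ i : ℕ, eps (δ ^ i) = 1 := fun i => by rw [map_pow, heδ, one_pow]
  have he : ∀ (i : ℕ) (l' : B.L), (evA V eps u u').e (x * δ ^ i) l' = θ ^ i * (evA V eps u u').e x l' := by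
    intro i l'
    rw [evA_e, evA_e, ptA_mul eps u u' (hpow i)]
    have h2 : ptA eps u u' (x * δ ^ i * B.q l') = ptA eps u u' (x * B.q l') := by
      unfold ptA
      rw [map_mul, map_mul, hpow, mul_one, map_mul]
    rw [h2, map_mul, map_pow]
    ring
  rw [Finset.sum_congr rfl fun i _ => he i l, ← Finset.sum_mul]
  by_cases hθ1 : θ = 1
  · -- good letters
    have hchi : V.chi (B.q l) = V.chi (B.q (H.up.up x)) := by
      rw [hθ, hδ, map_mul] at hθ1
      have h2 := chi_inv_mul V (B.q (H.up.up x))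
      linear_combination V.chi (B.q (H.up.up x)) * hθ1 - V.chi (B.q l) * h2
    have hpt : ptA eps u u' (x * B.q l) = ptA eps u u' (x * B.q (H.up.up x)) := by
      have h2 : B.q l = δ * B.q (H.up.up x) := by rw [hδ]; group
      unfold ptA
      rw [h2, map_mul, map_mul, heδ, one_mul, map_mul]
    have hn : V.n l = V.n (H.up.up x) := by
      have hab : ∀ c d : B.L, V.vol 1 (flat [(c, d)]) = V.n c + V.chi (B.q c) * V.n (B.inv d) := by
        intro c d
        show V.chi 1 * V.n c + (V.chi (1 * B.q c) * V.n (B.inv d) + 0) = _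
        rw [map_one, one_mul, one_mul, add_zero]
      have hup := H31.C_up H x
      by_cases hx : eps x = 1
      · rw [if_pos hx] at hup
        rw [hup] at h1 hδ hchi ⊢
        have h2 := hG (l, b) ⟨⟨h1, by rw [inv_mul_cancel]; exact D.one_mem⟩, Or.inr rfl⟩ (by
          have h3 : tp B a b (l, b) = δ := by
            unfold tp wC
            rw [hδ]
            group
          rw [h3]
          exact hθ1)
        rw [hab, hab, hchi] at h2
        exact add_right_cancel h2
      · rw [if_neg hx] at hup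
        rw [hup] at h1 hδ hchi ⊢
        have hinv : V.n (B.inv (B.inv l)) = V.n l := by
          rw [V.n_inv, V.n_inv, B.q_inv, inv_inv]
          have h2 := chi_inv_mul V (B.q l)
          linear_combination V.n l * h2
        have h2 := hG (a, B.inv l) ⟨⟨by rw [inv_mul_cancel]; exact D.one_mem, by
          rw [B.q_inv] at h1 ⊢
          rw [inv_inv] at h1
          have h3 := mem_conj H (D.inv_mem h1) (B.q b)⁻¹
          have h4 : (B.q b)⁻¹ * (B.q b * B.q l)⁻¹ * (B.q b)⁻¹⁻¹ = (B.q b)⁻¹ * (B.q l)⁻¹ := by group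
          rwa [h4] at h3⟩, Or.inl rfl⟩ (by
          have h3 : V.chi (tp B a b (a, B.inv l)) = V.chi (B.q a) * V.chi δ * V.chi (B.q a)⁻¹ := by
            rw [← map_mul, ← map_mul]
            congr 1
            unfold tp wC
            rw [hδ, B.q_inv, B.q_inv]
            group
          rw [h3, ← hθ, hθ1, mul_one, mul_comm]
          exact chi_inv_mul V _)
        rw [hab, hab, hinv] at h2
        exact mul_left_cancel₀ (chi_ne V _) (add_left_cancel h2)
    have h2 : (evA V eps u u').e x l = o := by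
      rw [← hp x, evA_e, evA_e, hpt, hchi, hn]
    rw [h2, hθ1]
    simp
  · have hsum : ∑ i ∈ Finset.range k, θ ^ i = 0 := by
      have h2 := geom_sum_mul θ k
      rw [hθk, sub_self] at h2
      exact (mul_eq_zero.1 h2).resolve_right (sub_ne_zero.2 hθ1)
    have ho : o = 0 := by
      have h2 := hp (x * δ ^ 1)
      have h3 : H.up.up (x * δ ^ 1) = H.up.up x := by
        rw [H31.C_up H, H31.C_up H, map_mul, hpow, mul_one]
      rw [h3, he, hp x, pow_one] at h2
      have h4 : (θ - 1) * o = 0 := by linear_combination h2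
      exact (mul_eq_zero.1 h4).resolve_left (sub_ne_zero.2 hθ1)
    rw [hsum, ho, zero_mul, mul_zero]

end Pool.Agent.Lib.MP_688fd0_co.SQ4.CV
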