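import Pool.Agent.Lib.MP_688fd0_co.SQ4.H98.FamI

/-!
Type C1: the cross block of a far reflection (row FSB).
-/

set_option autoImplicit false

namespace Pool.Agent.Lib.MP_688fd0_co.SQ4.CV

open Pool.Agent.Lib.MP_688fd0_co.OSF Pool.Agent.Lib.MP_688fd0_co.SQ2 Pool.Agent.Lib.MP_688fd0_co.SQ3
open Pool.Agent.Lib.MP_688fd0_co.SQ4
open SQ2.V (Puz)

section card

/-- The even residues. -/
theorem card_even {k : ℕ} (hk : 0 < k) : Nat.card {i : ZMod (2 * k) // i.val % 2 = 0} = k := by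
  have : NeZero (2 * k) := ⟨by omega⟩
  let E : {i : ZMod (2 * k) // i.val % 2 = 0} ≃ Fin k :=
    { toFun := fun i => ⟨i.1.val / 2, by have := ZMod.val_lt i.1; omega⟩
      invFun := fun j => ⟨((2 * j.1 : ℕ) : ZMod (2 * k)), by
        have hj := j.2
        rw [ZMod.val_natCast, Nat.mod_eq_of_lt (show 2 * j.1 < 2 * k by omega)]
        omega⟩
      left_inv := fun i => by
        apply Subtype.ext
        show ((2 * (i.1.val / 2) : ℕ) : ZMod (2 * k)) = i.1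
        have h1 : 2 * (i.1.val / 2) = i.1.val := by have := i.2; omega
        rw [h1, ZMod.natCast_zmod_val]
      right_inv := fun j => by
        apply Fin.ext
        show ((2 * j.1 : ℕ) : ZMod (2 * k)).val / 2 = j.1
        have hj := j.2
        rw [ZMod.val_natCast, Nat.mod_eq_of_lt (show 2 * j.1 < 2 * k by omega)]
        omega }
  rw [Nat.card_congr E, Nat.card_eq_fintype_card, Fintype.card_fin]

/-- The rungs on a strand at the levels `K`. -/
theorem deg_K {S : Type} [Finite S] {e : ℕ} (he : 0 < e) {P : ZMod e → Equiv.Perm S} {D : S → Prop}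
    (hDP : ∀ k s, D s → D (P k s)) (hne : ∀ k s, D s → P k s ≠ s) (K : ZMod e → Prop) (v : S) (hv : D v) :
    {r : {r : ZMod e × {s // D s} // K r.1} | v = r.1.2 ∨ v = P r.1.1 r.1.2}.ncard = 2 * Nat.card {i // K i} := by
  have : NeZero e := ⟨he.ne'⟩
  have hinv : ∀ k s, D (P k s) ↔ D s := fun k s => perm_iff (hDP k) s
  have hinv' : ∀ k, D ((P k).symm v) := fun k => by rw [← hinv k, Equiv.apply_symm_apply]; exact hv
  let φ : {i // K i} ⊕ {i // K i} → {r : ZMod e × {s // D s} // K r.1} :=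
    Sum.elim (fun k => ⟨(k, ⟨v, hv⟩), k.2⟩) (fun k => ⟨(k, ⟨(P k).symm v, hinv' k⟩), k.2⟩)
  have hφ : Function.Injective φ := by
    rintro (k | k) (l | l) h
    · have h1 : (k : ZMod e) = l := congrArg (fun a => a.1.1) h
      rw [Subtype.ext h1]
    · exfalso
      have h1 : v = (P l).symm v := congrArg (fun a => (a.1.2 : S)) h
      rw [Equiv.eq_symm_apply] at h1
      exact hne l v hv h1
    · exfalso
      have h1 : (P k).symm v = v := congrArg (fun a => (a.1.2 : S)) h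
      rw [Equiv.symm_apply_eq] at h1
      exact hne k v hv h1.symm
    · have h1 : (k : ZMod e) = l := congrArg (fun a => a.1.1) h
      rw [Subtype.ext h1]
  have hset : {r : {r : ZMod e × {s // D s} // K r.1} | v = r.1.2 ∨ v = P r.1.1 r.1.2} = Set.range φ := by
    ext r
    obtain ⟨⟨k, s, hs⟩, hK⟩ := r
    constructor
    · rintro (h | h)
      · exact ⟨Sum.inl ⟨k, hK⟩, Subtype.ext (Prod.ext rfl (Subtype.ext h))⟩
      · refine ⟨Sum.inr ⟨k, hK⟩, Subtype.ext (Prod.ext rfl (Subtype.ext ?_))⟩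
        show (P k).symm v = s
        rw [Equiv.symm_apply_eq]
        exact h
    · rintro ⟨l | l, h⟩
      · left
        exact congrArg (fun a => (a.1.2 : S)) h
      · right
        have h1 : (l : ZMod e) = k := congrArg (fun a => a.1.1) h
        have h2 : (P l).symm v = s := congrArg (fun a => (a.1.2 : S)) h
        rw [Equiv.symm_apply_eq, h1] at h2
        exact h2
  rw [hset, ← Set.image_univ, Set.ncard_image_of_injective _ hφ, Set.ncard_univ, Nat.card_sum]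
  ring

/-- The rungs on a strand, class by class. -/
theorem ncard_sig {C : Type} [Fintype C] {Rc : C → Type} [∀ c, Finite (Rc c)] (p : ∀ c, Rc c → Prop) {d : ℕ}
    (h : ∀ c, {r | p c r}.ncard = d) : {r : Σ c, Rc c | p r.1 r.2}.ncard = Fintype.card C * d := by
  let E : ↥{r : Σ c, Rc c | p r.1 r.2} ≃ Σ c : C, ↥{r : Rc c | p c r} :=
    { toFun := fun r => ⟨r.1.1, r.1.2, r.2⟩
      invFun := fun a => ⟨⟨a.1, a.2.1⟩, a.2.2⟩
      left_inv := fun r => rfl
      right_inv := fun a => rfl }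
  rw [← Nat.card_coe_set_eq, Nat.card_congr E, Nat.card_sigma]
  have h1 : ∀ c : C, Nat.card ↥{r : Rc c | p c r} = d := fun c => by rw [Nat.card_coe_set_eq, h]
  rw [Finset.sum_congr rfl fun c _ => h1 c, Finset.sum_const, Finset.card_univ, smul_eq_mul]

end card

section

variable {Q : Type} [Group Q] {B : Lb.{0, 0} Q} {a b : B.L} {eps : Q →* ℤˣ} {D : Subgroup Q} {z : Q} {k : ℕ}
  (H : HypC B a b eps D z k)

include H

/-- Even powers, also negative. -/
theorem U_zeven {x : Q} (hx : eps x = 1) (n : ℤ) : (H.up.U ^ (2 * n)) x = x * wC B a b ^ n := by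
  have h1 : ∀ m : ℕ, (H.up.U ^ (2 * (m : ℤ))) x = x * wC B a b ^ (m : ℤ) := by
    intro m
    have := H31.C_U_pow H hx m
    rw [← zpow_natCast, Nat.cast_mul, Nat.cast_ofNat] at this
    rw [this, zpow_natCast]
    rfl
  rcases Int.eq_nat_or_neg n with ⟨m, rfl | rfl⟩
  · exact h1 m
  · have hw : eps (x * wC B a b ^ (-(m : ℤ))) = 1 := by
      rw [map_mul, map_zpow]
      unfold wC
      rw [H31.C_eps_w H, one_zpow, hx, mul_one]
    have h2 := H31.C_U_pow H hw m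
    rw [← zpow_natCast, Nat.cast_mul, Nat.cast_ofNat] at h2
    have h3 : x * wC B a b ^ (-(m : ℤ)) * (B.q a * (B.q b)⁻¹) ^ m = x := by
      show x * wC B a b ^ (-(m : ℤ)) * wC B a b ^ m = x
      rw [mul_assoc, ← zpow_natCast, ← zpow_add, neg_add_cancel, zpow_zero, mul_one]
    rw [h3] at h2
    have h4 : (2 : ℤ) * (-(m : ℤ)) = -(2 * m) := by ring
    rw [h4, zpow_neg, Equiv.Perm.inv_def, Equiv.symm_apply_eq]
    exact h2.symm

theorem U_zodd {x : Q} (hx : eps x = 1) (n : ℤ) : (H.up.U ^ (2 * n + 1)) x = x * wC B a b ^ n * B.q a := by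
  rw [add_comm, zpow_add, zpow_one, Equiv.Perm.mul_apply, U_zeven H hx, H31.C_U_one H]
  rw [map_mul, map_zpow]
  unfold wC
  rw [H31.C_eps_w H, one_zpow, hx, mul_one]

theorem w_zk (q : ℤ) : wC B a b ^ ((k : ℤ) * q) = z ^ ((k : ℤ) * q) := by
  unfold wC
  rw [zpow_mul, zpow_mul, zpow_natCast, zpow_natCast, H31.C_w_pow H]

/-- The conjugates by `w ^ i` depend on `i` modulo `k`. -/
theorem w_conj_mod {i j q : ℤ} (h : i = j + k * q) {x : Q} (hx : eps x = 1) :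
    wC B a b ^ i * x * wC B a b ^ (-i) = wC B a b ^ j * x * wC B a b ^ (-j) := by
  have h1 : eps (wC B a b ^ j * x * wC B a b ^ (-j)) = 1 := by
    rw [map_mul, map_mul, map_zpow, map_zpow, hx]
    unfold wC
    rw [H31.C_eps_w H, one_zpow, one_zpow]
    decide
  have h2 : Commute (wC B a b ^ j * x * wC B a b ^ (-j)) z := H.cen _ h1
  have h3 : wC B a b ^ i * x * wC B a b ^ (-i) =
      wC B a b ^ ((k : ℤ) * q) * (wC B a b ^ j * x * wC B a b ^ (-j)) * (wC B a b ^ ((k : ℤ) * q))⁻¹ := by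
    rw [h, add_comm j, zpow_add, neg_add, add_comm (-((k : ℤ) * q)), zpow_add, zpow_neg _ ((k : ℤ) * q)]
    group
  rw [h3, w_zk H, ← (h2.zpow_right ((k : ℤ) * q)).eq, mul_inv_cancel_right]

end

section

variable {S : Type} [Fintype S] {Q : Type} [Group Q] [DecidableEq Q] {B : Lb.{0, 0} Q} {a b : B.L} {eps : Q →* ℤˣ}
  {D : Subgroup Q} {z : Q} {k : ℕ} (H : HypC B a b eps D z k) {g : S → Q} {inj : Function.Injective g}

include H

omit [Fintype S] [DecidableEq Q] in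
/-- The strands of a sheet. -/
theorem card_sheet (inj : Function.Injective g) (v₀ : S) : Nat.card {v // Sh D (g v₀) (g v)} ≤ k := by
  have hf := H.fin
  have h1 : Nat.card {v // Sh D (g v₀) (g v)} ≤ Nat.card D :=
    Nat.card_le_card_of_injective (fun v => (⟨(g v₀)⁻¹ * g v, v.2⟩ : D)) fun v v' h => by
      have h2 : (g v₀)⁻¹ * g v = (g v₀)⁻¹ * g v' := congrArg Subtype.val h
      exact Subtype.ext (inj (mul_left_cancel h2))
  exact h1.trans (Nat.le_of_dvd H.kpos H.card)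

omit [Fintype S] [DecidableEq Q] H in
theorem ee_le (eps : Q →* ℤˣ) (x : Q) : eeC eps x ≤ 1 := by
  unfold eeC
  split_ifs <;> omega

/-- The class `FS` with its levels: `i₁`, `j₁` are the pair levels of the two sheets. -/
theorem exists_FSe (hg : DCl D g) {W N : ℕ} (hD : Dis H g W) (hW : 8 * k + 4 * N + 8 ≤ W) {s : B.L} {n : ℤ} {v₀ y₀ : S}
    (hn : |n| ≤ N) (hs : eps (B.q s) = -1) (hne : ¬ Sh D (g v₀) (g y₀))
    (hal : (rfC eps (B.q a) (g v₀) * sg B a s)⁻¹ * (rfC eps (B.q a) (g y₀) * wC B a b ^ n) ∈ D) {i₁ j₁ : ℕ}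
    (h1 : 1 ≤ i₁) (h2 : i₁ ≤ N + 2) (h3 : 1 ≤ j₁) (h4 : (j₁ : ℤ) = i₁ + n) :
    ∃ (P : ZMod (2 * k) → Equiv.Perm S) (wd : ZMod (2 * k) → S → List B.L)
      (X : ClsW H.up g inj (2 * k) (ZMod (2 * k) × {v // Sh D (g v₀) (g v) ∨ Sh D (g y₀) (g v)})),
      IsQ H P wd (2 * k * (Fintype.card S) ^ 2 + (4 * N + 5)) X ∧
      (∀ i : ZMod (2 * k), i.val % 2 = 0 → ∀ v, Sh D (g v₀) (g v) → Sh D (g y₀) (g (P i v)) ∧
        wd i v = CW H.up (i₁ + i.val / 2) (j₁ + i.val / 2) s) ∧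
      (∀ i : ZMod (2 * k), i.val % 2 = 0 → ∀ v, Sh D (g y₀) (g v) → Sh D (g v₀) (g (P i v)) ∧
        wd i v = PW H.up (2 * (j₁ + i.val / 2) + 1) (B.inv s) (2 * (i₁ + i.val / 2))) ∧
      ∀ i : ZMod (2 * k), i.val % 2 ≠ 0 → ∀ v, Sh D (g v₀) (g v) ∨ Sh D (g y₀) (g v) → Sh D (g v) (g (P i v)) ∧
        ∃ (t : B.L) (m : ℕ), eps (B.q t) = 1 ∧ wd i v = PW H.up m t m := by
  classical
  obtain ⟨r, hr⟩ := H.rot
  have hne' : ¬ Sh D (g y₀) (g v₀) := fun h => hne h.symm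
  let o : S → ℕ := fun v => if Sh D (g v₀) (g v) then 2 * i₁ - eeC eps (g v₀) else
    if Sh D (g y₀) (g v) then 2 * j₁ + 1 - eeC eps (g y₀) else 0
  have ho1 : ∀ v, Sh D (g v₀) (g v) → o v = 2 * i₁ - eeC eps (g v₀) := fun v hv => if_pos hv
  have ho2 : ∀ v, Sh D (g y₀) (g v) → o v = 2 * j₁ + 1 - eeC eps (g y₀) := fun v hv => by
    show (if _ then _ else _) = _
    rw [if_neg fun h => hne (h.trans hv.symm), if_pos hv]
  have e1 := ee_le eps (g v₀)
  have e2 := ee_le eps (g y₀)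
  have hos : ShC D g o := fun v v' h => by
    show (if _ then _ else _) = (if _ then _ else _)
    have c1 : Sh D (g v₀) (g v) ↔ Sh D (g v₀) (g v') := ⟨fun k => k.trans h, fun k => k.trans h.symm⟩
    have c2 : Sh D (g y₀) (g v) ↔ Sh D (g y₀) (g v') := ⟨fun k => k.trans h, fun k => k.trans h.symm⟩
    rw [if_congr c1 rfl (if_congr c2 rfl rfl)]
  have hnab : |n| = (n.natAbs : ℤ) := Int.abs_eq_natAbs n
  have hn2 : n.natAbs ≤ N := by
    rw [hnab] at hn
    exact_mod_cast hn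
  have hj : j₁ ≤ i₁ + N := by omega
  have hO : ∀ v, o v ≤ 4 * N + 5 := by
    intro v
    by_cases c1 : Sh D (g v₀) (g v)
    · rw [ho1 v c1]
      omega
    by_cases c2 : Sh D (g y₀) (g v)
    · rw [ho2 v c2]
      omega
    have c3 : o v = 0 := by
      show (if _ then _ else _) = _
      rw [if_neg c1, if_neg c2]
    omega
  have inj' : Function.Injective fun v => (H.up.U ^ o v) (g v) := by
    intro v v' h
    have h5 : (H.up.U ^ o v) (g v) = (H.up.U ^ o v') (g v') := h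
    have h6 : (H.up.U ^ ((o v : ℤ) - o v')) (g v) = g v' := by
      rw [sub_eq_neg_add, zpow_add, Equiv.Perm.mul_apply, zpow_natCast, h5, zpow_neg, zpow_natCast,
        Equiv.Perm.inv_def, Equiv.symm_apply_apply]
    have h7 : (o v : ℤ) - o v' = 0 := by
      refine hD v v' _ ?_ h6
      have := hO v
      have := hO v'
      rw [abs_le]
      constructor <;> omega
    rw [h7, zpow_zero] at h6
    exact inj h6
  have hrf : ∀ x : Q, (H.up.U ^ (-(eeC eps x : ℤ))) x = rfC eps (B.q a) x := by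
    intro x
    rw [zpow_neg, zpow_natCast, Equiv.Perm.inv_def, Equiv.symm_apply_eq]
    exact (U_rf H x).symm
  have hA : AlF H g o v₀ y₀ s := by
    refine ⟨hos, hne, hs, -(eeC eps (g v₀) : ℤ), 2 * n + 1 - eeC eps (g y₀), ?_, ?_, ?_⟩
    · rw [hrf]; exact eps_rf H _
    · rw [hrf, sub_eq_add_neg, zpow_add, Equiv.Perm.mul_apply, hrf, U_zodd H (eps_rf H _)]
      have h5 : Sh D (rfC eps (B.q a) (g v₀) * sg B a s) (rfC eps (B.q a) (g y₀) * wC B a b ^ n) := hal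
      have h6 := h5.mul_right H.nD (B.q a)
      unfold sg at h6
      rw [← mul_assoc, inv_mul_cancel_right] at h6
      exact h6
    · rw [ho1 v₀ (Sh.refl _), ho2 y₀ (Sh.refl _)]
      omega
  obtain ⟨P, X, hX, hP⟩ := exists_FSQ (inj := inj) (r := r) hg hA inj' (4 * N + 5) hO hr
  have hpar : ∀ i : ZMod (2 * k), eps ((H.up.U ^ (i.val + o v₀)) (g v₀)) = 1 ↔ i.val % 2 = 0 := by
    intro i
    rw [U_rf_n H, ho1 v₀ (Sh.refl _), eps_U1 H (eps_rf H _)]
    omega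
  refine ⟨P, _, X, hX, fun i hi v hv => ?_, fun i hi v hv => ?_, fun i hi v hv => ?_⟩
  · obtain ⟨c1, c2⟩ := rhoF_p r hA hv ((hpar i).2 hi)
    have h5 := hP i v (Or.inl hv)
    rw [c2] at h5
    refine ⟨h5, ?_⟩
    show PW H.up _ _ _ = _
    rw [c1, c2, sh_ee H hv, ho1 v hv, ho2 y₀ (Sh.refl _)]
    have d1 : i.val + (2 * i₁ - eeC eps (g v₀)) + eeC eps (g v₀) = 2 * (i₁ + i.val / 2) := by omega
    have d2 : i.val + (2 * j₁ + 1 - eeC eps (g y₀)) + eeC eps (g y₀) = 2 * (j₁ + i.val / 2) + 1 := by omega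
    rw [d1, d2]
    rfl
  · obtain ⟨c1, c2⟩ := rhoF_q r hA hv ((hpar i).2 hi)
    have h5 := hP i v (Or.inr hv)
    rw [c2] at h5
    refine ⟨h5, ?_⟩
    show PW H.up _ _ _ = _
    rw [c1, c2, sh_ee H hv, ho2 v hv, ho1 v₀ (Sh.refl _)]
    have d1 : i.val + (2 * i₁ - eeC eps (g v₀)) + eeC eps (g v₀) = 2 * (i₁ + i.val / 2) := by omega
    have d2 : i.val + (2 * j₁ + 1 - eeC eps (g y₀)) + eeC eps (g y₀) = 2 * (j₁ + i.val / 2) + 1 := by omega
    rw [d1, d2]
  · obtain ⟨c1, c2⟩ := rhoF_m r hA hv fun h => hi ((hpar i).1 h)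
    have h5 := hP i v hv
    rw [c2] at h5
    refine ⟨h5, r, i.val + o v + eeC eps (g v), hr, ?_⟩
    show PW H.up _ _ _ = _
    rw [c1, c2]

omit [Fintype S] [DecidableEq Q] H in
theorem SI_inv' {q : Q} (hq : q ∈ SI B a b eps D z k) : q⁻¹ ∈ SI B a b eps D z k := by
  obtain ⟨m, hm, n, t, ht, rfl⟩ := hq
  refine ⟨m, hm, n, B.inv t, ?_, ?_⟩
  · rw [B.q_inv, map_inv, ht, inv_one]
  · rw [B.q_inv]
    group

/-- The cross rungs of a class `FS`, in the position of a list. -/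
theorem exists_FSc (hg : DCl D g) {W N : ℕ} (hD : Dis H g W) (hW : 8 * k + 4 * N + 8 ≤ W) {s : B.L} {n : ℤ} {v₀ y₀ : S}
    (hn : |n| ≤ N) (hs : eps (B.q s) = -1) (hne : ¬ Sh D (g v₀) (g y₀))
    (hal : (rfC eps (B.q a) (g v₀) * sg B a s)⁻¹ * (rfC eps (B.q a) (g y₀) * wC B a b ^ n) ∈ D) {i₁ j₁ : ℕ}
    (h1 : 1 ≤ i₁) (h2 : i₁ ≤ N + 2) (h3 : 1 ≤ j₁) (h4 : (j₁ : ℤ) = i₁ + n) {L : List (ℕ × B.L)}
    (hL : VLs B a b D k L) :
    ∃ (X : ClsW H.up g inj (2 * k)
        {r : ZMod (2 * k) × {v // Sh D (g v₀) (g v) ∨ Sh D (g y₀) (g v)} // r.1.val % 2 = 0})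
      (wd : {r : ZMod (2 * k) × {v // Sh D (g v₀) (g v) ∨ Sh D (g y₀) (g v)} // r.1.val % 2 = 0} → List B.L),
      ClsB H X (fun v => Sh D (g v₀) (g v) ∨ Sh D (g y₀) (g v))
        (fun A => (∀ r, A (X.x r) ↔ A (X.y r)) ∧ PlA H g (fun v => Sh D (g v₀) (g v) ∨ Sh D (g y₀) (g v)) A) wd
        (2 * k * (Fintype.card S) ^ 2 + (4 * N + 5) + 2 * k * k * L.length) ∧
      (∀ r, X.x r = r.1.2) ∧
      (∀ r, Sh D (g v₀) (g (X.x r)) → Sh D (g y₀) (g (X.y r)) ∧
        rfC eps (B.q a) (g (X.y r)) * wC B a b ^ n = rfC eps (B.q a) (g (X.x r)) * mL (B.q a) (B.q b) L *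
          (wC B a b ^ ((i₁ + r.1.1.val / 2 : ℕ) : ℤ) * sg B a s * wC B a b ^ (-((i₁ + r.1.1.val / 2 : ℕ) : ℤ))) ∧
        (L = [] → wd r = CW H.up (i₁ + r.1.1.val / 2) (j₁ + r.1.1.val / 2) s)) ∧
      (∀ r, Sh D (g y₀) (g (X.x r)) → Sh D (g v₀) (g (X.y r)) ∧
        rfC eps (B.q a) (g (X.x r)) * wC B a b ^ n = rfC eps (B.q a) (g (X.y r)) * mL (B.q a) (B.q b) L *
          (wC B a b ^ ((i₁ + r.1.1.val / 2 : ℕ) : ℤ) * sg B a s * wC B a b ^ (-((i₁ + r.1.1.val / 2 : ℕ) : ℤ)))) ∧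
      ∀ v, Sh D (g v₀) (g v) ∨ Sh D (g y₀) (g v) → {r | v = X.x r ∨ v = X.y r}.ncard = 2 * k := by
  classical
  have hk := H.kpos
  have : NeZero (2 * k) := ⟨by omega⟩
  obtain ⟨P₀, wd₀, X₀, hX₀, p1, p2, p3⟩ := exists_FSe H (inj := inj) hg hD hW hn hs hne hal h1 h2 h3 h4
  have hY : ShCl D g fun v => Sh D (g v₀) (g v) ∨ Sh D (g y₀) (g v) :=
    fun v v' hv h => hv.imp (fun k => k.trans h) fun k => k.trans h
  obtain ⟨P, X, hX, hP⟩ := hX₀.conjL hg hY (Y' := fun v => Sh D (g v₀) (g v)) (fun v v' hv h => hv.trans h) L hL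
  have hM := mL_mZ H hL
  set M := mL (B.q a) (B.q b) L with hMdef
  have ha : ∀ i : ZMod (2 * k), i.val % 2 = 0 → ∀ v, Sh D (g v₀) (g v) → Sh D (g y₀) (g (P i v)) :=
    fun i hi v hv => (p1 i hi v hv).1.trans (hP i v (Or.inl hv))
  have hb : ∀ i : ZMod (2 * k), i.val % 2 = 0 → ∀ v, Sh D (g y₀) (g v) → Sh D (g v₀) (g (P i v)) :=
    fun i hi v hv => (p2 i hi v hv).1.trans (hP i v (Or.inr hv))
  have hc : ∀ i : ZMod (2 * k), i.val % 2 ≠ 0 → ∀ v, Sh D (g v₀) (g v) ∨ Sh D (g y₀) (g v) → Sh D (g v) (g (P i v)) :=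
    fun i hi v hv => (p3 i hi v hv).1.trans (hP i v hv)
  have hev : ∀ r : ZMod (2 * k) × {v // Sh D (g v₀) (g v) ∨ Sh D (g y₀) (g v)}, Sh D (g (X.x r)) (g (X.y r)) ↔
      r.1.val % 2 ≠ 0 := by
    intro r
    rw [hX.isP.x, hX.isP.y]
    constructor
    · intro h hr
      rcases r.2.2 with hv | hv
      · exact hne ((hv.trans h).trans (ha _ hr _ hv).symm)
      · exact hne ((hb _ hr _ hv).trans (hv.trans h).symm)
    · intro hr
      exact hc _ hr _ r.2.2
  have hpair : ∀ r : ZMod (2 * k) × {v // Sh D (g v₀) (g v) ∨ Sh D (g y₀) (g v)}, r.1.val % 2 ≠ 0 →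
      (X.tau r).1.val % 2 ≠ 0 := by
    intro r hr
    have h5 := hX.isP.pair (fun p q => Sh D (g p) (g q)) (fun i p q h => by
      by_cases hp : Sh D (g v₀) (g p) ∨ Sh D (g y₀) (g p)
      · exact hX.shP i p q hp h
      · rw [hX.isP.out i p hp, hX.isP.out i q fun hq => hp (hY _ _ hq h.symm)]
        exact h) r ((hev r).2 hr)
    exact (hev _).1 h5
  have htau : ∀ r, (X.tau r).1.val % 2 = 0 ↔ r.1.val % 2 = 0 := by
    intro r
    have h5 := perm_iff (σ := X.tau) (D := fun r => r.1.val % 2 ≠ 0) hpair r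
    exact not_iff_not.1 h5
  -- the elements of the rungs
  have heps : ∀ i v, Sh D (g v₀) (g v) ∨ Sh D (g y₀) (g v) → eps (B.fin 1 (wd₀ i v)) = 1 := by
    intro i v hv
    have h5 := hX₀.fin i v hv
    have h6 := fin_tr (B := B) (rfC eps (B.q a) (g v)) 1 (wd₀ i v)
    rw [mul_one, h5] at h6
    have h7 := congrArg eps h6
    rw [map_mul, eps_rf H, eps_rf H, one_mul] at h7
    exact h7.symm
  have hfin : ∀ i v, Sh D (g v₀) (g v) ∨ Sh D (g y₀) (g v) → rfC eps (B.q a) (g (P i v)) = rfC eps (B.q a) (g v) *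
      ((if Sh D (g v₀) (g v) then M else 1) * B.fin 1 (wd₀ i v) *
        (if Sh D (g v₀) (g (P₀ i v)) then M else 1)⁻¹) := by
    intro i v hv
    rw [← hX.fin i v hv]
    exact LW_fin H hL _ _ (heps i v hv) (eps_rf H _)
  have hw : ∀ t : ℕ, uC (B.q a) (B.q b) (2 * t) = wC B a b ^ (t : ℤ) := fun t => by
    rw [uC_even, zpow_natCast]; rfl
  have hw' : ∀ t : ℕ, uC (B.q a) (B.q b) (2 * t + 1) = wC B a b ^ (t : ℤ) * B.q a := fun t => by
    rw [uC_odd, zpow_natCast]; rfl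
  have hclsB := (clsB_isQ hX).sub (fun r => r.1.val % 2 = 0) htau
  refine ⟨subW X _ htau, fun r => LW H.up k L (Sh D (g v₀) (g r.1.2)) (Sh D (g v₀) (g (P₀ r.1.1 r.1.2)))
    (wd₀ r.1.1 r.1.2), hclsB.mono le_rfl (fun A hA r => ?_) (fun _ => rfl), fun r => hX.isP.x _, fun r hr => ?_,
    fun r hr => ?_, fun v hv => ?_⟩
  · by_cases hr : r.1.val % 2 = 0
    · exact hA.1 ⟨r, hr⟩
    · -- inner rungs
      rw [hX.isP.x, hX.isP.y]
      obtain ⟨h5, t, m, ht, h6⟩ := p3 r.1 hr r.2 r.2.2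
      have h7 := hfin r.1 r.2 r.2.2
      have h8 : Sh D (g v₀) (g (r.2 : S)) ↔ Sh D (g v₀) (g (P₀ r.1 r.2)) :=
        ⟨fun h => h.trans h5, fun h => h.trans h5.symm⟩
      rw [h6, PW_fin H, if_congr h8.symm rfl rfl] at h7
      have hMm : (if Sh D (g v₀) (g (r.2 : S)) then M else 1) ∈ mZ B a b D z k := by
        split_ifs
        · exact hM
        · exact (mZ B a b D z k).one_mem
      set m' := (if Sh D (g v₀) (g (r.2 : S)) then M else 1)
      have h9 : m' * (uC (B.q a) (B.q b) m * B.q t * (uC (B.q a) (B.q b) m)⁻¹) * m'⁻¹ ∈ SI B a b eps D z k :=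
        ⟨m', hMm, m, t, ht, by group⟩
      have h10 := hc r.1 hr r.2 r.2.2
      refine ⟨fun h => hA.2 _ _ r.2.2 h10 _ h9 h7 h, fun h => ?_⟩
      refine hA.2 _ _ (hX.isP.hD r.1 r.2 r.2.2) h10.symm _ (SI_inv' h9) ?_ h
      rw [h7, mul_inv_cancel_right]
  · have hx : (subW X _ htau).x r = r.1.2 := hX.isP.x _
    have hy : (subW X _ htau).y r = P r.1.1 r.1.2 := hX.isP.y _
    rw [hx] at hr ⊢
    rw [hy]
    obtain ⟨h5, h6⟩ := p1 r.1.1 r.2 r.1.2 hr
    refine ⟨ha _ r.2 _ hr, ?_, fun hL0 => ?_⟩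
    · have h7 := hfin r.1.1 r.1.2 r.1.2.2
      have h8 : B.fin 1 (CW H.up (i₁ + r.1.1.val / 2) (j₁ + r.1.1.val / 2) s) = _ :=
        PW_fin H (2 * (i₁ + r.1.1.val / 2)) (2 * (j₁ + r.1.1.val / 2) + 1) s
      rw [h6, h8, if_pos hr, if_neg fun h => hne (h.trans h5.symm), hw, hw'] at h7
      rw [h7]
      unfold sg
      have h9 : ((j₁ + r.1.1.val / 2 : ℕ) : ℤ) = ((i₁ + r.1.1.val / 2 : ℕ) : ℤ) + n := by
        push_cast
        rw [h4]
        ring
      rw [h9, zpow_add]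
      group
    · subst hL0
      exact h6
  · have hx : (subW X _ htau).x r = r.1.2 := hX.isP.x _
    have hy : (subW X _ htau).y r = P r.1.1 r.1.2 := hX.isP.y _
    rw [hx] at hr ⊢
    rw [hy]
    obtain ⟨h5, h6⟩ := p2 r.1.1 r.2 r.1.2 hr
    refine ⟨hb _ r.2 _ hr, ?_⟩
    have h7 := hfin r.1.1 r.1.2 r.1.2.2
    rw [h6, PW_fin H, if_pos h5, if_neg fun h => hne (h.trans hr.symm), hw, hw', B.q_inv] at h7
    rw [h7]
    unfold sg
    have h9 : ((j₁ + r.1.1.val / 2 : ℕ) : ℤ) = ((i₁ + r.1.1.val / 2 : ℕ) : ℤ) + n := by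
      push_cast
      rw [h4]
      ring
    rw [h9, zpow_add]
    group
  · have h5 := deg_K (by omega : 0 < 2 * k) (P := P) (D := fun v => Sh D (g v₀) (g v) ∨ Sh D (g y₀) (g v))
      (fun i v hv => hX.isP.hD i v hv) (fun i v hv => hX.isP.ne i v hv) (fun i => i.val % 2 = 0) v hv
    rw [card_even hk] at h5
    have h6 : {r | v = (subW X _ htau).x r ∨ v = (subW X _ htau).y r} =
        {r : {r : ZMod (2 * k) × {v // Sh D (g v₀) (g v) ∨ Sh D (g y₀) (g v)} // r.1.val % 2 = 0} |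
          v = r.1.2 ∨ v = P r.1.1 r.1.2} := by
      ext r
      show (v = X.x r.1 ∨ v = X.y r.1) ↔ _
      rw [hX.isP.x, hX.isP.y]
      rfl
    rw [h6, h5]

omit [DecidableEq Q] in
theorem card_two (inj : Function.Injective g) (v₀ y₀ : S) :
    Nat.card {v // Sh D (g v₀) (g v) ∨ Sh D (g y₀) (g v)} ≤ 2 * k := by
  classical
  have h1 : Nat.card {v // Sh D (g v₀) (g v) ∨ Sh D (g y₀) (g v)} ≤
      Nat.card ({v // Sh D (g v₀) (g v)} ⊕ {v // Sh D (g y₀) (g v)}) := by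
    refine Nat.card_le_card_of_injective (fun v => if h : Sh D (g v₀) (g v) then Sum.inl ⟨v, h⟩ else
      Sum.inr ⟨v, v.2.resolve_left h⟩) fun v v' h => ?_
    simp only at h
    split_ifs at h with c1 c2 c3
    · have h2 := Sum.inl.inj h
      exact Subtype.ext (congrArg (fun x : {v // Sh D (g v₀) (g v)} => (x : S)) h2)
    · have h2 := Sum.inr.inj h
      exact Subtype.ext (congrArg (fun x : {v // Sh D (g y₀) (g v)} => (x : S)) h2)
  rw [Nat.card_sum] at h1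
  have h2 := card_sheet H inj v₀
  have h3 := card_sheet H inj y₀
  omega

end

theorem fsb : FsbS := by
  intro S _ Q _ _ B a b eps D z k H g inj W N hg hD hW Pos _ ps hps s n v₀ y₀ hn hs hne hal
  classical
  have hk := H.kpos
  have : NeZero (2 * k) := ⟨by omega⟩
  have hnab : |n| = (n.natAbs : ℤ) := Int.abs_eq_natAbs n
  have hn2 : n.natAbs ≤ N := by
    rw [hnab] at hn
    exact_mod_cast hn
  let i₁ : ℕ → ℕ := fun e => n.natAbs + 1 + e
  let j₁ : ℕ → ℕ := fun e => ((n.natAbs + 1 + e : ℕ) + n).toNat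
  have hj : ∀ e, (j₁ e : ℤ) = i₁ e + n := fun e => by
    show (((n.natAbs + 1 + e : ℕ) + n).toNat : ℤ) = ((n.natAbs + 1 + e : ℕ) : ℤ) + n
    omega
  have hj1 : ∀ e, 1 ≤ j₁ e := fun e => by
    have h1 := hj e
    have h2 : i₁ e = n.natAbs + 1 + e := rfl
    omega
  choose X wd hcls hx ha hb hd using fun c : Fin 2 × Pos => exists_FSc H (inj := inj) hg hD hW hn hs hne hal
    (i₁ := i₁ c.1) (j₁ := j₁ c.1) (by show 1 ≤ n.natAbs + 1 + _; omega)
    (by show n.natAbs + 1 + _ ≤ _; have := c.1.2; omega) (hj1 c.1) (hj c.1) (hps.ok c.2)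
  have hmM : ∀ c, mL (B.q a) (B.q b) (ps c) ∈ mZ B a b D z k := fun c => mL_mZ H (hps.ok c)
  have hsg : eps (sg B a s) = 1 := by
    unfold sg
    rw [map_mul, map_inv, hs, H.ea]
    decide
  refine ⟨Σ _ : Fin 2 × Pos, {r : ZMod (2 * k) × {v // Sh D (g v₀) (g v) ∨ Sh D (g y₀) (g v)} // r.1.val % 2 = 0},
    Fintype.ofFinite _, sigW X, fun r => wd r.1 r.2, ?_, ?_⟩
  · refine (le_of_eq (@Nat.card_eq_fintype_card _ (Fintype.ofFinite _)).symm).trans ?_
    rw [Nat.card_sigma, Finset.sum_const, Finset.card_univ, smul_eq_mul, Fintype.card_prod, Fintype.card_fin]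
    refine Nat.mul_le_mul_left _ ?_
    let E : {r : ZMod (2 * k) × {v // Sh D (g v₀) (g v) ∨ Sh D (g y₀) (g v)} // r.1.val % 2 = 0} ≃
        {i : ZMod (2 * k) // i.val % 2 = 0} × {v // Sh D (g v₀) (g v) ∨ Sh D (g y₀) (g v)} :=
      { toFun := fun r => (⟨r.1.1, r.2⟩, r.1.2)
        invFun := fun r => ⟨(r.1.1, r.2), r.1.2⟩
        left_inv := fun r => rfl
        right_inv := fun r => rfl }
    rw [Nat.card_congr E, Nat.card_prod, card_even hk]
    exact Nat.mul_le_mul_left _ (card_two H inj v₀ y₀)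
  · refine ⟨?_, fun r => ?_, fun v v' hv => ?_, ?_, fun v hv => ?_, fun r => ?_⟩
    · refine ClsB.sig (fun c => (hcls c).mono (h' := 2 * k * (Fintype.card S) ^ 2 + (4 * N + 5) +
        2 * k * k * (2 * (k * (k + 1)) + 1)) ?_ (fun _ h => h) fun _ => rfl) fun A hA c =>
        ⟨fun r => hA.1 ⟨c, r⟩, hA.2⟩
      exact Nat.add_le_add_left (Nat.mul_le_mul_left _ (hps.len c.2)) _
    · obtain ⟨c, r⟩ := r
      rcases r.1.2.2 with hv | hv
      · left
        have hv' : Sh D (g v₀) (g ((X c).x r)) := by rw [hx]; exact hv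
        obtain ⟨h1, h2, _⟩ := ha c r hv'
        exact ⟨hv', h1, _, _, hmM c.2, h2⟩
      · right
        have hv' : Sh D (g y₀) (g ((X c).x r)) := by rw [hx]; exact hv
        obtain ⟨h1, h2⟩ := hb c r hv'
        exact ⟨h1, hv', _, _, hmM c.2, h2⟩
    · obtain ⟨hv0, hv1, i, m, hm, h1⟩ := hv
      obtain ⟨q₀, hq, hcnt⟩ := hps.cnt
      have hne2 : {c | mL (B.q a) (B.q b) (ps c) = m}.Nonempty := by
        refine (Set.ncard_pos (Set.toFinite _)).1 ?_
        rw [hcnt m hm]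
        exact hq
      obtain ⟨c, hc⟩ := hne2
      have hc' : mL (B.q a) (B.q b) (ps c) = m := hc
      -- the level
      set t := ((i - i₁ 0) % (k : ℤ)).toNat with ht
      have hkz : (k : ℤ) ≠ 0 := by exact_mod_cast hk.ne'
      have ht0 := Int.emod_nonneg (i - i₁ 0) hkz
      have ht1 := Int.emod_lt_of_pos (i - i₁ 0) (by exact_mod_cast hk : (0 : ℤ) < k)
      have ht2 : (t : ℤ) = (i - i₁ 0) % (k : ℤ) := Int.toNat_of_nonneg ht0
      have ht3 : t < k := by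
        have : (t : ℤ) < k := by rw [ht2]; exact ht1
        exact_mod_cast this
      have hval : ((2 * t : ℕ) : ZMod (2 * k)).val = 2 * t := by
        rw [ZMod.val_natCast, Nat.mod_eq_of_lt (show 2 * t < 2 * k by omega)]
      let r : {r : ZMod (2 * k) × {v // Sh D (g v₀) (g v) ∨ Sh D (g y₀) (g v)} // r.1.val % 2 = 0} :=
        ⟨(((2 * t : ℕ) : ZMod (2 * k)), ⟨v, Or.inl hv0⟩), by rw [hval]; omega⟩
      have hxr : (X (0, c)).x r = v := hx (0, c) r
      obtain ⟨h2, h3, _⟩ := ha (0, c) r (by rw [hxr]; exact hv0)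
      refine ⟨⟨(0, c), r⟩, Or.inl ⟨hxr, ?_⟩⟩
      show (X (0, c)).y r = v'
      refine strand_eq H inj (h2.symm.trans hv1) ?_
      have h4 : r.1.1.val = 2 * t := hval
      rw [hxr, h4, Nat.mul_div_cancel_left _ (by omega : 0 < 2)] at h3
      have h5 : ((i₁ ((0 : Fin 2) : ℕ) + t : ℕ) : ℤ) = i + k * (-((i - i₁ 0) / (k : ℤ))) := by
        have h6 := Int.emod_add_mul_ediv (i - i₁ 0) (k : ℤ)
        push_cast
        rw [ht2]
        show (i₁ 0 : ℤ) + (i - i₁ 0) % (k : ℤ) = _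
        linarith
      have h6 := w_conj_mod H h5 hsg
      rw [h6, show mL (B.q a) (B.q b) (ps (0, c).2) = m from hc', ← h1] at h3
      exact mul_right_cancel h3
    · obtain ⟨c₀, hc₀⟩ := hps.emp
      refine ⟨i₁ 0, j₁ 0, by rw [hj]; ring, fun v hv e he => ?_⟩
      let r : {r : ZMod (2 * k) × {v // Sh D (g v₀) (g v) ∨ Sh D (g y₀) (g v)} // r.1.val % 2 = 0} :=
        ⟨(0, ⟨v, Or.inl hv⟩), by rw [ZMod.val_zero]⟩
      have hxr : (X (⟨e, he⟩, c₀)).x r = v := hx _ r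
      obtain ⟨_, _, h3⟩ := ha (⟨e, he⟩, c₀) r (by rw [hxr]; exact hv)
      refine ⟨⟨(⟨e, he⟩, c₀), r⟩, Or.inl ⟨hxr, ?_⟩⟩
      show wd (⟨e, he⟩, c₀) r = _
      rw [h3 hc₀]
      have h4 : r.1.1.val = 0 := ZMod.val_zero
      have h5 : j₁ e = j₁ 0 + e := by
        have h6 := hj e
        have h7 := hj 0
        have h8 : i₁ e = n.natAbs + 1 + e := rfl
        have h9 : i₁ 0 = n.natAbs + 1 := rfl
        omega
      rw [h4]
      show CW H.up (i₁ e + 0 / 2) (j₁ e + 0 / 2) s = _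
      rw [h5]
      rfl
    · have h1 := ncard_sig (C := Fin 2 × Pos) (fun c r => v = (X c).x r ∨ v = (X c).y r) (fun c => hd c v hv)
      rw [Fintype.card_prod, Fintype.card_fin] at h1
      exact h1
    · rintro ⟨h1, _⟩
      obtain ⟨c, r⟩ := r
      have h1' : Sh D (g ((X c).x r)) (g ((X c).y r)) := h1
      rcases r.1.2.2 with hv | hv
      · have hv' : Sh D (g v₀) (g ((X c).x r)) := by rw [hx]; exact hv
        exact hne ((hv'.trans h1').trans (ha c r hv').1.symm)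
      · have hv' : Sh D (g y₀) (g ((X c).x r)) := by rw [hx]; exact hv
        exact hne ((hb c r hv').1.trans (hv'.trans h1').symm)

end Pool.Agent.Lib.MP_688fd0_co.SQ4.CV
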