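import Pool.Agent.Lib.MP_688fd0_co.SQ4.E.Vol

/-!
General collars: arbitrary disjoint paths above or below a window.
-/

set_option autoImplicit false

namespace Pool.Agent.Lib.MP_688fd0_co.SQ4

open Pool.Agent.Lib.MP_688fd0_co.OSF Pool.Agent.Lib.MP_688fd0_co.SQ2 Pool.Agent.Lib.MP_688fd0_co.SQ3

universe u v w

variable {Q : Type u} [Group Q] {B : Lb.{u, v} Q}

/-- The sources of a path and of the reversed path. -/
theorem src_rev (x : Q) (l : List B.L) :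
    (src B (B.fin x l) (B.rev l) : Multiset Q) + {x} = {B.fin x l} + (src B x l : Multiset Q) := by
  have h1 := verts_rev (B := B) x l
  rw [verts_eq, fin_rev] at h1
  have h2 := congrArg (fun l : List Q => (l : Multiset Q)) h1
  simp only [Multiset.coe_reverse] at h2
  rw [verts_eq, ← Multiset.coe_add, ← Multiset.coe_add] at h2
  rw [add_comm ({B.fin x l} : Multiset Q)]
  exact h2

/-- A path from each vertex of `L` to the vertex `φ y` of `L'`. -/
structure Blk (B : Lb.{u, v} Q) (L L' : Finset Q) (φ : Q → Q) (p : Q → List B.L) : Prop where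
  fin : ∀ y ∈ L, B.fin y (p y) = φ y
  mem : ∀ y ∈ L, φ y ∈ L'
  inj : ∀ y ∈ L, ∀ y' ∈ L, φ y = φ y' → y = y'
  surj : ∀ x ∈ L', ∃ y ∈ L, φ y = x

/-- The vertices of a block without the ends. -/
def bR (B : Lb.{u, v} Q) (L : Finset Q) (p : Q → List B.L) : Multiset Q := ∑ y ∈ L, (src B y (p y) : Multiset Q)

theorem Blk.sum {L L' : Finset Q} {φ : Q → Q} {p : Q → List B.L} (h : Blk B L L' φ p) {M : Type*} [AddCommMonoid M]
    (G : Q → M) : ∑ y ∈ L, G (φ y) = ∑ x ∈ L', G x := by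
  refine Finset.sum_nbij φ h.mem (fun y hy y' hy' e => h.inj y (Finset.mem_coe.1 hy) y' (Finset.mem_coe.1 hy') e)
    (fun x hx => ?_) (fun _ _ => rfl)
  obtain ⟨y, h1, h2⟩ := h.surj x (Finset.mem_coe.1 hx)
  exact ⟨y, Finset.mem_coe.2 h1, h2⟩

/-- Composition of blocks. -/
theorem Blk.comp {L L' L'' : Finset Q} {φ φ' : Q → Q} {p p' : Q → List B.L} (h : Blk B L L' φ p)
    (h' : Blk B L' L'' φ' p') : Blk B L L'' (fun y => φ' (φ y)) fun y => p y ++ p' (φ y) where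
  fin y hy := by rw [fin_append, h.fin y hy, h'.fin _ (h.mem y hy)]
  mem y hy := h'.mem _ (h.mem y hy)
  inj y hy y' hy' e := h.inj y hy y' hy' (h'.inj _ (h.mem y hy) _ (h.mem y' hy') e)
  surj x hx := by
    obtain ⟨z, h1, rfl⟩ := h'.surj x hx
    obtain ⟨y, h2, rfl⟩ := h.surj z h1
    exact ⟨y, h2, rfl⟩

theorem Blk.comp_R {L L' : Finset Q} {φ : Q → Q} {p p' : Q → List B.L} (h : Blk B L L' φ p) :
    bR B L (fun y => p y ++ p' (φ y)) = bR B L p + bR B L' p' := by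
  unfold bR
  rw [← h.sum fun x => (src B x (p' x) : Multiset Q), ← Finset.sum_add_distrib]
  refine Finset.sum_congr rfl fun y hy => ?_
  rw [src_append, h.fin y hy, Multiset.coe_add]

variable [DecidableEq Q]

/-- A block above a window. -/
def postB (X : TW B) {L : Finset Q} {φ : Q → Q} {p : Q → List B.L} (h : Blk B X.L₁ L φ p) : TW B where
  L₀ := X.L₀
  L₁ := L
  u₀ := X.u₀
  u₁ := X.u₁
  w₀ := φ X.w₀
  w₁ := φ X.w₁
  cup := X.cup
  cap := B.rev (p X.w₀) ++ (X.cap ++ p X.w₁)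
  f := fun x => φ (X.f x)
  path := fun x => X.path x ++ p (X.f x)
  hu₀ := X.hu₀
  hu₁ := X.hu₁
  hu := X.hu
  hw₀ := h.mem _ X.hw₀
  hw₁ := h.mem _ X.hw₁
  hw := fun e => X.hw (h.inj _ X.hw₀ _ X.hw₁ e)
  cup_fin := X.cup_fin
  cap_fin := by
    rw [fin_append, fin_append, ← h.fin _ X.hw₀, fin_rev, X.cap_fin, h.fin _ X.hw₁]
  path_fin := fun x hx h0 h1 => by
    rw [fin_append, X.path_fin x hx h0 h1, h.fin _ (X.f_mem x hx h0 h1).1]
  f_mem := fun x hx h0 h1 => by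
    obtain ⟨a1, a2, a3⟩ := X.f_mem x hx h0 h1
    exact ⟨h.mem _ a1, fun e => a2 (h.inj _ a1 _ X.hw₀ e), fun e => a3 (h.inj _ a1 _ X.hw₁ e)⟩
  f_inj := fun x hx h0 h1 y hy h0' h1' he => X.f_inj x hx h0 h1 y hy h0' h1'
    (h.inj _ (X.f_mem x hx h0 h1).1 _ (X.f_mem y hy h0' h1').1 he)
  f_surj := fun z hz h0 h1 => by
    obtain ⟨y, hy, rfl⟩ := h.surj z hz
    obtain ⟨x, a1, a2, a3, a4⟩ := X.f_surj y hy (fun e => h0 (by rw [e])) (fun e => h1 (by rw [e]))
    exact ⟨x, a1, a2, a3, by rw [a4]⟩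

theorem postB_R (X : TW B) {L : Finset Q} {φ : Q → Q} {p : Q → List B.L} (h : Blk B X.L₁ L φ p) :
    (postB X h).R = X.R + bR B X.L₁ p := by
  have h1 : ∑ x ∈ X.tok₀, (src B x (X.path x ++ p (X.f x)) : Multiset Q) =
      ∑ x ∈ X.tok₀, (src B x (X.path x) : Multiset Q) + ∑ y ∈ X.tok₁, (src B y (p y) : Multiset Q) := by
    rw [← X.sum_f (fun y => (src B y (p y) : Multiset Q)), ← Finset.sum_add_distrib]
    refine Finset.sum_congr rfl fun x hx => ?_
    rw [TW.mem_tok₀] at hx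
    rw [src_append, X.path_fin x hx.1 hx.2.1 hx.2.2, Multiset.coe_add]
  have h2 : bR B X.L₁ p = ∑ y ∈ X.tok₁, (src B y (p y) : Multiset Q) + (src B X.w₀ (p X.w₀) : Multiset Q) +
      (src B X.w₁ (p X.w₁) : Multiset Q) := by
    show (X.L₁.val.map fun y => (src B y (p y) : Multiset Q)).sum = _
    rw [X.L₁_val, Multiset.map_add, Multiset.map_add, Multiset.sum_add, Multiset.sum_add]
    simp only [Multiset.map_singleton, Multiset.sum_singleton]
    rfl
  have h3 : ((src B (φ X.w₀) (B.rev (p X.w₀) ++ (X.cap ++ p X.w₁))).tail : Multiset Q) =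
      ((src B X.w₀ X.cap).tail : Multiset Q) + (src B X.w₀ (p X.w₀) : Multiset Q) +
      (src B X.w₁ (p X.w₁) : Multiset Q) := by
    have hne : B.rev (p X.w₀) ++ (X.cap ++ p X.w₁) ≠ [] := by
      intro h
      have := (List.append_eq_nil_iff.1 (List.append_eq_nil_iff.1 h).2).1
      exact X.cap_ne this
    have e1 := congrArg (fun l : List Q => (l : Multiset Q)) (src_ne_nil (B := B) (φ X.w₀) hne)
    have e2 := congrArg (fun l : List Q => (l : Multiset Q)) (src_ne_nil (B := B) X.w₀ X.cap_ne)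
    simp only [← Multiset.cons_coe, ← Multiset.singleton_add] at e1 e2
    have e3 := src_rev (B := B) X.w₀ (p X.w₀)
    have hf := h.fin _ X.hw₀
    rw [hf] at e3
    have e4 : ({φ X.w₀} : Multiset Q) + ((src B (φ X.w₀) (B.rev (p X.w₀) ++ (X.cap ++ p X.w₁))).tail :
        Multiset Q) = {φ X.w₀} + (((src B X.w₀ X.cap).tail : Multiset Q) + (src B X.w₀ (p X.w₀) : Multiset Q) +
      (src B X.w₁ (p X.w₁) : Multiset Q)) := by
      rw [← e1, src_append, src_append, ← hf, fin_rev, X.cap_fin, ← Multiset.coe_add, ← Multiset.coe_add, e2, hf]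
      have e5 : ((src B (φ X.w₀) (B.rev (p X.w₀)) : List Q) : Multiset Q) + {X.w₀} +
          (((src B X.w₀ X.cap).tail : List Q) : Multiset Q) + ((src B X.w₁ (p X.w₁) : List Q) : Multiset Q) =
          {φ X.w₀} + ((src B X.w₀ (p X.w₀) : List Q) : Multiset Q) +
          (((src B X.w₀ X.cap).tail : List Q) : Multiset Q) + ((src B X.w₁ (p X.w₁) : List Q) : Multiset Q) := by
        rw [e3]
      rw [show ((src B (φ X.w₀) (B.rev (p X.w₀)) : List Q) : Multiset Q) +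
        (({X.w₀} + (((src B X.w₀ X.cap).tail : List Q) : Multiset Q)) +
        ((src B X.w₁ (p X.w₁) : List Q) : Multiset Q)) =
        ((src B (φ X.w₀) (B.rev (p X.w₀)) : List Q) : Multiset Q) + {X.w₀} +
        (((src B X.w₀ X.cap).tail : List Q) : Multiset Q) + ((src B X.w₁ (p X.w₁) : List Q) : Multiset Q) by abel, e5]
      abel
    exact add_left_cancel e4
  have e0 : (postB X h).R = ∑ x ∈ X.tok₀, (src B x (X.path x ++ p (X.f x)) : Multiset Q) +
      (B.verts X.u₀ X.cup : Multiset Q) +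
      ((src B (φ X.w₀) (B.rev (p X.w₀) ++ (X.cap ++ p X.w₁))).tail : Multiset Q) := rfl
  rw [e0, h1, h2, h3]
  unfold TW.R
  abel

/-- A block below a window. -/
def preB (X : TW B) {L : Finset Q} {φ : Q → Q} {p : Q → List B.L} (h : Blk B L X.L₀ φ p) (v₀ v₁ : Q) (h₀ : v₀ ∈ L)
    (h₁ : v₁ ∈ L) (e₀ : φ v₀ = X.u₀) (e₁ : φ v₁ = X.u₁) : TW B where
  L₀ := L
  L₁ := X.L₁
  u₀ := v₀
  u₁ := v₁
  w₀ := X.w₀
  w₁ := X.w₁
  cup := p v₀ ++ (X.cup ++ B.rev (p v₁))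
  cap := X.cap
  f := fun y => X.f (φ y)
  path := fun y => p y ++ X.path (φ y)
  hu₀ := h₀
  hu₁ := h₁
  hu := fun e => X.hu (by rw [← e₀, ← e₁, e])
  hw₀ := X.hw₀
  hw₁ := X.hw₁
  hw := X.hw
  cup_fin := by
    rw [fin_append, fin_append, h.fin _ h₀, e₀, X.cup_fin, ← e₁, ← h.fin _ h₁, fin_rev]
  cap_fin := X.cap_fin
  path_fin := fun y hy h0 h1 => by
    rw [fin_append, h.fin y hy]
    exact X.path_fin _ (h.mem y hy) (fun h2 => h0 (h.inj _ hy _ h₀ (h2.trans e₀.symm)))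
      (fun h2 => h1 (h.inj _ hy _ h₁ (h2.trans e₁.symm)))
  f_mem := fun y hy h0 h1 => X.f_mem _ (h.mem y hy) (fun h2 => h0 (h.inj _ hy _ h₀ (h2.trans e₀.symm)))
      (fun h2 => h1 (h.inj _ hy _ h₁ (h2.trans e₁.symm)))
  f_inj := fun y hy h0 h1 y' hy' h0' h1' he => h.inj _ hy _ hy' (X.f_inj _ (h.mem y hy)
      (fun h2 => h0 (h.inj _ hy _ h₀ (h2.trans e₀.symm)))
      (fun h2 => h1 (h.inj _ hy _ h₁ (h2.trans e₁.symm))) _ (h.mem y' hy')
      (fun h2 => h0' (h.inj _ hy' _ h₀ (h2.trans e₀.symm)))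
      (fun h2 => h1' (h.inj _ hy' _ h₁ (h2.trans e₁.symm))) he)
  f_surj := fun z hz h0 h1 => by
    obtain ⟨x, a1, a2, a3, a4⟩ := X.f_surj z hz h0 h1
    obtain ⟨y, b1, b2⟩ := h.surj x a1
    refine ⟨y, b1, fun e => a2 ?_, fun e => a3 ?_, by rw [b2, a4]⟩
    · rw [← b2, e, e₀]
    · rw [← b2, e, e₁]

theorem preB_R (X : TW B) {L : Finset Q} {φ : Q → Q} {p : Q → List B.L} (h : Blk B L X.L₀ φ p) (v₀ v₁ : Q)
    (h₀ : v₀ ∈ L) (h₁ : v₁ ∈ L) (e₀ : φ v₀ = X.u₀) (e₁ : φ v₁ = X.u₁) :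
    (preB X h v₀ v₁ h₀ h₁ e₀ e₁).R = bR B L p + X.R := by
  set Y := preB X h v₀ v₁ h₀ h₁ e₀ e₁ with hY
  have hLY : Y.L₀ = L := rfl
  have t0 : ∑ x ∈ Y.tok₀, (src B (φ x) (X.path (φ x)) : Multiset Q) =
      ∑ x ∈ X.tok₀, (src B x (X.path x) : Multiset Q) := by
    refine Finset.sum_nbij φ ?_ ?_ ?_ ?_
    · intro y hy
      rw [TW.mem_tok₀] at hy ⊢
      exact ⟨h.mem y hy.1, fun h2 => hy.2.1 (h.inj _ hy.1 _ h₀ (h2.trans e₀.symm)),
        fun h2 => hy.2.2 (h.inj _ hy.1 _ h₁ (h2.trans e₁.symm))⟩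
    · intro y hy y' hy' e
      exact h.inj _ (TW.mem_tok₀.1 (Finset.mem_coe.1 hy)).1 _ (TW.mem_tok₀.1 (Finset.mem_coe.1 hy')).1 e
    · intro x hx
      have hx := TW.mem_tok₀.1 (Finset.mem_coe.1 hx)
      obtain ⟨y, b1, b2⟩ := h.surj x hx.1
      refine ⟨y, Finset.mem_coe.2 (TW.mem_tok₀.2 ⟨b1, fun e => hx.2.1 ?_, fun e => hx.2.2 ?_⟩), b2⟩
      · rw [← b2, ← e₀, e]; rfl
      · rw [← b2, ← e₁, e]; rfl
    · intro y _; rfl
  have h1 : ∑ y ∈ Y.tok₀, (src B y (p y ++ X.path (φ y)) : Multiset Q) =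
      ∑ y ∈ Y.tok₀, (src B y (p y) : Multiset Q) + ∑ x ∈ X.tok₀, (src B x (X.path x) : Multiset Q) := by
    rw [← t0, ← Finset.sum_add_distrib]
    refine Finset.sum_congr rfl fun x hx => ?_
    rw [src_append, h.fin x (TW.mem_tok₀.1 hx).1, Multiset.coe_add]
  have h2 : bR B L p = ∑ y ∈ Y.tok₀, (src B y (p y) : Multiset Q) + (src B v₀ (p v₀) : Multiset Q) +
      (src B v₁ (p v₁) : Multiset Q) := by
    unfold bR
    rw [← hLY]
    show (Y.L₀.val.map fun y => (src B y (p y) : Multiset Q)).sum = _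
    rw [Y.L₀_val, Multiset.map_add, Multiset.map_add, Multiset.sum_add, Multiset.sum_add]
    simp only [Multiset.map_singleton, Multiset.sum_singleton]
    rfl
  have h3 : (B.verts v₀ (p v₀ ++ (X.cup ++ B.rev (p v₁))) : Multiset Q) =
      (B.verts X.u₀ X.cup : Multiset Q) + (src B v₀ (p v₀) : Multiset Q) + (src B v₁ (p v₁) : Multiset Q) := by
    rw [verts_eq, src_append, src_append, fin_append, fin_append, h.fin _ h₀, e₀, X.cup_fin, ← e₁, ← h.fin _ h₁,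
      fin_rev, verts_eq, X.cup_fin, ← e₁, ← h.fin _ h₁, ← Multiset.coe_add, ← Multiset.coe_add, ← Multiset.coe_add,
      ← Multiset.coe_add]
    have e3 := src_rev (B := B) v₁ (p v₁)
    have e5 : ((src B v₀ (p v₀) : List Q) : Multiset Q) +
        ((src B X.u₀ X.cup : List Q) : Multiset Q) +
        (((src B (B.fin v₁ (p v₁)) (B.rev (p v₁)) : List Q) : Multiset Q) + {v₁}) =
        ((src B v₀ (p v₀) : List Q) : Multiset Q) +
        ((src B X.u₀ X.cup : List Q) : Multiset Q) +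
        ({B.fin v₁ (p v₁)} + ((src B v₁ (p v₁) : List Q) : Multiset Q)) := by rw [e3]
    have e6 : (([v₁] : List Q) : Multiset Q) = {v₁} := rfl
    have e7 : (([B.fin v₁ (p v₁)] : List Q) : Multiset Q) = {B.fin v₁ (p v₁)} := rfl
    rw [e6, e7]
    rw [show ((src B v₀ (p v₀) : List Q) : Multiset Q) +
        (((src B X.u₀ X.cup : List Q) : Multiset Q) +
          ((src B (B.fin v₁ (p v₁)) (B.rev (p v₁)) : List Q) : Multiset Q)) + {v₁} =
        ((src B v₀ (p v₀) : List Q) : Multiset Q) + ((src B X.u₀ X.cup : List Q) : Multiset Q) +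
        (((src B (B.fin v₁ (p v₁)) (B.rev (p v₁)) : List Q) : Multiset Q) + {v₁}) by abel, e5]
    abel
  have e0 : Y.R = ∑ y ∈ Y.tok₀, (src B y (p y ++ X.path (φ y)) : Multiset Q) +
      (B.verts v₀ (p v₀ ++ (X.cup ++ B.rev (p v₁))) : Multiset Q) +
      ((src B X.w₀ X.cap).tail : Multiset Q) := rfl
  rw [e0, h1, h2, h3]
  unfold TW.R
  abel

end Pool.Agent.Lib.MP_688fd0_co.SQ4
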