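import Pool.Agent.Lib.MP_688fd0_co.SQ4.H98.FamC

/-!
Type C1: classes of rungs with their words, conjugation by lists of vertical letters, classes from labels.
-/

set_option autoImplicit false

namespace Pool.Agent.Lib.MP_688fd0_co.SQ4

open Pool.Agent.Lib.MP_688fd0_co.OSF Pool.Agent.Lib.MP_688fd0_co.SQ2 Pool.Agent.Lib.MP_688fd0_co.SQ3
open SQ2.V (Puz Sub)

section

variable {S : Type} [Fintype S] {Q : Type} [Group Q] [DecidableEq Q] {B : Lb.{0, 0} Q} {a b : B.L} {eps : Q →* ℤˣ}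
  {D : Subgroup Q} {z : Q} {k : ℕ}

/-- A class of rungs given by permutations, with the words `wd` from `rf s` to `rf (P i s)`. -/
structure IsQ (H : HypC B a b eps D z k) {g : S → Q} {inj : Function.Injective g} {Y : S → Prop}
    (P : ZMod (2 * k) → Equiv.Perm S) (wd : ZMod (2 * k) → S → List B.L) (h : ℕ)
    (X : ClsW H.up g inj (2 * k) (ZMod (2 * k) × {s // Y s})) : Prop where
  isP : IsP (z ^ k) P h (fun F _ V c => LZ H.up D k F V c)
    (fun F _ V c r => V.vol (rfC eps (B.q a) (g r.2)) (wd r.1 r.2) +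
      c * ((eeC eps (g (P r.1 r.2)) : F) - (eeC eps (g r.2) : F))) X
  fin : ∀ i s, Y s → B.fin (rfC eps (B.q a) (g s)) (wd i s) = rfC eps (B.q a) (g (P i s))
  shP : ∀ i s s', Y s → Sh D (g s) (g s') → Sh D (g (P i s)) (g (P i s'))
  shw : ∀ i s s', Y s → Sh D (g s) (g s') → wd i s = wd i s'

variable {H : HypC B a b eps D z k} {g : S → Q} {inj : Function.Injective g} {Y : S → Prop}
  {P : ZMod (2 * k) → Equiv.Perm S} {wd : ZMod (2 * k) → S → List B.L} {h : ℕ}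
  {X : ClsW H.up g inj (2 * k) (ZMod (2 * k) × {s // Y s})}

theorem IsQ.congr (hX : IsQ H P wd h X) {wd' : ZMod (2 * k) → S → List B.L} (hw : ∀ i s, Y s → wd i s = wd' i s)
    (hY : ShCl D g Y) : IsQ H P wd' h X where
  isP := hX.isP.of (fun _ _ _ _ _ hz => hz) fun F _ V c _ _ r => by rw [hw r.1 r.2 r.2.2]
  fin i s hs := by rw [← hw i s hs]; exact hX.fin i s hs
  shP := hX.shP
  shw i s s' hs h := by rw [← hw i s hs, ← hw i s' (hY _ _ hs h)]; exact hX.shw i s s' hs h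

/-- Conjugation by one letter on the sheets `Y'`. -/
theorem IsQ.conj (hX : IsQ H P wd h X) (hg : DCl D g) (hY : ShCl D g Y) {Y' : S → Prop} (hY' : ShCl D g Y')
    {v : ℕ × B.L} (hv : v.1 < 2 * k) (hl : VL B a b D v.1 v.2) :
    ∃ (P' : ZMod (2 * k) → Equiv.Perm S) (X' : ClsW H.up g inj (2 * k) (ZMod (2 * k) × {s // Y s})),
      IsQ H P' (fun i s => LX H.up k v (Y' s) ++ (wd i s ++ B.rev (LX H.up k v (Y' (P i s))))) (h + 2 * k * k) X' ∧
      ∀ i s, Y s → Sh D (g (P i s)) (g (P' i s)) := by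
  have hk := H.kpos
  obtain ⟨π, p, p', p1, p2, p3, b1, b2, b3, b4⟩ := exists_let H inj hg hY' hv hl
  have hYπ : ∀ s, Y (π s) ↔ Y s := fun s => ⟨fun k => hY _ _ k (p3 s).symm, fun k => hY _ _ k (p3 s)⟩
  have hY'c : ∀ s s', Sh D (g s) (g s') → Y' s = Y' s' := fun s s' h =>
    propext ⟨fun k => hY' _ _ k h, fun k => hY' _ _ k h.symm⟩
  obtain ⟨X', hX'⟩ := hX.isP.conj (perC H) hYπ (n := 1) (n' := k - 1) b1 b2 (fun F _ V c => LZ H.up D k F V c)
    (fun F _ V _ s => V.vol (rfC eps (B.q a) (g s)) (LX H.up k v (Y' s))) (fun _ _ _ _ hz => hz)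
    (fun F _ V c hV hz => (b4 F V c hV hz).1) (fun F _ V c hV hz => (b4 F V c hV hz).2)
  have hP' : ∀ i s, P i (π s) = π ((π⁻¹ * P i * π) s) := by
    intro i s
    show P i (π s) = π (π.symm (P i (π s)))
    rw [Equiv.apply_symm_apply]
  have hsh : ∀ i s, Y s → Sh D (g (P i s)) (g ((π⁻¹ * P i * π) s)) := by
    intro i s hs
    have h1 := hX.shP i s (π s) hs (p3 s)
    rw [hP'] at h1
    exact h1.trans (p3 _).symm
  -- the volume of the word
  have hvol : ∀ (F : Type) [CommRing F] (V : Ev B F), V.Inv (z ^ k) → ∀ i s, Y s →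
      V.vol (rfC eps (B.q a) (g s)) (LX H.up k v (Y' s) ++ (wd i s ++ B.rev (LX H.up k v (Y' (P i s))))) =
      V.vol (rfC eps (B.q a) (g s)) (LX H.up k v (Y' s)) + V.vol (rfC eps (B.q a) (g (π s))) (wd i (π s)) -
        V.vol (rfC eps (B.q a) (g ((π⁻¹ * P i * π) s))) (LX H.up k v (Y' ((π⁻¹ * P i * π) s))) := by
    intro F _ V hV i s hs
    rw [V.vol_append, V.vol_append, b3, hV.vol, hX.shw i s (π s) hs (p3 s), fin_tr,
      hX.fin i (π s) ((hYπ s).2 hs), hP', ← b3, hY'c _ _ (hsh i s hs), V.vol_rev]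
    ring
  refine ⟨fun i => π⁻¹ * P i * π, X', ⟨?_, fun i s hs => ?_, fun i s s' hs h => ?_, fun i s s' hs h => ?_⟩, hsh⟩
  · have h1 : h + 2 * k * (1 + (k - 1)) = h + 2 * k * k := by
      rw [show 1 + (k - 1) = k by omega]
    rw [h1] at hX'
    refine hX'.of (fun _ _ _ _ _ hz => hz) fun F _ V c hV _ r => ?_
    rw [hvol F V hV r.1 r.2 r.2.2]
    show V.vol _ _ + (V.vol (rfC eps (B.q a) (g (π r.2))) (wd r.1 (π r.2)) +
      c * ((eeC eps (g (P r.1 (π r.2))) : F) - (eeC eps (g (π r.2)) : F))) - _ = _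
    rw [hP', sh_ee H (p3 _), sh_ee H (p3 _)]
    ring
  · show B.fin _ (LX H.up k v (Y' s) ++ (wd i s ++ B.rev (LX H.up k v (Y' (P i s))))) =
      rfC eps (B.q a) (g ((π⁻¹ * P i * π) s))
    rw [fin_append, fin_append, b3, fin_tr, hX.shw i s (π s) hs (p3 s), hX.fin i (π s) ((hYπ s).2 hs), hP', ← b3,
      hY'c _ _ (hsh i s hs), fin_rev]
  · have hs' := hY _ _ hs h
    exact ((hsh i s hs).symm.trans (hX.shP i s s' hs h)).trans (hsh i s' hs')
  · show LX H.up k v (Y' s) ++ (wd i s ++ B.rev (LX H.up k v (Y' (P i s)))) =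
      LX H.up k v (Y' s') ++ (wd i s' ++ B.rev (LX H.up k v (Y' (P i s'))))
    rw [hY'c s s' h, hX.shw i s s' hs h, hY'c _ _ (hX.shP i s s' hs h)]

/-- Conjugation by a list of letters. -/
theorem IsQ.conjL (hX : IsQ H P wd h X) (hg : DCl D g) (hY : ShCl D g Y) {Y' : S → Prop} (hY' : ShCl D g Y')
    (L : List (ℕ × B.L)) (hL : VLs B a b D k L) :
    ∃ (P' : ZMod (2 * k) → Equiv.Perm S) (X' : ClsW H.up g inj (2 * k) (ZMod (2 * k) × {s // Y s})),
      IsQ H P' (fun i s => LW H.up k L (Y' s) (Y' (P i s)) (wd i s)) (h + 2 * k * k * L.length) X' ∧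
      ∀ i s, Y s → Sh D (g (P i s)) (g (P' i s)) := by
  have hY'c : ∀ s s', Sh D (g s) (g s') → Y' s = Y' s' := fun s s' h =>
    propext ⟨fun k => hY' _ _ k h, fun k => hY' _ _ k h.symm⟩
  induction L with
  | nil => exact ⟨P, X, hX, fun i s _ => Sh.refl _⟩
  | cons v L ih =>
    obtain ⟨P₁, X₁, h1, h2⟩ := ih fun x hx => hL x (List.mem_cons_of_mem _ hx)
    obtain ⟨hv, hl⟩ := hL v (List.mem_cons_self ..)
    obtain ⟨P₂, X₂, h3, h4⟩ := h1.conj hg hY hY' hv hl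
    refine ⟨P₂, X₂, ?_, fun i s hs => (h2 i s hs).trans (h4 i s hs)⟩
    rw [List.length_cons, Nat.mul_succ, ← add_assoc]
    refine h3.congr (fun i s hs => ?_) hY
    rw [← hY'c _ _ (h2 i s hs)]
    rfl

end

section

variable {S : Type} [Fintype S] {Q : Type} [Group Q] [DecidableEq Q] {B : Lb.{0, 0} Q} {a b : B.L} {eps : Q →* ℤˣ}
  {D : Subgroup Q} {z : Q} {k : ℕ} (H : HypC B a b eps D z k) {g : S → Q} {inj : Function.Injective g}

include H

/-- Classes from labels, plain position, with their words. -/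
theorem exists_labQ (hg : DCl D g) (o : S → ℕ) (ho : ShC D g o)
    (inj' : Function.Injective fun s => (H.up.U ^ o s) (g s)) (O : ℕ) (hO : ∀ s, o s ≤ O) {Y : S → Prop}
    (hY : ShCl D g Y) {ρ : ZMod (2 * k) → S → B.L}
    (hρ : ∀ i s s', Y s → Sh D (g s) (g s') → ρ i s = ρ i s') (tg : ZMod (2 * k) → S → S)
    (h1 : ∀ i s, Y s → Y (tg i s))
    (h2 : ∀ (i : ZMod (2 * k)) (s : S), Y s → Sh D ((H.up.U ^ i.val) ((H.up.U ^ o s) (g s)) * B.q (ρ i s))
      ((H.up.U ^ i.val) ((H.up.U ^ o (tg i s)) (g (tg i s)))))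
    (h3 : ∀ (i : ZMod (2 * k)) (s s' : S), Y s → Y s' → Sh D (g (tg i s)) (g (tg i s')) → Sh D (g s) (g s'))
    (h4 : ∀ (i : ZMod (2 * k)) (s s' : S), Y s → Sh D (g s) (g s') → Sh D (g (tg i s)) (g (tg i s')))
    (N N' : ZMod (2 * k) → S → ℕ) (hNc : ∀ i s s', Y s → Sh D (g s) (g s') → N i s = N i s' ∧ N' i s = N' i s')
    (hN : ∀ i s, Y s → ∃ q, i.val + o s + eeC eps (g s) = N i s + 2 * k * q ∧
      i.val + o (tg i s) + eeC eps (g (tg i s)) = N' i s + 2 * k * q) :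
    ∃ (P : ZMod (2 * k) → Equiv.Perm S) (X : ClsW H.up g inj (2 * k) (ZMod (2 * k) × {s // Y s})),
      IsQ H P (fun i s => H.up.str (N i s) 1 ++ ρ i s :: B.rev (H.up.str (N' i s) 1))
        (2 * k * (Fintype.card S) ^ 2 + O) X ∧
      ∀ i s, Y s → Sh D (g (tg i s)) (g (P i s)) := by
  have hk : 0 < 2 * k := by have := H.kpos; omega
  obtain ⟨P, X, hX, hS⟩ := exists_isL_sheets (inj := inj) (shuC H) hg hk (perC H) o ho inj' O hO hY hρ tg h1 h2 h3
  have hr : ∀ s, eps (rfC eps (B.q a) (g s)) = 1 := fun s => eps_rf H _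
  have hU : ∀ i j s, (H.up.U ^ i) ((H.up.U ^ j) (g s)) = (H.up.U ^ (i + j + eeC eps (g s))) (rfC eps (B.q a) (g s)) := by
    intro i j s
    rw [← H.up.U_pow_add, U_rf_n H, show i + j + eeC eps (g s) = eeC eps (g s) + (j + i) by ring]
  have hZ : ∀ {x y : Q} (q : ℕ), z ^ (k * q) * x = z ^ (k * q) * y → x = y := fun q h => mul_left_cancel h
  have hst : ∀ n s, H.up.str n 1 = H.up.str n (rfC eps (B.q a) (g s)) := fun n s =>
    str_par H n (by rw [map_one, hr])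
  -- the rung between the reference lines
  have hrung : ∀ (i : ZMod (2 * k)) (s : S), Y s → (H.up.U ^ N i s) (rfC eps (B.q a) (g s)) * B.q (ρ i s) =
      (H.up.U ^ N' i s) (rfC eps (B.q a) (g (P i s))) := by
    intro i s hs
    obtain ⟨q, e1, e2⟩ := hN i s hs
    have h5 := hX.hP i s hs
    rw [hU, hU, ← ho _ _ (hS i s hs), sh_ee H (hS i s hs), e1, e2, U_per H, U_per H, mul_assoc] at h5
    exact hZ q h5
  refine ⟨P, X, ⟨?_, fun i s hs => ?_, fun i s s' hs h => ?_, fun i s s' hs h => ?_⟩, hS⟩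
  · refine hX.isP.of (fun F _ V c _ hz => hz.1) fun F _ V c hV hz r => ?_
    obtain ⟨q, e1, e2⟩ := hN r.1 r.2 r.2.2
    have hR := hrung r.1 r.2 r.2.2
    have hee : eeC eps (g (P r.1 r.2)) = eeC eps (g (tg r.1 r.2)) := sh_ee H (hS r.1 r.2 r.2.2)
    have hoo : o (P r.1 r.2) = o (tg r.1 r.2) := (ho _ _ (hS r.1 r.2 r.2.2)).symm
    have hrev : V.vol ((H.up.U ^ N' r.1 r.2) (rfC eps (B.q a) (g (P r.1 r.2))))
        (B.rev (H.up.str (N' r.1 r.2) (rfC eps (B.q a) (g (P r.1 r.2))))) = - ((N' r.1 r.2 : F) * c) := by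
      rw [← H.up.fin_str, V.vol_rev, vol_strC hz.1]
    rw [hst _ r.2, V.vol_append, vol_strC hz.1, H.up.fin_str]
    show V.e ((H.up.U ^ r.1.val) ((H.up.U ^ o (r.2 : S)) (g r.2))) (ρ r.1 r.2) +
      ((o (r.2 : S) : F) - (o (P r.1 r.2) : F)) * c = _ + (V.e _ (ρ r.1 r.2) +
        V.vol ((H.up.U ^ N r.1 r.2) (rfC eps (B.q a) (g r.2)) * B.q (ρ r.1 r.2)) _) + _
    rw [hR, hst _ (P r.1 r.2), hrev, hU, e1, U_per H, pow_mul, FamW.Inv_pow hV, hee, hoo]
    have e3 : ((r.1.val + o (r.2 : S) + eeC eps (g r.2) : ℕ) : F) = ((N r.1 r.2 + 2 * k * q : ℕ) : F) := by rw [e1]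
    have e4 : ((r.1.val + o (tg r.1 r.2) + eeC eps (g (tg r.1 r.2)) : ℕ) : F) = ((N' r.1 r.2 + 2 * k * q : ℕ) : F) := by
      rw [e2]
    push_cast at e3 e4
    linear_combination c * e3 - c * e4
  · have hR := hrung i s hs
    show B.fin _ (H.up.str (N i s) 1 ++ ρ i s :: B.rev (H.up.str (N' i s) 1)) = _
    rw [hst _ s, fin_append, H.up.fin_str]
    show B.fin ((H.up.U ^ N i s) (rfC eps (B.q a) (g s)) * B.q (ρ i s)) _ = _
    have hrev : B.fin ((H.up.U ^ N' i s) (rfC eps (B.q a) (g (P i s))))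
        (B.rev (H.up.str (N' i s) (rfC eps (B.q a) (g (P i s))))) = rfC eps (B.q a) (g (P i s)) := by
      rw [← H.up.fin_str, fin_rev]
    rw [hR, hst _ (P i s), hrev]
  · exact ((hS i s hs).symm.trans (h4 i s s' hs h)).trans (hS i s' (hY _ _ hs h))
  · show H.up.str (N i s) 1 ++ ρ i s :: B.rev (H.up.str (N' i s) 1) =
      H.up.str (N i s') 1 ++ ρ i s' :: B.rev (H.up.str (N' i s') 1)
    rw [(hNc i s s' hs h).1, (hNc i s s' hs h).2, hρ i s s' hs h]

end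

end Pool.Agent.Lib.MP_688fd0_co.SQ4
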