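import Pool.Agent.Lib.MP_688fd0_co.SQ4.H98.FamP
import Pool.Agent.Lib.MP_688fd0_co.SQ4.H98.ColG

/-!
Vertical blocks: all strands go up from the level `l` to the level `l + h`, the strand `s` to the strand `π s`. Classes of
rungs conjugated by vertical blocks.
-/

set_option autoImplicit false

namespace Pool.Agent.Lib.MP_688fd0_co.SQ4

open Pool.Agent.Lib.MP_688fd0_co.OSF Pool.Agent.Lib.MP_688fd0_co.SQ2 Pool.Agent.Lib.MP_688fd0_co.SQ3
open SQ2.V (Puz Sub)

universe v

section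

variable {S : Type} [Fintype S] {Q : Type} [Group Q] [DecidableEq Q] {B : Lb.{0, v} Q} {U : Up B}
  {g : S → Q} {inj : Function.Injective g} {e : ℕ}

open Classical in
/-- A function of the strands as a function of the vertices at the level `l`. -/
noncomputable def atS {S Q : Type} [Group Q] {B : Lb.{0, v} Q} (U : Up B) (g : S → Q) (l : ℕ) {M : Type*} (G : S → M)
    (d : M) (y : Q) : M := if h : ∃ s, (U.U ^ l) (g s) = y then G h.choose else d

omit [Fintype S] [DecidableEq Q] in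
theorem atS_eq (inj : Function.Injective g) (l : ℕ) {M : Type*} (G : S → M) (d : M) (s : S) :
    atS U g l G d ((U.U ^ l) (g s)) = G s := by
  have h : ∃ s', (U.U ^ l) (g s') = (U.U ^ l) (g s) := ⟨s, rfl⟩
  unfold atS
  rw [dif_pos h, inj ((U.U ^ l).injective h.choose_spec)]

/-- A vertical block from the level `l` to the level `l + h`: the strand `s` goes to the strand `π s`. -/
structure VBk (U : Up B) (g : S → Q) (l h : ℕ) (π : Equiv.Perm S) (p : S → List B.L) : Prop where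
  fin : ∀ s, B.fin ((U.U ^ l) (g s)) (p s) = (U.U ^ (l + h)) (g (π s))
  reg : ∑ s, (src B ((U.U ^ l) (g s)) (p s) : Multiset Q) = ∑ s : S, ∑ i ∈ Finset.range h, {(U.U ^ (l + i)) (g s)}

namespace VBk

variable {l h h' : ℕ} {π π' : Equiv.Perm S} {p p' : S → List B.L}

omit [DecidableEq Q] in
/-- The straight block. -/
theorem str (U : Up B) (g : S → Q) (l h : ℕ) : VBk U g l h 1 fun s => U.str h ((U.U ^ l) (g s)) where
  fin s := by rw [U.fin_str, ← U.U_pow_add]; rfl
  reg := by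
    refine Finset.sum_congr rfl fun s _ => ?_
    rw [U.src_str]
    refine Finset.sum_congr rfl fun i _ => ?_
    rw [U.U_pow_add]

omit [DecidableEq Q] in
/-- Composition. -/
theorem comp (X : VBk U g l h π p) (Y : VBk U g (l + h) h' π' p') :
    VBk U g l (h + h') (π' * π) fun s => p s ++ p' (π s) where
  fin s := by
    rw [fin_append, X.fin, Y.fin, ← add_assoc]; rfl
  reg := by
    have h1 : ∀ s, (src B ((U.U ^ l) (g s)) (p s ++ p' (π s)) : Multiset Q) =
        (src B ((U.U ^ l) (g s)) (p s) : Multiset Q) + (src B ((U.U ^ (l + h)) (g (π s))) (p' (π s)) : Multiset Q) := by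
      intro s
      rw [src_append, X.fin, Multiset.coe_add]
    rw [Finset.sum_congr rfl fun s _ => h1 s, Finset.sum_add_distrib, X.reg,
      Equiv.sum_comp π fun s => (src B ((U.U ^ (l + h)) (g s)) (p' s) : Multiset Q), Y.reg, ← Finset.sum_add_distrib]
    refine Finset.sum_congr rfl fun s _ => ?_
    rw [sum_range_add]
    congr 1
    refine Finset.sum_congr rfl fun i _ => ?_
    rw [add_assoc]

omit [DecidableEq Q] in
/-- One level. -/
theorem one {ℓ : S → B.L} (h : ∀ s, (U.U ^ l) (g s) * B.q (ℓ s) = (U.U ^ (l + 1)) (g (π s))) :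
    VBk U g l 1 π fun s => [ℓ s] where
  fin s := h s
  reg := by
    refine Finset.sum_congr rfl fun s _ => ?_
    rw [Finset.sum_range_one, add_zero]
    rfl

omit [DecidableEq Q] in
/-- Translation. -/
theorem tr {ζ : Q} (hP : Per U e ζ) (X : VBk U g l h π p) (k : ℕ) : VBk U g (l + e * k) h π p where
  fin s := by
    rw [U.U_pow_add, per_mul hP, fin_tr, X.fin, show l + e * k + h = l + h + e * k by ring, U.U_pow_add (l + h),
      per_mul hP]
  reg := by
    have h1 : ∀ s, (src B ((U.U ^ (l + e * k)) (g s)) (p s) : Multiset Q) =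
        (src B ((U.U ^ l) (g s)) (p s) : Multiset Q).map (ζ ^ k * ·) := by
      intro s
      rw [U.U_pow_add, per_mul hP, src_tr, Multiset.map_coe]
    have h2 : ∀ s i, ({(U.U ^ (l + e * k + i)) (g s)} : Multiset Q) = ({(U.U ^ (l + i)) (g s)} : Multiset Q).map
        (ζ ^ k * ·) := by
      intro s i
      rw [Multiset.map_singleton, show l + e * k + i = l + i + e * k by ring, U.U_pow_add (l + i), per_mul hP]
    rw [Finset.sum_congr rfl fun s _ => h1 s]
    rw [Finset.sum_congr rfl fun s _ => Finset.sum_congr rfl fun i _ => h2 s i]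
    have h3 := congrArg (Multiset.map (ζ ^ k * ·)) X.reg
    rw [← Multiset.coe_mapAddMonoidHom, map_sum, map_sum] at h3
    refine h3.trans ?_
    refine Finset.sum_congr rfl fun s _ => ?_
    rw [map_sum]
    rfl

omit [DecidableEq Q] in
/-- As a block of vertices. -/
theorem blk (X : VBk U g l h π p) (inj : Function.Injective g) :
    Blk B (frS U g inj l) (frS U g inj (l + h)) (atS U g l (fun s => (U.U ^ (l + h)) (g (π s))) 1)
      (atS U g l p []) where
  fin y hy := by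
    obtain ⟨s, rfl⟩ := mem_frS.1 hy
    rw [atS_eq inj, atS_eq inj, X.fin]
  mem y hy := by
    obtain ⟨s, rfl⟩ := mem_frS.1 hy
    rw [atS_eq inj]
    exact frS_mem _ _
  inj y hy y' hy' e := by
    obtain ⟨s, rfl⟩ := mem_frS.1 hy
    obtain ⟨s', rfl⟩ := mem_frS.1 hy'
    rw [atS_eq inj, atS_eq inj] at e
    rw [π.injective (inj ((U.U ^ (l + h)).injective e))]
  surj x hx := by
    obtain ⟨s, rfl⟩ := mem_frS.1 hx
    refine ⟨(U.U ^ l) (g (π.symm s)), frS_mem _ _, ?_⟩
    rw [atS_eq inj, Equiv.apply_symm_apply]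

omit [DecidableEq Q] in
theorem bR (X : VBk U g l h π p) (inj : Function.Injective g) :
    bR B (frS U g inj l) (atS U g l p []) = ∑ i ∈ Finset.Ico l (l + h), (frS U g inj i).val := by
  unfold SQ4.bR
  rw [sum_frS, Finset.sum_Ico_eq_sum_range, Nat.add_sub_cancel_left]
  have h1 : ∀ s, (src B ((U.U ^ l) (g s)) (atS U g l p [] ((U.U ^ l) (g s))) : Multiset Q) =
      (src B ((U.U ^ l) (g s)) (p s) : Multiset Q) := fun s => by rw [atS_eq inj]
  rw [Finset.sum_congr rfl fun s _ => h1 s, X.reg, Finset.sum_comm]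
  exact Finset.sum_congr rfl fun i _ => (frS_val _).symm

end VBk

/-- A window between two vertical blocks. -/
theorem exists_mid (X : TW B) {l h m h' : ℕ} {π π' : Equiv.Perm S} {p p' : S → List B.L} {x y x' y' : S}
    (b : VBk U g l h π p) (b' : VBk U g (l + h + m) h' π' p') (L₀ : X.L₀ = frS U g inj (l + h))
    (L₁ : X.L₁ = frS U g inj (l + h + m)) (u₀ : X.u₀ = (U.U ^ (l + h)) (g x)) (u₁ : X.u₁ = (U.U ^ (l + h)) (g y))
    (w₀ : X.w₀ = (U.U ^ (l + h + m)) (g x')) (w₁ : X.w₁ = (U.U ^ (l + h + m)) (g y'))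
    (reg : X.R = ∑ i ∈ Finset.Ico (l + h) (l + h + m), (frS U g inj i).val) :
    ∃ Y : TW B, Y.L₀ = frS U g inj l ∧ Y.L₁ = frS U g inj (l + (h + m + h')) ∧ Y.u₀ = (U.U ^ l) (g (π.symm x)) ∧
      Y.u₁ = (U.U ^ l) (g (π.symm y)) ∧ Y.w₀ = (U.U ^ (l + (h + m + h'))) (g (π' x')) ∧
      Y.w₁ = (U.U ^ (l + (h + m + h'))) (g (π' y')) ∧
      Y.R = ∑ i ∈ Finset.Ico l (l + (h + m + h')), (frS U g inj i).val ∧
      Y.cup = p (π.symm x) ++ (X.cup ++ B.rev (p (π.symm y))) ∧
      Y.cap = B.rev (p' x') ++ (X.cap ++ p' y') ∧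
      ∀ s s', π s ≠ x → π s ≠ y → X.f ((U.U ^ (l + h)) (g (π s))) = (U.U ^ (l + h + m)) (g s') →
        Y.f ((U.U ^ l) (g s)) = (U.U ^ (l + (h + m + h'))) (g (π' s')) ∧
        Y.path ((U.U ^ l) (g s)) = p s ++ (X.path ((U.U ^ (l + h)) (g (π s))) ++ p' s') := by
  have hl : l + h + m + h' = l + (h + m + h') := by ring
  have B' := b'.blk inj
  have B₀ := b.blk inj
  rw [← L₁] at B'
  set Z := postB X B' with hZ
  have hB0 : Blk B (frS U g inj l) Z.L₀ (atS U g l (fun s => (U.U ^ (l + h)) (g (π s))) 1) (atS U g l p []) := by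
    have : Z.L₀ = frS U g inj (l + h) := L₀
    rw [this]; exact B₀
  have e₀ : atS U g l (fun s => (U.U ^ (l + h)) (g (π s))) 1 ((U.U ^ l) (g (π.symm x))) = Z.u₀ := by
    rw [atS_eq inj, Equiv.apply_symm_apply]; exact u₀.symm
  have e₁ : atS U g l (fun s => (U.U ^ (l + h)) (g (π s))) 1 ((U.U ^ l) (g (π.symm y))) = Z.u₁ := by
    rw [atS_eq inj, Equiv.apply_symm_apply]; exact u₁.symm
  refine ⟨preB Z hB0 ((U.U ^ l) (g (π.symm x))) ((U.U ^ l) (g (π.symm y))) (frS_mem _ _) (frS_mem _ _) e₀ e₁,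
    rfl, ?_, rfl, rfl, ?_, ?_, ?_, ?_, ?_, ?_⟩
  · show frS U g inj (l + h + m + h') = _
    rw [hl]
  · simp only [preB, hZ, postB]
    rw [w₀, atS_eq inj, hl]
  · simp only [preB, hZ, postB]
    rw [w₁, atS_eq inj, hl]
  · rw [preB_R, hZ, postB_R, reg, L₁, b.bR inj, b'.bR inj, hl, ← Finset.sum_Ico_consecutive _ (by omega : l ≤ l + h)
      (by omega : l + h ≤ l + (h + m + h')), ← Finset.sum_Ico_consecutive _ (by omega : l + h ≤ l + h + m)
      (by omega : l + h + m ≤ l + (h + m + h'))]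
  · show atS U g l p [] _ ++ (X.cup ++ B.rev (atS U g l p [] _)) = _
    rw [atS_eq inj, atS_eq inj]
  · show B.rev (atS U g (l + h + m) p' [] X.w₀) ++ (X.cap ++ atS U g (l + h + m) p' [] X.w₁) = _
    rw [w₀, w₁, atS_eq inj, atS_eq inj]
  · intro s s' hx hy hf
    constructor
    · simp only [preB, hZ, postB]
      rw [atS_eq inj, hf, atS_eq inj, hl]
    · simp only [preB, hZ, postB]
      rw [atS_eq inj, atS_eq inj, hf, atS_eq inj]

/-- Renaming of the rungs. -/
def ClsW.re {R R' : Type} (X : ClsW U g inj e R) (E : R' ≃ R) : ClsW U g inj e R' where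
  lev r := X.lev (E r)
  lev_lt r := X.lev_lt _
  H r := X.H (E r)
  x r := X.x (E r)
  y r := X.y (E r)
  tau := E.trans (X.tau.trans E.symm)
  W r := X.W (E r)
  L₀ r := X.L₀ _
  L₁ r := X.L₁ _
  u₀ r := X.u₀ _
  u₁ r := X.u₁ _
  w₀ r := by
    rw [X.w₀]
    show _ = (U.U ^ (X.lev (E r) + X.H (E r))) (g (X.x (E (E.symm (X.tau (E r))))))
    rw [Equiv.apply_symm_apply]
  w₁ r := by
    rw [X.w₁]
    show _ = (U.U ^ (X.lev (E r) + X.H (E r))) (g (X.y (E (E.symm (X.tau (E r))))))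
    rw [Equiv.apply_symm_apply]
  reg r := X.reg _

theorem ClsW.re_tau {R R' : Type} (X : ClsW U g inj e R) (E : R' ≃ R) (r : R') : E ((X.re E).tau r) = X.tau (E r) :=
  Equiv.apply_symm_apply _ _

theorem ClsW.Clo.re {R R' : Type} {X : ClsW U g inj e R} {A : S → Prop} (h : X.Clo A) (E : R' ≃ R) : (X.re E).Clo A where
  y r hr := h.y (E r) hr
  tau r hr := by
    show A (X.x (E ((X.re E).tau r)))
    rw [X.re_tau]
    exact h.tau (E r) hr
  tok r hr s hs := h.tok (E r) hr s hs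

theorem ClsW.Th.re {R R' : Type} {X : ClsW U g inj e R} {A : S → Prop} {F : Type} [CommRing F] {V : Ev B F} {c : F}
    (h : X.Th V A c) (E : R' ≃ R) : (X.re E).Th V A c := fun r hr s hs => h (E r) hr s hs

theorem ClsW.Cu.re {R R' : Type} {X : ClsW U g inj e R} {F : Type} [CommRing F] {V : Ev B F} {cu : R → F}
    (h : X.Cu V cu) (E : R' ≃ R) : (X.re E).Cu V fun r => cu (E r) where
  cup r := h.cup (E r)
  cap r := by
    show _ = cu (E ((X.re E).tau r))
    rw [X.re_tau]
    exact h.cap (E r)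

/-- A class conjugated by vertical blocks. -/
theorem exists_conj {R : Type} (X : ClsW U g inj e R) {ζ : Q} (hper : Per U e ζ) {π : Equiv.Perm S} {n n' : ℕ}
    {p p' : ℕ → S → List B.L} (hb : ∀ l, VBk U g l (e * n) π (p l)) (hb' : ∀ l, VBk U g l (e * n') π⁻¹ (p' l)) :
    ∃ Y : ClsW U g inj e R, (∀ r, Y.lev r = X.lev r) ∧ (∀ r, Y.H r = X.H r + e * (n + n')) ∧
      (∀ r, Y.x r = π.symm (X.x r)) ∧ (∀ r, Y.y r = π.symm (X.y r)) ∧ (∀ r, Y.tau r = X.tau r) ∧
      (∀ A : S → Prop, X.Clo (fun s => A (π.symm s)) → Y.Clo A) ∧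
      ∀ (F : Type) [CommRing F] (V : Ev B F) (c : F) (f : S → F), V.Inv ζ →
        (∀ l s, V.vol ((U.U ^ l) (g s)) (p l s) = f s) →
        (∀ l s, V.vol ((U.U ^ l) (g s)) (p' l s) = ((e * (n + n') : ℕ) : F) * c - f (π.symm s)) →
        (∀ A : S → Prop, X.Clo (fun s => A (π.symm s)) → X.Th V (fun s => A (π.symm s)) c → Y.Th V A c) ∧
        ∀ cu : R → F, X.Cu V cu → Y.Cu V fun r => f (π.symm (X.x r)) + cu r - f (π.symm (X.y r)) := by
  -- the translated window
  have hfr : ∀ l, lt (ζ ^ n) (frS U g inj l) = frS U g inj (l + e * n) := fun l => frS_lt hper l n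
  have hv : ∀ l s, ζ ^ n * (U.U ^ l) (g s) = (U.U ^ (l + e * n)) (g s) := by
    intro l s
    rw [U.U_pow_add, per_mul hper]
  have hlev : ∀ r, X.lev r + e * n + X.H r = X.lev r + X.H r + e * n := fun r => by ring
  choose W a1 a2 a3 a4 a5 a6 a7 a8 a9 a10 using fun r => exists_mid (inj := inj) ((X.W r).tr (ζ ^ n))
    (l := X.lev r) (h := e * n) (m := X.H r) (x := X.x r) (y := X.y r) (x' := X.x (X.tau r)) (y' := X.y (X.tau r))
    (hb (X.lev r)) (hb' (X.lev r + e * n + X.H r))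
    (by show lt (ζ ^ n) (X.W r).L₀ = _; rw [X.L₀, hfr])
    (by show lt (ζ ^ n) (X.W r).L₁ = _; rw [X.L₁, hfr, hlev])
    (by show ζ ^ n * (X.W r).u₀ = _; rw [X.u₀, hv])
    (by show ζ ^ n * (X.W r).u₁ = _; rw [X.u₁, hv])
    (by show ζ ^ n * (X.W r).w₀ = _; rw [X.w₀, hv, hlev])
    (by show ζ ^ n * (X.W r).w₁ = _; rw [X.w₁, hv, hlev])
    (by
      rw [TW.tr_R, X.reg, ← Multiset.coe_mapAddMonoidHom, map_sum, Finset.sum_Ico_eq_sum_range,
        Finset.sum_Ico_eq_sum_range, Nat.add_sub_cancel_left, Nat.add_sub_cancel_left]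
      refine Finset.sum_congr rfl fun i _ => ?_
      show Multiset.map (fun x => ζ ^ n * x) (frS U g inj (X.lev r + i)).val = (frS U g inj (X.lev r + e * n + i)).val
      rw [show X.lev r + e * n + i = X.lev r + i + e * n by ring, ← hfr]
      rfl)
  have hH : ∀ r, e * n + X.H r + e * n' = X.H r + e * (n + n') := fun r => by ring
  have hf : ∀ r s s', (X.W r).f ((U.U ^ X.lev r) (g s)) = (U.U ^ (X.lev r + X.H r)) (g s') →
      ((X.W r).tr (ζ ^ n)).f ((U.U ^ (X.lev r + e * n)) (g s)) = (U.U ^ (X.lev r + e * n + X.H r)) (g s') := by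
    intro r s s' h
    show ζ ^ n * (X.W r).f ((ζ ^ n)⁻¹ * (U.U ^ (X.lev r + e * n)) (g s)) = _
    rw [← hv, inv_mul_cancel_left, h, hv, hlev]
  refine ⟨{ lev := X.lev
            lev_lt := X.lev_lt
            H := fun r => X.H r + e * (n + n')
            x := fun r => π.symm (X.x r)
            y := fun r => π.symm (X.y r)
            tau := X.tau
            W := W
            L₀ := a1
            L₁ := fun r => by rw [a2, hH]
            u₀ := a3
            u₁ := a4
            w₀ := fun r => by rw [a5, hH]; rfl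
            w₁ := fun r => by rw [a6, hH]; rfl
            reg := fun r => by rw [a7, hH] }, fun _ => rfl, fun _ => rfl, fun _ => rfl, fun _ => rfl, fun _ => rfl,
            fun A hA => ?_, fun F _ V c f hV h0 h0' => ⟨fun A hA hT => ?_, fun cu hcu => ?_⟩⟩
  · refine ⟨hA.y, hA.tau, fun r hr s hs => ?_⟩
    have hs' : ¬ A (π.symm (π s)) := by rw [Equiv.symm_apply_apply]; exact hs
    have hsx : π s ≠ X.x r := fun h => hs' (by rw [h]; exact hr)
    have hsy : π s ≠ X.y r := fun h => hs' (by rw [h]; exact hA.y r hr)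
    have h1 := (a10 r s (π s) hsx hsy (hf r _ _ (hA.tok r hr (π s) hs'))).1
    rw [hH] at h1
    refine h1.trans ?_
    show (U.U ^ (X.lev r + (X.H r + e * (n + n')))) (g (π.symm (π s))) = _
    rw [Equiv.symm_apply_apply]
  · intro r hr s hs
    have hs' : ¬ A (π.symm (π s)) := by rw [Equiv.symm_apply_apply]; exact hs
    have hsx : π s ≠ X.x r := fun h => hs' (by rw [h]; exact hr)
    have hsy : π s ≠ X.y r := fun h => hs' (by rw [h]; exact hA.y r hr)
    have h1 := hA.tok r hr (π s) hs'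
    have h2 := (a10 r s (π s) hsx hsy (hf r _ _ h1)).2
    show V.vol ((U.U ^ X.lev r) (g s)) ((W r).path ((U.U ^ X.lev r) (g s))) =
      ((X.H r + e * (n + n') : ℕ) : F) * c
    rw [h2, V.vol_append, V.vol_append, h0, (hb (X.lev r)).fin]
    have h3 : ((X.W r).tr (ζ ^ n)).path ((U.U ^ (X.lev r + e * n)) (g (π s))) =
        (X.W r).path ((U.U ^ X.lev r) (g (π s))) := by
      show (X.W r).path ((ζ ^ n)⁻¹ * (U.U ^ (X.lev r + e * n)) (g (π s))) = _
      rw [← hv, inv_mul_cancel_left]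
    have h4 : B.fin ((U.U ^ (X.lev r + e * n)) (g (π s))) ((X.W r).path ((U.U ^ X.lev r) (g (π s)))) =
        (U.U ^ (X.lev r + e * n + X.H r)) (g (π s)) := by
      have h5 := (X.W r).path_fin ((U.U ^ X.lev r) (g (π s))) (by rw [X.L₀]; exact frS_mem _ _)
        (by rw [X.u₀]; exact fun k => hsx (inj ((U.U ^ X.lev r).injective k)))
        (by rw [X.u₁]; exact fun k => hsy (inj ((U.U ^ X.lev r).injective k)))
      rw [← hv, fin_tr, h5, h1, hv, hlev]
    rw [h3, h4, h0', ← hv, (FamW.Inv_pow hV n).vol, hT r hr (π s) hs', Equiv.symm_apply_apply]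
    push_cast
    ring
  · refine ⟨fun r => ?_, fun r => ?_⟩
    · show V.vol ((U.U ^ X.lev r) (g (π.symm (X.x r)))) (W r).cup = _
      have h2 : B.fin ((U.U ^ X.lev r) (g (π.symm (X.x r)))) (p (X.lev r) (π.symm (X.x r))) =
          ζ ^ n * (U.U ^ X.lev r) (g (X.x r)) := by
        rw [(hb (X.lev r)).fin, Equiv.apply_symm_apply, hv]
      have h3 : B.fin (ζ ^ n * (U.U ^ X.lev r) (g (X.x r))) (X.W r).cup =
          B.fin ((U.U ^ X.lev r) (g (π.symm (X.y r)))) (p (X.lev r) (π.symm (X.y r))) := by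
        rw [fin_tr, ← X.u₀, (X.W r).cup_fin, X.u₁, hv, (hb (X.lev r)).fin, Equiv.apply_symm_apply]
      rw [a8, V.vol_append, h0, h2]
      show _ + V.vol _ ((X.W r).cup ++ _) = _
      rw [V.vol_append, (FamW.Inv_pow hV n).vol, hcu.cup, h3, V.vol_rev, h0]
      ring
    · show V.vol (W r).w₀ (W r).cap = _
      rw [a9, a5]
      have h2 : (U.U ^ (X.lev r + (e * n + X.H r + e * n'))) (g (π⁻¹ (X.x (X.tau r)))) =
          B.fin ((U.U ^ (X.lev r + e * n + X.H r)) (g (X.x (X.tau r)))) (p' (X.lev r + e * n + X.H r) (X.x (X.tau r))) := by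
        rw [(hb' _).fin]
        congr 2
        ring
      rw [h2, V.vol_append, V.vol_rev, h0', fin_rev]
      show _ + V.vol _ ((X.W r).cap ++ _) = _
      have h3 : (U.U ^ (X.lev r + e * n + X.H r)) (g (X.x (X.tau r))) = ζ ^ n * (X.W r).w₀ := by
        rw [X.w₀, hv, hlev]
      have h4 : B.fin (ζ ^ n * (X.W r).w₀) (X.W r).cap = (U.U ^ (X.lev r + e * n + X.H r)) (g (X.y (X.tau r))) := by
        rw [fin_tr, (X.W r).cap_fin, X.w₁, hv, hlev]
      rw [V.vol_append, h3, (FamW.Inv_pow hV n).vol, hcu.cap, h4, h0']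
      ring

end

end Pool.Agent.Lib.MP_688fd0_co.SQ4
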