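import Pool.Agent.Lib.MP_688fd0_co.SQ4.H98.LetB

/-!
Type C1: classes of rungs with their words, in all positions (conjugates by lists of vertical letters).
-/

set_option autoImplicit false

namespace Pool.Agent.Lib.MP_688fd0_co.SQ4

open Pool.Agent.Lib.MP_688fd0_co.OSF Pool.Agent.Lib.MP_688fd0_co.SQ2 Pool.Agent.Lib.MP_688fd0_co.SQ3
open SQ2.V (Puz Sub)

/-- Constant on the sheets, in the domain `Y`. -/
def ShCY {S Q : Type} [Group Q] (D : Subgroup Q) (g : S → Q) (Y : S → Prop) {M : Type*} (μ : S → M) : Prop :=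
  ∀ s s', Y s → Sh D (g s) (g s') → μ s = μ s'

/-- The word of a list of vertical letters, a word, and back. -/
noncomputable def LW {Q : Type} [Group Q] {B : Lb.{0, 0} Q} (U : Up B) (k : ℕ) :
    List (ℕ × B.L) → Prop → Prop → List B.L → List B.L
  | [], _, _, w => w
  | v :: L, c, c', w => LX U k v c ++ (LW U k L c c' w ++ B.rev (LX U k v c'))

/-- The shift of a list of vertical letters. -/
def mL {Q : Type} [Group Q] {B : Lb.{0, 0} Q} (α β : Q) (L : List (ℕ × B.L)) : Q :=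
  (L.map fun v => mvC α β v.1 (B.q v.2)).prod

/-- Admissible lists. -/
def VLs {Q : Type} [Group Q] (B : Lb.{0, 0} Q) (a b : B.L) (D : Subgroup Q) (k : ℕ) (L : List (ℕ × B.L)) : Prop :=
  ∀ v ∈ L, v.1 < 2 * k ∧ VL B a b D v.1 v.2

section isp

universe v

variable {S : Type} [Fintype S] {Q : Type} [Group Q] [DecidableEq Q] {B : Lb.{0, v} Q} {U : Up B}
  {g : S → Q} {inj : Function.Injective g} {e : ℕ} {ζ : Q}

theorem IsP.of {Y : S → Prop} {P : ZMod e → Equiv.Perm S} {h : ℕ}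
    {Z Z' : ∀ (F : Type) [CommRing F], Ev B F → F → Prop}
    {cu cu' : ∀ (F : Type) [CommRing F], Ev B F → F → ZMod e × {s // Y s} → F}
    {X : ClsW U g inj e (ZMod e × {s // Y s})} (hX : IsP ζ P h Z cu X)
    (hZ : ∀ (F : Type) [CommRing F] (V : Ev B F) (c : F), V.Inv ζ → Z' F V c → Z F V c)
    (hcu : ∀ (F : Type) [CommRing F] (V : Ev B F) (c : F), V.Inv ζ → Z' F V c → ∀ r, cu F V c r = cu' F V c r) :
    IsP ζ P h Z' cu' X where
  lev := hX.lev
  x := hX.x
  y := hX.y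
  H_le := hX.H_le
  hD := hX.hD
  ne := hX.ne
  out := hX.out
  clo := hX.clo
  th A hA F _ V c hV hz := hX.th A hA F V c hV (hZ F V c hV hz)
  pair := hX.pair
  vol F _ V c hV hz := by
    have h1 := hX.vol F V c hV (hZ F V c hV hz)
    have h2 : cu F V c = cu' F V c := funext (hcu F V c hV hz)
    rw [h2] at h1
    exact h1

end isp

section

variable {Q : Type} [Group Q] {B : Lb.{0, 0} Q} {a b : B.L} {eps : Q →* ℤˣ} {D : Subgroup Q} {z : Q} {k : ℕ}
  (H : HypC B a b eps D z k)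

include H

open Classical in
theorem LX_fin {ρ : Q} (hρ : eps ρ = 1) {v : ℕ × B.L} (hv : v.1 < 2 * k) (hl : VL B a b D v.1 v.2) (c : Prop) :
    B.fin ρ (LX H.up k v c) = z ^ k * (ρ * (if c then mvC (B.q a) (B.q b) v.1 (B.q v.2) else 1)) := by
  rw [LX_eq H hρ]
  split_ifs with hc
  · have h1 := let_fin H hρ hl hv (show 0 + v.1 = v.1 + 2 * k * 0 by ring)
    refine h1.trans ?_
    rw [zero_add, H31.C_U_2k H]
  · rw [H.up.fin_str, H31.C_U_2k H, mul_one]

theorem mL_mem {L : List (ℕ × B.L)} (hL : VLs B a b D k L) : mL (B.q a) (B.q b) L ∈ D := by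
  unfold mL
  refine Subgroup.list_prod_mem _ fun x hx => ?_
  obtain ⟨v, hv, rfl⟩ := List.mem_map.1 hx
  exact mvC_mem H (hL v hv).2

open Classical in
/-- The end of the word of a list. -/
theorem LW_fin {L : List (ℕ × B.L)} (hL : VLs B a b D k L) (c c' : Prop) {w : List B.L} (hw : eps (B.fin 1 w) = 1)
    {ρ : Q} (hρ : eps ρ = 1) : B.fin ρ (LW H.up k L c c' w) = ρ *
      ((if c then mL (B.q a) (B.q b) L else 1) * B.fin 1 w * (if c' then mL (B.q a) (B.q b) L else 1)⁻¹) := by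
  induction L generalizing ρ with
  | nil =>
    show B.fin ρ w = _
    have h0 : mL (B.q a) (B.q b) ([] : List (ℕ × B.L)) = 1 := rfl
    rw [h0, ite_self, ite_self, one_mul, inv_one, mul_one, ← fin_tr, mul_one]
  | cons v L ih =>
    have hL' : VLs B a b D k L := fun x hx => hL x (List.mem_cons_of_mem _ hx)
    obtain ⟨hv, hl⟩ := hL v (List.mem_cons_self ..)
    have hm : eps (mvC (B.q a) (B.q b) v.1 (B.q v.2)) = 1 := H.leD (mvC_mem H hl)
    have hML : eps (mL (B.q a) (B.q b) L) = 1 := H.leD (mL_mem H hL')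
    have hc : mL (B.q a) (B.q b) (v :: L) = mvC (B.q a) (B.q b) v.1 (B.q v.2) * mL (B.q a) (B.q b) L := by
      unfold mL
      rw [List.map_cons, List.prod_cons]
    set m := mvC (B.q a) (B.q b) v.1 (B.q v.2) with hmdef
    set M := mL (B.q a) (B.q b) L with hMdef
    have e1 : ∀ c : Prop, eps (if c then m else 1) = 1 := fun c => by
      split_ifs
      · exact hm
      · exact map_one _
    have e2 : ∀ c : Prop, eps (if c then M else 1) = 1 := fun c => by
      split_ifs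
      · exact hML
      · exact map_one _
    show B.fin ρ (LX H.up k v c ++ (LW H.up k L c c' w ++ B.rev (LX H.up k v c'))) = _
    rw [fin_append, fin_append, LX_fin H hρ hv hl, fin_tr, ih hL' (by rw [map_mul, hρ, e1, one_mul])]
    set y := ρ * (if c then m else 1) * ((if c then M else 1) * B.fin 1 w * (if c' then M else 1)⁻¹) *
      (if c' then m else 1)⁻¹ with hy
    have h1 : eps y = 1 := by
      rw [hy, map_mul, map_mul, map_mul, map_mul, map_mul, map_inv, map_inv, hρ, e1, e1, e2, e2, hw]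
      decide
    have h2 := LX_fin H h1 hv hl c'
    have h3 : z ^ k * (ρ * (if c then m else 1) * ((if c then M else 1) * B.fin 1 w * (if c' then M else 1)⁻¹)) =
        B.fin y (LX H.up k v c') := by
      rw [h2, hy, inv_mul_cancel_right]
    rw [h3, fin_rev, hy, hc]
    have h4 : ∀ c : Prop, (if c then m * M else 1) = (if c then m else 1) * (if c then M else 1) := fun c => by
      split_ifs
      · rfl
      · rw [mul_one]
    rw [h4 c, h4 c']
    group

omit H in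
theorem uC_add (α β : Q) (j n : ℕ) : uC α β (2 * j + n) = (α * β⁻¹) ^ j * uC α β n := by
  induction n with
  | zero => rw [add_zero, uC_even]; show _ = _ * 1; rw [mul_one]
  | succ n ih =>
    show uC α β (2 * j + n) * (if (2 * j + n) % 2 = 0 then α else β⁻¹) = _ * (uC α β n * (if n % 2 = 0 then α else β⁻¹))
    rw [ih, mul_assoc, if_congr (show (2 * j + n) % 2 = 0 ↔ n % 2 = 0 by omega) rfl rfl]

/-- The moves of letters are periodic. -/
theorem mvC_mod {n : ℕ} {l : B.L} (h : VL B a b D n l) :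
    VL B a b D (n % (2 * k)) l ∧ mvC (B.q a) (B.q b) (n % (2 * k)) (B.q l) = mvC (B.q a) (B.q b) n (B.q l) := by
  have h1 : 2 * (k * (n / (2 * k))) + n % (2 * k) = n := by
    rw [← mul_assoc]
    exact Nat.div_add_mod _ _
  have h2 : VL B a b D (n % (2 * k)) l := by
    unfold VL at h ⊢
    rw [if_congr (show n % (2 * k) % 2 = 0 ↔ n % 2 = 0 by omega) rfl rfl]
    exact h
  refine ⟨h2, ?_⟩
  have h3 := mvC_mem H h2
  set m := n % (2 * k)
  set j := n / (2 * k)
  have e1 : mvC (B.q a) (B.q b) n (B.q l) = (B.q a * (B.q b)⁻¹) ^ (k * j) * mvC (B.q a) (B.q b) m (B.q l) *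
      ((B.q a * (B.q b)⁻¹) ^ (k * j))⁻¹ := by
    unfold mvC
    rw [← h1, show 2 * (k * j) + m + 1 = 2 * (k * j) + (m + 1) by ring, uC_add, uC_add]
    group
  rw [e1, pow_mul, H31.C_w_pow H, ← pow_mul]
  have h4 : Commute (mvC (B.q a) (B.q b) m (B.q l)) z := H.cen _ (H.leD h3)
  rw [(h4.pow_right (k * j)).eq.symm, mul_inv_cancel_right]

/-- Lists of pairs as lists of letters. -/
theorem exists_list (Lp : List (B.L × B.L)) (hLp : ∀ p ∈ Lp, NrP a b D p) (j : ℕ) :
    ∃ L : List (ℕ × B.L), VLs B a b D k L ∧ L.length = 2 * Lp.length ∧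
      mL (B.q a) (B.q b) L = (B.q a * (B.q b)⁻¹) ^ j * prd Lp * ((B.q a * (B.q b)⁻¹) ^ (j + Lp.length))⁻¹ := by
  have hk := H.kpos
  induction Lp generalizing j with
  | nil =>
    refine ⟨[], fun _ h => absurd h List.not_mem_nil, rfl, ?_⟩
    show (1 : Q) = _ * 1 * ((B.q a * (B.q b)⁻¹) ^ (j + 0))⁻¹
    rw [mul_one, add_zero, mul_inv_cancel]
  | cons p Lp ih =>
    obtain ⟨L, h1, h2, h3⟩ := ih (fun q hq => hLp q (List.mem_cons_of_mem _ hq)) (j + 1)
    obtain ⟨h4, h5⟩ := hLp p (List.mem_cons_self ..)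
    have v1 : VL B a b D (2 * j) p.1 := by
      unfold VL
      rw [if_pos (by omega)]
      exact h4
    have v2 : VL B a b D (2 * j + 1) (B.inv p.2) := by
      unfold VL
      rw [if_neg (by omega), inv_inv, B.q_inv]
      have e1 : B.q b * (B.q p.2)⁻¹ = B.q b * ((B.q b)⁻¹ * B.q p.2)⁻¹ * (B.q b)⁻¹ := by group
      rw [e1]
      exact mem_conj H (D.inv_mem h5) _
    obtain ⟨w1, w2⟩ := mvC_mod H v1
    obtain ⟨w3, w4⟩ := mvC_mod H v2
    refine ⟨((2 * j) % (2 * k), p.1) :: ((2 * j + 1) % (2 * k), B.inv p.2) :: L, fun v hv => ?_, ?_, ?_⟩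
    · rcases List.mem_cons.1 hv with rfl | hv
      · exact ⟨Nat.mod_lt _ (by omega), w1⟩
      · rcases List.mem_cons.1 hv with rfl | hv
        · exact ⟨Nat.mod_lt _ (by omega), w3⟩
        · exact h1 v hv
    · rw [List.length_cons, List.length_cons, List.length_cons, h2]
      ring
    · have e1 : mL (B.q a) (B.q b) (((2 * j) % (2 * k), p.1) :: ((2 * j + 1) % (2 * k), B.inv p.2) :: L) =
          mvC (B.q a) (B.q b) ((2 * j) % (2 * k)) (B.q p.1) *
            (mvC (B.q a) (B.q b) ((2 * j + 1) % (2 * k)) (B.q (B.inv p.2)) * mL (B.q a) (B.q b) L) := by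
        unfold mL
        rw [List.map_cons, List.map_cons, List.prod_cons, List.prod_cons]
      rw [e1, w2, w4, h3, B.q_inv, List.length_cons]
      have e2 : prd (p :: Lp) = B.q p.1 * (B.q p.2)⁻¹ * prd Lp := rfl
      unfold mvC
      rw [e2, uC_even, show 2 * j + 1 + 1 = 2 * (j + 1) by ring, uC_even, show j + (Lp.length + 1) =
        j + 1 + Lp.length by ring]
      group

/-- Every element of `mZ` is the shift of a list. -/
theorem exists_mL {m : Q} (hm : m ∈ mZ B a b D z k) : ∃ L : List (ℕ × B.L), VLs B a b D k L ∧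
    L.length = 2 * (k * (k + 1)) ∧ mL (B.q a) (B.q b) L = m := by
  obtain ⟨L₀, h1, h2, h3, h4⟩ := exists_word H hm
  obtain ⟨L, h5, h6, h7⟩ := exists_list H ((a, b) :: L₀) (fun p hp => by
    rcases List.mem_cons.1 hp with rfl | h
    · exact h2
    · exact h1 p h) 0
  refine ⟨L, h5, by rw [h6, List.length_cons, h3], ?_⟩
  have hw : (B.q a * (B.q b)⁻¹) ^ (k * (k + 1)) = z ^ (k * (k + 1)) := by
    rw [pow_mul, H31.C_w_pow H, ← pow_mul]
  rw [h7, h4, List.length_cons, h3, pow_zero, one_mul, zero_add, hw]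
  have h8 : Commute m z := H.cen _ (H.leD (mZ_le H hm))
  rw [← (h8.pow_right _).eq, mul_inv_cancel_right]

/-- The moves of letters are in `mZ`. -/
theorem mvC_mZ {n : ℕ} {l : B.L} (h : VL B a b D n l) : mvC (B.q a) (B.q b) n (B.q l) ∈ mZ B a b D z k := by
  have hk := H.kpos
  have hgen := gen_mem (B := B) (a := a) (b := b) (D := D) (z := z) (k := k)
  set δ := z⁻¹ * (B.q a * (B.q b)⁻¹) with hδ
  have hcz : ∀ x, eps x = 1 → Commute x z := fun x hx => H.cen x hx
  have hδD : δ ∈ D := H.mem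
  have hw : ∀ j, (B.q a * (B.q b)⁻¹) ^ j = z ^ j * δ ^ j := by
    intro j
    have h1 : B.q a * (B.q b)⁻¹ = z * δ := (mul_inv_cancel_left _ _).symm
    rw [h1, (hcz δ (H.leD hδD)).symm.mul_pow]
  -- the generator of the letter
  obtain ⟨x, hx1, hx2⟩ : ∃ x, (x, Multiplicative.ofAdd (1 : ZMod k)) ∈ tC B a b D z k ∧
      mvC (B.q a) (B.q b) n (B.q l) = (B.q a * (B.q b)⁻¹) ^ (n / 2) * (z * x * (B.q a * (B.q b)⁻¹)⁻¹) *
        ((B.q a * (B.q b)⁻¹) ^ (n / 2))⁻¹ := by
    unfold VL at h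
    rcases Nat.even_or_odd' n with ⟨j, rfl | rfl⟩
    · rw [if_pos (by omega)] at h
      refine ⟨z⁻¹ * (B.q l * (B.q b)⁻¹), Subgroup.subset_closure ⟨l, b, h, by
        rw [inv_mul_cancel]; exact D.one_mem, rfl⟩, ?_⟩
      rw [Nat.mul_div_cancel_left _ (by omega : 0 < 2)]
      unfold mvC
      rw [uC_even, uC_odd]
      group
    · rw [if_neg (by omega), inv_inv] at h
      refine ⟨z⁻¹ * (B.q a * (B.q (B.inv l))⁻¹), Subgroup.subset_closure ⟨a, B.inv l, by
        rw [inv_mul_cancel]; exact D.one_mem, ?_, rfl⟩, ?_⟩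
      · rw [B.q_inv]
        have e1 : (B.q b)⁻¹ * (B.q l)⁻¹ = (B.q b)⁻¹ * (B.q b * B.q l)⁻¹ * (B.q b)⁻¹⁻¹ := by group
        rw [e1]
        exact mem_conj H (D.inv_mem h) _
      · rw [show (2 * j + 1) / 2 = j by omega, B.q_inv]
        unfold mvC
        rw [uC_odd, show 2 * j + 1 + 1 = 2 * (j + 1) by ring, uC_even]
        generalize B.q a * (B.q b)⁻¹ = W
        group
  have hxD := tC_mem H hx1
  have h1 : z * x * (B.q a * (B.q b)⁻¹)⁻¹ = x * δ⁻¹ := by
    have h2 : B.q a * (B.q b)⁻¹ = z * δ := (mul_inv_cancel_left _ _).symm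
    rw [h2, mul_inv_rev, (hcz x (H.leD hxD)).symm.eq]
    have h3 := (hcz δ (H.leD hδD)).inv_left.inv_right.eq
    rw [mul_assoc, h3]
    group
  rw [hx2, h1, hw]
  have h2 : eps (δ ^ (n / 2) * (x * δ⁻¹) * (δ ^ (n / 2))⁻¹) = 1 := by
    refine H.leD (D.mul_mem (D.mul_mem (D.pow_mem hδD _) (D.mul_mem hxD (D.inv_mem hδD)))
      (D.inv_mem (D.pow_mem hδD _)))
  have h3 : z ^ (n / 2) * δ ^ (n / 2) * (x * δ⁻¹) * (z ^ (n / 2) * δ ^ (n / 2))⁻¹ =
      δ ^ (n / 2) * (x * δ⁻¹) * (δ ^ (n / 2))⁻¹ := by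
    have h4 := ((hcz _ h2).pow_right (n / 2)).eq
    have h5 : z ^ (n / 2) * δ ^ (n / 2) * (x * δ⁻¹) * (z ^ (n / 2) * δ ^ (n / 2))⁻¹ =
        z ^ (n / 2) * (δ ^ (n / 2) * (x * δ⁻¹) * (δ ^ (n / 2))⁻¹) * (z ^ (n / 2))⁻¹ := by group
    rw [h5, ← h4, mul_inv_cancel_right]
  rw [h3, mem_mZ]
  have h4 := (tC B a b D z k).mul_mem ((tC B a b D z k).mul_mem ((tC B a b D z k).pow_mem hgen (n / 2))
    ((tC B a b D z k).mul_mem hx1 ((tC B a b D z k).inv_mem hgen)))
    ((tC B a b D z k).inv_mem ((tC B a b D z k).pow_mem hgen (n / 2)))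
  rw [Prod.pow_mk, Prod.inv_mk, Prod.inv_mk, Prod.mk_mul_mk, Prod.mk_mul_mk, Prod.mk_mul_mk, mul_inv_cancel,
    mul_one, mul_inv_cancel] at h4
  exact h4

theorem mL_mZ {L : List (ℕ × B.L)} (hL : VLs B a b D k L) : mL (B.q a) (B.q b) L ∈ mZ B a b D z k := by
  unfold mL
  refine Subgroup.list_prod_mem _ fun x hx => ?_
  obtain ⟨v, hv, rfl⟩ := List.mem_map.1 hx
  exact mvC_mZ H (hL v hv).2

end

end Pool.Agent.Lib.MP_688fd0_co.SQ4
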