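import Pool.Agent.Lib.MP_688fd0_co.SQ4.H98.ConjL
import Pool.Agent.Lib.MP_688fd0_co.SQ4.H26.Near

/-!
Type C1: the classes `N` (a rotation on a union of sheets) and `FS` (a far reflection between two sheets, a rotation at
the other levels), in all positions.
-/

set_option autoImplicit false

namespace Pool.Agent.Lib.MP_688fd0_co.SQ4

open Pool.Agent.Lib.MP_688fd0_co.OSF Pool.Agent.Lib.MP_688fd0_co.SQ2 Pool.Agent.Lib.MP_688fd0_co.SQ3
open SQ2.V (Puz Sub)

section sh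

variable {Q : Type} [Group Q] {B : Lb.{0, 0} Q} {a b : B.L} {eps : Q →* ℤˣ} {D : Subgroup Q} {z : Q} {k : ℕ}
  (H : HypC B a b eps D z k)

include H

theorem sh_even (i : ℤ) (x : Q) : Sh D ((H.up.U ^ (2 * i)) x) (z ^ i * x) := by
  obtain ⟨δ, hδ, h⟩ := NearC.U_even H i x
  rw [h]
  exact (Sh.mul_mem _ hδ).symm

theorem eps_U (x : Q) : eps (H.up.U x) = - eps x := by
  rcases Int.units_eq_one_or (eps x) with h | h
  · rw [H31.C_U_one H h, map_mul, h, H.ea]; decide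
  · have h0 : eps x ≠ 1 := by rw [h]; decide
    rw [H31.C_U_neg H h0, map_mul, map_inv, h, H.eb]; decide

theorem eps_U_even (i : ℤ) (x : Q) : eps ((H.up.U ^ (2 * i)) x) = eps x := by
  rw [← sh_eps H (sh_even H i x), map_mul, map_zpow, H31.C_eps_z H, one_zpow, one_mul]

theorem eps_U_odd (i : ℤ) (x : Q) : eps ((H.up.U ^ (2 * i + 1)) x) = - eps x := by
  rw [zpow_add_one, Equiv.Perm.mul_apply, eps_U_even H, eps_U H]

/-- Alignment: if a rung leads from the sheet of `U ^ m x` to the sheet of `U ^ j y`, this holds also two levels higher. -/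
theorem sh_align {x y : Q} {m j : ℤ} {q : Q} (h : Sh D ((H.up.U ^ m) x * q) ((H.up.U ^ j) y)) (i : ℤ) :
    Sh D ((H.up.U ^ (m + 2 * i)) x * q) ((H.up.U ^ (j + 2 * i)) y) := by
  rw [add_comm m, add_comm j, zpow_add, zpow_add, Equiv.Perm.mul_apply, Equiv.Perm.mul_apply]
  have h1 := (sh_even H i ((H.up.U ^ m) x)).mul_right H.nD q
  have h2 := sh_even H i ((H.up.U ^ j) y)
  rw [mul_assoc] at h1
  exact (h1.trans (h.mul_left _)).trans h2.symm

theorem sh_zpow {x y : Q} (h : Sh D x y) (n : ℤ) : Sh D ((H.up.U ^ n) x) ((H.up.U ^ n) y) := by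
  have key : ∀ i : ℤ, Sh D ((H.up.U ^ (2 * i)) x) ((H.up.U ^ (2 * i)) y) := fun i =>
    ((sh_even H i x).trans (h.mul_left _)).trans (sh_even H i y).symm
  rcases Int.even_or_odd' n with ⟨i, rfl | rfl⟩
  · exact key i
  · rw [add_comm, zpow_add, zpow_one, Equiv.Perm.mul_apply, Equiv.Perm.mul_apply]
    exact (shuC H).upp (key i)

end sh

section

variable {S : Type} [Fintype S] {Q : Type} [Group Q] [DecidableEq Q] {B : Lb.{0, 0} Q} {a b : B.L} {eps : Q →* ℤˣ}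
  {D : Subgroup Q} {z : Q} {k : ℕ} (H : HypC B a b eps D z k) {g : S → Q} {inj : Function.Injective g}

include H

/-- The word with `n` plain letters up, one letter, `n'` plain letters down. -/
def PW {Q : Type} [Group Q] {B : Lb.{0, 0} Q} (U : Up B) (n : ℕ) (l : B.L) (n' : ℕ) : List B.L :=
  U.str n 1 ++ l :: B.rev (U.str n' 1)

/-- The rungs of a rotation, plain position. -/
theorem exists_NQ (hg : DCl D g) {Y : S → Prop} (hY : ShCl D g Y) {t : B.L} (ht : eps (B.q t) = 1) :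
    ∃ (P : ZMod (2 * k) → Equiv.Perm S) (X : ClsW H.up g inj (2 * k) (ZMod (2 * k) × {s // Y s})),
      IsQ H P (fun i s => PW H.up ((i.val + eeC eps (g s)) % (2 * k)) t ((i.val + eeC eps (g s)) % (2 * k)))
        (2 * k * (Fintype.card S) ^ 2) X ∧
      ∀ i s, Y s → Sh D (g s) (g (P i s)) := by
  have htD : B.q t ∈ D := H.near t ht
  exact exists_labQ H (inj := inj) hg (fun _ => 0) (fun _ _ _ => rfl) (fun _ _ h => inj h) 0
    (fun _ => le_rfl) hY (ρ := fun _ _ => t) (fun _ _ _ _ _ => rfl) (fun _ s => s) (fun _ _ h => h)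
    (fun _ _ _ => (Sh.mul_mem _ htD).symm) (fun _ _ _ _ _ h => h) (fun _ _ _ _ h => h)
    (fun i s => (i.val + eeC eps (g s)) % (2 * k)) (fun i s => (i.val + eeC eps (g s)) % (2 * k))
    (fun i s s' _ h => by simp only [sh_ee H h, and_self]) (fun i s _ => by
      refine ⟨(i.val + eeC eps (g s)) / (2 * k), ?_⟩
      rw [add_zero, and_self]
      exact (Nat.mod_add_div _ _).symm)

omit [Fintype S] [DecidableEq Q] in
/-- The element of a plain word. -/
theorem PW_fin (n n' : ℕ) (l : B.L) :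
    B.fin 1 (PW H.up n l n') = uC (B.q a) (B.q b) n * B.q l * (uC (B.q a) (B.q b) n')⁻¹ := by
  have h1 : ∀ m, B.fin 1 (H.up.str m 1) = uC (B.q a) (B.q b) m := fun m => by
    rw [H.up.fin_str, C_U_uC H (map_one eps), one_mul]
  have h2 : ∀ w : List B.L, B.fin 1 (B.rev w) = (B.fin 1 w)⁻¹ := by
    intro w
    have h3 := fin_rev (B := B) (B.fin 1 w)⁻¹ w
    have h4 : B.fin (B.fin 1 w)⁻¹ w = 1 := by
      have := fin_tr (B := B) (B.fin 1 w)⁻¹ 1 w
      rwa [mul_one, inv_mul_cancel] at this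
    rwa [h4] at h3
  unfold PW
  rw [fin_append, h1]
  show B.fin (uC (B.q a) (B.q b) n * B.q l) _ = _
  have h5 := fin_tr (B := B) (uC (B.q a) (B.q b) n * B.q l) 1 (B.rev (H.up.str n' 1))
  rw [mul_one] at h5
  rw [h5, h2, h1]

omit [Fintype S] [DecidableEq Q] in
/-- A strand is determined by its sheet and its reference vertex. -/
theorem strand_eq (inj : Function.Injective g) {s s' : S} (h : Sh D (g s) (g s'))
    (hr : rfC eps (B.q a) (g s) = rfC eps (B.q a) (g s')) : s = s' := by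
  apply inj
  rw [← U_rf H (g s), ← U_rf H (g s'), hr, sh_ee H h]

end

section FS

open Classical in
/-- The labels of the class `FS`. -/
noncomputable def rhoF {S Q : Type} [Group Q] {B : Lb.{0, 0} Q} (U : Up B) (eps : Q →* ℤˣ) (D : Subgroup Q) (g : S → Q)
    (o : S → ℕ) (y₀ y₁ : S) (s₀ r : B.L) {e : ℕ} (i : ZMod e) (s : S) : B.L :=
  if Sh D (g y₀) (g s) then (if eps ((U.U ^ (i.val + o s)) (g s)) = 1 then s₀ else r) else
    (if Sh D (g y₁) (g s) ∧ eps ((U.U ^ (i.val + o s)) (g s)) ≠ 1 then B.inv s₀ else r)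

open Classical in
/-- The targets of the class `FS`. -/
noncomputable def tgF {S Q : Type} [Group Q] {B : Lb.{0, 0} Q} (U : Up B) (eps : Q →* ℤˣ) (D : Subgroup Q) (g : S → Q)
    (o : S → ℕ) (y₀ y₁ : S) {e : ℕ} (i : ZMod e) (s : S) : S :=
  if Sh D (g y₀) (g s) then (if eps ((U.U ^ (i.val + o s)) (g s)) = 1 then y₁ else s) else
    (if Sh D (g y₁) (g s) ∧ eps ((U.U ^ (i.val + o s)) (g s)) ≠ 1 then y₀ else s)

variable {S : Type} [Fintype S] {Q : Type} [Group Q] [DecidableEq Q] {B : Lb.{0, 0} Q} {a b : B.L} {eps : Q →* ℤˣ}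
  {D : Subgroup Q} {z : Q} {k : ℕ} (H : HypC B a b eps D z k) {g : S → Q} {inj : Function.Injective g}

/-- The sheets of `y₀` and `y₁` are aligned by the label `s₀`, with the offsets `o`. -/
structure AlF {S Q : Type} [Group Q] {B : Lb.{0, 0} Q} {a b : B.L} {eps : Q →* ℤˣ}
    {D : Subgroup Q} {z : Q} {k : ℕ} (H : HypC B a b eps D z k) (g : S → Q) (o : S → ℕ) (y₀ y₁ : S)
    (s₀ : B.L) : Prop where
  co : ShC D g o
  ne : ¬ Sh D (g y₀) (g y₁)
  sg : eps (B.q s₀) = -1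
  al : ∃ m j : ℤ, eps ((H.up.U ^ m) (g y₀)) = 1 ∧ Sh D ((H.up.U ^ m) (g y₀) * B.q s₀) ((H.up.U ^ j) (g y₁)) ∧
    (o y₁ : ℤ) - o y₀ = j - m

variable {H} {o : S → ℕ} {y₀ y₁ : S} {s₀ : B.L}

omit [Fintype S] [DecidableEq Q] in
/-- Alignment at all levels. -/
theorem AlF.lev (h : AlF H g o y₀ y₁ s₀) {n : ℕ} (hn : eps ((H.up.U ^ (n + o y₀)) (g y₀)) = 1) :
    Sh D ((H.up.U ^ (n + o y₀)) (g y₀) * B.q s₀) ((H.up.U ^ (n + o y₁)) (g y₁)) := by
  obtain ⟨m, j, h1, h2, h3⟩ := h.al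
  have h4 : ∃ i : ℤ, ((n + o y₀ : ℕ) : ℤ) = m + 2 * i := by
    rcases Int.even_or_odd' (((n + o y₀ : ℕ) : ℤ) - m) with ⟨i, hi | hi⟩
    · exact ⟨i, by rw [← hi]; ring⟩
    · exfalso
      have e1 : ((n + o y₀ : ℕ) : ℤ) = 2 * i + 1 + m := by rw [← hi]; ring
      rw [← zpow_natCast, e1, zpow_add, Equiv.Perm.mul_apply, eps_U_odd H, h1] at hn
      exact absurd hn (by decide)
  obtain ⟨i, hi⟩ := h4
  have h5 : ((n + o y₁ : ℕ) : ℤ) = j + 2 * i := by
    rw [Nat.cast_add] at hi ⊢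
    linarith
  have h6 := sh_align H h2 i
  rw [← hi, ← h5, zpow_natCast, zpow_natCast] at h6
  exact h6

omit [Fintype S] [DecidableEq Q] in
/-- The vertices of the two sheets have different signs. -/
theorem AlF.sgn (h : AlF H g o y₀ y₁ s₀) (n : ℕ) :
    eps ((H.up.U ^ (n + o y₀)) (g y₀)) = 1 ↔ eps ((H.up.U ^ (n + o y₁)) (g y₁)) ≠ 1 := by
  have key : ∀ n : ℕ, eps ((H.up.U ^ (n + o y₀)) (g y₀)) = 1 → eps ((H.up.U ^ (n + o y₁)) (g y₁)) ≠ 1 := by
    intro n hn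
    rw [sh_eps H (h.lev hn), map_mul, hn, h.sg]
    decide
  refine ⟨key n, fun h1 => ?_⟩
  by_contra h2
  have h3 : eps ((H.up.U ^ (n + 1 + o y₀)) (g y₀)) = 1 := by
    rw [show n + 1 + o y₀ = n + o y₀ + 1 by ring, H.up.U_pow_succ', eps_U H]
    rcases Int.units_eq_one_or (eps ((H.up.U ^ (n + o y₀)) (g y₀))) with h4 | h4
    · exact absurd h4 h2
    · rw [h4]; decide
  have h5 := key (n + 1) h3
  rw [show n + 1 + o y₁ = n + o y₁ + 1 by ring, H.up.U_pow_succ', eps_U H] at h5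
  rcases Int.units_eq_one_or (eps ((H.up.U ^ (n + o y₁)) (g y₁))) with h6 | h6
  · exact h1 h6
  · rw [h6] at h5
    exact h5 (by decide)

omit [Fintype S] [DecidableEq Q] in
theorem eps_sheet {s s' : S} (h : Sh D (g s) (g s')) (ho : o s = o s') (n : ℕ) :
    eps ((H.up.U ^ (n + o s')) (g s')) = eps ((H.up.U ^ (n + o s)) (g s)) := by
  rw [← ho]
  exact sh_eps H ((shuC H).pow _ h)

variable (r : B.L)

omit [Fintype S] [DecidableEq Q] in
theorem rhoF_p (h : AlF H g o y₀ y₁ s₀) {e : ℕ} {i : ZMod e} {s : S} (hs : Sh D (g y₀) (g s))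
    (hi : eps ((H.up.U ^ (i.val + o y₀)) (g y₀)) = 1) : rhoF H.up eps D g o y₀ y₁ s₀ r i s = s₀ ∧
      tgF H.up eps D g o y₀ y₁ i s = y₁ := by
  have h1 : eps ((H.up.U ^ (i.val + o s)) (g s)) = 1 := by rw [eps_sheet hs (h.co _ _ hs), hi]
  unfold rhoF tgF
  rw [if_pos hs, if_pos hs, if_pos h1, if_pos h1]
  exact ⟨rfl, rfl⟩

omit [Fintype S] [DecidableEq Q] in
theorem rhoF_q (h : AlF H g o y₀ y₁ s₀) {e : ℕ} {i : ZMod e} {s : S} (hs : Sh D (g y₁) (g s))
    (hi : eps ((H.up.U ^ (i.val + o y₀)) (g y₀)) = 1) : rhoF H.up eps D g o y₀ y₁ s₀ r i s = B.inv s₀ ∧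
      tgF H.up eps D g o y₀ y₁ i s = y₀ := by
  have h0 : ¬ Sh D (g y₀) (g s) := fun k => h.ne (k.trans hs.symm)
  have h1 : eps ((H.up.U ^ (i.val + o s)) (g s)) ≠ 1 := by
    rw [eps_sheet hs (h.co _ _ hs)]
    exact (h.sgn _).1 hi
  unfold rhoF tgF
  rw [if_neg h0, if_neg h0, if_pos ⟨hs, h1⟩, if_pos ⟨hs, h1⟩]
  exact ⟨rfl, rfl⟩

omit [Fintype S] [DecidableEq Q] in
theorem rhoF_m (h : AlF H g o y₀ y₁ s₀) {e : ℕ} {i : ZMod e} {s : S} (hs : Sh D (g y₀) (g s) ∨ Sh D (g y₁) (g s))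
    (hi : eps ((H.up.U ^ (i.val + o y₀)) (g y₀)) ≠ 1) : rhoF H.up eps D g o y₀ y₁ s₀ r i s = r ∧
      tgF H.up eps D g o y₀ y₁ i s = s := by
  unfold rhoF tgF
  rcases hs with hs | hs
  · have h1 : eps ((H.up.U ^ (i.val + o s)) (g s)) ≠ 1 := by rw [eps_sheet hs (h.co _ _ hs)]; exact hi
    rw [if_pos hs, if_pos hs, if_neg h1, if_neg h1]
    exact ⟨rfl, rfl⟩
  · have h0 : ¬ Sh D (g y₀) (g s) := fun k => h.ne (k.trans hs.symm)
    have h1 : ¬ (Sh D (g y₁) (g s) ∧ eps ((H.up.U ^ (i.val + o s)) (g s)) ≠ 1) := by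
      rintro ⟨_, h2⟩
      rw [eps_sheet hs (h.co _ _ hs)] at h2
      exact hi ((h.sgn _).2 h2)
    rw [if_neg h0, if_neg h0, if_neg h1, if_neg h1]
    exact ⟨rfl, rfl⟩

/-- The class `FS`, plain position. -/
theorem exists_FSQ (hg : DCl D g) (h : AlF H g o y₀ y₁ s₀) (inj' : Function.Injective fun s => (H.up.U ^ o s) (g s))
    (O : ℕ) (hO : ∀ s, o s ≤ O) (hr : eps (B.q r) = 1) :
    ∃ (P : ZMod (2 * k) → Equiv.Perm S)
      (X : ClsW H.up g inj (2 * k) (ZMod (2 * k) × {s // Sh D (g y₀) (g s) ∨ Sh D (g y₁) (g s)})),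
      IsQ H P (fun i s => PW H.up (i.val + o s + eeC eps (g s)) (rhoF H.up eps D g o y₀ y₁ s₀ r i s)
        (i.val + o (tgF H.up eps D g o y₀ y₁ i s) + eeC eps (g (tgF H.up eps D g o y₀ y₁ i s))))
        (2 * k * (Fintype.card S) ^ 2 + O) X ∧
      ∀ i s, Sh D (g y₀) (g s) ∨ Sh D (g y₁) (g s) → Sh D (g (tgF H.up eps D g o y₀ y₁ i s)) (g (P i s)) := by
  have hrD : B.q r ∈ D := H.near r hr
  have hcl : ∀ (i : ZMod (2 * k)) (s : S), Sh D (g y₀) (g s) ∨ Sh D (g y₁) (g s) →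
      Sh D ((H.up.U ^ i.val) ((H.up.U ^ o s) (g s)) * B.q (rhoF H.up eps D g o y₀ y₁ s₀ r i s))
        ((H.up.U ^ i.val) ((H.up.U ^ o (tgF H.up eps D g o y₀ y₁ i s)) (g (tgF H.up eps D g o y₀ y₁ i s)))) := by
    intro i s hs
    rw [shU, shU]
    by_cases hi : eps ((H.up.U ^ (i.val + o y₀)) (g y₀)) = 1
    · rcases hs with hs | hs
      · obtain ⟨e1, e2⟩ := rhoF_p r h hs hi
        rw [e1, e2, ← h.co _ _ hs]
        exact (((shuC H).pow _ hs.symm).mul_right H.nD _).trans (h.lev hi)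
      · obtain ⟨e1, e2⟩ := rhoF_q r h hs hi
        rw [e1, e2, ← h.co _ _ hs, B.q_inv]
        have h1 := (h.lev hi).mul_right H.nD (B.q s₀)⁻¹
        rw [mul_inv_cancel_right] at h1
        exact (((shuC H).pow _ hs.symm).mul_right H.nD _).trans h1.symm
    · obtain ⟨e1, e2⟩ := rhoF_m r h hs hi
      rw [e1, e2]
      exact (Sh.mul_mem _ hrD).symm
  have hrc : ∀ (i : ZMod (2 * k)) (s s' : S), Sh D (g y₀) (g s) ∨ Sh D (g y₁) (g s) → Sh D (g s) (g s') →
      rhoF H.up eps D g o y₀ y₁ s₀ r i s = rhoF H.up eps D g o y₀ y₁ s₀ r i s' := by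
    intro i s s' hs hs'
    by_cases hi : eps ((H.up.U ^ (i.val + o y₀)) (g y₀)) = 1
    · rcases hs with hs | hs
      · rw [(rhoF_p r h hs hi).1, (rhoF_p r h (hs.trans hs') hi).1]
      · rw [(rhoF_q r h hs hi).1, (rhoF_q r h (hs.trans hs') hi).1]
    · rw [(rhoF_m r h hs hi).1, (rhoF_m r h (hs.imp (fun k => k.trans hs') fun k => k.trans hs') hi).1]
  have htc : ∀ (i : ZMod (2 * k)) (s s' : S), Sh D (g y₀) (g s) ∨ Sh D (g y₁) (g s) → Sh D (g s) (g s') →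
      Sh D (g (tgF H.up eps D g o y₀ y₁ i s)) (g (tgF H.up eps D g o y₀ y₁ i s')) := by
    intro i s s' hs hs'
    by_cases hi : eps ((H.up.U ^ (i.val + o y₀)) (g y₀)) = 1
    · rcases hs with hs | hs
      · rw [(rhoF_p r h hs hi).2, (rhoF_p r h (hs.trans hs') hi).2]
        exact Sh.refl _
      · rw [(rhoF_q r h hs hi).2, (rhoF_q r h (hs.trans hs') hi).2]
        exact Sh.refl _
    · rw [(rhoF_m r h hs hi).2, (rhoF_m r h (hs.imp (fun k => k.trans hs') fun k => k.trans hs') hi).2]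
      exact hs'
  exact exists_labQ H (inj := inj) hg o h.co inj' O hO (Y := fun s => Sh D (g y₀) (g s) ∨ Sh D (g y₁) (g s))
    (fun s s' hs hs' => hs.imp (fun k => k.trans hs') fun k => k.trans hs') (ρ := rhoF H.up eps D g o y₀ y₁ s₀ r)
    hrc (tgF H.up eps D g o y₀ y₁) (fun i s hs => by
      by_cases hi : eps ((H.up.U ^ (i.val + o y₀)) (g y₀)) = 1
      · rcases hs with hs | hs
        · rw [(rhoF_p r h hs hi).2]
          exact Or.inr (Sh.refl _)
        · rw [(rhoF_q r h hs hi).2]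
          exact Or.inl (Sh.refl _)
      · rw [(rhoF_m r h hs hi).2]
        exact hs) hcl (fun i s s' hs hs2 hss => by
      by_cases hi : eps ((H.up.U ^ (i.val + o y₀)) (g y₀)) = 1
      · rcases hs with hs | hs <;> rcases hs2 with hs2 | hs2
        · exact hs.symm.trans hs2
        · rw [(rhoF_p r h hs hi).2, (rhoF_q r h hs2 hi).2] at hss
          exact absurd hss.symm h.ne
        · rw [(rhoF_q r h hs hi).2, (rhoF_p r h hs2 hi).2] at hss
          exact absurd hss h.ne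
        · exact hs.symm.trans hs2
      · rwa [(rhoF_m r h hs hi).2, (rhoF_m r h hs2 hi).2] at hss) htc
    (fun i s => i.val + o s + eeC eps (g s))
    (fun i s => i.val + o (tgF H.up eps D g o y₀ y₁ i s) + eeC eps (g (tgF H.up eps D g o y₀ y₁ i s)))
    (fun i s s' hs hs' => ⟨by rw [h.co _ _ hs', sh_ee H hs'], by
      rw [h.co _ _ (htc i s s' hs hs'), sh_ee H (htc i s s' hs hs')]⟩)
    (fun i s _ => ⟨0, rfl, rfl⟩)

end FS

end Pool.Agent.Lib.MP_688fd0_co.SQ4
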