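import Pool.Agent.Lib.MP_688fd0_co.SQ4.H98.FamV

/-!
Classes of rungs given by permutations `P k`, and their conjugates by vertical blocks.
-/

set_option autoImplicit false

namespace Pool.Agent.Lib.MP_688fd0_co.SQ4

open Pool.Agent.Lib.MP_688fd0_co.OSF Pool.Agent.Lib.MP_688fd0_co.SQ2 Pool.Agent.Lib.MP_688fd0_co.SQ3
open SQ2.V (Puz Sub)

universe v

section

variable {S : Type} [Fintype S] {Q : Type} [Group Q] [DecidableEq Q] {B : Lb.{0, v} Q} {U : Up B}
  {g : S → Q} {inj : Function.Injective g} {e : ℕ} {ζ : Q}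

/-- A class of rungs: for every `k` mod `e` the rungs join `s` and `P k s`, `s` in the domain `Y`. The voltages that we
admit satisfy `Z`, the volumes are `cu`. -/
structure IsP (ζ : Q) {Y : S → Prop} (P : ZMod e → Equiv.Perm S) (h : ℕ)
    (Z : ∀ (F : Type) [CommRing F], Ev B F → F → Prop)
    (cu : ∀ (F : Type) [CommRing F], Ev B F → F → ZMod e × {s // Y s} → F)
    (X : ClsW U g inj e (ZMod e × {s // Y s})) : Prop where
  lev : ∀ r, X.lev r = r.1.val
  x : ∀ r, X.x r = r.2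
  y : ∀ r, X.y r = P r.1 r.2
  H_le : ∀ r, X.H r ≤ h
  hD : ∀ k s, Y s → Y (P k s)
  ne : ∀ k s, Y s → P k s ≠ s
  out : ∀ k s, ¬ Y s → P k s = s
  clo : ∀ A : S → Prop, (∀ k s, A s → A (P k s)) → X.Clo A
  th : ∀ A : S → Prop, (∀ k s, A s → A (P k s)) → ∀ (F : Type) [CommRing F] (V : Ev B F) (c : F), V.Inv ζ →
    Z F V c → X.Th V A c
  pair : ∀ E : S → S → Prop, (∀ k p q, E p q → E (P k p) (P k q)) → ∀ r, E (X.x r) (X.y r) →
    E (X.x (X.tau r)) (X.y (X.tau r))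
  vol : ∀ (F : Type) [CommRing F] (V : Ev B F) (c : F), V.Inv ζ → Z F V c → X.Cu V (cu F V c)

theorem IsL.isP {o : S → ℕ} {O : ℕ} {Y : S → Prop} {P : ZMod e → Equiv.Perm S} {ρ : ZMod e → S → B.L}
    {X : ClsW U g inj e (ZMod e × {s // Y s})} (h : IsL ζ o O P ρ X) :
    IsP ζ P (e * (Fintype.card S) ^ 2 + O) (fun _ _ V c => ∀ x, V.e x (U.up x) = c)
      (fun _ _ V c r => V.e ((U.U ^ r.1.val) ((U.U ^ o (r.2 : S)) (g r.2))) (ρ r.1 r.2) +
        ((o (r.2 : S) : _) - (o (P r.1 r.2) : _)) * c) X where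
  lev := h.lev
  x := h.x
  y := h.y
  H_le := h.H_le
  hD := h.hD
  ne := h.ne
  out := h.out
  clo := h.clo
  th A hA F _ V c _ hV := h.th A hA F V c hV
  pair := h.pair
  vol := h.vol

/-- Conjugates. -/
theorem IsP.conj {Y : S → Prop} {P : ZMod e → Equiv.Perm S} {h : ℕ}
    {Z : ∀ (F : Type) [CommRing F], Ev B F → F → Prop}
    {cu : ∀ (F : Type) [CommRing F], Ev B F → F → ZMod e × {s // Y s} → F}
    {X : ClsW U g inj e (ZMod e × {s // Y s})} (hX : IsP ζ P h Z cu X) (hper : Per U e ζ) {π : Equiv.Perm S}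
    (hY : ∀ s, Y (π s) ↔ Y s) {n n' : ℕ}
    {p p' : ℕ → S → List B.L} (hb : ∀ l, VBk U g l (e * n) π (p l)) (hb' : ∀ l, VBk U g l (e * n') π⁻¹ (p' l))
    (Z' : ∀ (F : Type) [CommRing F], Ev B F → F → Prop) (f : ∀ (F : Type) [CommRing F], Ev B F → F → S → F)
    (hZ : ∀ (F : Type) [CommRing F] (V : Ev B F) (c : F), Z' F V c → Z F V c)
    (hp : ∀ (F : Type) [CommRing F] (V : Ev B F) (c : F), V.Inv ζ → Z' F V c →
      ∀ l s, V.vol ((U.U ^ l) (g s)) (p l s) = f F V c s)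
    (hp' : ∀ (F : Type) [CommRing F] (V : Ev B F) (c : F), V.Inv ζ → Z' F V c →
      ∀ l s, V.vol ((U.U ^ l) (g s)) (p' l s) = ((e * (n + n') : ℕ) : F) * c - f F V c (π.symm s)) :
    ∃ X' : ClsW U g inj e (ZMod e × {s // Y s}),
      IsP ζ (fun k => π⁻¹ * P k * π) (h + e * (n + n')) Z'
        (fun F _ V c r => f F V c r.2 + cu F V c (r.1, ⟨π r.2, (hY _).2 r.2.2⟩) -
          f F V c ((π⁻¹ * P r.1 * π) r.2)) X' := by
  obtain ⟨X₁, b1, b2, b3, b4, b5, b6, b7⟩ := exists_conj X hper hb hb'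
  have hYs : ∀ s, Y (π.symm s) ↔ Y s := fun s => by rw [← hY, Equiv.apply_symm_apply]
  let E : ZMod e × {s // Y s} ≃ ZMod e × {s // Y s} :=
    { toFun := fun r => (r.1, ⟨π r.2, (hY _).2 r.2.2⟩)
      invFun := fun r => (r.1, ⟨π.symm r.2, (hYs _).2 r.2.2⟩)
      left_inv := fun r => Prod.ext rfl (Subtype.ext (Equiv.symm_apply_apply _ _))
      right_inv := fun r => Prod.ext rfl (Subtype.ext (Equiv.apply_symm_apply _ _)) }
  have hinv : ∀ A : S → Prop, (∀ k s, A s → A ((π⁻¹ * P k * π) s)) → ∀ k s, A (π.symm s) → A (π.symm (P k s)) := by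
    intro A hA k s hs
    have := hA k _ hs
    rw [Equiv.Perm.mul_apply, Equiv.Perm.mul_apply, Equiv.apply_symm_apply] at this
    exact this
  refine ⟨X₁.re E, ⟨fun r => ?_, fun r => ?_, fun r => ?_, fun r => ?_, fun k s hs => ?_, fun k s hs h => ?_,
    fun k s hs => ?_, fun A hA => ?_, fun A hA F _ V c hV hz => ?_, fun E₀ hE r hr => ?_,
    fun F _ V c hV hz => ?_⟩⟩
  · show X₁.lev (E r) = _
    rw [b1, hX.lev]
    rfl
  · show X₁.x (E r) = _
    rw [b3, hX.x]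
    exact Equiv.symm_apply_apply _ _
  · show X₁.y (E r) = _
    rw [b4, hX.y]
    rfl
  · show X₁.H (E r) ≤ _
    rw [b2]
    exact Nat.add_le_add_right (hX.H_le _) _
  · show Y (π.symm (P k (π s)))
    rw [hYs]
    exact hX.hD _ _ ((hY _).2 hs)
  · have h1 : π.symm (P k (π s)) = s := h
    rw [Equiv.symm_apply_eq] at h1
    exact hX.ne _ _ ((hY _).2 hs) h1
  · show π.symm (P k (π s)) = s
    rw [hX.out _ _ fun h1 => hs ((hY _).1 h1), Equiv.symm_apply_apply]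
  · exact (b6 A (hX.clo _ (hinv A hA))).re E
  · have h1 := b7 F V c (f F V c) hV (hp F V c hV hz) (hp' F V c hV hz)
    exact (h1.1 A (hX.clo _ (hinv A hA)) (hX.th _ (hinv A hA) F V c hV (hZ F V c hz))).re E
  · show E₀ (X₁.x (E ((X₁.re E).tau r))) (X₁.y (E ((X₁.re E).tau r)))
    rw [X₁.re_tau, b3, b4, b5]
    have h1 : E₀ (X₁.x (E r)) (X₁.y (E r)) := hr
    rw [b3, b4] at h1
    refine hX.pair (fun p q => E₀ (π.symm p) (π.symm q)) (fun k p q hpq => ?_) (E r) h1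
    have := hE k _ _ hpq
    simp only [Equiv.Perm.mul_apply, Equiv.apply_symm_apply] at this
    exact this
  · have h1 := b7 F V c (f F V c) hV (hp F V c hV hz) (hp' F V c hV hz)
    have h2 := (h1.2 _ (hX.vol F V c hV (hZ F V c hz))).re E
    have h3 : (fun r => f F V c (π.symm (X.x (E r))) + cu F V c (E r) - f F V c (π.symm (X.y (E r)))) =
        fun r : ZMod e × {s // Y s} => f F V c r.2 + cu F V c (r.1, ⟨π r.2, (hY _).2 r.2.2⟩) -
          f F V c ((π⁻¹ * P r.1 * π) r.2) := by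
      funext r
      rw [hX.x, hX.y]
      show f F V c (π.symm (π r.2)) + cu F V c (E r) - f F V c (π.symm (P r.1 (π r.2))) = _
      rw [Equiv.symm_apply_apply]
      rfl
    rw [h3] at h2
    exact h2

end

end Pool.Agent.Lib.MP_688fd0_co.SQ4
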