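import Pool.Agent.Lib.MP_688fd0_co.SQ4.H98.FamT
import Pool.Agent.Lib.MP_688fd0_co.SQ3.H98.TL2

/-!
Classes of rungs of height 1: T-gadgets with marked levels (`TLM`).

The marked levels are the levels `k mod e` for one fixed `k : ZMod e`; at a marked level the label `s` joins a strand `x`
of type `0` (`¬ T x`) with the vertex one level higher on the strand `σ x` of type `1`. At all levels there are the rungs
`P l`. The rungs of the class are the strands `x` of type `0` in the domain `D`.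
-/

set_option autoImplicit false

namespace Pool.Agent.Lib.MP_688fd0_co.SQ4

open Pool.Agent.Lib.MP_688fd0_co.OSF Pool.Agent.Lib.MP_688fd0_co.SQ2 Pool.Agent.Lib.MP_688fd0_co.SQ3
open SQ2.V (Puz)

universe v

section st

variable {L : Type}

/-- The state map, for any type of strands. -/
def PhG (S R : ℕ → Equiv.Perm L) (e j : ℕ) : Equiv.Perm (L × L) where
  toFun := fun c => (RO R (e * j + 2) (e - 2) (R (e * j + 1) ((S j).symm (R (e * j) c.2))),
    RO R (e * j + 2) (e - 2) (S j c.1))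
  invFun := fun c => ((S j).symm ((RO R (e * j + 2) (e - 2)).symm c.2),
    (R (e * j)).symm (S j ((R (e * j + 1)).symm ((RO R (e * j + 2) (e - 2)).symm c.1))))
  left_inv := fun c => by simp
  right_inv := fun c => by simp

/-- The state. -/
def stG (S R : ℕ → Equiv.Perm L) (e : ℕ) (x : L) : ℕ → L × L
  | 0 => (x, (R 0).symm (S 0 x))
  | j + 1 => PhG S R e j (stG S R e x j)

end st

section tg

variable {S : Type} [Fintype S] {Q : Type} [Group Q] [DecidableEq Q] {B : Lb.{0, v} Q} {U : Up B}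
  {g : S → Q} {inj : Function.Injective g}

omit [DecidableEq Q] in
theorem trP_symm (l : ℕ) (σ : Equiv.Perm S) (s : S) :
    (trP U g inj l σ).symm (phS U g inj l s) = phS U g inj l (σ.symm s) := by
  rw [Equiv.symm_apply_eq, trP_ph, Equiv.apply_symm_apply]

omit [DecidableEq Q] in
theorem trP_RO (l : ℕ) (P : ℕ → Equiv.Perm S) (a n : ℕ) (s : S) :
    RO (fun j => trP U g inj l (P j)) a n (phS U g inj l s) = phS U g inj l (RO P a n s) := by
  induction n with
  | zero => rfl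
  | succ n ih =>
    show (trP U g inj l (P (a + n))) (RO (fun j => trP U g inj l (P j)) a n (phS U g inj l s)) =
      phS U g inj l (P (a + n) (RO P a n s))
    rw [ih, trP_ph]

omit [DecidableEq Q] in
theorem trP_st (l : ℕ) (σ R : ℕ → Equiv.Perm S) (e : ℕ) (x : S) (k : ℕ) :
    stM (fun j => trP U g inj l (σ j)) (fun j => trP U g inj l (R j)) e (phS U g inj l x) k =
      (phS U g inj l (stG σ R e x k).1, phS U g inj l (stG σ R e x k).2) := by
  induction k with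
  | zero =>
    show (phS U g inj l x, (trP U g inj l (R 0)).symm (trP U g inj l (σ 0) (phS U g inj l x))) =
      (phS U g inj l x, phS U g inj l ((R 0).symm (σ 0 x)))
    rw [trP_ph, trP_symm]
  | succ k ih =>
    show PhM _ _ e k (stM _ _ e (phS U g inj l x) k) = _
    rw [ih]
    show (RO (fun j => trP U g inj l (R j)) (e * k + 2) (e - 2) (trP U g inj l (R (e * k + 1))
        ((trP U g inj l (σ k)).symm (trP U g inj l (R (e * k)) (phS U g inj l (stG σ R e x k).2)))),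
      RO (fun j => trP U g inj l (R j)) (e * k + 2) (e - 2)
        (trP U g inj l (σ k) (phS U g inj l (stG σ R e x k).1))) = _
    rw [trP_ph, trP_symm, trP_ph, trP_ph, trP_RO, trP_RO]
    rfl

/-- T-gadget of height 1 from the level `l` to the level `l + (e k + 1)`. -/
theorem TGM {σ R : ℕ → Equiv.Perm S} {ρ : ℕ → S → B.L} {D T : S → Prop} {e l : ℕ} {s : B.L} (he : 2 ≤ e)
    (hS : ∀ (j : ℕ) (y : S), D y → ¬ T y → (U.U ^ (l + e * j)) (g y) * B.q s = (U.U ^ (l + e * j + 1)) (g (σ j y)))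
    (hR : ∀ (i : ℕ) (y : S), D y → (U.U ^ (l + i)) (g y) * B.q (ρ i y) = (U.U ^ (l + i)) (g (R i y)))
    (hDS : ∀ (j : ℕ) (y : S), D (σ j y) ↔ D y) (hDR : ∀ (i : ℕ) (y : S), D (R i y) ↔ D y)
    (hTS : ∀ (j : ℕ) (y : S), D y → (T (σ j y) ↔ ¬ T y)) (hTR : ∀ (i : ℕ) (y : S), T (R i y) ↔ T y)
    (x : S) (hx : D x) (hT : ¬ T x) (k : ℕ) (hk : 1 ≤ k)
    (h1 : R (e * k) (stG σ R e x k).2 = σ k (stG σ R e x k).1)
    (h2 : ∀ i, 1 ≤ i → i < k → R (e * i) (stG σ R e x i).2 ≠ σ i (stG σ R e x i).1) :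
    ∃ X : TW B, X.L₀ = frS U g inj l ∧ X.L₁ = frS U g inj (l + (e * k + 1)) ∧ X.u₀ = (U.U ^ l) (g x) ∧
      X.u₁ = (U.U ^ l) (g (σ 0 x)) ∧ X.cup = [s, B.inv (U.up ((U.U ^ l) (g (σ 0 x))))] ∧
      X.w₀ = (U.U ^ (l + (e * k + 1))) (g (stG σ R e x k).1) ∧
      X.w₁ = (U.U ^ (l + (e * k + 1))) (g (σ k (stG σ R e x k).1)) ∧
      X.cap = [B.inv (U.up ((U.U ^ (l + e * k)) (g (stG σ R e x k).1))), s] ∧
      X.R = ∑ i ∈ Finset.Ico l (l + (e * k + 1)), (frS U g inj i).val ∧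
      ∀ y, y ≠ x → y ≠ σ 0 x → (D y → ∃ y', D y' ∧ X.f ((U.U ^ l) (g y)) = (U.U ^ (l + (e * k + 1))) (g y')) ∧
        (¬ D y → X.f ((U.U ^ l) (g y)) = (U.U ^ (l + (e * k + 1))) (g y) ∧
          X.path ((U.U ^ l) (g y)) = U.str (e * k + 1) ((U.U ^ l) (g y))) := by
  set ph := phS U g inj l with hph
  set S' : ℕ → Equiv.Perm (frS U g inj l) := fun i => trP U g inj l (σ i) with hS'
  set R' : ℕ → Equiv.Perm (frS U g inj l) := fun i => trP U g inj l (R i) with hR'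
  have eS : ∀ j y, S' j (ph y) = ph (σ j y) := fun j y => trP_ph l _ y
  have eR : ∀ j y, R' j (ph y) = ph (R j y) := fun j y => trP_ph l _ y
  have est : ∀ k, stM S' R' e (ph x) k = (ph (stG σ R e x k).1, ph (stG σ R e x k).2) := fun k =>
    trP_st l σ R e x k
  have dD : ∀ y, D (ph.symm (ph y)) ↔ D y := fun y => by rw [Equiv.symm_apply_apply]
  have dT : ∀ y, T (ph.symm (ph y)) ↔ T y := fun y => by rw [Equiv.symm_apply_apply]
  obtain ⟨X, a1, a2, a3, a4, a5, a6, a7, a8, a9, a10⟩ := TLM (U := U) (L := frS U g inj l) (S := S') (R := R') (s := s)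
    (ρ := fun i y => ρ i (ph.symm y)) (D := fun y => D (ph.symm y)) (T := fun y => T (ph.symm y)) (e := e)
    (fun j y hy hy' => by
      obtain ⟨z, rfl⟩ := ph.surjective y
      rw [eS, phS_up, phS_up, ← add_assoc]
      exact hS j z ((dD z).1 hy) (fun h => hy' ((dT z).2 h)))
    (fun i y hy => by
      obtain ⟨z, rfl⟩ := ph.surjective y
      rw [eR, phS_up, phS_up, Equiv.symm_apply_apply]
      exact hR i z ((dD z).1 hy))
    (fun j y => by
      obtain ⟨z, rfl⟩ := ph.surjective y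
      rw [eS, dD, dD]; exact hDS j z)
    (fun j y => by
      obtain ⟨z, rfl⟩ := ph.surjective y
      rw [eR, dD, dD]; exact hDR j z)
    (fun j y hy => by
      obtain ⟨z, rfl⟩ := ph.surjective y
      rw [eS, dT, dT]; exact hTS j z ((dD z).1 hy))
    (fun j y => by
      obtain ⟨z, rfl⟩ := ph.surjective y
      rw [eR, dT, dT]; exact hTR j z)
    he (ph x) ((dD x).2 hx) (fun h => hT ((dT x).1 h)) k hk
    (by rw [est]; show R' (e * k) (ph _) = S' k (ph _); rw [eR, eS, h1])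
    (fun i hi hi' h => h2 i hi hi' (by
      rw [est] at h
      have h' : R' (e * i) (ph _) = S' i (ph _) := h
      rw [eR, eS] at h'
      exact ph.injective h'))
  rw [eS] at a4 a5
  rw [est] at a6 a7 a8
  rw [phS_up] at a6
  have a7' : X.w₁ = (U.U ^ (e * k + 1)) (S' k (ph (stG σ R e x k).1) : Q) := a7
  rw [eS, phS_up] at a7'
  have a8' : X.cap = [B.inv (U.up ((U.U ^ (e * k)) (ph (stG σ R e x k).1 : Q))), s] := a8
  rw [phS_up] at a8'
  refine ⟨X, a1, ?_, a3, a4, a5, a6, a7', a8', ?_, ?_⟩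
  · rw [a2, im_frS]
  · rw [a9, Finset.sum_Ico_eq_sum_range, Nat.add_sub_cancel_left]
    exact Finset.sum_congr rfl fun i _ => by rw [im_frS]
  · intro y hy0 hy1
    obtain ⟨b1, b2⟩ := a10 (ph y) (by
        rw [a3]; exact fun h => hy0 (ph.injective (Subtype.ext h)))
      (by rw [a4]; exact fun h => hy1 (ph.injective (Subtype.ext h)))
    have b1 : D y → ∃ z : frS U g inj l, D (ph.symm z) ∧ X.f (ph y : Q) = (U.U ^ (e * k + 1)) (z : Q) := fun hs =>
      b1 ((dD y).2 hs)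
    have b2 : ¬ D y → X.f (ph y : Q) = (U.U ^ (e * k + 1)) (ph y : Q) ∧
        X.path (ph y : Q) = U.str (e * k + 1) (ph y : Q) := fun hs => b2 (fun h => hs ((dD y).1 h))
    refine ⟨fun hs => ?_, fun hs => ?_⟩
    · obtain ⟨z, hz, e1⟩ := b1 hs
      obtain ⟨y', rfl⟩ := ph.surjective z
      rw [phS_up] at e1
      exact ⟨y', (dD y').1 hz, e1⟩
    · obtain ⟨c1, c2⟩ := b2 hs
      rw [phS_up] at c1
      exact ⟨c1, c2⟩

end tg

section fam

variable {S : Type} [Fintype S] {Q : Type} [Group Q] [DecidableEq Q] {B : Lb.{0, v} Q} {U : Up B}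
  {g : S → Q} {inj : Function.Injective g} {e : ℕ}

/-- The state map of a class of height 1. -/
def ThM (σ : Equiv.Perm S) (R : ℕ → Equiv.Perm S) (e : ℕ) : Equiv.Perm (S × S) := PhG (fun _ => σ) R e 0

omit [Fintype S] in
theorem ThM_pow {σ : Equiv.Perm S} {R : ℕ → Equiv.Perm S} (hR : ∀ i, R (i + e) = R i) (x : S) (k : ℕ) :
    (ThM σ R e ^ k) (x, (R 0).symm (σ x)) = stG (fun _ => σ) R e x k := by
  have hR0 : ∀ j i, R (e * j + i) = R i := by
    intro j i
    induction j with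
    | zero => rw [mul_zero, zero_add]
    | succ j ih => rw [show e * (j + 1) + i = e * j + i + e by ring, hR, ih]
  have hRO : ∀ j i n, RO R (e * j + i) n = RO R i n := by
    intro j i n
    induction j with
    | zero => rw [mul_zero, zero_add]
    | succ j ih => rw [show e * (j + 1) + i = e * j + i + e by ring, RO_per hR, ih]
  induction k with
  | zero => rfl
  | succ k ih =>
    rw [pow_succ', Equiv.Perm.mul_apply, ih]
    show PhG (fun _ => σ) R e 0 (stG (fun _ => σ) R e x k) = PhG (fun _ => σ) R e k (stG (fun _ => σ) R e x k)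
    generalize stG (fun _ => σ) R e x k = c
    show (RO R (e * 0 + 2) (e - 2) (R (e * 0 + 1) (σ.symm (R (e * 0) c.2))),
      RO R (e * 0 + 2) (e - 2) (σ c.1)) =
      (RO R (e * k + 2) (e - 2) (R (e * k + 1) (σ.symm (R (e * k) c.2))), RO R (e * k + 2) (e - 2) (σ c.1))
    have h0 := hR0 k 0
    rw [add_zero] at h0
    rw [hRO, hRO, hR0, hR0, h0]
    simp

omit [Fintype S] in
theorem inv_stG {σ : Equiv.Perm S} {R : ℕ → Equiv.Perm S} {D T : S → Prop}
    (hDS : ∀ y : S, D (σ y) ↔ D y) (hDR : ∀ (i : ℕ) (y : S), D (R i y) ↔ D y)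
    (hTS : ∀ y : S, D y → (T (σ y) ↔ ¬ T y)) (hTR : ∀ (i : ℕ) (y : S), T (R i y) ↔ T y) (x : S) (hx : D x) (hT : ¬ T x)
    (k : ℕ) : D (stG (fun _ => σ) R e x k).1 ∧ D (stG (fun _ => σ) R e x k).2 ∧
      ¬ T (stG (fun _ => σ) R e x k).1 ∧ T (stG (fun _ => σ) R e x k).2 := by
  have dS : ∀ y : S, D (σ.symm y) ↔ D y := fun y => by rw [← hDS, Equiv.apply_symm_apply]
  have dR : ∀ (l : ℕ) (y : S), D ((R l).symm y) ↔ D y := fun l y => by rw [← hDR l, Equiv.apply_symm_apply]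
  have tS : ∀ y : S, D y → (¬ T (σ.symm y) ↔ T y) := fun y hy => by
    rw [← hTS _ ((dS y).2 hy), Equiv.apply_symm_apply]
  have tR : ∀ (l : ℕ) (y : S), T ((R l).symm y) ↔ T y := fun l y => by rw [← hTR l, Equiv.apply_symm_apply]
  induction k with
  | zero => exact ⟨hx, (dR 0 _).2 ((hDS x).2 hx), hT, (tR 0 _).2 ((hTS x hx).2 hT)⟩
  | succ k ih =>
    obtain ⟨a1, a2, a3, a4⟩ := ih
    refine ⟨(inv_RO hDR _ _ _).2 ((hDR _ _).2 ((dS _).2 ((hDR _ _).2 a2))),
      (inv_RO hDR _ _ _).2 ((hDS _).2 a1), fun h => ?_, (inv_RO hTR _ _ _).2 ((hTS _ a1).2 a3)⟩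
    exact (tS _ ((hDR _ _).2 a2)).2 ((hTR _ _).2 a4) ((hTR _ _).1 ((inv_RO hTR _ _ _).1 h))

/-- The class of the T-gadgets of height 1; the marked levels are those `≡ κ mod e`. -/
theorem exists_clsM (he : 2 ≤ e) {κ : ZMod e} {P : ZMod e → Equiv.Perm S} {ρ : ZMod e → S → B.L} {σ : Equiv.Perm S}
    {s : B.L} {D T : S → Prop}
    (hP : ∀ (l : ℕ) (y : S), D y → (U.U ^ l) (g y) * B.q (ρ l y) = (U.U ^ l) (g (P l y)))
    (hS : ∀ (l : ℕ) (y : S), (l : ZMod e) = κ → D y → ¬ T y →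
      (U.U ^ l) (g y) * B.q s = (U.U ^ (l + 1)) (g (σ y)))
    (hDS : ∀ y : S, D (σ y) ↔ D y) (hDR : ∀ (k : ZMod e) (y : S), D (P k y) ↔ D y)
    (hTS : ∀ y : S, D y → (T (σ y) ↔ ¬ T y)) (hTR : ∀ (k : ZMod e) (y : S), T (P k y) ↔ T y) :
    ∃ X : ClsW U g inj e {y // D y ∧ ¬ T y},
      (∀ r, X.lev r = κ.val) ∧ (∀ r, X.x r = r) ∧ (∀ r, X.y r = σ r) ∧
      (∀ r, ∃ k, 1 ≤ k ∧ k ≤ (Fintype.card S) ^ 2 ∧ X.H r = e * k + 1) ∧
      (∀ r, (X.W r).cup = [s, B.inv (U.up ((U.U ^ κ.val) (g (σ r))))]) ∧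
      (∀ r, (X.W r).cap = [B.inv (U.up ((U.U ^ (X.lev r + X.H r - 1)) (g (X.tau r)))), s]) ∧
      ∀ A : S → Prop, (∀ k s, A (P k s) ↔ A s) → (∀ s, A (σ s) ↔ A s) → ∀ r, A (X.x r) →
        ∀ y, y ≠ X.x r → y ≠ X.y r →
        (A y → ∃ y', A y' ∧ (X.W r).f ((U.U ^ X.lev r) (g y)) = (U.U ^ (X.lev r + X.H r)) (g y')) ∧
        (¬ A y → (X.W r).f ((U.U ^ X.lev r) (g y)) = (U.U ^ (X.lev r + X.H r)) (g y) ∧
          (X.W r).path ((U.U ^ X.lev r) (g y)) = U.str (X.H r) ((U.U ^ X.lev r) (g y))) := by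
  classical
  have : NeZero e := ⟨by omega⟩
  let R : ℕ → Equiv.Perm S := fun i => P (κ + i)
  have hRe : ∀ i, R (i + e) = R i := by
    intro i
    show P (κ + ((i + e : ℕ) : ZMod e)) = P (κ + i)
    rw [Nat.cast_add, ZMod.natCast_self, add_zero]
  have hR0 : ∀ j, R (e * j) = R 0 := by
    intro j
    show P (κ + ((e * j : ℕ) : ZMod e)) = P (κ + ((0 : ℕ) : ZMod e))
    rw [Nat.cast_mul, ZMod.natCast_self, zero_mul, Nat.cast_zero]
  obtain ⟨n, hn1, hn2⟩ := first_return (ThM σ R e) (fun a : S × S => R 0 a.2 = σ a.1)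
  let st : {y // D y ∧ ¬ T y} → S × S := fun r => (r, (R 0).symm (σ r))
  have hst : ∀ r, R 0 (st r).2 = σ (st r).1 := by
    intro r
    show R 0 ((R 0).symm (σ r)) = σ r
    simp
  let K : {y // D y ∧ ¬ T y} → ℕ := fun r => n (st r)
  have hpow : ∀ (r : {y // D y ∧ ¬ T y}) (i : ℕ), (ThM σ R e ^ i) (st r) = stG (fun _ => σ) R e r i :=
    fun r i => ThM_pow hRe (r : S) i
  have hinv : ∀ (r : {y // D y ∧ ¬ T y}) (i : ℕ), D (stG (fun _ => σ) R e r i).1 ∧
      D (stG (fun _ => σ) R e r i).2 ∧ ¬ T (stG (fun _ => σ) R e r i).1 ∧ T (stG (fun _ => σ) R e r i).2 :=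
    fun r i => inv_stG hDS (fun i y => hDR _ y) hTS (fun i y => hTR _ y) (r : S) r.2.1 r.2.2 i
  have hK1 : ∀ r, 1 ≤ K r := fun r => (hn1 (st r) (hst r)).1
  have hcl : ∀ r : {y // D y ∧ ¬ T y}, R 0 (stG (fun _ => σ) R e r (K r)).2 = σ (stG (fun _ => σ) R e r (K r)).1 := by
    intro r
    have := (hn1 (st r) (hst r)).2.2.1
    rw [hpow] at this
    exact this
  have hmin : ∀ (r : {y // D y ∧ ¬ T y}) (i : ℕ), 1 ≤ i → i < K r →
      R 0 (stG (fun _ => σ) R e r i).2 ≠ σ (stG (fun _ => σ) R e r i).1 := by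
    intro r i h1 h2 h3
    apply (hn1 (st r) (hst r)).2.2.2 i h1 h2
    rw [hpow]
    exact h3
  let tm : {y // D y ∧ ¬ T y} → {y // D y ∧ ¬ T y} := fun r =>
    ⟨(stG (fun _ => σ) R e r (K r)).1, (hinv r (K r)).1, (hinv r (K r)).2.2.1⟩
  have htm : Function.Injective tm := by
    intro r r' h
    have h2 : (stG (fun _ => σ) R e r (K r)).1 = (stG (fun _ => σ) R e r' (K r')).1 := congrArg Subtype.val h
    have h3 : (stG (fun _ => σ) R e r (K r)).2 = (stG (fun _ => σ) R e r' (K r')).2 := by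
      apply (R 0).injective
      rw [hcl, hcl, h2]
    have h4 := hn2 _ _ (hst r) (hst r') (by
      show (ThM σ R e ^ K r) (st r) = (ThM σ R e ^ K r') (st r')
      rw [hpow, hpow]
      exact Prod.ext h2 h3)
    have h5 : (r : S) = r' := congrArg (fun a : S × S => a.1) h4
    exact Subtype.ext h5
  have hval : ((κ.val : ℕ) : ZMod e) = κ := ZMod.natCast_zmod_val κ
  have hlev : ∀ i : ℕ, ((κ.val + i : ℕ) : ZMod e) = κ + i := fun i => by rw [Nat.cast_add, hval]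
  have hlev2 : ∀ j : ℕ, ((κ.val + e * j : ℕ) : ZMod e) = κ := fun j => by
    rw [hlev, Nat.cast_mul, ZMod.natCast_self, zero_mul, add_zero]
  let Ah : {y // D y ∧ ¬ T y} → S → Prop := fun r s =>
    ∀ A : S → Prop, (∀ k s, A (P k s) ↔ A s) → (∀ s, A (σ s) ↔ A s) → A r → A s
  have hAP : ∀ r k s, Ah r (P k s) ↔ Ah r s := fun r k s =>
    ⟨fun h A h1 h2 h3 => (h1 k s).1 (h A h1 h2 h3), fun h A h1 h2 h3 => (h1 k s).2 (h A h1 h2 h3)⟩
  have hAS : ∀ r s, Ah r (σ s) ↔ Ah r s := fun r s =>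
    ⟨fun h A h1 h2 h3 => (h2 s).1 (h A h1 h2 h3), fun h A h1 h2 h3 => (h2 s).2 (h A h1 h2 h3)⟩
  have hAD : ∀ r s, Ah r s → D s := fun r s h => h D hDR hDS r.2.1
  have hAx : ∀ r : {y // D y ∧ ¬ T y}, Ah r r := fun r A _ _ h3 => h3
  have hW : ∀ r : {y // D y ∧ ¬ T y}, ∃ X : TW B, X.L₀ = frS U g inj κ.val ∧
      X.L₁ = frS U g inj (κ.val + (e * K r + 1)) ∧ X.u₀ = (U.U ^ κ.val) (g r) ∧
      X.u₁ = (U.U ^ κ.val) (g (σ r)) ∧ X.cup = [s, B.inv (U.up ((U.U ^ κ.val) (g (σ r))))] ∧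
      X.w₀ = (U.U ^ (κ.val + (e * K r + 1))) (g (tm r)) ∧
      X.w₁ = (U.U ^ (κ.val + (e * K r + 1))) (g (σ (tm r))) ∧
      X.cap = [B.inv (U.up ((U.U ^ (κ.val + e * K r)) (g (tm r)))), s] ∧
      X.R = ∑ i ∈ Finset.Ico κ.val (κ.val + (e * K r + 1)), (frS U g inj i).val ∧
      ∀ y : S, y ≠ r → y ≠ σ r →
        (Ah r y → ∃ y', Ah r y' ∧ X.f ((U.U ^ κ.val) (g y)) = (U.U ^ (κ.val + (e * K r + 1))) (g y')) ∧
        (¬ Ah r y → X.f ((U.U ^ κ.val) (g y)) = (U.U ^ (κ.val + (e * K r + 1))) (g y) ∧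
          X.path ((U.U ^ κ.val) (g y)) = U.str (e * K r + 1) ((U.U ^ κ.val) (g y))) := by
    intro r
    exact TGM (inj := inj) (σ := fun _ => σ) (R := R) (ρ := fun i => ρ (κ + i)) (D := Ah r) (T := T) he
      (fun j y h1 h2 => hS _ y (hlev2 j) (hAD r y h1) h2)
      (fun i y h1 => by
        have := hP (κ.val + i) y (hAD r y h1)
        rw [hlev] at this
        exact this)
      (fun _ y => hAS r y) (fun i y => hAP r _ y) (fun _ y hy => hTS y (hAD r y hy)) (fun i y => hTR _ y) r (hAx r) r.2.2 (K r) (hK1 r)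
      (by rw [hR0]; exact hcl r) (fun i h1 h2 => by rw [hR0]; exact hmin r i h1 h2)
  choose W w1 w2 w3 w4 w5 w6 w7 w8 w9 w10 using hW
  refine ⟨{ lev := fun _ => κ.val
            lev_lt := fun r => ZMod.val_lt _
            H := fun r => e * K r + 1
            x := fun r => r
            y := fun r => σ r
            tau := Equiv.ofBijective tm (Finite.injective_iff_bijective.1 htm)
            W := W
            L₀ := w1
            L₁ := w2
            u₀ := w3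
            u₁ := w4
            w₀ := w6
            w₁ := w7
            reg := w9 }, fun r => rfl, fun r => rfl, fun r => rfl, fun r => ⟨K r, hK1 r, ?_, rfl⟩,
            w5, w8, ?_⟩
  · have h1 := (hn1 (st r) (hst r)).2.1
    rw [Nat.card_prod, Nat.card_eq_fintype_card] at h1
    rw [sq]
    exact h1
  · intro A hA1 hA2 r hx y hy0 hy1
    obtain ⟨b1, b2⟩ := w10 r y hy0 hy1
    refine ⟨fun hy => ?_, fun hy => b2 fun h => hy (h A hA1 hA2 hx)⟩
    by_cases h : Ah r y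
    · obtain ⟨y', h1, h2⟩ := b1 h
      exact ⟨y', h1 A hA1 hA2 hx, h2⟩
    · exact ⟨y, hy, (b2 h).1⟩

end fam

end Pool.Agent.Lib.MP_688fd0_co.SQ4
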