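import Pool.Agent.Lib.MP_688fd0_co.SQ4.H98.FamD
import Pool.Agent.Lib.MP_688fd0_co.SQ3.H98.Collar

/-!
Collars: a class of rungs for the strands `U ^ (o s) (g s)` gives a class of rungs for the strands `g s`.
-/

set_option autoImplicit false

namespace Pool.Agent.Lib.MP_688fd0_co.SQ4

open Pool.Agent.Lib.MP_688fd0_co.OSF Pool.Agent.Lib.MP_688fd0_co.SQ2 Pool.Agent.Lib.MP_688fd0_co.SQ3
open SQ2.V (Puz Sub)

universe v

section

variable {S : Type} [Fintype S] {Q : Type} [Group Q] [DecidableEq Q] {B : Lb.{0, v} Q} {U : Up B}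
  {g : S → Q} {inj : Function.Injective g} {e : ℕ}

open Classical in
/-- A function of the strands as a function of the vertices at the level `l`. -/
noncomputable def fnS (U : Up B) (g : S → Q) (k : S → ℕ) (l : ℕ) (y : Q) : ℕ :=
  if h : ∃ s, (U.U ^ l) (g s) = y then k h.choose else 0

theorem fnS_eq (inj : Function.Injective g) (k : S → ℕ) (l : ℕ) (s : S) : fnS U g k l ((U.U ^ l) (g s)) = k s := by
  have h : ∃ s', (U.U ^ l) (g s') = (U.U ^ l) (g s) := ⟨s, rfl⟩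
  unfold fnS
  rw [dif_pos h, inj ((U.U ^ l).injective h.choose_spec)]

omit [DecidableEq Q] in
theorem sum_frS {M : Type*} [AddCommMonoid M] (l : ℕ) (φ : Q → M) :
    ∑ y ∈ frS U g inj l, φ y = ∑ s : S, φ ((U.U ^ l) (g s)) := by
  unfold frS
  rw [Finset.sum_map]; rfl

omit [DecidableEq Q] in
theorem frS_val (l : ℕ) : (frS U g inj l).val = ∑ s : S, {(U.U ^ l) (g s)} := by
  rw [← sum_frS (inj := inj) l (fun y => ({y} : Multiset Q)), TW.sum_singleton]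

variable (o : S → ℕ) (inj' : Function.Injective fun s => (U.U ^ o s) (g s)) (O : ℕ) (hO : ∀ s, o s ≤ O)

omit [Fintype S] [DecidableEq Q] in
theorem shU (l : ℕ) (s : S) : (U.U ^ l) ((U.U ^ o s) (g s)) = (U.U ^ (l + o s)) (g s) := by
  rw [add_comm l, U.U_pow_add]

omit [Fintype S] [DecidableEq Q] in
include hO in
theorem shU' (l : ℕ) (s : S) : (U.U ^ (O - o s)) ((U.U ^ l) ((U.U ^ o s) (g s))) = (U.U ^ (l + O)) (g s) := by
  have h := hO s
  rw [shU, ← U.U_pow_add, show l + o s + (O - o s) = l + O by omega]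

include hO in
/-- The window of a class with collars. -/
theorem exists_win (X : TW B) {l m : ℕ} {x y x' y' : S} (L₀ : X.L₀ = frS U (fun s => (U.U ^ o s) (g s)) inj' l)
    (L₁ : X.L₁ = frS U (fun s => (U.U ^ o s) (g s)) inj' (l + m)) (u₀ : X.u₀ = (U.U ^ l) ((U.U ^ o x) (g x)))
    (u₁ : X.u₁ = (U.U ^ l) ((U.U ^ o y) (g y))) (w₀ : X.w₀ = (U.U ^ (l + m)) ((U.U ^ o x') (g x')))
    (w₁ : X.w₁ = (U.U ^ (l + m)) ((U.U ^ o y') (g y')))
    (reg : X.R = ∑ i ∈ Finset.Ico l (l + m), (frS U (fun s => (U.U ^ o s) (g s)) inj' i).val) :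
    ∃ Y : TW B, Y.L₀ = frS U g inj l ∧ Y.L₁ = frS U g inj (l + (m + O)) ∧ Y.u₀ = (U.U ^ l) (g x) ∧
      Y.u₁ = (U.U ^ l) (g y) ∧ Y.w₀ = (U.U ^ (l + (m + O))) (g x') ∧ Y.w₁ = (U.U ^ (l + (m + O))) (g y') ∧
      Y.R = ∑ i ∈ Finset.Ico l (l + (m + O)), (frS U g inj i).val ∧
      Y.cup = U.str (o x) ((U.U ^ l) (g x)) ++ (X.cup ++ U.dn (o y) ((U.U ^ l) (g y))) ∧
      Y.cap = U.dn (O - o x') X.w₀ ++ (X.cap ++ U.str (O - o y') X.w₁) ∧
      ∀ s s', s ≠ x → s ≠ y → X.f ((U.U ^ l) ((U.U ^ o s) (g s))) = (U.U ^ (l + m)) ((U.U ^ o s') (g s')) →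
        Y.f ((U.U ^ l) (g s)) = (U.U ^ (l + (m + O))) (g s') ∧
        Y.path ((U.U ^ l) (g s)) = U.str (o s) ((U.U ^ l) (g s)) ++ (X.path ((U.U ^ l) ((U.U ^ o s) (g s))) ++
          U.str (O - o s') ((U.U ^ (l + m)) ((U.U ^ o s') (g s')))) := by
  classical
  set g' : S → Q := fun s => (U.U ^ o s) (g s) with hg'
  have hm1 : ∀ s, (U.U ^ (l + m)) ((U.U ^ o s) (g s)) = (U.U ^ (l + m)) (g' s) := fun _ => rfl
  -- the top collar
  set n₁ : Q → ℕ := fnS U g' (fun s => O - o s) (l + m) with hn₁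
  have e₁ : ∀ s, n₁ ((U.U ^ (l + m)) (g' s)) = O - o s := fun s => fnS_eq inj' _ _ s
  have t₁ : ∀ s, (U.U ^ n₁ ((U.U ^ (l + m)) (g' s))) ((U.U ^ (l + m)) (g' s)) = (U.U ^ (l + (m + O))) (g s) := by
    intro s
    rw [e₁, ← add_assoc]
    exact shU' o O hO (l + m) s
  have p₁ : ∀ y ∈ X.L₁, ∀ y' ∈ X.L₁, (U.U ^ n₁ y) y = (U.U ^ n₁ y') y' → y = y' := by
    intro y hy y' hy' h
    rw [L₁] at hy hy'
    obtain ⟨s, rfl⟩ := mem_frS.1 hy
    obtain ⟨s', rfl⟩ := mem_frS.1 hy'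
    rw [t₁, t₁] at h
    rw [inj ((U.U ^ (l + (m + O))).injective h)]
  set Z := U.post X n₁ p₁ with hZ
  -- the bottom collar
  set n₀ : Q → ℕ := fnS U g o l with hn₀
  have e₀ : ∀ s, n₀ ((U.U ^ l) (g s)) = o s := fun s => fnS_eq inj _ _ s
  have t₀ : ∀ s, (U.U ^ n₀ ((U.U ^ l) (g s))) ((U.U ^ l) (g s)) = (U.U ^ l) (g' s) := by
    intro s
    rw [e₀, ← U.U_pow_add, hg']
    exact (shU o l s).symm
  have hm : ∀ y ∈ frS U g inj l, (U.U ^ n₀ y) y ∈ Z.L₀ := by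
    intro y hy
    obtain ⟨s, rfl⟩ := mem_frS.1 hy
    rw [t₀]
    show _ ∈ X.L₀
    rw [L₀]
    exact frS_mem l s
  have hn : ∀ y ∈ frS U g inj l, ∀ y' ∈ frS U g inj l, (U.U ^ n₀ y) y = (U.U ^ n₀ y') y' → y = y' := by
    intro y hy y' hy' h
    obtain ⟨s, rfl⟩ := mem_frS.1 hy
    obtain ⟨s', rfl⟩ := mem_frS.1 hy'
    rw [t₀, t₀] at h
    rw [inj' ((U.U ^ l).injective h)]
  have hs : ∀ x ∈ Z.L₀, ∃ y ∈ frS U g inj l, (U.U ^ n₀ y) y = x := by
    intro x hx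
    have hx : x ∈ X.L₀ := hx
    rw [L₀] at hx
    obtain ⟨s, rfl⟩ := mem_frS.1 hx
    exact ⟨(U.U ^ l) (g s), frS_mem l s, t₀ s⟩
  have eu₀ : (U.U ^ n₀ ((U.U ^ l) (g x))) ((U.U ^ l) (g x)) = Z.u₀ := by
    rw [t₀]; exact u₀.symm
  have eu₁ : (U.U ^ n₀ ((U.U ^ l) (g y))) ((U.U ^ l) (g y)) = Z.u₁ := by
    rw [t₀]; exact u₁.symm
  refine ⟨U.pre Z (frS U g inj l) n₀ ((U.U ^ l) (g x)) ((U.U ^ l) (g y)) (frS_mem l x) (frS_mem l y) eu₀ eu₁ hm hn hs,
    rfl, ?_, rfl, rfl, ?_, ?_, ?_, ?_, ?_, ?_⟩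
  · show X.L₁.image (fun y => (U.U ^ n₁ y) y) = _
    rw [L₁]
    ext z
    rw [Finset.mem_image, mem_frS]
    constructor
    · rintro ⟨y, hy, rfl⟩
      obtain ⟨s, rfl⟩ := mem_frS.1 hy
      exact ⟨s, (t₁ s).symm⟩
    · rintro ⟨s, rfl⟩
      exact ⟨_, frS_mem _ s, t₁ s⟩
  · show (U.U ^ n₁ X.w₀) X.w₀ = _
    rw [w₀]; exact t₁ x'
  · show (U.U ^ n₁ X.w₁) X.w₁ = _
    rw [w₁]; exact t₁ y'
  · rw [U.pre_R, hZ, U.post_R, reg, L₁, sum_frS, sum_frS]
    have h1 : ∀ s, ∑ i ∈ Finset.range (n₀ ((U.U ^ l) (g s))), ({(U.U ^ i) ((U.U ^ l) (g s))} : Multiset Q) =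
        ∑ i ∈ Finset.range (o s), {(U.U ^ (l + i)) (g s)} := by
      intro s
      rw [e₀]
      refine Finset.sum_congr rfl fun i _ => ?_
      rw [U.U_pow_add]
    have h2 : ∀ s, ∑ i ∈ Finset.range (n₁ ((U.U ^ (l + m)) (g' s))),
        ({(U.U ^ i) ((U.U ^ (l + m)) (g' s))} : Multiset Q) =
        ∑ i ∈ Finset.range (O - o s), {(U.U ^ (l + (o s + m + i))) (g s)} := by
      intro s
      rw [e₁]
      refine Finset.sum_congr rfl fun i _ => ?_
      rw [hg']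
      show ({(U.U ^ i) ((U.U ^ (l + m)) ((U.U ^ o s) (g s)))} : Multiset Q) = _
      rw [shU, ← U.U_pow_add]
      congr 3
      ring
    have h3 : ∑ i ∈ Finset.Ico l (l + m), (frS U g' inj' i).val =
        ∑ s : S, ∑ i ∈ Finset.range m, ({(U.U ^ (l + (o s + i))) (g s)} : Multiset Q) := by
      rw [Finset.sum_Ico_eq_sum_range, Nat.add_sub_cancel_left, Finset.sum_comm]
      refine Finset.sum_congr rfl fun i _ => ?_
      rw [frS_val]
      refine Finset.sum_congr rfl fun s _ => ?_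
      show ({(U.U ^ (l + i)) ((U.U ^ o s) (g s))} : Multiset Q) = _
      rw [shU]
      congr 3
      ring
    have h4 : ∑ i ∈ Finset.Ico l (l + (m + O)), (frS U g inj i).val =
        ∑ s : S, ∑ i ∈ Finset.range (m + O), ({(U.U ^ (l + i)) (g s)} : Multiset Q) := by
      rw [Finset.sum_Ico_eq_sum_range, Nat.add_sub_cancel_left, Finset.sum_comm]
      exact Finset.sum_congr rfl fun i _ => frS_val _
    rw [Finset.sum_congr rfl fun s _ => h1 s, Finset.sum_congr rfl fun s _ => h2 s, h3, h4, ← Finset.sum_add_distrib,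
      ← Finset.sum_add_distrib]
    refine Finset.sum_congr rfl fun s _ => ?_
    have h5 := hO s
    have h6 : m + O = o s + m + (O - o s) := by omega
    rw [h6, sum_range_add, sum_range_add, add_assoc]
  · show U.str (n₀ _) _ ++ (X.cup ++ U.dn (n₀ _) _) = _
    rw [e₀, e₀]
  · show U.dn (n₁ X.w₀) X.w₀ ++ (X.cap ++ U.str (n₁ X.w₁) X.w₁) = _
    rw [w₀, w₁, hm1, hm1, e₁, e₁]
  · intro s s' hsx hsy hf
    have hf' : X.f ((U.U ^ l) (g' s)) = (U.U ^ (l + m)) (g' s') := hf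
    constructor
    · show (U.U ^ n₁ (X.f ((U.U ^ n₀ ((U.U ^ l) (g s))) ((U.U ^ l) (g s))))) (X.f ((U.U ^ n₀ ((U.U ^ l) (g s)))
        ((U.U ^ l) (g s)))) = _
      rw [t₀, hf', t₁]
    · show U.str (n₀ ((U.U ^ l) (g s))) ((U.U ^ l) (g s)) ++ (X.path ((U.U ^ n₀ ((U.U ^ l) (g s))) ((U.U ^ l) (g s))) ++
        U.str (n₁ (X.f ((U.U ^ n₀ ((U.U ^ l) (g s))) ((U.U ^ l) (g s))))) (X.f ((U.U ^ n₀ ((U.U ^ l) (g s)))
          ((U.U ^ l) (g s))))) = _
      rw [t₀, hf', e₀, e₁]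

omit [DecidableEq Q] in
theorem vol_dn {F : Type} [CommRing F] (V : Ev B F) {c : F} (hn : ∀ x, V.e x (U.up x) = c) (n : ℕ) (x : Q) :
    V.vol ((U.U ^ n) x) (U.dn n x) = - (n * c) := by
  unfold Up.dn
  rw [← U.fin_str n x, V.vol_rev, vol_strC hn]

include hO in
/-- The class with collars. -/
theorem exists_collar {R : Type} (X : ClsW U (fun s => (U.U ^ o s) (g s)) inj' e R) :
    ∃ Y : ClsW U g inj e R, (∀ r, Y.lev r = X.lev r) ∧ (∀ r, Y.H r = X.H r + O) ∧ (∀ r, Y.x r = X.x r) ∧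
      (∀ r, Y.y r = X.y r) ∧ (∀ r, Y.tau r = X.tau r) ∧ (∀ A : S → Prop, X.Clo A → Y.Clo A) ∧
      (∀ A : S → Prop, X.Clo A → ∀ (F : Type) [CommRing F] (V : Ev B F) (c : F), (∀ x, V.e x (U.up x) = c) →
        X.Th V A c → Y.Th V A c) ∧
      ∀ (F : Type) [CommRing F] (V : Ev B F) (c : F), (∀ x, V.e x (U.up x) = c) → ∀ cu : R → F, X.Cu V cu →
        Y.Cu V fun r => cu r + ((o (X.x r) : F) - (o (X.y r) : F)) * c := by
  choose W a1 a2 a3 a4 a5 a6 a7 a8 a9 a10 using fun r => exists_win (inj := inj) o inj' O hO (X.W r) (X.L₀ r) (X.L₁ r)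
    (X.u₀ r) (X.u₁ r) (X.w₀ r) (X.w₁ r) (X.reg r)
  refine ⟨{ lev := X.lev
            lev_lt := X.lev_lt
            H := fun r => X.H r + O
            x := X.x
            y := X.y
            tau := X.tau
            W := W
            L₀ := a1
            L₁ := a2
            u₀ := a3
            u₁ := a4
            w₀ := a5
            w₁ := a6
            reg := a7 }, fun _ => rfl, fun _ => rfl, fun _ => rfl, fun _ => rfl, fun _ => rfl, fun A hA => ?_,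
            fun A hA F _ V c hn hT => ?_, fun F _ V c hn cu hcu => ?_⟩
  · refine ⟨hA.y, hA.tau, fun r hr s hs => ?_⟩
    have hsx : s ≠ X.x r := fun h => hs (by rw [h]; exact hr)
    have hsy : s ≠ X.y r := fun h => hs (by rw [h]; exact hA.y r hr)
    exact (a10 r s s hsx hsy (hA.tok r hr s hs)).1
  · intro r hr s hs
    have hsx : s ≠ X.x r := fun h => hs (by rw [h]; exact hr)
    have hsy : s ≠ X.y r := fun h => hs (by rw [h]; exact hA.y r hr)
    have b1 := hA.tok r hr s hs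
    have c2 := (a10 r s s hsx hsy b1).2
    show V.vol ((U.U ^ X.lev r) (g s)) ((W r).path ((U.U ^ X.lev r) (g s))) = ((X.H r + O : ℕ) : F) * c
    have e1 : (U.U ^ o s) ((U.U ^ X.lev r) (g s)) = (U.U ^ X.lev r) ((U.U ^ o s) (g s)) := by
      rw [shU, ← U.U_pow_add]
    have hmem := (X.W r).path_fin ((U.U ^ X.lev r) ((U.U ^ o s) (g s)))
      (by rw [X.L₀]; exact frS_mem (g := fun s => (U.U ^ o s) (g s)) _ s)
      (by rw [X.u₀]; exact fun k => hsx (inj' ((U.U ^ X.lev r).injective k)))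
      (by rw [X.u₁]; exact fun k => hsy (inj' ((U.U ^ X.lev r).injective k)))
    rw [c2, V.vol_append, V.vol_append, vol_strC hn, U.fin_str, e1, hmem, hT r hr s hs, b1, vol_strC hn,
      Nat.cast_sub (hO s), Nat.cast_add]
    ring
  · refine ⟨fun r => ?_, fun r => ?_⟩
    · show V.vol ((U.U ^ X.lev r) (g (X.x r))) (W r).cup = _
      rw [a8, V.vol_append, V.vol_append, vol_strC hn, U.fin_str, ← U.U_pow_add]
      have h1 := hcu.cup r
      have h2 : (U.U ^ (X.lev r + o (X.x r))) (g (X.x r)) = (U.U ^ X.lev r) ((U.U ^ o (X.x r)) (g (X.x r))) :=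
        (shU o _ _).symm
      have h3 := (X.W r).cup_fin
      rw [X.u₀, X.u₁] at h3
      rw [h2, h1]
      have h4 : B.fin ((U.U ^ X.lev r) ((U.U ^ o (X.x r)) (g (X.x r)))) (X.W r).cup =
        (U.U ^ o (X.y r)) ((U.U ^ X.lev r) (g (X.y r))) := by
        refine h3.trans ?_
        rw [← U.U_pow_add, ← U.U_pow_add, add_comm]
      rw [h4, vol_dn V hn]
      ring
    · show V.vol (W r).w₀ (W r).cap = _
      rw [a9, a5]
      have h1 := hcu.cap r
      have h2 : (U.U ^ (X.lev r + (X.H r + O))) (g (X.x (X.tau r))) =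
          (U.U ^ (O - o (X.x (X.tau r)))) (X.W r).w₀ := by
        rw [X.w₀, ← add_assoc]
        exact (shU' o O hO _ _).symm
      rw [h2, V.vol_append, V.vol_append, vol_dn V hn, U.fin_dn, h1, (X.W r).cap_fin, vol_strC hn,
        Nat.cast_sub (hO _), Nat.cast_sub (hO _)]
      show _ = cu (X.tau r) + ((o (X.x (X.tau r)) : F) - (o (X.y (X.tau r)) : F)) * c
      ring

end

end Pool.Agent.Lib.MP_688fd0_co.SQ4
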