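import Pool.Agent.Lib.MP_688fd0_co.SQ4.H98.FamO

/-!
Classes of rungs from labels: the permutations `P k` are determined by the labels `rho k s`.
-/

set_option autoImplicit false

namespace Pool.Agent.Lib.MP_688fd0_co.SQ4

open Pool.Agent.Lib.MP_688fd0_co.OSF Pool.Agent.Lib.MP_688fd0_co.SQ2 Pool.Agent.Lib.MP_688fd0_co.SQ3
open SQ2.V (Puz Sub)

universe v

section

variable {S : Type} [Fintype S] {Q : Type} [Group Q] [DecidableEq Q] {B : Lb.{0, v} Q} {U : Up B}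
  {g : S → Q} {inj : Function.Injective g} {e : ℕ} {ζ : Q}

omit [DecidableEq Q] in
/-- The permutations defined by labels. -/
theorem exists_perms (he : 0 < e) (hper : Per U e ζ) {D : S → Prop} {ρ : ZMod e → S → B.L}
    (h1 : ∀ (k : ZMod e) (s : S), D s → ∃ s', D s' ∧ (U.U ^ k.val) (g s) * B.q (ρ k s) = (U.U ^ k.val) (g s'))
    (h2 : ∀ (k : ZMod e) (s s' : S), D s → D s' →
      (U.U ^ k.val) (g s) * B.q (ρ k s) = (U.U ^ k.val) (g s') * B.q (ρ k s') → s = s') :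
    ∃ P : ZMod e → Equiv.Perm S,
      (∀ (l : ℕ) (s : S), D s → (U.U ^ l) (g s) * B.q (ρ l s) = (U.U ^ l) (g (P l s))) ∧
      (∀ k s, D s → D (P k s)) ∧ (∀ k s, ¬ D s → P k s = s) ∧ ∀ k s, D s → P k s ≠ s := by
  classical
  have : NeZero e := ⟨he.ne'⟩
  choose φ f1 f2 using fun (k : ZMod e) (s : {s // D s}) => h1 k s s.2
  have hinj : ∀ k, Function.Injective fun s : {s // D s} => (⟨φ k s, f1 k s⟩ : {s // D s}) := by
    intro k s s' h
    have h3 : φ k s = φ k s' := congrArg Subtype.val h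
    refine Subtype.ext (h2 k s s' s.2 s'.2 ?_)
    rw [f2, f2, h3]
  let E : ZMod e → Equiv.Perm {s // D s} := fun k =>
    Equiv.ofBijective _ (Finite.injective_iff_bijective.1 (hinj k))
  let P : ZMod e → Equiv.Perm S := fun k => (E k).extendDomain (Equiv.refl {s // D s})
  have hP : ∀ k (s : S) (hs : D s), P k s = φ k ⟨s, hs⟩ := by
    intro k s hs
    show (E k).extendDomain (Equiv.refl {s // D s}) s = _
    rw [Equiv.Perm.extendDomain_apply_subtype (E k) (Equiv.refl {s // D s}) hs]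
    rfl
  have hP' : ∀ k (s : S), ¬ D s → P k s = s := fun k s hs =>
    Equiv.Perm.extendDomain_apply_not_subtype (E k) (Equiv.refl {s // D s}) hs
  refine ⟨P, fun l s hs => ?_, fun k s hs => by rw [hP k s hs]; exact f1 k _, hP', fun k s hs h => ?_⟩
  · rw [hP _ s hs]
    have h3 := f2 (l : ZMod e) ⟨s, hs⟩
    have h4 : ∀ x, (U.U ^ l) x = ζ ^ (l / e) * (U.U ^ (l : ZMod e).val) x := by
      intro x
      rw [ZMod.val_natCast, ← per_mul hper, ← U.U_pow_add, Nat.mod_add_div]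
    rw [h4, h4, mul_assoc, h3]
  · have h3 := f2 k ⟨s, hs⟩
    rw [hP k s hs] at h
    rw [h] at h3
    exact B.ne_one _ (mul_eq_left.1 h3)

/-- What a class of rungs given by labels provides. `g'` are the shifted strands. -/
structure IsL (ζ : Q) (o : S → ℕ) (O : ℕ) {D : S → Prop} (P : ZMod e → Equiv.Perm S) (ρ : ZMod e → S → B.L)
    (X : ClsW U g inj e (ZMod e × {s // D s})) : Prop where
  lev : ∀ r, X.lev r = r.1.val
  x : ∀ r, X.x r = r.2
  y : ∀ r, X.y r = P r.1 r.2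
  H_le : ∀ r, X.H r ≤ e * (Fintype.card S) ^ 2 + O
  hP : ∀ (k : ZMod e) (s : S), D s →
    (U.U ^ k.val) ((U.U ^ o s) (g s)) * B.q (ρ k s) = (U.U ^ k.val) ((U.U ^ o (P k s)) (g (P k s)))
  hD : ∀ k s, D s → D (P k s)
  ne : ∀ k s, D s → P k s ≠ s
  out : ∀ k s, ¬ D s → P k s = s
  clo : ∀ A : S → Prop, (∀ k s, A s → A (P k s)) → X.Clo A
  th : ∀ A : S → Prop, (∀ k s, A s → A (P k s)) → ∀ (F : Type) [CommRing F] (V : Ev B F) (c : F),
    (∀ x, V.e x (U.up x) = c) → X.Th V A c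
  pair : ∀ E : S → S → Prop, (∀ k p q, E p q → E (P k p) (P k q)) → ∀ r, E (X.x r) (X.y r) →
    E (X.x (X.tau r)) (X.y (X.tau r))
  vol : ∀ (F : Type) [CommRing F] (V : Ev B F) (c : F), V.Inv ζ → (∀ x, V.e x (U.up x) = c) →
    X.Cu V fun r => V.e ((U.U ^ r.1.val) ((U.U ^ o (r.2 : S)) (g r.2))) (ρ r.1 r.2) +
      ((o (r.2 : S) : F) - (o (P r.1 r.2) : F)) * c

/-- A class of rungs from labels, with collars. -/
theorem exists_isL (he : 0 < e) (hper : Per U e ζ) (o : S → ℕ) (inj' : Function.Injective fun s => (U.U ^ o s) (g s))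
    (O : ℕ) (hO : ∀ s, o s ≤ O) {D : S → Prop} {ρ : ZMod e → S → B.L}
    (h1 : ∀ (k : ZMod e) (s : S), D s →
      ∃ s', D s' ∧ (U.U ^ k.val) ((U.U ^ o s) (g s)) * B.q (ρ k s) = (U.U ^ k.val) ((U.U ^ o s') (g s')))
    (h2 : ∀ (k : ZMod e) (s s' : S), D s → D s' → (U.U ^ k.val) ((U.U ^ o s) (g s)) * B.q (ρ k s) =
      (U.U ^ k.val) ((U.U ^ o s') (g s')) * B.q (ρ k s') → s = s') :
    ∃ (P : ZMod e → Equiv.Perm S) (X : ClsW U g inj e (ZMod e × {s // D s})), IsL ζ o O P ρ X := by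
  have : NeZero e := ⟨he.ne'⟩
  obtain ⟨P, p1, p2, p3, p4⟩ := exists_perms (g := fun s => (U.U ^ o s) (g s)) he hper (D := D) (ρ := ρ) h1 h2
  obtain ⟨X, hX⟩ := exists_isT (inj := inj') he hper (P := P) (ρ := ρ) p1 p2
  obtain ⟨Y, y1, y2, y3, y4, y5, y6, y8, y7⟩ := exists_collar (inj := inj) o inj' O hO X
  refine ⟨P, Y, ⟨fun r => by rw [y1, hX.lev], fun r => by rw [y3, hX.x], fun r => by rw [y4, hX.y], fun r => ?_,
    fun k s hs => ?_, p2, p4, p3, fun A hA => y6 A (hX.clo A hA),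
    fun A hA F _ V c hn => y8 A (hX.clo A hA) F V c hn (hX.th A hA F V c hn), fun E hE r hr => ?_,
    fun F _ V c hV hn => ?_⟩⟩
  · rw [y2]
    exact Nat.add_le_add_right (hX.H_le r) O
  · have := p1 k.val s hs
    rw [ZMod.natCast_zmod_val] at this
    exact this
  · rw [y3, y4] at hr
    rw [y3, y4, y5]
    exact hX.pair E hE r hr
  · have h3 := y7 F V c hn _ (hX.vol F V hV)
    simp only [hX.x, hX.y] at h3
    exact h3

end

end Pool.Agent.Lib.MP_688fd0_co.SQ4
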