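import Pool.Agent.Lib.MP_688fd0_co.SQ4.H98.FamW
import Pool.Agent.Lib.MP_688fd0_co.SQ3.H98.TL

/-!
Classes of rungs: T-gadgets with level dependent rung permutations.

The rungs of one class are the pairs `(k, x)` with `k : ZMod e` and a strand `x` of the domain `D`; the rung `(k, x)` joins
`x` and `P k x` at the levels `k mod e`; the gadgets are `TGL`; `tau` is a first return map.
-/

set_option autoImplicit false

namespace Pool.Agent.Lib.MP_688fd0_co.SQ4

open Pool.Agent.Lib.MP_688fd0_co.OSF Pool.Agent.Lib.MP_688fd0_co.SQ2 Pool.Agent.Lib.MP_688fd0_co.SQ3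
open SQ2.V (Puz)

universe v

section cls

/-- The base windows of one class of rungs. -/
structure ClsW {S : Type} [Fintype S] {Q : Type} [Group Q] [DecidableEq Q] {B : Lb.{0, v} Q}
    (U : Up B) (g : S → Q) (inj : Function.Injective g) (e : ℕ) (R : Type) where
  lev : R → ℕ
  lev_lt : ∀ r, lev r < e
  H : R → ℕ
  x : R → S
  y : R → S
  tau : Equiv.Perm R
  W : R → TW B
  L₀ : ∀ r, (W r).L₀ = frS U g inj (lev r)
  L₁ : ∀ r, (W r).L₁ = frS U g inj (lev r + H r)
  u₀ : ∀ r, (W r).u₀ = (U.U ^ lev r) (g (x r))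
  u₁ : ∀ r, (W r).u₁ = (U.U ^ lev r) (g (y r))
  w₀ : ∀ r, (W r).w₀ = (U.U ^ (lev r + H r)) (g (x (tau r)))
  w₁ : ∀ r, (W r).w₁ = (U.U ^ (lev r + H r)) (g (y (tau r)))
  reg : ∀ r, (W r).R = ∑ i ∈ Finset.Ico (lev r) (lev r + H r), (frS U g inj i).val

/-- All classes together. -/
def FamW.ofCls {S : Type} [Fintype S] [DecidableEq S] {Q : Type} [Group Q] [DecidableEq Q] {B : Lb.{0, v} Q}
    {U : Up B} {ζ : Q} {g : S → Q} {inj : Function.Injective g} {e : ℕ} (he : 0 < e) (per : Per U e ζ) {C : Type}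
    {Rc : C → Type} (X : ∀ c, ClsW U g inj e (Rc c)) : FamW S (Σ c, Rc c) U ζ where
  g := g
  inj := inj
  e := e
  he := he
  per := per
  lev r := (X r.1).lev r.2
  lev_lt r := (X r.1).lev_lt r.2
  H r := (X r.1).H r.2
  x r := (X r.1).x r.2
  y r := (X r.1).y r.2
  tau := Equiv.sigmaCongrRight fun c => (X c).tau
  W r := (X r.1).W r.2
  L₀ r := (X r.1).L₀ r.2
  L₁ r := (X r.1).L₁ r.2
  u₀ r := (X r.1).u₀ r.2
  u₁ r := (X r.1).u₁ r.2
  w₀ r := (X r.1).w₀ r.2
  w₁ r := (X r.1).w₁ r.2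
  reg r := (X r.1).reg r.2

end cls

/-- First return of a permutation to a set. -/
theorem first_return {X : Type} [Finite X] (Θ : Equiv.Perm X) (A : X → Prop) :
    ∃ n : X → ℕ, (∀ a, A a → 1 ≤ n a ∧ n a ≤ Nat.card X ∧ A ((Θ ^ n a) a) ∧
        ∀ i, 1 ≤ i → i < n a → ¬ A ((Θ ^ i) a)) ∧
      ∀ a b, A a → A b → (Θ ^ n a) a = (Θ ^ n b) b → a = b := by
  classical
  have : Fintype X := Fintype.ofFinite X
  have hex : ∀ a, A a → ∃ n, 1 ≤ n ∧ n ≤ Nat.card X ∧ A ((Θ ^ n) a) := by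
    intro a ha
    obtain ⟨i, j, hij, he⟩ := Fintype.exists_ne_map_eq_of_card_lt (fun i : Fin (Nat.card X + 1) => (Θ ^ (i : ℕ)) a)
      (by rw [Fintype.card_fin, Nat.card_eq_fintype_card]; omega)
    have key : ∀ i j : ℕ, i < j → j ≤ Nat.card X → (Θ ^ i) a = (Θ ^ j) a →
        ∃ n, 1 ≤ n ∧ n ≤ Nat.card X ∧ A ((Θ ^ n) a) := by
      intro i j hlt hj he
      refine ⟨j - i, by omega, by omega, ?_⟩
      have h1 : (Θ ^ i) ((Θ ^ (j - i)) a) = (Θ ^ i) a := by
        rw [he, ← Equiv.Perm.mul_apply, ← pow_add]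
        congr 2
        omega
      rw [(Θ ^ i).injective h1]
      exact ha
    have hne : (i : ℕ) ≠ j := fun h => hij (Fin.ext h)
    rcases lt_or_gt_of_ne hne with h | h
    · exact key i j h (by omega) he
    · exact key j i h (by omega) he.symm
  refine ⟨fun a => if h : A a then Nat.find (hex a h) else 0, ?_, ?_⟩
  · intro a ha
    simp only [dif_pos ha]
    obtain ⟨h1, h2, h3⟩ := Nat.find_spec (hex a ha)
    refine ⟨h1, h2, h3, fun i hi hi' h => ?_⟩
    exact Nat.find_min (hex a ha) hi' ⟨hi, by omega, h⟩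
  · intro a b ha hb hab
    simp only [dif_pos ha, dif_pos hb] at hab
    have key : ∀ a b (ha : A a) (hb : A b), Nat.find (hex a ha) ≤ Nat.find (hex b hb) →
        (Θ ^ Nat.find (hex a ha)) a = (Θ ^ Nat.find (hex b hb)) b → a = b := by
      intro a b ha hb hle he
      set m := Nat.find (hex a ha) with hm
      set n := Nat.find (hex b hb) with hn
      have h1 : a = (Θ ^ (n - m)) b := by
        apply (Θ ^ m).injective
        rw [he, ← Equiv.Perm.mul_apply, ← pow_add]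
        congr 2
        omega
      by_cases h0 : n - m = 0
      · rw [h0, pow_zero] at h1
        exact h1
      · exfalso
        obtain ⟨m1, m2, m3⟩ := Nat.find_spec (hex a ha)
        obtain ⟨n1, n2, n3⟩ := Nat.find_spec (hex b hb)
        exact Nat.find_min (hex b hb) (m := n - m) (by omega) ⟨by omega, by omega, by rw [← h1]; exact ha⟩
    rcases le_total (Nat.find (hex a ha)) (Nat.find (hex b hb)) with h | h
    · exact key a b ha hb h hab
    · exact (key b a hb ha h hab.symm).symm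

section tg

variable {S : Type} [Fintype S] {Q : Type} [Group Q] [DecidableEq Q] {B : Lb.{0, v} Q} {U : Up B}
  {g : S → Q} {inj : Function.Injective g}

/-- The strands at the level `l`. -/
noncomputable def phS (U : Up B) (g : S → Q) (inj : Function.Injective g) (l : ℕ) : S ≃ frS U g inj l :=
  Equiv.ofBijective (fun s => ⟨(U.U ^ l) (g s), frS_mem l s⟩)
    ⟨fun _ _ h => inj ((U.U ^ l).injective (congrArg Subtype.val h)), fun y => by
      obtain ⟨s, hs⟩ := mem_frS.1 y.2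
      exact ⟨s, Subtype.ext hs⟩⟩

omit [DecidableEq Q] in
theorem phS_val (l : ℕ) (s : S) : ((phS U g inj l s : frS U g inj l) : Q) = (U.U ^ l) (g s) := rfl

omit [DecidableEq Q] in
theorem phS_up (l i : ℕ) (s : S) : (U.U ^ i) ((phS U g inj l s : frS U g inj l) : Q) = (U.U ^ (l + i)) (g s) := by
  rw [phS_val, U.U_pow_add]

/-- The permutation at the level `l`. -/
noncomputable def trP (U : Up B) (g : S → Q) (inj : Function.Injective g) (l : ℕ) (σ : Equiv.Perm S) :
    Equiv.Perm (frS U g inj l) := (phS U g inj l).symm.trans (σ.trans (phS U g inj l))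

omit [DecidableEq Q] in
theorem trP_ph (l : ℕ) (σ : Equiv.Perm S) (s : S) :
    trP U g inj l σ (phS U g inj l s) = phS U g inj l (σ s) := by
  show phS U g inj l (σ ((phS U g inj l).symm (phS U g inj l s))) = _
  rw [Equiv.symm_apply_apply]

omit [DecidableEq Q] in
theorem trP_inv (l : ℕ) (σ : Equiv.Perm S) : trP U g inj l σ⁻¹ = (trP U g inj l σ)⁻¹ := by
  apply Equiv.ext
  intro y
  obtain ⟨s, rfl⟩ := (phS U g inj l).surjective y
  rw [trP_ph]
  symm
  rw [Equiv.Perm.inv_eq_iff_eq, trP_ph]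
  simp

omit [DecidableEq Q] in
theorem trP_RP (l : ℕ) (P : ℕ → Equiv.Perm S) (i : ℕ) (s : S) :
    RP (fun j => trP U g inj l (P j)) i (phS U g inj l s) = phS U g inj l (RP P i s) := by
  induction i with
  | zero =>
    show (trP U g inj l (P 0))⁻¹ (phS U g inj l s) = phS U g inj l ((P 0)⁻¹ s)
    rw [← trP_inv, trP_ph]
  | succ i ih =>
    show (trP U g inj l (P i)) (RP (fun j => trP U g inj l (P j)) i (phS U g inj l s)) = phS U g inj l (P i (RP P i s))
    rw [ih, trP_ph]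

/-- T-gadget from the level `l` to the level `l + m`. -/
theorem TGS {P : ℕ → Equiv.Perm S} {ρ : ℕ → S → B.L} {D : S → Prop}
    (hP : ∀ (l : ℕ) (s : S), D s → (U.U ^ l) (g s) * B.q (ρ l s) = (U.U ^ l) (g (P l s)))
    (hDP : ∀ (l : ℕ) (s : S), D s → D (P l s)) (l : ℕ) (x : S) (hx : D x) (m : ℕ) (hm : 1 ≤ m)
    (h1 : P (l + m) (RP (fun i => P (l + i)) m x) = RP (fun i => P (l + i)) m (P l x))
    (h2 : ∀ i, 1 ≤ i → i < m → P (l + i) (RP (fun i => P (l + i)) i x) ≠ RP (fun i => P (l + i)) i (P l x)) :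
    ∃ X : TW B, X.L₀ = frS U g inj l ∧ X.L₁ = frS U g inj (l + m) ∧ X.u₀ = (U.U ^ l) (g x) ∧
      X.u₁ = (U.U ^ l) (g (P l x)) ∧ X.cup = [ρ l x] ∧
      X.w₀ = (U.U ^ (l + m)) (g (RP (fun i => P (l + i)) m x)) ∧
      X.w₁ = (U.U ^ (l + m)) (g (P (l + m) (RP (fun i => P (l + i)) m x))) ∧
      X.cap = [ρ (l + m) (RP (fun i => P (l + i)) m x)] ∧
      X.R = ∑ i ∈ Finset.Ico l (l + m), (frS U g inj i).val ∧
      ∀ s, s ≠ x → s ≠ P l x → (D s → ∃ s', D s' ∧ X.f ((U.U ^ l) (g s)) = (U.U ^ (l + m)) (g s')) ∧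
        (¬ D s → X.f ((U.U ^ l) (g s)) = (U.U ^ (l + m)) (g s) ∧
          X.path ((U.U ^ l) (g s)) = U.str m ((U.U ^ l) (g s))) := by
  set ph := phS U g inj l with hph
  set P' : ℕ → Equiv.Perm (frS U g inj l) := fun i => trP U g inj l (P (l + i)) with hP'
  have hR : ∀ i s, RP P' i (ph s) = ph (RP (fun i => P (l + i)) i s) := fun i s => trP_RP l _ i s
  have hP'' : ∀ i s, P' i (ph s) = ph (P (l + i) s) := fun i s => trP_ph l _ s
  have hD' : ∀ y : frS U g inj l, ∀ s, y = ph s → (D (ph.symm y) ↔ D s) := by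
    intro y s hy
    rw [hy, Equiv.symm_apply_apply]
  obtain ⟨X, a1, a2, a3, a4, a5, a6, a7, a8, a9, a10⟩ := TGL (U := U) (L := frS U g inj l) (P := P')
    (ℓ := fun i y => ρ (l + i) (ph.symm y)) (D := fun y => D (ph.symm y))
    (fun i y hy => by
      obtain ⟨s, rfl⟩ := ph.surjective y
      rw [Equiv.symm_apply_apply] at hy
      rw [hP'', phS_up, phS_up, Equiv.symm_apply_apply]
      exact hP (l + i) s hy)
    (fun i y hy => by
      obtain ⟨s, rfl⟩ := ph.surjective y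
      rw [Equiv.symm_apply_apply] at hy
      rw [hP'', Equiv.symm_apply_apply]
      exact hDP _ s hy)
    (ph x) (by rw [Equiv.symm_apply_apply]; exact hx) m hm
    (by rw [hR, hP'', hP'', hR, add_zero, h1])
    (fun i hi hi' h => h2 i hi hi' (by
      rw [hR, hP'', hP'', hR, add_zero] at h
      exact ph.injective h))
  rw [hP'', add_zero] at a4
  rw [Equiv.symm_apply_apply, add_zero] at a5
  rw [hR, phS_up] at a6
  rw [hR, hP'', phS_up] at a7
  rw [hR, Equiv.symm_apply_apply] at a8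
  refine ⟨X, a1, ?_, a3, a4, a5, a6, a7, a8, ?_, ?_⟩
  · rw [a2, im_frS]
  · rw [a9, Finset.sum_Ico_eq_sum_range, Nat.add_sub_cancel_left]
    exact Finset.sum_congr rfl fun i _ => by rw [im_frS]
  · intro s hs0 hs1
    obtain ⟨b1, b2⟩ := a10 (ph s) (by
        rw [a3]; exact fun h => hs0 (ph.injective (Subtype.ext h)))
      (by rw [a4]; exact fun h => hs1 (ph.injective (Subtype.ext h)))
    have b1 : D s → ∃ y : frS U g inj l, D (ph.symm y) ∧ X.f (ph s : Q) = (U.U ^ m) (y : Q) := fun hs =>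
      b1 (by show D (ph.symm (ph s)); rw [Equiv.symm_apply_apply]; exact hs)
    have b2 : ¬ D s → X.f (ph s : Q) = (U.U ^ m) (ph s : Q) ∧ X.path (ph s : Q) = U.str m (ph s : Q) := fun hs =>
      b2 (by show ¬ D (ph.symm (ph s)); rw [Equiv.symm_apply_apply]; exact hs)
    refine ⟨fun hs => ?_, fun hs => ?_⟩
    · obtain ⟨y, hy, e1⟩ := b1 hs
      obtain ⟨s', rfl⟩ := ph.surjective y
      rw [Equiv.symm_apply_apply] at hy
      rw [phS_up] at e1
      exact ⟨s', hy, e1⟩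
    · obtain ⟨c1, c2⟩ := b2 hs
      rw [phS_up] at c1
      exact ⟨c1, c2⟩

end tg

section fam

variable {S : Type} [Fintype S] {Q : Type} [Group Q] [DecidableEq Q] {B : Lb.{0, v} Q} {U : Up B}
  {g : S → Q} {inj : Function.Injective g} {e : ℕ}

/-- The state map of the two holes. -/
def ThT (P : ZMod e → Equiv.Perm S) : Equiv.Perm (ZMod e × S × S) where
  toFun a := (a.1 + 1, P a.1 a.2.1, P a.1 a.2.2)
  invFun a := (a.1 - 1, (P (a.1 - 1))⁻¹ a.2.1, (P (a.1 - 1))⁻¹ a.2.2)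
  left_inv a := by
    obtain ⟨k, p, q⟩ := a
    simp
  right_inv a := by
    obtain ⟨k, p, q⟩ := a
    simp

omit [Fintype S] in
theorem ThT_pow (P : ZMod e → Equiv.Perm S) (k : ZMod e) (x : S) (i : ℕ) :
    (ThT P ^ i) (k, (P k)⁻¹ x, x) = (k + i, RP (fun j => P (k + j)) i x, RP (fun j => P (k + j)) i (P k x)) := by
  induction i with
  | zero =>
    show (k, (P k)⁻¹ x, x) = (k + ((0 : ℕ) : ZMod e), (P (k + ((0 : ℕ) : ZMod e)))⁻¹ x,
      (P (k + ((0 : ℕ) : ZMod e)))⁻¹ (P k x))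
    rw [Nat.cast_zero, add_zero]
    simp
  | succ i ih =>
    rw [pow_succ', Equiv.Perm.mul_apply, ih]
    show (k + i + 1, P (k + i) _, P (k + i) _) = _
    rw [Nat.cast_succ, add_assoc]
    rfl

/-- The class of the T-gadgets. -/
theorem exists_clsT (he : 0 < e) {P : ZMod e → Equiv.Perm S} {ρ : ZMod e → S → B.L} {D : S → Prop}
    (hP : ∀ (l : ℕ) (s : S), D s → (U.U ^ l) (g s) * B.q (ρ l s) = (U.U ^ l) (g (P l s)))
    (hDP : ∀ (k : ZMod e) (s : S), D s → D (P k s)) :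
    ∃ X : ClsW U g inj e (ZMod e × {s // D s}),
      (∀ r, X.lev r = r.1.val) ∧ (∀ r, X.x r = r.2) ∧ (∀ r, X.y r = P r.1 r.2) ∧
      (∀ r, 1 ≤ X.H r) ∧ (∀ r, X.H r ≤ e * (Fintype.card S) ^ 2) ∧ (∀ r, (X.tau r).1 = r.1 + X.H r) ∧
      (∀ r, ((X.tau r).2 : S) = RP (fun i => P (r.1 + i)) (X.H r) r.2) ∧
      (∀ r, P (X.tau r).1 (X.tau r).2 = RP (fun i => P (r.1 + i)) (X.H r) (P r.1 r.2)) ∧
      (∀ r, (X.W r).cup = [ρ r.1 r.2]) ∧ (∀ r, (X.W r).cap = [ρ (X.tau r).1 (X.tau r).2]) ∧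
      ∀ A : S → Prop, (∀ k s, A s → A (P k s)) → ∀ r, A (X.x r) → ∀ s, s ≠ X.x r → s ≠ X.y r →
        (A s → ∃ s', A s' ∧ (X.W r).f ((U.U ^ X.lev r) (g s)) = (U.U ^ (X.lev r + X.H r)) (g s')) ∧
        (¬ A s → (X.W r).f ((U.U ^ X.lev r) (g s)) = (U.U ^ (X.lev r + X.H r)) (g s) ∧
          (X.W r).path ((U.U ^ X.lev r) (g s)) = U.str (X.H r) ((U.U ^ X.lev r) (g s))) := by
  classical
  have : NeZero e := ⟨he.ne'⟩
  obtain ⟨n, hn1, hn2⟩ := first_return (ThT P) (fun a : ZMod e × S × S => P a.1 a.2.1 = a.2.2)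
  -- the start state of a rung
  let st : ZMod e × {s // D s} → ZMod e × S × S := fun r => (r.1, (P r.1)⁻¹ r.2, r.2)
  have hst : ∀ r, P (st r).1 (st r).2.1 = (st r).2.2 := by
    intro r
    show P r.1 ((P r.1)⁻¹ (r.2 : S)) = r.2
    simp
  let H : ZMod e × {s // D s} → ℕ := fun r => n (st r)
  have hpow : ∀ (r : ZMod e × {s // D s}) (i : ℕ), (ThT P ^ i) (st r) = (r.1 + i, RP (fun j => P (r.1 + j)) i r.2,
      RP (fun j => P (r.1 + j)) i (P r.1 r.2)) := fun r i => ThT_pow P r.1 r.2 i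
  have hD : ∀ (r : ZMod e × {s // D s}) (i : ℕ), 1 ≤ i → D (RP (fun j => P (r.1 + (j : ZMod e))) i r.2) := by
    intro r i hi
    obtain ⟨j, rfl⟩ : ∃ j, i = j + 1 := ⟨i - 1, by omega⟩
    clear hi
    induction j with
    | zero => rw [RP_one]; exact r.2.2
    | succ j ih => rw [RP_succ _ (j + 1)]; exact hDP _ _ ih
  have hH1 : ∀ r, 1 ≤ H r := fun r => (hn1 (st r) (hst r)).1
  have hcl : ∀ r : ZMod e × {s // D s}, P (r.1 + H r) (RP (fun j => P (r.1 + j)) (H r) r.2) = RP (fun j => P (r.1 + j)) (H r) (P r.1 r.2) := by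
    intro r
    have := (hn1 (st r) (hst r)).2.2.1
    rw [hpow] at this
    exact this
  have hmin : ∀ (r : ZMod e × {s // D s}) (i : ℕ), 1 ≤ i → i < H r → P (r.1 + i) (RP (fun j => P (r.1 + j)) i r.2) ≠
      RP (fun j => P (r.1 + j)) i (P r.1 r.2) := by
    intro r i h1 h2 h3
    apply (hn1 (st r) (hst r)).2.2.2 i h1 h2
    rw [hpow]
    exact h3
  -- the first return map
  let tm : ZMod e × {s // D s} → ZMod e × {s // D s} := fun r => (r.1 + H r, ⟨_, hD r (H r) (hH1 r)⟩)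
  have htm : Function.Injective tm := by
    intro r r' h
    have h1 : r.1 + (H r : ZMod e) = r'.1 + (H r' : ZMod e) := congrArg Prod.fst h
    have h2 : RP (fun j => P (r.1 + j)) (H r) r.2 = RP (fun j => P (r'.1 + j)) (H r') r'.2 :=
      congrArg (fun a => (a.2 : S)) h
    have h3 : (ThT P ^ H r) (st r) = (ThT P ^ H r') (st r') := by
      rw [hpow, hpow, ← hcl, ← hcl, h1, h2]
    have h4 := hn2 _ _ (hst r) (hst r') h3
    have h5 : r.1 = r'.1 := congrArg (fun a : ZMod e × S × S => a.1) h4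
    have h6 : (r.2 : S) = r'.2 := congrArg (fun a : ZMod e × S × S => a.2.2) h4
    exact Prod.ext h5 (Subtype.ext h6)
  have hval : ∀ k : ZMod e, ((k.val : ℕ) : ZMod e) = k := fun k => ZMod.natCast_zmod_val k
  -- the component
  let Ah : ZMod e × {s // D s} → S → Prop := fun r s => ∀ A : S → Prop, (∀ k s, A s → A (P k s)) → A r.2 → A s
  have hAh : ∀ r k s, Ah r s → Ah r (P k s) := fun r k s h A h1 h2 => h1 k s (h A h1 h2)
  have hAD : ∀ r s, Ah r s → D s := fun r s h => h D hDP r.2.2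
  have hAx : ∀ r : ZMod e × {s // D s}, Ah r r.2 := fun r A h1 h2 => h2
  -- the windows
  have hW : ∀ r : ZMod e × {s // D s}, ∃ X : TW B, X.L₀ = frS U g inj r.1.val ∧
      X.L₁ = frS U g inj (r.1.val + H r) ∧ X.u₀ = (U.U ^ r.1.val) (g r.2) ∧
      X.u₁ = (U.U ^ r.1.val) (g (P r.1 r.2)) ∧ X.cup = [ρ r.1 r.2] ∧
      X.w₀ = (U.U ^ (r.1.val + H r)) (g (tm r).2) ∧
      X.w₁ = (U.U ^ (r.1.val + H r)) (g (P (tm r).1 (tm r).2)) ∧
      X.cap = [ρ (tm r).1 (tm r).2] ∧
      X.R = ∑ i ∈ Finset.Ico r.1.val (r.1.val + H r), (frS U g inj i).val ∧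
      ∀ s : S, s ≠ r.2 → s ≠ P r.1 r.2 →
        (Ah r s → ∃ s', Ah r s' ∧ X.f ((U.U ^ r.1.val) (g s)) = (U.U ^ (r.1.val + H r)) (g s')) ∧
        (¬ Ah r s → X.f ((U.U ^ r.1.val) (g s)) = (U.U ^ (r.1.val + H r)) (g s) ∧
          X.path ((U.U ^ r.1.val) (g s)) = U.str (H r) ((U.U ^ r.1.val) (g s))) := by
    intro r
    have hc : ∀ i : ℕ, ((r.1.val + i : ℕ) : ZMod e) = r.1 + i := by
      intro i
      rw [Nat.cast_add, hval]
    have hRP : (fun i : ℕ => P ((r.1.val + i : ℕ) : ZMod e)) = fun i : ℕ => P (r.1 + i) := by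
      funext i
      rw [hc]
    obtain ⟨X, a1, a2, a3, a4, a5, a6, a7, a8, a9, a10⟩ := TGS (inj := inj) (P := fun l => P (l : ZMod e))
      (ρ := fun l => ρ (l : ZMod e)) (D := Ah r) (fun l s hs => hP l s (hAD r s hs)) (fun l s hs => hAh r _ s hs)
      r.1.val r.2 (hAx r) (H r) (hH1 r)
      (by rw [hRP, hc, hval]; exact hcl r) (fun i h1 h2 => by rw [hRP, hc, hval]; exact hmin r i h1 h2)
    rw [hval] at a4 a5
    rw [hRP] at a6
    rw [hRP, hc] at a7 a8
    rw [hval] at a10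
    exact ⟨X, a1, a2, a3, a4, a5, a6, a7, a8, a9, a10⟩
  choose W w1 w2 w3 w4 w5 w6 w7 w8 w9 w10 using hW
  refine ⟨{ lev := fun r => r.1.val
            lev_lt := fun r => ZMod.val_lt _
            H := H
            x := fun r => r.2
            y := fun r => P r.1 r.2
            tau := Equiv.ofBijective tm (Finite.injective_iff_bijective.1 htm)
            W := W
            L₀ := w1
            L₁ := w2
            u₀ := w3
            u₁ := w4
            w₀ := w6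
            w₁ := w7
            reg := w9 }, fun r => rfl, fun r => rfl, fun r => rfl, hH1, fun r => ?_, fun r => rfl, fun r => rfl,
            fun r => hcl r, w5, w8, ?_⟩
  · have h1 := (hn1 (st r) (hst r)).2.1
    rw [Nat.card_prod, Nat.card_prod, Nat.card_eq_fintype_card, Nat.card_eq_fintype_card, ZMod.card] at h1
    rw [sq]
    exact h1
  · intro A hA r hx s hs0 hs1
    obtain ⟨b1, b2⟩ := w10 r s hs0 hs1
    refine ⟨fun hs => ?_, fun hs => b2 fun h => hs (h A hA hx)⟩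
    by_cases h : Ah r s
    · obtain ⟨s', h1, h2⟩ := b1 h
      exact ⟨s', h1 A hA hx, h2⟩
    · exact ⟨s, hs, (b2 h).1⟩

end fam

end Pool.Agent.Lib.MP_688fd0_co.SQ4
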