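import Pool.Agent.Lib.MP_688fd0_co.SQ4.H98.FamQ

/-!
Vertical words: every letter leads into the next sheet. Vertical blocks from vertical words.
-/

set_option autoImplicit false

namespace Pool.Agent.Lib.MP_688fd0_co.SQ4

open Pool.Agent.Lib.MP_688fd0_co.OSF Pool.Agent.Lib.MP_688fd0_co.SQ2 Pool.Agent.Lib.MP_688fd0_co.SQ3
open SQ2.V (Puz Sub)

universe v

/-- Vertical words: every letter leads into the next sheet. -/
def VWd {Q : Type} [Group Q] {B : Lb.{0, v} Q} (U : Up B) (D : Subgroup Q) : Q → List B.L → Prop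
  | _, [] => True
  | x, l :: p => Sh D (U.U x) (x * B.q l) ∧ VWd U D (x * B.q l) p

/-- The voltages of all vertical letters are equal to `c`. -/
def VZ {Q : Type} [Group Q] {B : Lb.{0, v} Q} (U : Up B) (D : Subgroup Q) {F : Type} [CommRing F] (V : Ev B F)
    (c : F) : Prop := ∀ x l, Sh D (U.U x) (x * B.q l) → V.e x l = c

section vwd

variable {Q : Type} [Group Q] {B : Lb.{0, v} Q} {U : Up B} {D : Subgroup Q}

theorem VWd.sh (hU : ShU U D) {x y : Q} (h : Sh D x y) {p : List B.L} (hp : VWd U D x p) : VWd U D y p := by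
  induction p generalizing x y with
  | nil => trivial
  | cons l p ih =>
    refine ⟨((hU.upp h.symm).trans hp.1).trans (h.mul_right hU.nrm _), ih (h.mul_right hU.nrm _) hp.2⟩

theorem VWd.fin (hU : ShU U D) {x : Q} {p : List B.L} (hp : VWd U D x p) :
    Sh D ((U.U ^ p.length) x) (B.fin x p) := by
  induction p generalizing x with
  | nil => exact Sh.refl _
  | cons l p ih =>
    rw [List.length_cons, U.U_pow_succ]
    exact (hU.pow _ hp.1).trans (ih hp.2)

theorem VWd.append {x : Q} {p p' : List B.L} (hp : VWd U D x p) (hp' : VWd U D (B.fin x p) p') :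
    VWd U D x (p ++ p') := by
  induction p generalizing x with
  | nil => exact hp'
  | cons l p ih => exact ⟨hp.1, ih hp.2 hp'⟩

theorem VWd.str (U : Up B) (D : Subgroup Q) (n : ℕ) (x : Q) : VWd U D x (U.str n x) := by
  induction n generalizing x with
  | zero => trivial
  | succ n ih =>
    show VWd U D x (U.up x :: U.str n (U.U x))
    refine ⟨by rw [U.hU]; exact Sh.refl _, ?_⟩
    rw [← U.hU]
    exact ih _

theorem VZ.vol {F : Type} [CommRing F] {V : Ev B F} {c : F} (h : VZ U D V c) {x : Q} {p : List B.L}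
    (hp : VWd U D x p) : V.vol x p = (p.length : F) * c := by
  induction p generalizing x with
  | nil => show (0 : F) = _; rw [List.length_nil, Nat.cast_zero, zero_mul]
  | cons l p ih =>
    show V.e x l + V.vol (x * B.q l) p = _
    rw [h x l hp.1, ih hp.2, List.length_cons, Nat.cast_succ]
    ring

theorem VZ.up {F : Type} [CommRing F] {V : Ev B F} {c : F} (h : VZ U D V c) (x : Q) : V.e x (U.up x) = c :=
  h x _ (by rw [U.hU]; exact Sh.refl _)

end vwd

section blk

variable {S : Type} [Fintype S] {Q : Type} [Group Q] {B : Lb.{0, v} Q} {U : Up B} {D : Subgroup Q} {g : S → Q}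

/-- Vertical blocks from vertical words, constant on the sheets. -/
theorem exists_vbk (inj : Function.Injective g) (hU : ShU U D) (hg : DCl D g) (h : ℕ) : ∀ (l : ℕ) (wd : S → List B.L),
    (∀ s, (wd s).length = h) → (∀ s, VWd U D ((U.U ^ l) (g s)) (wd s)) →
    (∀ s s', Sh D (g s) (g s') → wd s = wd s') →
    ∃ π : Equiv.Perm S, VBk U g l h π wd ∧ ∀ s, Sh D (g s) (g (π s)) := by
  induction h with
  | zero =>
    intro l wd h1 _ _
    refine ⟨1, ?_, fun s => Sh.refl _⟩
    have h2 : wd = fun s => U.str 0 ((U.U ^ l) (g s)) := funext fun s => List.length_eq_zero_iff.1 (h1 s)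
    rw [h2]
    exact VBk.str U g l 0
  | succ h ih =>
    intro l wd h1 h2 h3
    have h4 : ∀ s, ∃ (ℓ : B.L) (p : List B.L), wd s = ℓ :: p := by
      intro s
      have := h1 s
      cases hw : wd s with
      | nil => rw [hw] at this; simp at this
      | cons ℓ p => exact ⟨ℓ, p, rfl⟩
    choose ℓ wd' h5 using h4
    have hℓ : ∀ s s', Sh D (g s) (g s') → ℓ s = ℓ s' ∧ wd' s = wd' s' := by
      intro s s' hs
      have := h3 s s' hs
      rw [h5, h5] at this
      exact List.cons.inj this
    have h6 : ∀ s, ∃ s', Sh D (g s) (g s') ∧ (U.U ^ (l + 1)) (g s') = (U.U ^ l) (g s) * B.q (ℓ s) := by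
      intro s
      have := h2 s
      rw [h5] at this
      have h7 := this.1
      rw [← U.U_pow_succ'] at h7
      exact hg.lift hU h7
    choose φ hφ1 hφ2 using h6
    have hinj : Function.Injective φ := by
      intro s s' h
      have h7 : Sh D (g s) (g s') := (hφ1 s).trans (by rw [h]; exact (hφ1 s').symm)
      have h8 := hφ2 s
      rw [h, hφ2 s', (hℓ s s' h7).1] at h8
      exact (inj ((U.U ^ l).injective (mul_right_cancel h8))).symm
    let π₁ : Equiv.Perm S := Equiv.ofBijective φ (Finite.injective_iff_bijective.1 hinj)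
    have h7 : VBk U g l 1 π₁ fun s => [ℓ s] := VBk.one fun s => (hφ2 s).symm
    obtain ⟨π₂, h8, h9⟩ := ih (l + 1) wd' (fun s => by have := h1 s; rw [h5] at this; simpa using this)
      (fun s => by
        have := (h2 s)
        rw [h5] at this
        have h10 := this.2
        rw [← hφ2] at h10
        exact h10.sh hU (hU.pow _ (hφ1 s).symm)) (fun s s' hs => (hℓ s s' hs).2)
    refine ⟨π₂ * π₁, ?_, fun s => (hφ1 s).trans (h9 _)⟩
    have h10 := h7.comp h8
    have h11 : (fun s => [ℓ s] ++ wd' (π₁ s)) = wd := by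
      funext s
      rw [h5 s, ← (hℓ s (π₁ s) (hφ1 s)).2]
      rfl
    rw [h11, add_comm 1 h] at h10
    exact h10

end blk

end Pool.Agent.Lib.MP_688fd0_co.SQ4
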