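import Pool.Agent.Lib.MP_688fd0_co.SQ4.E.RealE

/-!
From base windows (one for each rung) to a puzzle and its realisation.
-/

set_option autoImplicit false

namespace Pool.Agent.Lib.MP_688fd0_co.SQ4

open Pool.Agent.Lib.MP_688fd0_co.OSF Pool.Agent.Lib.MP_688fd0_co.SQ2 Pool.Agent.Lib.MP_688fd0_co.SQ3
open SQ2.V (Puz)

universe v

section fr

variable {S : Type} [Fintype S] {Q : Type} [Group Q] {B : Lb.{0, v} Q}

/-- The frontier of the strands `g` at the level `n`. -/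
def frS (U : Up B) (g : S → Q) (inj : Function.Injective g) (n : ℕ) : Finset Q :=
  Finset.univ.map ⟨fun s => (U.U ^ n) (g s), fun _ _ h => inj ((U.U ^ n).injective h)⟩

variable {U : Up B} {g : S → Q} {inj : Function.Injective g}

theorem mem_frS {n : ℕ} {x : Q} : x ∈ frS U g inj n ↔ ∃ s, (U.U ^ n) (g s) = x := by
  unfold frS
  rw [Finset.mem_map]
  constructor
  · rintro ⟨s, _, h⟩; exact ⟨s, h⟩
  · rintro ⟨s, h⟩; exact ⟨s, Finset.mem_univ _, h⟩

theorem frS_mem (n : ℕ) (s : S) : (U.U ^ n) (g s) ∈ frS U g inj n := mem_frS.2 ⟨s, rfl⟩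

theorem im_frS (n k : ℕ) : im (U.U ^ k) (frS U g inj n) = frS U g inj (n + k) := by
  ext x
  rw [mem_im, mem_frS, mem_frS]
  constructor
  · rintro ⟨s, h⟩; exact ⟨s, by rw [U.U_pow_add, h]; simp⟩
  · rintro ⟨s, h⟩; exact ⟨s, by rw [← h, U.U_pow_add]; simp⟩

/-- The powers of the translation. -/
theorem per_mul {e : ℕ} {ζ : Q} (hP : Per U e ζ) (k : ℕ) (x : Q) : (U.U ^ (e * k)) x = ζ ^ k * x := by
  induction k with
  | zero => rw [Nat.mul_zero, pow_zero, pow_zero, one_mul]; rfl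
  | succ k ih => rw [Nat.mul_succ, U.U_pow_add, ih, hP.per, pow_succ', mul_assoc]

theorem per_com {e : ℕ} {ζ : Q} (hP : Per U e ζ) (x : Q) : U.U (ζ * x) = ζ * U.U x := by
  rw [U.hU, U.hU, hP.up, mul_assoc]

theorem per_com_pow {e : ℕ} {ζ : Q} (hP : Per U e ζ) (n : ℕ) (x : Q) : (U.U ^ n) (ζ * x) = ζ * (U.U ^ n) x := by
  induction n with
  | zero => rfl
  | succ n ih => rw [U.U_pow_succ', ih, per_com hP, U.U_pow_succ']

theorem per_pow_com {e : ℕ} {ζ : Q} (hP : Per U e ζ) (k n : ℕ) (x : Q) :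
    (U.U ^ n) (ζ ^ k * x) = ζ ^ k * (U.U ^ n) x := by
  induction k with
  | zero => simp
  | succ k ih => rw [pow_succ', mul_assoc, per_com_pow hP, ih, mul_assoc]

theorem frS_lt {e : ℕ} {ζ : Q} (hP : Per U e ζ) (n k : ℕ) : lt (ζ ^ k) (frS U g inj n) = frS U g inj (n + e * k) := by
  ext x
  rw [mem_lt, mem_frS, mem_frS]
  constructor
  · rintro ⟨s, h⟩
    refine ⟨s, ?_⟩
    rw [U.U_pow_add, per_mul hP, h, mul_inv_cancel_left]
  · rintro ⟨s, h⟩
    refine ⟨s, ?_⟩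
    rw [← h, U.U_pow_add, per_mul hP, inv_mul_cancel_left]

end fr

/-- Base windows: the window of the rung `r` starts at the level `lev r`, has the height `H r`, the cup joins the strands
`x r` and `y r`, the cap those of `tau r`. -/
structure FamW (S R : Type) [Fintype S] [DecidableEq S] {Q : Type} [Group Q] [DecidableEq Q] {B : Lb.{0, v} Q}
    (U : Up B) (ζ : Q) where
  g : S → Q
  inj : Function.Injective g
  e : ℕ
  he : 0 < e
  per : Per U e ζ
  lev : R → ℕ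
  lev_lt : ∀ r, lev r < e
  H : R → ℕ
  x : R → S
  y : R → S
  tau : Equiv.Perm R
  W : R → TW B
  L₀ : ∀ r, (W r).L₀ = frS U g inj (lev r)
  L₁ : ∀ r, (W r).L₁ = frS U g inj (lev r + H r)
  u₀ : ∀ r, (W r).u₀ = (U.U ^ lev r) (g (x r))
  u₁ : ∀ r, (W r).u₁ = (U.U ^ lev r) (g (y r))
  w₀ : ∀ r, (W r).w₀ = (U.U ^ (lev r + H r)) (g (x (tau r)))
  w₁ : ∀ r, (W r).w₁ = (U.U ^ (lev r + H r)) (g (y (tau r)))
  reg : ∀ r, (W r).R = ∑ i ∈ Finset.Ico (lev r) (lev r + H r), (frS U g inj i).val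

namespace FamW

variable {S R : Type} [Fintype S] [DecidableEq S] {Q : Type} [Group Q] [DecidableEq Q] {B : Lb.{0, v} Q}
  {U : Up B} {ζ : Q} (X : FamW S R U ζ)

theorem ne (r : R) : X.x r ≠ X.y r := by
  intro h
  apply (X.W r).hu
  rw [X.u₀, X.u₁, h]

theorem pow_inj {n : ℕ} {s s' : S} (h : (U.U ^ n) (X.g s) = (U.U ^ n) (X.g s')) : s = s' :=
  X.inj ((U.U ^ n).injective h)

theorem ex_tok (r : R) (s : S) : ∃ s' : S, (s = X.x r → s' = X.x (X.tau r)) ∧ (s = X.y r → s' = X.y (X.tau r)) ∧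
    (s ≠ X.x r → s ≠ X.y r → (X.W r).f ((U.U ^ X.lev r) (X.g s)) = (U.U ^ (X.lev r + X.H r)) (X.g s') ∧
      s' ≠ X.x (X.tau r) ∧ s' ≠ X.y (X.tau r)) := by
  by_cases hx : s = X.x r
  · refine ⟨X.x (X.tau r), fun _ => rfl, fun hy => absurd (hx.symm.trans hy) (X.ne r), fun h => absurd hx h⟩
  by_cases hy : s = X.y r
  · exact ⟨X.y (X.tau r), fun h => absurd h hx, fun _ => rfl, fun _ h => absurd hy h⟩
  obtain ⟨h1, h2, h3⟩ := (X.W r).f_mem ((U.U ^ X.lev r) (X.g s)) (by rw [X.L₀]; exact frS_mem _ _)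
    (by rw [X.u₀]; exact fun h => hx (X.pow_inj h)) (by rw [X.u₁]; exact fun h => hy (X.pow_inj h))
  rw [X.L₁, mem_frS] at h1
  obtain ⟨s', hs'⟩ := h1
  refine ⟨s', fun h => absurd h hx, fun h => absurd h hy, fun _ _ => ⟨hs'.symm, fun h => h2 ?_, fun h => h3 ?_⟩⟩
  · rw [← hs', X.w₀, h]
  · rw [← hs', X.w₁, h]

/-- The strand of the token `s` after the window. -/
noncomputable def tmap (r : R) (s : S) : S := (X.ex_tok r s).choose

theorem tmap_x (r : R) : X.tmap r (X.x r) = X.x (X.tau r) := (X.ex_tok r (X.x r)).choose_spec.1 rfl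

theorem tmap_y (r : R) : X.tmap r (X.y r) = X.y (X.tau r) := (X.ex_tok r (X.y r)).choose_spec.2.1 rfl

theorem tmap_f (r : R) (s : S) (hx : s ≠ X.x r) (hy : s ≠ X.y r) :
    (X.W r).f ((U.U ^ X.lev r) (X.g s)) = (U.U ^ (X.lev r + X.H r)) (X.g (X.tmap r s)) :=
  ((X.ex_tok r s).choose_spec.2.2 hx hy).1

theorem tmap_ne (r : R) (s : S) (hx : s ≠ X.x r) (hy : s ≠ X.y r) :
    X.tmap r s ≠ X.x (X.tau r) ∧ X.tmap r s ≠ X.y (X.tau r) := ((X.ex_tok r s).choose_spec.2.2 hx hy).2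

theorem tmap_inj (r : R) : Function.Injective (X.tmap r) := by
  have key : ∀ s s', X.tmap r s = X.tmap r s' → s = X.x r → s' = X.x r := by
    intro s s' h hs
    rw [hs, X.tmap_x] at h
    by_contra h1
    by_cases h2 : s' = X.y r
    · rw [h2, X.tmap_y] at h
      exact X.ne _ h
    · exact (X.tmap_ne r s' h1 h2).1 h.symm
  have key' : ∀ s s', X.tmap r s = X.tmap r s' → s = X.y r → s' = X.y r := by
    intro s s' h hs
    rw [hs, X.tmap_y] at h
    by_contra h1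
    by_cases h2 : s' = X.x r
    · rw [h2, X.tmap_x] at h
      exact X.ne _ h.symm
    · exact (X.tmap_ne r s' h2 h1).2 h.symm
  intro s s' h
  by_cases hx : s = X.x r
  · rw [hx, key s s' h hx]
  by_cases hy : s = X.y r
  · rw [hy, key' s s' h hy]
  have hx' : s' ≠ X.x r := fun h' => hx (key s' s h.symm h')
  have hy' : s' ≠ X.y r := fun h' => hy (key' s' s h.symm h')
  have e1 := X.tmap_f r s hx hy
  have e2 := X.tmap_f r s' hx' hy'
  rw [h, ← e2] at e1
  have e3 := (X.W r).f_inj ((U.U ^ X.lev r) (X.g s)) (by rw [X.L₀]; exact frS_mem _ _)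
    (by rw [X.u₀]; exact fun h => hx (X.pow_inj h)) (by rw [X.u₁]; exact fun h => hy (X.pow_inj h))
    ((U.U ^ X.lev r) (X.g s')) (by rw [X.L₀]; exact frS_mem _ _)
    (by rw [X.u₀]; exact fun h => hx' (X.pow_inj h)) (by rw [X.u₁]; exact fun h => hy' (X.pow_inj h)) e1
  exact X.pow_inj e3

/-- The puzzle of the base windows. -/
noncomputable def puz : Puz S R where
  x := X.x
  y := X.y
  ne := X.ne
  tau := X.tau
  T r := Equiv.ofBijective (X.tmap r) (Finite.injective_iff_bijective.1 (X.tmap_inj r))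
  T_ends r := Or.inl ⟨X.tmap_x r, X.tmap_y r⟩

theorem puz_T (r : R) (s : S) : X.puz.T r s = X.tmap r s := rfl

theorem lev_eq {r : R} {t : ℕ} (ht : t % X.e = X.lev r) : X.lev r + X.e * (t / X.e) = t := by
  rw [← ht]; exact Nat.mod_add_div t X.e

theorem zpow_vt {r : R} {t : ℕ} (ht : t % X.e = X.lev r) (n : ℕ) (s : S) :
    ζ ^ (t / X.e) * (U.U ^ (X.lev r + n)) (X.g s) = (U.U ^ (t + n)) (X.g s) := by
  conv_rhs => rw [← X.lev_eq ht, show X.lev r + X.e * (t / X.e) + n = X.lev r + n + X.e * (t / X.e) by ring,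
    U.U_pow_add, per_mul X.per]

/-- The realisation. -/
noncomputable def real : SQ3.Real X.puz B U where
  g := X.g
  inj := X.inj
  e := X.e
  he := X.he
  lev := X.lev
  lev_lt := X.lev_lt
  H := X.H
  gad r t := (X.W r).tr (ζ ^ (t / X.e))
  L₀ r t ht := by
    show lt (ζ ^ (t / X.e)) (X.W r).L₀ = frS U X.g X.inj t
    rw [X.L₀, frS_lt X.per, X.lev_eq ht]
  L₁ r t ht := by
    show lt (ζ ^ (t / X.e)) (X.W r).L₁ = frS U X.g X.inj (t + X.H r)
    rw [X.L₁, frS_lt X.per, show X.lev r + X.H r + X.e * (t / X.e) = X.lev r + X.e * (t / X.e) + X.H r by ring,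
      X.lev_eq ht]
  u₀ r t ht := by
    show ζ ^ (t / X.e) * (X.W r).u₀ = _
    have := X.zpow_vt ht 0 (X.x r)
    rw [add_zero, add_zero] at this
    rw [X.u₀, this]; rfl
  u₁ r t ht := by
    show ζ ^ (t / X.e) * (X.W r).u₁ = _
    have := X.zpow_vt ht 0 (X.y r)
    rw [add_zero, add_zero] at this
    rw [X.u₁, this]; rfl
  w₀ r t ht := by
    show ζ ^ (t / X.e) * (X.W r).w₀ = _
    rw [X.w₀, X.zpow_vt ht]; rfl
  w₁ r t ht := by
    show ζ ^ (t / X.e) * (X.W r).w₁ = _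
    rw [X.w₁, X.zpow_vt ht]; rfl
  f r t ht s hs := by
    show ζ ^ (t / X.e) * (X.W r).f ((ζ ^ (t / X.e))⁻¹ * (U.U ^ t) (X.g s)) = _
    have h1 := X.zpow_vt ht 0 s
    rw [add_zero, add_zero] at h1
    rw [← h1, inv_mul_cancel_left, X.tmap_f r s (fun h => hs (Or.inl h)) (fun h => hs (Or.inr h)), X.zpow_vt ht]
    rfl
  reg r t ht := by
    rw [TW.tr_R, X.reg, ← Multiset.coe_mapAddMonoidHom, map_sum, Finset.sum_Ico_eq_sum_range,
      Finset.sum_Ico_eq_sum_range, Nat.add_sub_cancel_left, Nat.add_sub_cancel_left]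
    refine Finset.sum_congr rfl fun n _ => ?_
    have h1 : lt (ζ ^ (t / X.e)) (frS U X.g X.inj (X.lev r + n)) = frS U X.g X.inj (t + n) := by
      rw [frS_lt X.per, show X.lev r + n + X.e * (t / X.e) = X.lev r + X.e * (t / X.e) + n by ring, X.lev_eq ht]
    show Multiset.map (fun x => ζ ^ (t / X.e) * x) (frS U X.g X.inj (X.lev r + n)).val = (frS U X.g X.inj (t + n)).val
    rw [← h1]
    rfl

theorem Inv_pow {F : Type} [CommRing F] {V : Ev B F} (h : V.Inv ζ) (k : ℕ) : V.Inv (ζ ^ k) := by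
  induction k with
  | zero => intro x l; rw [pow_zero, one_mul]
  | succ k ih => intro x l; rw [pow_succ', mul_assoc, h, ih]

/-- The volumes. -/
theorem vols {F : Type} [CommRing F] (V : Ev B F) (h : V.Inv ζ) :
    VolsE X.real V (fun r => V.vol ((U.U ^ X.lev r) (X.g (X.x r))) (X.W r).cup)
      (fun r => V.vol (X.W r).w₀ (X.W r).cap)
      (fun r s => V.vol ((U.U ^ X.lev r) (X.g s)) ((X.W r).path ((U.U ^ X.lev r) (X.g s)))) where
  cup := fun r t ht => by
    have h1 := X.zpow_vt ht 0 (X.x r)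
    rw [add_zero, add_zero] at h1
    show V.vol ((U.U ^ t) (X.g (X.x r))) (X.W r).cup = _
    rw [← h1, (Inv_pow h _).vol]
  cap := fun r t ht => by
    show V.vol (ζ ^ (t / X.e) * (X.W r).w₀) (X.W r).cap = _
    rw [(Inv_pow h _).vol]
  path := fun r t ht s hs => by
    have h1 := X.zpow_vt ht 0 s
    rw [add_zero, add_zero] at h1
    show V.vol ((U.U ^ t) (X.g s)) ((X.W r).path ((ζ ^ (t / X.e))⁻¹ * (U.U ^ t) (X.g s))) = _
    rw [← h1, inv_mul_cancel_left, (Inv_pow h _).vol]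

end FamW

end Pool.Agent.Lib.MP_688fd0_co.SQ4
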