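import Pool.Agent.Lib.MP_688fd0_co.SQ4.IfaceV
import Pool.Agent.Lib.MP_688fd0_co.SQ4.H98.FamND

/-!
Type C1, `Fam1S` and `Fam2S`: the split into rows (helper98).

A family is a sum of an inner block (all rotations, all positions, all levels, all strands) and a cross block, both with
copies, so that the degrees are equal.
-/

set_option autoImplicit false

namespace Pool.Agent.Lib.MP_688fd0_co.SQ4.CV

open Pool.Agent.Lib.MP_688fd0_co.OSF Pool.Agent.Lib.MP_688fd0_co.SQ2 Pool.Agent.Lib.MP_688fd0_co.SQ3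
open Pool.Agent.Lib.MP_688fd0_co.SQ4
open SQ2.V (Puz)

section cls

variable {S : Type} [Fintype S] {Q : Type} [Group Q] [DecidableEq Q] {B : Lb.{0, 0} Q} {U : Up B} {g : S → Q}
  {inj : Function.Injective g} {e : ℕ}

/-- The sum of classes. -/
def sigW {C : Type} {Rc : C → Type} (X : ∀ c, ClsW U g inj e (Rc c)) : ClsW U g inj e (Σ c, Rc c) where
  lev r := (X r.1).lev r.2
  lev_lt r := (X r.1).lev_lt r.2
  H r := (X r.1).H r.2
  x r := (X r.1).x r.2
  y r := (X r.1).y r.2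
  tau := Equiv.sigmaCongrRight fun c => (X c).tau
  W r := (X r.1).W r.2
  L₀ r := (X r.1).L₀ r.2
  L₁ r := (X r.1).L₁ r.2
  u₀ r := (X r.1).u₀ r.2
  u₁ r := (X r.1).u₁ r.2
  w₀ r := (X r.1).w₀ r.2
  w₁ r := (X r.1).w₁ r.2
  reg r := (X r.1).reg r.2

/-- A part of a class. -/
def subW {R : Type} (X : ClsW U g inj e R) (p : R → Prop) (hp : ∀ r, p (X.tau r) ↔ p r) :
    ClsW U g inj e {r // p r} where
  lev r := X.lev r
  lev_lt r := X.lev_lt r
  H r := X.H r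
  x r := X.x r
  y r := X.y r
  tau := X.tau.subtypeEquiv fun r => (hp r).symm
  W r := X.W r
  L₀ r := X.L₀ r
  L₁ r := X.L₁ r
  u₀ r := X.u₀ r
  u₁ r := X.u₁ r
  w₀ r := X.w₀ r
  w₁ r := X.w₁ r
  reg r := X.reg r

end cls

section rows

variable {S : Type} [Fintype S] {Q : Type} [Group Q] [DecidableEq Q] {B : Lb.{0, 0} Q} {a b : B.L} {eps : Q →* ℤˣ}
  {D : Subgroup Q} {z : Q} {k : ℕ}

/-- A class (or a block of classes) of a family; `IA`: the sets of strands on which it is closed. -/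
structure ClsB (H : HypC B a b eps D z k) {g : S → Q} {inj : Function.Injective g} {R : Type}
    (X : ClsW H.up g inj (2 * k) R) (Y : S → Prop) (IA : (S → Prop) → Prop) (wd : R → List B.L) (h : ℕ) : Prop where
  xY : ∀ r, Y (X.x r)
  yY : ∀ r, Y (X.y r)
  fin : ∀ r, B.fin (rfC eps (B.q a) (g (X.x r))) (wd r) = rfC eps (B.q a) (g (X.y r))
  hle : ∀ r, X.H r ≤ h
  clo : ∀ A : S → Prop, IA A → X.Clo A
  th : ∀ A : S → Prop, IA A → ∀ (F : Type) [CommRing F] (V : Ev B F) (c : F), V.Inv (z ^ k) → LZ H.up D k F V c →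
    X.Th V A c
  vol : ∀ (F : Type) [CommRing F] (V : Ev B F) (c : F), V.Inv (z ^ k) → LZ H.up D k F V c →
    X.Cu V fun r => V.vol (rfC eps (B.q a) (g (X.x r))) (wd r) +
      c * ((eeC eps (g (X.y r)) : F) - (eeC eps (g (X.x r)) : F))

/-- `A` is closed under all inner moves on the strands `Y`. -/
def PlA (_H : HypC B a b eps D z k) (g : S → Q) (Y A : S → Prop) : Prop :=
  ∀ v v', Y v → Sh D (g v) (g v') → ∀ q ∈ SI B a b eps D z k,
    rfC eps (B.q a) (g v') = rfC eps (B.q a) (g v) * q → A v → A v'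

/-- A list of positions: every element of `mZ` occurs equally often, all pairs of letters, the empty position. -/
structure PosOk (H : HypC B a b eps D z k) {Pos : Type} [Fintype Pos] (ps : Pos → List (ℕ × B.L)) : Prop where
  card : Fintype.card Pos ≤ (1 + Nat.card B.L ^ 2) * k
  ok : ∀ c, VLs B a b D k (ps c)
  len : ∀ c, (ps c).length ≤ 2 * (k * (k + 1)) + 1
  emp : ∃ c, ps c = []
  one : ∀ p, Nr1 B a b D p → ∃ c, ∀ w, LW H.up k (ps c) True True w =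
    flat (p :: List.replicate (k - 1) (a, b)) ++ (w ++ B.rev (flat (p :: List.replicate (k - 1) (a, b))))
  cnt : ∃ q₀, 0 < q₀ ∧ ∀ m ∈ mZ B a b D z k, {c | mL (B.q a) (B.q b) (ps c) = m}.ncard = q₀

/-- A cross block: the cross rungs of `s`, every strand has `d` of them. -/
structure CrB (H : HypC B a b eps D z k) {g : S → Q} {inj : Function.Injective g} {R : Type}
    (X : ClsW H.up g inj (2 * k) R) (s : B.L) (n : ℤ) (M : Set Q) (Y₀ Y₁ : S → Prop) (wd : R → List B.L) (d h : ℕ) :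
    Prop where
  cls : ClsB H X (fun v => Y₀ v ∨ Y₁ v)
    (fun A => (∀ r, A (X.x r) ↔ A (X.y r)) ∧ PlA H g (fun v => Y₀ v ∨ Y₁ v) A) wd h
  cross : ∀ r, Crs H g s n M Y₀ Y₁ (X.x r) (X.y r) ∨ Crs H g s n M Y₀ Y₁ (X.y r) (X.x r)
  crs : ∀ v v', Crs H g s n M Y₀ Y₁ v v' → ∃ r, (X.x r = v ∧ X.y r = v') ∨ (X.x r = v' ∧ X.y r = v)
  crs0 : ∃ i j : ℕ, (j : ℤ) - i = n ∧ ∀ v, Y₀ v → ∀ e < 2, ∃ r,
    (X.x r = v ∧ wd r = CW H.up (i + e) (j + e) s) ∨ (X.y r = v ∧ wd r = B.rev (CW H.up (i + e) (j + e) s))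
  deg : ∀ v, Y₀ v ∨ Y₁ v → {r | v = X.x r ∨ v = X.y r}.ncard = d
  par : ∀ r, ¬ (Sh D (g (X.x r)) (g (X.y r)) ∧
    (rfC eps (B.q a) (g (X.x r)))⁻¹ * rfC eps (B.q a) (g (X.y r)) ∈ EI B a b eps D z k)

end rows

/-- The rungs of the inner block: rotation, position, level, strand. -/
abbrev RI {Q : Type} [Group Q] (B : Lb.{0, 0} Q) (eps : Q →* ℤˣ) (k : ℕ) (Pos : Type) {S : Type} (Y : S → Prop) : Type :=
  Σ _ : {t : B.L // eps (B.q t) = 1} × Pos, ZMod (2 * k) × {s // Y s}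

/-- The words of the inner block. -/
noncomputable def wdI {Q : Type} [Group Q] {B : Lb.{0, 0} Q} {a b : B.L} {eps : Q →* ℤˣ} {D : Subgroup Q} {z : Q} {k : ℕ}
    (H : HypC B a b eps D z k) {S : Type} (g : S → Q) {Pos : Type} (ps : Pos → List (ℕ × B.L)) {Y : S → Prop}
    (r : RI B eps k Pos Y) : List B.L :=
  LW H.up k (ps r.1.2) True True (PW H.up ((r.2.1.val + eeC eps (g r.2.2)) % (2 * k)) r.1.1
    ((r.2.1.val + eeC eps (g r.2.2)) % (2 * k)))

/-- LZA: good letters have the right means. -/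
def LzaS : Prop :=
  ∀ (Q : Type) [Group Q] [DecidableEq Q] (B : Lb.{0, 0} Q) (a b : B.L) (eps : Q →* ℤˣ) (D : Subgroup Q) (z : Q) (k : ℕ)
    (H : HypC B a b eps D z k) (F : Type) [Field F] (V : Vd B F) (u u' o : F), V.chi z = 1 →
    (∀ x, (evA V eps u u').e x (H.up.up x) = o) → GoodL a b D V → LZ H.up D k F (evA V eps u u') o

/-- POS: the positions. -/
def PosS : Prop :=
  ∀ (Q : Type) [Group Q] [DecidableEq Q] (B : Lb.{0, 0} Q) (a b : B.L) (eps : Q →* ℤˣ) (D : Subgroup Q) (z : Q) (k : ℕ)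
    (H : HypC B a b eps D z k), ∃ (Pos : Type) (_ : Fintype Pos) (ps : Pos → List (ℕ × B.L)), PosOk H ps

/-- INB: the inner block. -/
def InbS : Prop :=
  ∀ (S : Type) [Fintype S] (Q : Type) [Group Q] [DecidableEq Q] (B : Lb.{0, 0} Q) (a b : B.L)
    (eps : Q →* ℤˣ) (D : Subgroup Q) (z : Q) (k : ℕ) (H : HypC B a b eps D z k) (g : S → Q)
    (inj : Function.Injective g), DCl D g → ∀ Y : S → Prop, ShCl D g Y →
    ∀ (Pos : Type) [Fintype Pos] (ps : Pos → List (ℕ × B.L)), (∀ c, VLs B a b D k (ps c)) →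
    ∀ h₀, (∀ c, (ps c).length ≤ h₀) →
      ∃ X : ClsW H.up g inj (2 * k) (RI B eps k Pos Y),
        ClsB H X Y (fun A => ∀ r, A (X.x r) ↔ A (X.y r)) (wdI H g ps)
          (2 * k * (Fintype.card S) ^ 2 + 2 * k * k * h₀) ∧
        (∀ r, X.x r = r.2.2) ∧ (∀ r, Sh D (g (X.x r)) (g (X.y r))) ∧
        (∀ r : RI B eps k Pos Y, ∀ n : ℕ, (n : ZMod (2 * k)) = ((r.2.1.val + eeC eps (g r.2.2) : ℕ) : ZMod (2 * k)) →
          rfC eps (B.q a) (g (X.y r)) = rfC eps (B.q a) (g (X.x r)) *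
            ((mL (B.q a) (B.q b) (ps r.1.2) * uC (B.q a) (B.q b) n) * B.q r.1.1 *
              (mL (B.q a) (B.q b) (ps r.1.2) * uC (B.q a) (B.q b) n)⁻¹)) ∧
        (∀ r, (X.tau r).1 = r.1) ∧
        ∀ c v, Y v → {r | v = X.x ⟨c, r⟩ ∨ v = X.y ⟨c, r⟩}.ncard = 4 * k

/-- FSB: the cross block of a far reflection. -/
def FsbS : Prop :=
  ∀ (S : Type) [Fintype S] (Q : Type) [Group Q] [DecidableEq Q] (B : Lb.{0, 0} Q) (a b : B.L)
    (eps : Q →* ℤˣ) (D : Subgroup Q) (z : Q) (k : ℕ) (H : HypC B a b eps D z k) (g : S → Q)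
    (inj : Function.Injective g) (W N : ℕ), DCl D g → Dis H g W → 8 * k + 4 * N + 8 ≤ W →
    ∀ (Pos : Type) [Fintype Pos] (ps : Pos → List (ℕ × B.L)), PosOk H ps →
    ∀ (s : B.L) (n : ℤ) (v₀ y₀ : S), |n| ≤ N → eps (B.q s) = -1 → ¬ Sh D (g v₀) (g y₀) →
      (rfC eps (B.q a) (g v₀) * sg B a s)⁻¹ * (rfC eps (B.q a) (g y₀) * wC B a b ^ n) ∈ D →
      ∃ (R : Type) (_ : Fintype R) (X : ClsW H.up g inj (2 * k) R) (wd : R → List B.L),
        Fintype.card R ≤ 2 * Fintype.card Pos * (k * (2 * k)) ∧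
        CrB H X s n (mZ B a b D z k : Set Q) (fun v => Sh D (g v₀) (g v)) (fun v => Sh D (g y₀) (g v)) wd
          (2 * Fintype.card Pos * (2 * k))
          (2 * k * (Fintype.card S) ^ 2 + (4 * N + 5) + 2 * k * k * (2 * (k * (k + 1)) + 1))

/-- NDB: the cross block of a near effective reflection. -/
def NdbS : Prop :=
  ∀ (S : Type) [Fintype S] (Q : Type) [Group Q] [DecidableEq Q] (B : Lb.{0, 0} Q) (a b : B.L)
    (eps : Q →* ℤˣ) (D : Subgroup Q) (z : Q) (k : ℕ) (H : HypC B a b eps D z k) (g : S → Q)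
    (inj : Function.Injective g), DCl D g →
    ∀ (s : B.L) (n : ℤ) (v₀ : S), n = 0 ∨ n = -1 → eps (B.q s) = -1 →
      sg B a s * (wC B a b ^ n)⁻¹ ∈ D → sg B a s * (wC B a b ^ n)⁻¹ ∉ EI B a b eps D z k →
      ∃ (R : Type) (_ : Fintype R) (X : ClsW H.up g inj (2 * k) R) (wd : R → List B.L),
        Fintype.card R ≤ k * k * k ∧
        CrB H X s n {1} (fun v => Sh D (g v₀) (g v)) (fun v => Sh D (g v₀) (g v)) wd
          (2 * k * Nat.card (EI B a b eps D z k)) (2 * k * (Fintype.card S) ^ 2 + 1)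

/-- ASM: the family from the inner block (`c₁` copies) and a cross block (`c₂` copies). -/
def AsmS : Prop :=
  ∀ (S : Type) [Fintype S] [DecidableEq S] (Q : Type) [Group Q] [DecidableEq Q] (B : Lb.{0, 0} Q) (a b : B.L)
    (eps : Q →* ℤˣ) (D : Subgroup Q) (z : Q) (k : ℕ) (H : HypC B a b eps D z k) (g : S → Q)
    (inj : Function.Injective g), DCl D g → ∀ (Y₀ Y₁ : S → Prop), ShCl D g (fun v => Y₀ v ∨ Y₁ v) →
    ∀ (Pos : Type) [Fintype Pos] (ps : Pos → List (ℕ × B.L)), PosOk H ps →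
    ∀ (s : B.L) (n : ℤ) (M : Set Q) (R : Type) [Fintype R] (X : ClsW H.up g inj (2 * k) R) (wd : R → List B.L)
      (d h c₁ c₂ : ℕ), CrB H X s n M Y₀ Y₁ wd d h → 0 < c₁ → 0 < c₂ →
      c₁ * (4 * k * (Nat.card {t : B.L // eps (B.q t) = 1} * Fintype.card Pos)) = c₂ * d →
      2 * k * (Fintype.card S) ^ 2 + 2 * k * k * (2 * (k * (k + 1)) + 1) ≤ h →
      ∃ (R' : Type) (_ : Fintype R') (X' : ClsW H.up g inj (2 * k) R') (wd' : R' → List B.L) (In : R' → Prop),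
        Fintype.card R' = c₁ * (Nat.card {t : B.L // eps (B.q t) = 1} * Fintype.card Pos *
          (2 * k * Nat.card {v // Y₀ v ∨ Y₁ v})) + c₂ * Fintype.card R ∧
        FamX H g inj X' s n M Y₀ Y₁ wd' In h

end Pool.Agent.Lib.MP_688fd0_co.SQ4.CV
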