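import Pool.Agent.Lib.MP_688fd0_co.SQ4.H98.ShiftC

/-!
Type C1: vertical blocks with one letter in each period.
-/

set_option autoImplicit false

namespace Pool.Agent.Lib.MP_688fd0_co.SQ4

open Pool.Agent.Lib.MP_688fd0_co.OSF Pool.Agent.Lib.MP_688fd0_co.SQ2 Pool.Agent.Lib.MP_688fd0_co.SQ3
open SQ2.V (Puz Sub)

/-- The admissible letters at the reference level `n`. -/
def VL {Q : Type} [Group Q] (B : Lb.{0, 0} Q) (a b : B.L) (D : Subgroup Q) (n : ℕ) (l : B.L) : Prop :=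
  (if n % 2 = 0 then B.q a else (B.q b)⁻¹)⁻¹ * B.q l ∈ D

/-- The move of a letter at the reference level `n`. -/
def mvC {Q : Type} [Group Q] (α β : Q) (n : ℕ) (q : Q) : Q := uC α β n * q * (uC α β (n + 1))⁻¹

/-- The plain vertical voltages are `c`, the other vertical letters have the mean `c` in their periods. -/
def LZ {Q : Type} [Group Q] {B : Lb.{0, 0} Q} (U : Up B) (D : Subgroup Q) (k : ℕ) (F : Type) [CommRing F] (V : Ev B F)
    (c : F) : Prop :=
  (∀ x, V.e x (U.up x) = c) ∧ ∀ x l, Sh D (U.U x) (x * B.q l) →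
    ∑ i ∈ Finset.range k, V.e (x * (B.q l * (B.q (U.up x))⁻¹) ^ i) l = (k : F) * c

open Classical in
/-- The block of the letter `l` at the reference level `ν`, from the reference level 0; plain if not `c`. -/
noncomputable def LX {Q : Type} [Group Q] {B : Lb.{0, 0} Q} (U : Up B) (k : ℕ) (v : ℕ × B.L) (c : Prop) : List B.L :=
  if c then U.str v.1 1 ++ v.2 :: U.str (2 * k - 1 - v.1) (U.U ((U.U ^ v.1) 1)) else U.str (2 * k) 1

section

variable {Q : Type} [Group Q] {B : Lb.{0, 0} Q} {a b : B.L} {eps : Q →* ℤˣ} {D : Subgroup Q} {z : Q} {k : ℕ}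
  (H : HypC B a b eps D z k)

include H

omit H in
theorem length_str (U : Up B) (n : ℕ) (x : Q) : (U.str n x).length = n := by
  induction n generalizing x with
  | zero => rfl
  | succ n ih => rw [U.str_succ, List.length_cons, ih]

theorem str_par (n : ℕ) {x y : Q} (h : eps x = eps y) : H.up.str n x = H.up.str n y := by
  induction n generalizing x y with
  | zero => rfl
  | succ n ih =>
    rw [H.up.str_succ, H.up.str_succ]
    have h1 : H.up.up x = H.up.up y := by rw [H31.C_up H, H31.C_up H, h]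
    rw [h1, ih (x := H.up.U x) (y := H.up.U y) (by rw [H.up.hU, H.up.hU, map_mul, map_mul, h, h1])]

theorem mvC_mem {n : ℕ} {l : B.L} (h : VL B a b D n l) : mvC (B.q a) (B.q b) n (B.q l) ∈ D := by
  unfold VL at h
  unfold mvC
  have h1 : uC (B.q a) (B.q b) (n + 1) = uC (B.q a) (B.q b) n * (if n % 2 = 0 then B.q a else (B.q b)⁻¹) := rfl
  rw [h1]
  set s := (if n % 2 = 0 then B.q a else (B.q b)⁻¹)
  have h2 : uC (B.q a) (B.q b) n * B.q l * (uC (B.q a) (B.q b) n * s)⁻¹ =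
      (uC (B.q a) (B.q b) n * s) * (s⁻¹ * B.q l) * (uC (B.q a) (B.q b) n * s)⁻¹ := by group
  rw [h2]
  exact mem_conj H h _

theorem eps_U1 {x : Q} (hx : eps x = 1) (n : ℕ) : eps ((H.up.U ^ n) x) = 1 ↔ n % 2 = 0 := by
  rw [C_U_uC H hx]
  exact eps_uC H hx n

/-- The vertices in a period. -/
theorem U_per {x : Q} (n q : ℕ) : (H.up.U ^ (n + 2 * k * q)) x = z ^ (k * q) * (H.up.U ^ n) x := by
  rw [H.up.U_pow_add, C_pow_mul H]

theorem let_step {ρ : Q} (hρ : eps ρ = 1) {ν m q : ℕ} {l : B.L} (hl : VL B a b D ν l) (hm : m = ν + 2 * k * q) :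
    (H.up.U ^ m) ρ * B.q l = (H.up.U ^ (m + 1)) (ρ * mvC (B.q a) (B.q b) ν (B.q l)) := by
  have h1 : eps (ρ * mvC (B.q a) (B.q b) ν (B.q l)) = 1 := by
    rw [map_mul, hρ, one_mul]
    exact H.leD (mvC_mem H hl)
  rw [hm, show ν + 2 * k * q + 1 = ν + 1 + 2 * k * q by ring, U_per H, U_per H, C_U_uC H hρ, C_U_uC H h1]
  unfold mvC
  group

theorem let_fin {ρ : Q} (hρ : eps ρ = 1) {ν n d q : ℕ} {l : B.L} (hl : VL B a b D ν l) (hd : d < 2 * k)
    (hn : n + d = ν + 2 * k * q) :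
    B.fin ((H.up.U ^ n) ρ) (H.up.str d ((H.up.U ^ n) ρ) ++ l ::
      H.up.str (2 * k - 1 - d) (H.up.U ((H.up.U ^ d) ((H.up.U ^ n) ρ)))) =
      (H.up.U ^ (n + 2 * k)) (ρ * mvC (B.q a) (B.q b) ν (B.q l)) := by
  have hm := mvC_mem H hl
  have h1 : eps (H.up.U ((H.up.U ^ d) ((H.up.U ^ n) ρ))) =
      eps ((H.up.U ^ (n + d + 1)) (ρ * mvC (B.q a) (B.q b) ν (B.q l))) := by
    rw [← H.up.U_pow_add, ← H.up.U_pow_succ']
    exact (sh_eps H ((shuC H).pow _ (Sh.mul_mem _ hm))).symm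
  rw [str_par H _ h1, fin_append, H.up.fin_str, ← H.up.U_pow_add]
  show B.fin ((H.up.U ^ (n + d)) ρ * B.q l) _ = _
  rw [let_step H hρ hl hn, H.up.fin_str, ← H.up.U_pow_add]
  congr 2
  omega

theorem let_vol {F : Type} [CommRing F] {V : Ev B F} {c : F} (hV : V.Inv (z ^ k)) (hc : ∀ x, V.e x (H.up.up x) = c)
    {ρ : Q} (hρ : eps ρ = 1) {ν n d q : ℕ} {l : B.L} (hl : VL B a b D ν l) (hd : d < 2 * k)
    (hn : n + d = ν + 2 * k * q) :
    V.vol ((H.up.U ^ n) ρ) (H.up.str d ((H.up.U ^ n) ρ) ++ l ::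
      H.up.str (2 * k - 1 - d) (H.up.U ((H.up.U ^ d) ((H.up.U ^ n) ρ)))) =
      V.e ((H.up.U ^ ν) ρ) l + ((2 * k - 1 : ℕ) : F) * c := by
  classical
  have hm := mvC_mem H hl
  have h1 : eps (H.up.U ((H.up.U ^ d) ((H.up.U ^ n) ρ))) =
      eps ((H.up.U ^ (n + d + 1)) (ρ * mvC (B.q a) (B.q b) ν (B.q l))) := by
    rw [← H.up.U_pow_add, ← H.up.U_pow_succ']
    exact (sh_eps H ((shuC H).pow _ (Sh.mul_mem _ hm))).symm
  rw [str_par H _ h1, V.vol_append, H.up.fin_str, ← H.up.U_pow_add, vol_strC hc]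
  show _ + (V.e ((H.up.U ^ (n + d)) ρ) l + V.vol ((H.up.U ^ (n + d)) ρ * B.q l) _) = _
  rw [let_step H hρ hl hn, vol_strC hc, hn, U_per H, pow_mul, FamW.Inv_pow hV]
  obtain ⟨j, hj⟩ : ∃ j, 2 * k - 1 = d + j := ⟨2 * k - 1 - d, by omega⟩
  rw [hj, Nat.add_sub_cancel_left]
  push_cast
  ring

theorem let_vwd {ρ : Q} (hρ : eps ρ = 1) {ν n d q : ℕ} {l : B.L} (hl : VL B a b D ν l) (_hd : d < 2 * k)
    (hn : n + d = ν + 2 * k * q) :
    VWd H.up D ((H.up.U ^ n) ρ) (H.up.str d ((H.up.U ^ n) ρ) ++ l ::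
      H.up.str (2 * k - 1 - d) (H.up.U ((H.up.U ^ d) ((H.up.U ^ n) ρ)))) := by
  have hm := mvC_mem H hl
  have h1 : eps (H.up.U ((H.up.U ^ d) ((H.up.U ^ n) ρ))) =
      eps ((H.up.U ^ (n + d + 1)) (ρ * mvC (B.q a) (B.q b) ν (B.q l))) := by
    rw [← H.up.U_pow_add, ← H.up.U_pow_succ']
    exact (sh_eps H ((shuC H).pow _ (Sh.mul_mem _ hm))).symm
  rw [str_par H _ h1]
  refine VWd.append (VWd.str _ _ _ _) ?_
  rw [H.up.fin_str, ← H.up.U_pow_add]
  refine ⟨?_, ?_⟩
  · rw [let_step H hρ hl hn, ← H.up.U_pow_succ']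
    exact (shuC H).pow _ (Sh.mul_mem _ hm)
  · rw [let_step H hρ hl hn]
    exact VWd.str _ _ _ _

theorem U_rf_n (l : ℕ) (x : Q) : (H.up.U ^ l) x = (H.up.U ^ (eeC eps x + l)) (rfC eps (B.q a) x) := by
  rw [H.up.U_pow_add, U_rf H]

/-- The distance to the next level `ν` modulo `2 k`. -/
theorem exists_dist (ν n : ℕ) (hν : ν < 2 * k) : ∃ q, n + (ν + 2 * k * n - n) % (2 * k) = ν + 2 * k * q := by
  have hk := H.kpos
  set d := (ν + 2 * k * n - n) % (2 * k) with hd
  have h1 : d < 2 * k := Nat.mod_lt _ (by omega)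
  have h2 : 2 * k * ((ν + 2 * k * n - n) / (2 * k)) + d = ν + 2 * k * n - n := Nat.div_add_mod _ _
  set q' := (ν + 2 * k * n - n) / (2 * k)
  have h3 : n ≤ 2 * k * n := Nat.le_mul_of_pos_left n (by omega)
  have h4 : 2 * k * q' + (n + d) = ν + 2 * k * n := by omega
  have h5 : q' ≤ n := by
    by_contra hcon
    have h6 : 2 * k * (n + 1) ≤ 2 * k * q' := Nat.mul_le_mul_left _ (by omega)
    have h7 : 2 * k * (n + 1) = 2 * k * n + 2 * k := by ring
    omega
  obtain ⟨j, hj⟩ : ∃ j, n = q' + j := ⟨n - q', by omega⟩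
  refine ⟨j, ?_⟩
  have h6 : 2 * k * n = 2 * k * q' + 2 * k * j := by
    conv_lhs => rw [hj]
    ring
  omega

theorem LX_eq {ρ : Q} (hρ : eps ρ = 1) (v : ℕ × B.L) (c : Prop) [Decidable c] : LX H.up k v c =
    if c then H.up.str v.1 ((H.up.U ^ 0) ρ) ++ v.2 ::
      H.up.str (2 * k - 1 - v.1) (H.up.U ((H.up.U ^ v.1) ((H.up.U ^ 0) ρ))) else H.up.str (2 * k) ρ := by
  unfold LX
  have h1 : eps (1 : Q) = eps ρ := by rw [map_one, hρ]
  have h2 : ∀ n, eps ((H.up.U ^ n) (1 : Q)) = eps ((H.up.U ^ n) ρ) := by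
    intro n
    induction n with
    | zero => exact h1
    | succ n ih =>
      rw [H.up.U_pow_succ', H.up.U_pow_succ', H.up.hU, H.up.hU, map_mul, map_mul, ih, H31.C_up H, H31.C_up H, ih]
  have h3 : eps (H.up.U ((H.up.U ^ v.1) 1)) = eps (H.up.U ((H.up.U ^ v.1) ((H.up.U ^ 0) ρ))) := by
    rw [← H.up.U_pow_succ', ← H.up.U_pow_succ']
    exact h2 _
  split_ifs with h
  · rw [str_par H v.1 (show eps (1 : Q) = eps ((H.up.U ^ 0) ρ) from h1), str_par H _ h3]
  · exact str_par H _ h1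

end

section

variable {S : Type} {Q : Type} [Group Q] {B : Lb.{0, 0} Q} {U : Up B} {g : S → Q} {e : ℕ} {π : Equiv.Perm S}
  {p : ℕ → S → List B.L}

/-- Repeated blocks. -/
def itB (π : Equiv.Perm S) (e : ℕ) (p : ℕ → S → List B.L) : ℕ → ℕ → S → List B.L
  | 0, _, _ => []
  | j + 1, l, s => p l s ++ itB π e p j (l + e) (π s)

theorem itB_vbk [Fintype S] (hb : ∀ l, VBk U g l e π (p l)) (j : ℕ) :
    ∀ l, VBk U g l (e * j) (π ^ j) (itB π e p j l) := by
  induction j with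
  | zero => exact fun l => VBk.str U g l 0
  | succ j ih =>
    intro l
    have h := (hb l).comp (ih (l + e))
    rw [← pow_succ, show e + e * j = e * (j + 1) by ring] at h
    exact h

theorem itB_vol [Fintype S] (hb : ∀ l, VBk U g l e π (p l)) {F : Type} [CommRing F] {V : Ev B F} {f : S → F}
    (hv : ∀ l s, V.vol ((U.U ^ l) (g s)) (p l s) = f s) (j : ℕ) :
    ∀ l s, V.vol ((U.U ^ l) (g s)) (itB π e p j l s) = ∑ i ∈ Finset.range j, f ((π ^ i) s) := by
  induction j with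
  | zero => exact fun l s => rfl
  | succ j ih =>
    intro l s
    show V.vol _ (p l s ++ itB π e p j (l + e) (π s)) = _
    rw [V.vol_append, hv, (hb l).fin, ih, Finset.sum_range_succ', add_comm]
    rfl

end

section

variable {S : Type} [Fintype S] {Q : Type} [Group Q] {B : Lb.{0, 0} Q} {a b : B.L} {eps : Q →* ℤˣ} {D : Subgroup Q}
  {z : Q} {k : ℕ} (H : HypC B a b eps D z k) {g : S → Q}

include H

/-- The block of one letter on the sheets `Y`, and its way back. -/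
theorem exists_let (inj : Function.Injective g) (hg : DCl D g) {Y : S → Prop} (hY : ShCl D g Y) {v : ℕ × B.L}
    (hv : v.1 < 2 * k) (hl : VL B a b D v.1 v.2) :
    ∃ (π : Equiv.Perm S) (p p' : ℕ → S → List B.L),
      (∀ s, Y s → rfC eps (B.q a) (g (π s)) = rfC eps (B.q a) (g s) * mvC (B.q a) (B.q b) v.1 (B.q v.2)) ∧
      (∀ s, ¬ Y s → π s = s) ∧ (∀ s, Sh D (g s) (g (π s))) ∧
      (∀ l, VBk H.up g l (2 * k * 1) π (p l)) ∧ (∀ l, VBk H.up g l (2 * k * (k - 1)) π⁻¹ (p' l)) ∧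
      (∀ s, B.fin (rfC eps (B.q a) (g s)) (LX H.up k v (Y s)) = z ^ k * rfC eps (B.q a) (g (π s))) ∧
      ∀ (F : Type) [CommRing F] (V : Ev B F) (c : F), V.Inv (z ^ k) → LZ H.up D k F V c →
        (∀ l s, V.vol ((H.up.U ^ l) (g s)) (p l s) = V.vol (rfC eps (B.q a) (g s)) (LX H.up k v (Y s))) ∧
        ∀ l s, V.vol ((H.up.U ^ l) (g s)) (p' l s) = ((2 * k * (1 + (k - 1)) : ℕ) : F) * c -
          V.vol (rfC eps (B.q a) (g (π.symm s))) (LX H.up k v (Y (π.symm s))) := by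
  classical
  have hk := H.kpos
  set m := mvC (B.q a) (B.q b) v.1 (B.q v.2) with hm
  have hmD : m ∈ D := mvC_mem H hl
  let μ : S → Q := fun s => if Y s then m else 1
  have hμD : ∀ s, μ s ∈ D := fun s => by
    show (if Y s then m else 1) ∈ D
    split_ifs
    · exact hmD
    · exact D.one_mem
  have hYs : ∀ s s', Sh D (g s) (g s') → (Y s ↔ Y s') := fun s s' h => ⟨fun k => hY _ _ k h, fun k => hY _ _ k h.symm⟩
  have hμc : ∀ s s', Sh D (g s) (g s') → μ s = μ s' := fun s s' h => by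
    show (if Y s then m else 1) = (if Y s' then m else 1)
    rw [if_congr (hYs s s' h) rfl rfl]
  have hex : ∀ s, ∃ s', g s' = shf eps (B.q a) (μ s) (g s) := by
    intro s
    obtain ⟨δ, hδ, h⟩ := (sh_shf H (hμD s) (g s)).exists_mul
    rw [h]
    exact hg s δ hδ
  choose φ hφ using hex
  have hsh : ∀ s, Sh D (g s) (g (φ s)) := fun s => by rw [hφ]; exact sh_shf H (hμD s) _
  have hinj : Function.Injective φ := by
    intro s s' h
    have h1 : Sh D (g s) (g s') := (hsh s).trans (by rw [h]; exact (hsh s').symm)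
    have h2 := hφ s
    rw [h, hφ s', hμc s s' h1] at h2
    unfold shf at h2
    rw [sh_eps H h1] at h2
    split_ifs at h2 with h3
    · exact (inj (mul_right_cancel h2)).symm
    · exact (inj (mul_right_cancel h2)).symm
  let π : Equiv.Perm S := Equiv.ofBijective φ (Finite.injective_iff_bijective.1 hinj)
  have hπ : ∀ s, g (π s) = shf eps (B.q a) (μ s) (g s) := hφ
  have hπs : ∀ s, Sh D (g s) (g (π s)) := hsh
  have hπ1 : ∀ s, Y s → rfC eps (B.q a) (g (π s)) = rfC eps (B.q a) (g s) * m := fun s hs => by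
    rw [hπ, rf_shf H (hμD s)]
    show _ * (if Y s then m else 1) = _
    rw [if_pos hs]
  have hπ2 : ∀ s, ¬ Y s → π s = s := fun s hs => by
    apply inj
    rw [hπ]
    show shf eps (B.q a) (if Y s then m else 1) (g s) = _
    rw [if_neg hs, shf_one]
  have hρ : ∀ s, eps (rfC eps (B.q a) (g s)) = 1 := fun s => eps_rf H _
  -- the words
  let n : ℕ → S → ℕ := fun l s => eeC eps (g s) + l
  let d : ℕ → S → ℕ := fun l s => (v.1 + 2 * k * n l s - n l s) % (2 * k)
  have hd : ∀ l s, d l s < 2 * k := fun l s => Nat.mod_lt _ (by omega)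
  have hq : ∀ l s, ∃ q, n l s + d l s = v.1 + 2 * k * q := fun l s => exists_dist H v.1 _ hv
  let wd : ℕ → S → List B.L := fun l s => if Y s then
    H.up.str (d l s) ((H.up.U ^ n l s) (rfC eps (B.q a) (g s))) ++ v.2 ::
      H.up.str (2 * k - 1 - d l s) (H.up.U ((H.up.U ^ d l s) ((H.up.U ^ n l s) (rfC eps (B.q a) (g s))))) else
    H.up.str (2 * k) ((H.up.U ^ l) (g s))
  have hwd1 : ∀ l s, Y s → wd l s = H.up.str (d l s) ((H.up.U ^ n l s) (rfC eps (B.q a) (g s))) ++ v.2 ::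
      H.up.str (2 * k - 1 - d l s) (H.up.U ((H.up.U ^ d l s) ((H.up.U ^ n l s) (rfC eps (B.q a) (g s))))) :=
    fun l s hs => if_pos hs
  have hwd2 : ∀ l s, ¬ Y s → wd l s = H.up.str (2 * k) ((H.up.U ^ l) (g s)) := fun l s hs => if_neg hs
  have hx : ∀ l s, (H.up.U ^ l) (g s) = (H.up.U ^ n l s) (rfC eps (B.q a) (g s)) := fun l s => U_rf_n H l (g s)
  have hN : ∀ l s, (wd l s).length = 2 * k := by
    intro l s
    by_cases hs : Y s
    · rw [hwd1 l s hs, List.length_append, List.length_cons, length_str, length_str]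
      have := hd l s
      omega
    · rw [hwd2 l s hs, length_str]
  have hVW : ∀ l s, VWd H.up D ((H.up.U ^ l) (g s)) (wd l s) := by
    intro l s
    by_cases hs : Y s
    · obtain ⟨q, hq⟩ := hq l s
      rw [hwd1 l s hs, hx]
      exact let_vwd H (hρ s) hl (hd l s) hq
    · rw [hwd2 l s hs]
      exact VWd.str _ _ _ _
  have hfin : ∀ l s, B.fin ((H.up.U ^ l) (g s)) (wd l s) = (H.up.U ^ (l + 2 * k)) (g (π s)) := by
    intro l s
    by_cases hs : Y s
    · obtain ⟨q, hq⟩ := hq l s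
      rw [hwd1 l s hs, hx, let_fin H (hρ s) hl (hd l s) hq, U_rf_n H _ (g (π s)), hπ1 s hs, sh_ee H (hπs s)]
      show (H.up.U ^ (eeC eps (g s) + l + 2 * k)) _ = _
      rw [add_assoc]
    · rw [hwd2 l s hs, H.up.fin_str, ← H.up.U_pow_add, hπ2 s hs]
  have hsc : ∀ l s s', Sh D (g s) (g s') → wd l s = wd l s' := by
    intro l s s' h
    have e1 : n l s' = n l s := by
      show eeC eps (g s') + l = eeC eps (g s) + l
      rw [sh_ee H h]
    have e2 : d l s' = d l s := by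
      show (v.1 + 2 * k * n l s' - n l s') % (2 * k) = _
      rw [e1]
    have hU : ∀ j, eps ((H.up.U ^ j) (rfC eps (B.q a) (g s))) = eps ((H.up.U ^ j) (rfC eps (B.q a) (g s'))) := by
      intro j
      have h1 := eps_U1 H (hρ s) j
      have h2 := eps_U1 H (hρ s') j
      rcases Int.units_eq_one_or (eps ((H.up.U ^ j) (rfC eps (B.q a) (g s)))) with h3 | h3
      · rw [h3, h2.2 (h1.1 h3)]
      · rcases Int.units_eq_one_or (eps ((H.up.U ^ j) (rfC eps (B.q a) (g s')))) with h4 | h4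
        · rw [h1.2 (h2.1 h4)] at h3
          exact absurd h3 (by decide)
        · rw [h3, h4]
    by_cases hs : Y s
    · rw [hwd1 l s hs, hwd1 l s' ((hYs s s' h).1 hs), e1, e2, str_par H _ (hU (n l s)), ← H.up.U_pow_add,
        ← H.up.U_pow_succ', ← H.up.U_pow_add, ← H.up.U_pow_succ', str_par H _ (hU (n l s + d l s + 1))]
    · rw [hwd2 l s hs, hwd2 l s' (fun k => hs ((hYs s s' h).2 k)),
        str_par H _ (sh_eps H ((shuC H).pow l h)).symm]
  have hb : ∀ l, VBk H.up g l (2 * k) π (wd l) := by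
    intro l
    obtain ⟨π', h1, h2⟩ := exists_vbk inj (shuC H) hg _ l (wd l) (hN l) (hVW l) (hsc l)
    have h3 : π' = π := Equiv.ext fun s => inj ((H.up.U ^ (l + 2 * k)).injective (by rw [← h1.fin, hfin]))
    rw [← h3]
    exact h1
  have hsy : ∀ s, Y (π s) ↔ Y s := fun s => (hYs _ _ (hπs s)).symm
  have hpow : ∀ (i : ℕ) (s : S), Y s → Y ((π ^ i) s) ∧
      rfC eps (B.q a) (g ((π ^ i) s)) = rfC eps (B.q a) (g s) * m ^ i := by
    intro i
    induction i with
    | zero => exact fun s hs => ⟨hs, by rw [pow_zero, pow_zero, mul_one]; rfl⟩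
    | succ i ih =>
      intro s hs
      obtain ⟨h1, h2⟩ := ih s hs
      rw [pow_succ', Equiv.Perm.mul_apply]
      exact ⟨(hsy _).2 h1, by rw [hπ1 _ h1, h2, pow_succ, mul_assoc]⟩
  have hpow' : ∀ (i : ℕ) (s : S), ¬ Y s → (π ^ i) s = s := by
    intro i s hs
    induction i with
    | zero => rfl
    | succ i ih => rw [pow_succ, Equiv.Perm.mul_apply, hπ2 s hs, ih]
  have hmk : m ^ k = 1 := by
    have hf := H.fin
    obtain ⟨j, hj⟩ := H.card
    have h1 : (⟨m, hmD⟩ : D) ^ Nat.card D = 1 := pow_card_eq_one'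
    have h2 : m ^ Nat.card D = 1 := congrArg Subtype.val h1
    rw [hj, pow_mul, h2, one_pow]
  have hπk : π ^ k = 1 := by
    refine Equiv.ext fun s => ?_
    by_cases hs : Y s
    · obtain ⟨h1, h2⟩ := hpow k s hs
      rw [hmk, mul_one] at h2
      have h3 : ∀ j : ℕ, Sh D (g s) (g ((π ^ j) s)) := by
        intro j
        induction j with
        | zero => exact Sh.refl _
        | succ j ih => rw [pow_succ', Equiv.Perm.mul_apply]; exact ih.trans (hπs _)
      apply inj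
      have h4 := U_rf H (g ((π ^ k) s))
      rw [h2, sh_ee H (h3 k), U_rf H] at h4
      exact h4.symm
    · rw [hpow' k s hs]
      rfl
  have hπi : π ^ (k - 1) = π⁻¹ := by
    rw [eq_inv_iff_mul_eq_one, ← pow_succ, Nat.sub_add_cancel hk, hπk]
  have hLfin : ∀ s, B.fin (rfC eps (B.q a) (g s)) (LX H.up k v (Y s)) = z ^ k * rfC eps (B.q a) (g (π s)) := by
    intro s
    rw [LX_eq H (hρ s)]
    split_ifs with hs
    · have h1 := let_fin H (hρ s) hl hv (show 0 + v.1 = v.1 + 2 * k * 0 by ring)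
      rw [hπ1 s hs]
      refine h1.trans ?_
      rw [zero_add, H31.C_U_2k H]
    · rw [H.up.fin_str, H31.C_U_2k H, hπ2 s hs]
  refine ⟨π, wd, fun l s => itB π (2 * k) wd (k - 1) l s, hπ1, hπ2, hπs, fun l => by rw [mul_one]; exact hb l,
    fun l => by rw [← hπi]; exact itB_vbk hb (k - 1) l, hLfin, fun F _ V c hV hz => ?_⟩
  have hL1 : ∀ s, Y s → V.vol (rfC eps (B.q a) (g s)) (LX H.up k v (Y s)) =
      V.e ((H.up.U ^ v.1) (rfC eps (B.q a) (g s))) v.2 + ((2 * k - 1 : ℕ) : F) * c := by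
    intro s hs
    rw [LX_eq H (hρ s), if_pos hs]
    exact let_vol H hV hz.1 (hρ s) hl hv (show 0 + v.1 = v.1 + 2 * k * 0 by ring)
  have hL2 : ∀ s, ¬ Y s → V.vol (rfC eps (B.q a) (g s)) (LX H.up k v (Y s)) = ((2 * k : ℕ) : F) * c := by
    intro s hs
    rw [LX_eq H (hρ s), if_neg hs, vol_strC hz.1]
  have hvol : ∀ l s, V.vol ((H.up.U ^ l) (g s)) (wd l s) = V.vol (rfC eps (B.q a) (g s)) (LX H.up k v (Y s)) := by
    intro l s
    by_cases hs : Y s
    · obtain ⟨q, hq⟩ := hq l s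
      rw [hwd1 l s hs, hx, let_vol H hV hz.1 (hρ s) hl (hd l s) hq, hL1 s hs]
    · rw [hwd2 l s hs, vol_strC hz.1, hL2 s hs]
  have hsum : ∀ s, ∑ i ∈ Finset.range k, V.vol (rfC eps (B.q a) (g ((π ^ i) s))) (LX H.up k v (Y ((π ^ i) s))) =
      ((2 * k * k : ℕ) : F) * c := by
    intro s
    by_cases hs : Y s
    · have h1 : ∀ i, V.vol (rfC eps (B.q a) (g ((π ^ i) s))) (LX H.up k v (Y ((π ^ i) s))) =
          V.e ((H.up.U ^ v.1) (rfC eps (B.q a) (g s)) *
            (B.q v.2 * (B.q (H.up.up ((H.up.U ^ v.1) (rfC eps (B.q a) (g s)))))⁻¹) ^ i) v.2 +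
            ((2 * k - 1 : ℕ) : F) * c := by
        intro i
        obtain ⟨h1, h2⟩ := hpow i s hs
        rw [hL1 _ h1, h2]
        congr 2
        have h3 : eps (rfC eps (B.q a) (g s) * m ^ i) = 1 := by
          rw [map_mul, map_pow, hρ s, (show eps m = 1 from H.leD hmD), one_pow, one_mul]
        have h4 : B.q (H.up.up ((H.up.U ^ v.1) (rfC eps (B.q a) (g s)))) =
            (uC (B.q a) (B.q b) v.1)⁻¹ * uC (B.q a) (B.q b) (v.1 + 1) := by
          have h5 := H.up.hU ((H.up.U ^ v.1) (rfC eps (B.q a) (g s)))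
          rw [← H.up.U_pow_succ', C_U_uC H (hρ s), C_U_uC H (hρ s), mul_assoc] at h5
          have h6 := mul_left_cancel h5
          rw [C_U_uC H (hρ s), h6]
          group
        rw [h4, C_U_uC H h3, C_U_uC H (hρ s)]
        have h7 : B.q v.2 * ((uC (B.q a) (B.q b) v.1)⁻¹ * uC (B.q a) (B.q b) (v.1 + 1))⁻¹ =
            (uC (B.q a) (B.q b) v.1)⁻¹ * m * uC (B.q a) (B.q b) v.1 := by
          rw [hm]
          unfold mvC
          group
        have h8 : ((uC (B.q a) (B.q b) v.1)⁻¹ * m * uC (B.q a) (B.q b) v.1) ^ i =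
            (uC (B.q a) (B.q b) v.1)⁻¹ * m ^ i * uC (B.q a) (B.q b) v.1 := by
          have := conj_pow (i := i) (a := (uC (B.q a) (B.q b) v.1)⁻¹) (b := m)
          rw [inv_inv] at this
          exact this
        rw [h7, h8]
        group
      rw [Finset.sum_congr rfl fun i _ => h1 i, Finset.sum_add_distrib, Finset.sum_const, Finset.card_range,
        nsmul_eq_mul, hz.2]
      · have h2 : 2 * k * k = k * (2 * k - 1) + k := by
          obtain ⟨j, hj⟩ : ∃ j, 2 * k = j + 1 := ⟨2 * k - 1, by omega⟩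
          rw [hj, Nat.add_sub_cancel]
          ring
        rw [h2]
        push_cast
        ring
      · have h2 := let_step H (hρ s) hl (show v.1 = v.1 + 2 * k * 0 by ring)
        rw [h2, ← H.up.U_pow_succ']
        exact (shuC H).pow _ (Sh.mul_mem _ hmD)
    · have h1 : ∀ i, V.vol (rfC eps (B.q a) (g ((π ^ i) s))) (LX H.up k v (Y ((π ^ i) s))) =
          ((2 * k : ℕ) : F) * c := by
        intro i
        rw [hpow' i s hs]
        exact hL2 s hs
      rw [Finset.sum_congr rfl fun i _ => h1 i, Finset.sum_const, Finset.card_range, nsmul_eq_mul]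
      push_cast
      ring
  refine ⟨hvol, fun l s => ?_⟩
  rw [itB_vol hb hvol]
  have h1 := hsum (π.symm s)
  have h2 : 1 + (k - 1) = k := by omega
  rw [h2, ← h1]
  have h3 : Finset.range k = Finset.range (k - 1 + 1) := by rw [Nat.sub_add_cancel hk]
  rw [h3, Finset.sum_range_succ']
  have h4 : ∀ i, (π ^ (i + 1)) (π.symm s) = (π ^ i) s := by
    intro i
    rw [pow_succ, Equiv.Perm.mul_apply, Equiv.apply_symm_apply]
  simp only [h4]
  rw [pow_zero]
  show _ = _ + V.vol (rfC eps (B.q a) (g (π.symm s))) (LX H.up k v (Y (π.symm s))) - _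
  ring

end

end Pool.Agent.Lib.MP_688fd0_co.SQ4
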